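import Mathlib
import Pool.Agent.H238R3.UL.Poly

set_option autoImplicit false

/-!
# The criterion of Weyl, uniformly in the sequence
-/

namespace Pool.Agent.Q259.LU

open Finset MeasureTheory Pool.Agent.H332R2.Lit

/-- uniform equidistribution tested by one continuous function -/
def EQ (g : C(UnitAddCircle, ℂ)) : Prop := ∀ ε : ℝ, 0 < ε → ∃ M₀ : ℕ, ∃ δ : ℝ, 0 < δ ∧
  ∀ (n : ℕ) (φ : ℕ → ℝ), (∀ m ∈ Icc 1 M₀, ‖∑ i ∈ range n, e ((m : ℝ) * φ i)‖ ≤ δ * n) →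
    ‖∑ i ∈ range n, g ((φ i : ℝ) : UnitAddCircle) - n * ∫ t, g t‖ ≤ ε * n

lemma vol_eq : (volume : Measure UnitAddCircle) = AddCircle.haarAddCircle := by
  rw [AddCircle.volume_eq_smul_haarAddCircle]
  simp

lemma int_fourier (m : ℤ) : ∫ t : UnitAddCircle, (fourier m t : ℂ) = if m = 0 then 1 else 0 := by
  have h := congrFun (fourierCoeff_fourier (T := (1 : ℝ)) m) 0
  rw [fourierCoeff] at h
  simp only [neg_zero, fourier_zero, one_smul] at h
  rw [vol_eq, h, Pi.single_apply]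
  by_cases hm : m = 0
  · simp [hm]
  · rw [if_neg hm, if_neg (Ne.symm hm)]

lemma fourier_e (m : ℕ) (x : ℝ) : (fourier (m : ℤ) (x : UnitAddCircle) : ℂ) = e ((m : ℝ) * x) := by
  rw [fourier_coe_apply, e]
  congr 1
  push_cast
  ring

lemma fourier_neg_e (m : ℕ) (x : ℝ) :
    (fourier (-(m : ℤ)) (x : UnitAddCircle) : ℂ) = (starRingEnd ℂ) (e ((m : ℝ) * x)) := by
  rw [← fourier_e, fourier_neg]

lemma EQ_fourier (m : ℤ) : EQ (fourier m) := by
  intro ε hε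
  refine ⟨m.natAbs, ε, hε, fun n φ h => ?_⟩
  rw [int_fourier]
  by_cases hm : m = 0
  · subst hm
    simp only [fourier_zero, sum_const, card_range, nsmul_eq_mul, if_true]
    rw [sub_self, norm_zero]
    positivity
  · rw [if_neg hm, mul_zero, sub_zero]
    have h1 := h m.natAbs (by rw [mem_Icc]; exact ⟨by omega, le_rfl⟩)
    rcases Int.natAbs_eq m with h2 | h2
    · rw [h2]
      simp only [fourier_e]
      exact h1
    · rw [h2]
      simp only [fourier_neg_e]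
      rw [← map_sum, RCLike.norm_conj]
      simpa using h1

lemma cint (g : C(UnitAddCircle, ℂ)) : Integrable (fun t => g t) (volume : Measure UnitAddCircle) :=
  g.continuous.integrable_of_hasCompactSupport (HasCompactSupport.of_compactSpace _)

lemma EQ_add {f g : C(UnitAddCircle, ℂ)} (hf : EQ f) (hg : EQ g) : EQ (f + g) := by
  intro ε hε
  obtain ⟨M1, d1, hd1, h1⟩ := hf (ε / 2) (by positivity)
  obtain ⟨M2, d2, hd2, h2⟩ := hg (ε / 2) (by positivity)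
  refine ⟨max M1 M2, min d1 d2, lt_min hd1 hd2, fun n φ h => ?_⟩
  have a1 := h1 n φ (fun m hm => (h m (by rw [mem_Icc] at hm ⊢; exact ⟨hm.1, hm.2.trans (le_max_left _ _)⟩)).trans
    (mul_le_mul_of_nonneg_right (min_le_left _ _) (Nat.cast_nonneg _)))
  have a2 := h2 n φ (fun m hm => (h m (by rw [mem_Icc] at hm ⊢; exact ⟨hm.1, hm.2.trans (le_max_right _ _)⟩)).trans
    (mul_le_mul_of_nonneg_right (min_le_right _ _) (Nat.cast_nonneg _)))
  have e1 : ∫ t, (f + g) t = (∫ t, f t) + ∫ t, g t := by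
    simp only [ContinuousMap.add_apply]
    exact integral_add (cint f) (cint g)
  have e2 : ∑ i ∈ range n, (f + g) ((φ i : ℝ) : UnitAddCircle) - n * ∫ t, (f + g) t =
      (∑ i ∈ range n, f ((φ i : ℝ) : UnitAddCircle) - n * ∫ t, f t) +
      (∑ i ∈ range n, g ((φ i : ℝ) : UnitAddCircle) - n * ∫ t, g t) := by
    rw [e1]
    simp only [ContinuousMap.add_apply, sum_add_distrib]
    ring
  rw [e2]
  refine (norm_add_le _ _).trans ?_
  linarith

lemma EQ_smul {f : C(UnitAddCircle, ℂ)} (hf : EQ f) (c : ℂ) : EQ (c • f) := by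
  intro ε hε
  obtain ⟨M1, d1, hd1, h1⟩ := hf (ε / (‖c‖ + 1)) (by positivity)
  refine ⟨M1, d1, hd1, fun n φ h => ?_⟩
  have a1 := h1 n φ h
  have e2 : ∑ i ∈ range n, (c • f) ((φ i : ℝ) : UnitAddCircle) - n * ∫ t, (c • f) t =
      c * (∑ i ∈ range n, f ((φ i : ℝ) : UnitAddCircle) - n * ∫ t, f t) := by
    simp only [ContinuousMap.smul_apply, smul_eq_mul]
    rw [integral_const_mul, mul_sub, mul_sum]
    ring
  rw [e2, norm_mul]
  calc ‖c‖ * ‖∑ i ∈ range n, f ((φ i : ℝ) : UnitAddCircle) - n * ∫ t, f t‖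
      ≤ (‖c‖ + 1) * (ε / (‖c‖ + 1) * n) :=
        mul_le_mul (by linarith) a1 (norm_nonneg _) (by positivity)
    _ = ε * n := by field_simp

lemma EQ_zero : EQ 0 := by
  intro ε hε
  refine ⟨0, 1, one_pos, fun n φ _ => ?_⟩
  simp only [ContinuousMap.zero_apply, sum_const_zero, integral_zero, mul_zero, sub_zero, norm_zero]
  positivity

lemma EQ_lim {g : C(UnitAddCircle, ℂ)} (h : ∀ ε : ℝ, 0 < ε → ∃ f, EQ f ∧ ‖g - f‖ ≤ ε) : EQ g := by
  intro ε hε
  obtain ⟨f, hf, hfg⟩ := h (ε / 3) (by positivity)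
  obtain ⟨M1, d1, hd1, h1⟩ := hf (ε / 3) (by positivity)
  refine ⟨M1, d1, hd1, fun n φ hh => ?_⟩
  have a1 := h1 n φ hh
  have hpt : ∀ t, ‖g t - f t‖ ≤ ε / 3 := fun t => ((g - f).norm_coe_le_norm t).trans hfg
  have b1 : ‖∑ i ∈ range n, (g ((φ i : ℝ) : UnitAddCircle) - f ((φ i : ℝ) : UnitAddCircle))‖ ≤ n * (ε / 3) := by
    refine (norm_sum_le _ _).trans ?_
    refine (sum_le_sum fun i _ => hpt _).trans ?_
    rw [sum_const, card_range, nsmul_eq_mul]
  have b2 : ‖(∫ t, g t) - ∫ t, f t‖ ≤ ε / 3 := by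
    rw [← integral_sub (cint g) (cint f)]
    refine (norm_integral_le_integral_norm _).trans ?_
    have h3 : ∫ t : UnitAddCircle, ‖g t - f t‖ ≤ ∫ _t : UnitAddCircle, (ε / 3) := by
      refine integral_mono ((cint g).sub (cint f)).norm (integrable_const _) fun t => hpt t
    refine h3.trans ?_
    rw [integral_const, Measure.real, AddCircle.measure_univ]
    simp
  have e2 : ∑ i ∈ range n, g ((φ i : ℝ) : UnitAddCircle) - n * ∫ t, g t =
      (∑ i ∈ range n, f ((φ i : ℝ) : UnitAddCircle) - n * ∫ t, f t) +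
      (∑ i ∈ range n, (g ((φ i : ℝ) : UnitAddCircle) - f ((φ i : ℝ) : UnitAddCircle))) -
      n * ((∫ t, g t) - ∫ t, f t) := by
    rw [sum_sub_distrib]
    ring
  rw [e2]
  refine (norm_sub_le _ _).trans ?_
  refine (add_le_add (norm_add_le _ _) le_rfl).trans ?_
  rw [norm_mul, Complex.norm_natCast]
  have : (n : ℝ) * ‖(∫ t, g t) - ∫ t, f t‖ ≤ n * (ε / 3) := mul_le_mul_of_nonneg_left b2 (Nat.cast_nonneg _)
  linarith

theorem EQ_all (g : C(UnitAddCircle, ℂ)) : EQ g := by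
  have hspan : ∀ f ∈ Submodule.span ℂ (Set.range (@fourier (1 : ℝ))), EQ f := by
    intro f hf
    induction hf using Submodule.span_induction with
    | mem x hx => obtain ⟨m, rfl⟩ := hx; exact EQ_fourier m
    | zero => exact EQ_zero
    | add x y _ _ hx hy => exact EQ_add hx hy
    | smul a x _ hx => exact EQ_smul hx a
  have hg : g ∈ (Submodule.span ℂ (Set.range (@fourier (1 : ℝ)))).topologicalClosure := by
    rw [span_fourier_closure_eq_top]
    trivial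
  refine EQ_lim fun ε hε => ?_
  have h1 : g ∈ closure ((Submodule.span ℂ (Set.range (@fourier (1 : ℝ))) : Set C(UnitAddCircle, ℂ))) := hg
  obtain ⟨f, hf, hd⟩ := Metric.mem_closure_iff.mp h1 ε hε
  refine ⟨f, hspan f hf, ?_⟩
  rw [← dist_eq_norm]
  exact hd.le

/-- the test function `|Re (ω (F - c))|` -/
noncomputable def tst (F : C(UnitAddCircle, ℂ)) (c ω : ℂ) : C(UnitAddCircle, ℂ) where
  toFun t := ((|(ω * (F t - c)).re| : ℝ) : ℂ)
  continuous_toFun := by fun_prop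

lemma crit_one (F : C(UnitAddCircle, ℂ)) (c ω : ℂ) (κ : ℝ) (hκ : ∫ t : UnitAddCircle, |(ω * (F t - c)).re| ≤ κ)
    (ε : ℝ) (hε : 0 < ε) : ∃ M₀ : ℕ, ∃ δ : ℝ, 0 < δ ∧
  ∀ (n : ℕ) (φ : ℕ → ℝ), (∀ m ∈ Icc 1 M₀, ‖∑ i ∈ range n, e ((m : ℝ) * φ i)‖ ≤ δ * n) →
    ∑ i ∈ range n, |(ω * (F ((φ i : ℝ) : UnitAddCircle) - c)).re| ≤ (κ + ε) * n := by
  obtain ⟨M₀, δ, hδ, h⟩ := EQ_all (tst F c ω) ε hε
  refine ⟨M₀, δ, hδ, fun n φ hh => ?_⟩
  have h1 := h n φ hh
  have e1 : ∑ i ∈ range n, (tst F c ω) ((φ i : ℝ) : UnitAddCircle) =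
      ((∑ i ∈ range n, |(ω * (F ((φ i : ℝ) : UnitAddCircle) - c)).re| : ℝ) : ℂ) := by
    push_cast
    rfl
  have e2 : ∫ t, (tst F c ω) t = ((∫ t : UnitAddCircle, |(ω * (F t - c)).re| : ℝ) : ℂ) := by
    rw [← integral_complex_ofReal]
    rfl
  rw [e1, e2] at h1
  have h2 : ‖((∑ i ∈ range n, |(ω * (F ((φ i : ℝ) : UnitAddCircle) - c)).re| : ℝ) : ℂ) -
      n * ((∫ t : UnitAddCircle, |(ω * (F t - c)).re| : ℝ) : ℂ)‖ =
      abs ((∑ i ∈ range n, |(ω * (F ((φ i : ℝ) : UnitAddCircle) - c)).re|) -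
        n * (∫ t : UnitAddCircle, |(ω * (F t - c)).re|)) := by
    rw [← Complex.ofReal_natCast, ← Complex.ofReal_mul, ← Complex.ofReal_sub, Complex.norm_real, Real.norm_eq_abs]
  rw [h2] at h1
  have h3 := (abs_le.mp h1).2
  have h4 : (n : ℝ) * ∫ t : UnitAddCircle, |(ω * (F t - c)).re| ≤ n * κ :=
    mul_le_mul_of_nonneg_left hκ (Nat.cast_nonneg _)
  linarith

/-- **the criterion**: if the exponential sums of the first multiples are small, all real parts have mean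
at most `κ + ε`, uniformly in the phase `ω` -/
theorem crit (F : C(UnitAddCircle, ℂ)) (c : ℂ) (κ : ℝ)
    (hκ : ∀ ω : ℂ, ‖ω‖ = 1 → ∫ t : UnitAddCircle, |(ω * (F t - c)).re| ≤ κ) (ε : ℝ) (hε : 0 < ε) :
    ∃ M₀ : ℕ, ∃ δ : ℝ, 0 < δ ∧ ∀ (n : ℕ) (φ : ℕ → ℝ),
      (∀ m ∈ Icc 1 M₀, ‖∑ i ∈ range n, e ((m : ℝ) * φ i)‖ ≤ δ * n) → ∀ ω : ℂ, ‖ω‖ = 1 →
      ∑ i ∈ range n, |(ω * (F ((φ i : ℝ) : UnitAddCircle) - c)).re| ≤ (κ + ε) * n := by
  have hC : 0 < ‖F‖ + ‖c‖ + 1 := by positivity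
  set C := ‖F‖ + ‖c‖ + 1 with hCdef
  -- a finite net of the unit circle
  have hcomp : IsCompact (Metric.sphere (0 : ℂ) 1) := isCompact_sphere _ _
  obtain ⟨S, hS1, hS2, hS3⟩ := hcomp.finite_cover_balls (e := ε / (2 * C)) (by positivity)
  have key : ∀ ω : ℂ, ω ∈ S → ∃ M₀ : ℕ, ∃ δ : ℝ, 0 < δ ∧
      ∀ (n : ℕ) (φ : ℕ → ℝ), (∀ m ∈ Icc 1 M₀, ‖∑ i ∈ range n, e ((m : ℝ) * φ i)‖ ≤ δ * n) →
      ∑ i ∈ range n, |(ω * (F ((φ i : ℝ) : UnitAddCircle) - c)).re| ≤ (κ + ε / 2) * n := by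
    intro ω hω
    have h1 := hS1 hω
    rw [mem_sphere_zero_iff_norm] at h1
    exact crit_one F c ω κ (hκ ω h1) (ε / 2) (by positivity)
  choose! M d hd hMd using key
  refine ⟨hS2.toFinset.sup M, hS2.toFinset.inf' ?_ d, ?_, ?_⟩
  · have h1 : (1 : ℂ) ∈ Metric.sphere (0 : ℂ) 1 := by simp
    obtain ⟨s, hs, -⟩ := Set.mem_iUnion₂.mp (hS3 h1)
    exact ⟨s, by simpa using hs⟩
  · rw [Finset.lt_inf'_iff]
    intro s hs
    exact hd s (by simpa using hs)
  · intro n φ h ω hω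
    have h1 : ω ∈ Metric.sphere (0 : ℂ) 1 := by simpa using hω
    obtain ⟨s, hs, hsω⟩ := Set.mem_iUnion₂.mp (hS3 h1)
    have hsf : s ∈ hS2.toFinset := by simpa using hs
    have h2 := hMd s hs n φ (fun m hm => (h m (by
      rw [mem_Icc] at hm ⊢
      exact ⟨hm.1, hm.2.trans (Finset.le_sup hsf)⟩)).trans
      (mul_le_mul_of_nonneg_right (Finset.inf'_le _ hsf) (Nat.cast_nonneg _)))
    have h3 : ∀ i ∈ range n, |(ω * (F ((φ i : ℝ) : UnitAddCircle) - c)).re| ≤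
        |(s * (F ((φ i : ℝ) : UnitAddCircle) - c)).re| + ε / 2 := by
      intro i _
      have e1 : ω * (F ((φ i : ℝ) : UnitAddCircle) - c) = s * (F ((φ i : ℝ) : UnitAddCircle) - c) +
          (ω - s) * (F ((φ i : ℝ) : UnitAddCircle) - c) := by ring
      rw [e1, Complex.add_re]
      refine (abs_add_le _ _).trans (add_le_add le_rfl ?_)
      refine (Complex.abs_re_le_norm _).trans ?_
      rw [norm_mul]
      have b1 : ‖ω - s‖ ≤ ε / (2 * C) := by
        rw [← dist_eq_norm]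
        exact (Metric.mem_ball.mp hsω).le
      have b2 : ‖F ((φ i : ℝ) : UnitAddCircle) - c‖ ≤ C := by
        refine (norm_sub_le _ _).trans ?_
        have := F.norm_coe_le_norm ((φ i : ℝ) : UnitAddCircle)
        rw [hCdef]
        linarith
      calc ‖ω - s‖ * ‖F ((φ i : ℝ) : UnitAddCircle) - c‖ ≤ ε / (2 * C) * C :=
            mul_le_mul b1 b2 (norm_nonneg _) (by positivity)
        _ = ε / 2 := by field_simp
    refine (sum_le_sum h3).trans ?_
    rw [sum_add_distrib, sum_const, card_range, nsmul_eq_mul]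
    linarith

end Pool.Agent.Q259.LU
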