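import Mathlib

set_option autoImplicit false

/-!
# Autocorrelations of functions on cyclic groups of prime order
-/

namespace Pool.Agent.Q259.LU

open Finset
open scoped Pointwise

lemma tangent (k : ℕ) (hk : 1 ≤ k) (X Y : ℝ) :
    X ^ (2 * k) + 2 * k * X ^ (2 * k - 1) * (Y - X) ≤ Y ^ (2 * k) := by
  by_cases hX : X = 0
  · subst hX
    have h1 : (0 : ℝ) ^ (2 * k) = 0 := zero_pow (by omega)
    have h2 : (0 : ℝ) ^ (2 * k - 1) = 0 := zero_pow (by omega)
    rw [h1, h2]
    have : 0 ≤ Y ^ (2 * k) := (even_two_mul k).pow_nonneg Y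
    linarith
  · have hXn : 0 < X ^ (2 * k) := (even_two_mul k).pow_pos hX
    set a : ℝ := Y / X - 1 with ha
    have hY : Y = X * (1 + a) := by rw [ha]; field_simp; ring
    have h1 : 1 + ((2 * k : ℕ) : ℝ) * a ≤ (1 + a) ^ (2 * k) := by
      by_cases hc : -2 ≤ a
      · exact one_add_mul_le_pow hc _
      · push Not at hc
        have h2 : 0 ≤ (1 + a) ^ (2 * k) := (even_two_mul k).pow_nonneg _
        have h3 : (2 : ℝ) ≤ ((2 * k : ℕ) : ℝ) := by
          have : 2 ≤ 2 * k := by omega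
          exact_mod_cast this
        nlinarith
    have h2 : X ^ (2 * k - 1) * X = X ^ (2 * k) := by
      rw [← pow_succ]; congr 1; omega
    calc X ^ (2 * k) + 2 * k * X ^ (2 * k - 1) * (Y - X)
        = X ^ (2 * k) * (1 + ((2 * k : ℕ) : ℝ) * a) := by
          rw [hY]
          have : 2 * (k : ℝ) * X ^ (2 * k - 1) * (X * (1 + a) - X) = (X ^ (2 * k - 1) * X) * (2 * k * a) := by ring
          rw [this, h2]
          push_cast
          ring
      _ ≤ X ^ (2 * k) * (1 + a) ^ (2 * k) := mul_le_mul_of_nonneg_left h1 hXn.le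
      _ = Y ^ (2 * k) := by rw [hY, mul_pow]

lemma pow_sub_le (n : ℕ) (x y : ℝ) (hx : |x| ≤ 1) (hy : |y| ≤ 1) : |x ^ n - y ^ n| ≤ n * |x - y| := by
  induction n with
  | zero => simp
  | succ n ih =>
    have h1 : x ^ (n + 1) - y ^ (n + 1) = x * (x ^ n - y ^ n) + (x - y) * y ^ n := by ring
    rw [h1]
    refine (abs_add_le _ _).trans ?_
    rw [abs_mul, abs_mul, abs_pow]
    have h2 : |y| ^ n ≤ 1 := pow_le_one₀ (abs_nonneg _) hy
    have h3 := abs_nonneg (x ^ n - y ^ n)
    have h4 := abs_nonneg (x - y)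
    push_cast
    nlinarith [mul_le_mul_of_nonneg_right hx h3, mul_le_mul_of_nonneg_left h2 h4]

lemma pow_step (a : ℝ) (ha : 0 ≤ a) (n : ℕ) : a ^ (n + 1) + (n + 1) * a ^ n ≤ (a + 1) ^ (n + 1) := by
  induction n with
  | zero => simp
  | succ n ih =>
    have h1 : (a + 1) ^ (n + 1 + 1) = (a + 1) * (a + 1) ^ (n + 1) := by ring
    rw [h1]
    have h2 : (a + 1) * (a ^ (n + 1) + (n + 1) * a ^ n) ≤ (a + 1) * (a + 1) ^ (n + 1) :=
      mul_le_mul_of_nonneg_left ih (by positivity)
    refine le_trans ?_ h2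
    have h3 : 0 ≤ ((n : ℝ) + 1) * a ^ n := by positivity
    have h4 : (a + 1) * (a ^ (n + 1) + (n + 1) * a ^ n) =
        a ^ (n + 1 + 1) + ((n + 1 : ℝ) + 1) * a ^ (n + 1) + ((n : ℝ) + 1) * a ^ n := by ring
    rw [h4]
    push_cast
    linarith

lemma sum_pow_le (r M : ℕ) : ∑ j ∈ range M, ((j : ℝ) + 1) ^ r ≤ (M : ℝ) ^ (r + 1) / (r + 1) + (M : ℝ) ^ r := by
  induction M with
  | zero =>
    simp only [range_zero, sum_empty, Nat.cast_zero]
    positivity
  | succ M ih =>
    rw [sum_range_succ]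
    have h1 := pow_step (M : ℝ) (Nat.cast_nonneg _) r
    have h2 : (0 : ℝ) < (r : ℝ) + 1 := by positivity
    have h3 : (M : ℝ) ^ (r + 1) / (r + 1) + (M : ℝ) ^ r ≤ ((M : ℝ) + 1) ^ (r + 1) / (r + 1) := by
      rw [le_div_iff₀ h2, add_mul, div_mul_cancel₀ _ h2.ne']
      linarith
    push_cast
    linarith

lemma riemann (M k : ℕ) (hk : 1 ≤ k) (hM : 1 ≤ M) :
    ∑ i ∈ range (2 * M + 1), (1 - 2 * ((i : ℝ) / (2 * M))) ^ (2 * k) ≤ (2 * M + 1) / (2 * k + 1) + 2 := by
  have hM0 : (0 : ℝ) < M := by exact_mod_cast hM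
  have h1 : ∑ i ∈ range (2 * M + 1), (1 - 2 * ((i : ℝ) / (2 * M))) ^ (2 * k) =
      2 * (∑ j ∈ range M, ((j : ℝ) + 1) ^ (2 * k)) / (M : ℝ) ^ (2 * k) := by
    have e0 : ∀ i : ℕ, (1 - 2 * ((i : ℝ) / (2 * M))) ^ (2 * k) = ((M : ℝ) - i) ^ (2 * k) / (M : ℝ) ^ (2 * k) := by
      intro i
      rw [← div_pow]
      congr 1
      field_simp
    simp only [e0]
    rw [← sum_div, show 2 * M + 1 = M + (M + 1) by omega, sum_range_add, sum_range_succ']
    have e1 : ∑ i ∈ range M, ((M : ℝ) - i) ^ (2 * k) = ∑ j ∈ range M, ((j : ℝ) + 1) ^ (2 * k) := by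
      rw [← sum_range_reflect]
      refine sum_congr rfl fun j hj => ?_
      rw [mem_range] at hj
      congr 1
      rw [show M - 1 - j = M - (1 + j) by omega, Nat.cast_sub (by omega)]
      push_cast
      ring
    have e2 : ∑ i ∈ range M, ((M : ℝ) - ((M + (i + 1) : ℕ) : ℝ)) ^ (2 * k) =
        ∑ j ∈ range M, ((j : ℝ) + 1) ^ (2 * k) := by
      refine sum_congr rfl fun j _ => ?_
      have : (M : ℝ) - ((M + (j + 1) : ℕ) : ℝ) = -((j : ℝ) + 1) := by push_cast; ring
      rw [this, (even_two_mul k).neg_pow]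
    have e3 : ((M : ℝ) - ((M + 0 : ℕ) : ℝ)) ^ (2 * k) = 0 := by
      rw [add_zero, sub_self]; exact zero_pow (by omega)
    rw [e1, e2, e3]
    ring
  rw [h1]
  have h2 := sum_pow_le (2 * k) M
  have h3 : 0 < (M : ℝ) ^ (2 * k) := by positivity
  rw [div_le_iff₀ h3]
  have h4 : (M : ℝ) ^ (2 * k + 1) = M * (M : ℝ) ^ (2 * k) := by ring
  rw [h4] at h2
  have h5 : 2 * ∑ j ∈ range M, ((j : ℝ) + 1) ^ (2 * k) ≤
      2 * ((M : ℝ) * (M : ℝ) ^ (2 * k) / (((2 * k : ℕ) : ℝ) + 1) + (M : ℝ) ^ (2 * k)) := by linarith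
  refine h5.trans ?_
  have h6 : 2 * ((M : ℝ) * (M : ℝ) ^ (2 * k) / (((2 * k : ℕ) : ℝ) + 1) + (M : ℝ) ^ (2 * k)) =
      (2 * M / (2 * k + 1) + 2) * (M : ℝ) ^ (2 * k) := by
    push_cast
    ring
  rw [h6]
  refine mul_le_mul_of_nonneg_right ?_ h3.le
  have h7 : (2 * (M : ℝ)) / (2 * k + 1) ≤ (2 * M + 1) / (2 * k + 1) :=
    div_le_div_of_nonneg_right (by linarith) (by positivity)
  linarith

/-- the quantile function of a subadditive function on a cyclic group of prime order is subadditive -/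
lemma quant (p : ℕ) (hp : p.Prime) [NeZero p] (D : ZMod p → ℝ) (hD : ∀ s t, D (s + t) ≤ D s + D t) :
    ∃ q : ℕ → ZMod p, (∀ i j, i ≤ j → j < p → D (q i) ≤ D (q j)) ∧
      (∀ F : ZMod p → ℝ, ∑ x, F x = ∑ i ∈ range p, F (q i)) ∧
      ∀ i j, i + j < p → D (q (i + j)) ≤ D (q i) + D (q j) := by
  classical
  have hcard : Fintype.card (ZMod p) = p := ZMod.card p
  let e : Fin p ≃ ZMod p := (Fintype.equivFinOfCardEq hcard).symm
  let σ := Tuple.sort (D ∘ e)
  have hmono : Monotone ((D ∘ e) ∘ σ) := Tuple.monotone_sort (D ∘ e)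
  let q : ℕ → ZMod p := fun n => if h : n < p then e (σ ⟨n, h⟩) else 0
  have hq : ∀ n (h : n < p), q n = e (σ ⟨n, h⟩) := fun n h => by simp only [q]; rw [dif_pos h]
  have hm : ∀ i j, i ≤ j → j < p → D (q i) ≤ D (q j) := by
    intro i j hij hj
    rw [hq i (by omega), hq j hj]
    exact hmono (Fin.mk_le_mk.mpr hij)
  have hinj : ∀ i j, i < p → j < p → q i = q j → i = j := by
    intro i j hi hj h
    rw [hq i hi, hq j hj] at h
    have := σ.injective (e.injective h)
    exact Fin.mk.inj_iff.mp this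
  have hsurj : ∀ x : ZMod p, ∃ l, l < p ∧ q l = x := by
    intro x
    refine ⟨(σ.symm (e.symm x)).val, (σ.symm (e.symm x)).isLt, ?_⟩
    rw [hq _ (σ.symm (e.symm x)).isLt]
    simp
  refine ⟨q, hm, ?_, ?_⟩
  · intro F
    have h1 : ∑ i ∈ range p, F (q i) = ∑ i : Fin p, F (q i) := (Fin.sum_univ_eq_sum_range (fun i => F (q i)) p).symm
    rw [h1]
    have h2 : ∀ i : Fin p, F (q i) = F (e (σ i)) := fun i => by rw [hq i.val i.isLt]
    simp only [h2]
    rw [Equiv.sum_comp σ (fun i => F (e i)), Equiv.sum_comp e F]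
  · intro i j hij
    by_contra hc
    push Not at hc
    set B := (range (i + 1)).image q with hB
    set B' := (range (j + 1)).image q with hB'
    have hBc : B.card = i + 1 := by
      rw [hB, card_image_of_injOn, card_range]
      intro a ha b hb hab
      rw [coe_range, Set.mem_Iio] at ha hb
      exact hinj a b (by omega) (by omega) hab
    have hBc' : B'.card = j + 1 := by
      rw [hB', card_image_of_injOn, card_range]
      intro a ha b hb hab
      rw [coe_range, Set.mem_Iio] at ha hb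
      exact hinj a b (by omega) (by omega) hab
    have hne : B.Nonempty := card_pos.mp (by omega)
    have hne' : B'.Nonempty := card_pos.mp (by omega)
    have hCD := ZMod.cauchy_davenport hp hne hne'
    rw [hBc, hBc'] at hCD
    have hsub : B + B' ⊆ (range (i + j)).image q := by
      intro z hz
      rw [mem_add] at hz
      obtain ⟨x, hx, y, hy, rfl⟩ := hz
      rw [hB, mem_image] at hx
      rw [hB', mem_image] at hy
      obtain ⟨a, ha, rfl⟩ := hx
      obtain ⟨b, hb, rfl⟩ := hy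
      rw [mem_range] at ha hb
      obtain ⟨l, hl, hlz⟩ := hsurj (q a + q b)
      rw [mem_image]
      refine ⟨l, ?_, hlz⟩
      rw [mem_range]
      by_contra hlc
      push Not at hlc
      have h1 := hm (i + j) l hlc hl
      rw [hlz] at h1
      have h2 := hD (q a) (q b)
      have h3 := hm a i (by omega) (by omega)
      have h4 := hm b j (by omega) (by omega)
      linarith
    have h5 := (card_le_card hsub).trans card_image_le
    rw [card_range] at h5
    have h6 : min p (i + 1 + (j + 1) - 1) = i + j + 1 := by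
      rw [min_eq_right (by omega)]
      omega
    omega

/-- the sums of the smallest values of a function with subadditive quantiles -/
lemma maj (p : ℕ) (hp : 2 ≤ p) (d : ℕ → ℝ) (hd : ∀ i j, i + j < p → d (i + j) ≤ d i + d j) :
    ∀ k, k ≤ p → (k : ℝ) * (k - 1) * ∑ i ∈ range p, d i ≤ (p : ℝ) * (p - 1) * ∑ i ∈ range k, d i := by
  -- one step
  have step : ∀ k, k + 1 ≤ p → ((k : ℝ) - 1) * ∑ i ∈ range (k + 1), d i ≤ (k + 1) * ∑ i ∈ range k, d i := by
    intro k hk
    have h1 : ((k : ℝ) + 1) * d k ≤ 2 * ∑ i ∈ range (k + 1), d i := by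
      have e1 : ∑ i ∈ range (k + 1), d k ≤ ∑ i ∈ range (k + 1), (d i + d (k - i)) := by
        refine sum_le_sum fun i hi => ?_
        rw [mem_range] at hi
        have := hd i (k - i) (by omega)
        rwa [show i + (k - i) = k by omega] at this
      have e2 : ∑ i ∈ range (k + 1), d (k - i) = ∑ i ∈ range (k + 1), d i := by
        have := sum_range_reflect d (k + 1)
        rw [← this]
        refine sum_congr rfl fun i _ => ?_
        rw [show k + 1 - 1 - i = k - i by omega]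
      rw [sum_add_distrib, e2, sum_const, card_range, nsmul_eq_mul] at e1
      push_cast at e1
      linarith
    rw [sum_range_succ] at h1 ⊢
    nlinarith
  -- downward induction
  have key : ∀ j k, k + j = p → (k : ℝ) * (k - 1) * ∑ i ∈ range p, d i ≤ (p : ℝ) * (p - 1) * ∑ i ∈ range k, d i := by
    intro j
    induction j with
    | zero =>
      intro k hk
      have : k = p := by omega
      subst this
      exact le_rfl
    | succ j ih =>
      intro k hk
      rcases Nat.eq_zero_or_pos k with h0 | h0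
      · subst h0
        simp
      · have h1 := ih (k + 1) (by omega)
        have h2 := step k (by omega)
        have hp1 : (0 : ℝ) ≤ (p : ℝ) * (p - 1) := by
          have : (2 : ℝ) ≤ p := by exact_mod_cast hp
          nlinarith
        have h3 : (p : ℝ) * (p - 1) * (((k : ℝ) - 1) * ∑ i ∈ range (k + 1), d i) ≤
            (p : ℝ) * (p - 1) * ((k + 1) * ∑ i ∈ range k, d i) := mul_le_mul_of_nonneg_left h2 hp1
        have hk1 : (0 : ℝ) ≤ (k : ℝ) - 1 := by
          have : (1 : ℝ) ≤ k := by exact_mod_cast h0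
          linarith
        have h4 := mul_le_mul_of_nonneg_left h1 hk1
        push_cast at h4
        have hk2 : (0 : ℝ) < (k : ℝ) + 1 := by positivity
        have h5 : ((k : ℝ) + 1) * ((k : ℝ) * (k - 1) * ∑ i ∈ range p, d i) ≤
            ((k : ℝ) + 1) * ((p : ℝ) * (p - 1) * ∑ i ∈ range k, d i) := by
          calc ((k : ℝ) + 1) * ((k : ℝ) * (k - 1) * ∑ i ∈ range p, d i)
              = ((k : ℝ) - 1) * (((k : ℝ) + 1) * ((k : ℝ) + 1 - 1) * ∑ i ∈ range p, d i) := by ring
            _ ≤ ((k : ℝ) - 1) * ((p : ℝ) * (p - 1) * ∑ i ∈ range (k + 1), d i) := h4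
            _ = (p : ℝ) * (p - 1) * (((k : ℝ) - 1) * ∑ i ∈ range (k + 1), d i) := by ring
            _ ≤ (p : ℝ) * (p - 1) * ((k + 1) * ∑ i ∈ range k, d i) := h3
            _ = ((k : ℝ) + 1) * ((p : ℝ) * (p - 1) * ∑ i ∈ range k, d i) := by ring
        exact le_of_mul_le_mul_left h5 hk2
  intro k hk
  exact key (p - k) k (by omega)

lemma abel (p : ℕ) (hp : 1 ≤ p) (G x : ℕ → ℝ) (hG : ∀ i, i + 1 < p → G i ≤ G (i + 1))
    (hx : ∀ k, k ≤ p → 0 ≤ ∑ i ∈ range k, x i) (hx0 : ∑ i ∈ range p, x i = 0) :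
    ∑ i ∈ range p, G i * x i ≤ 0 := by
  have h1 := Finset.sum_range_by_parts G x p
  simp only [smul_eq_mul] at h1
  rw [h1, hx0, mul_zero, zero_sub, neg_nonpos]
  refine sum_nonneg fun i hi => ?_
  rw [mem_range] at hi
  exact mul_nonneg (by linarith [hG i (by omega)]) (hx _ (by omega))

/-- the autocorrelation on a cyclic group -/
noncomputable def AC (p : ℕ) [NeZero p] (f : ZMod p → ℝ) (t : ZMod p) : ℝ := (∑ x, f x * f (x + t)) / p

lemma three {a b c : ℝ} (ha : |a| ≤ 1) (hb : |b| ≤ 1) (hc : |c| ≤ 1) : 1 - a * c ≤ (1 - a * b) + (1 - b * c) := by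
  rw [abs_le] at ha hb hc
  nlinarith [mul_nonneg (sub_nonneg.mpr ha.2) (sub_nonneg.mpr hc.2),
    mul_nonneg (by linarith [ha.1] : 0 ≤ 1 + a) (by linarith [hc.1] : 0 ≤ 1 + c),
    mul_nonneg (mul_nonneg (sub_nonneg.mpr ha.2) (sub_nonneg.mpr hc.2)) (by linarith [hb.1] : 0 ≤ 1 + b),
    mul_nonneg (mul_nonneg (by linarith [ha.1] : 0 ≤ 1 + a) (by linarith [hc.1] : 0 ≤ 1 + c)) (sub_nonneg.mpr hb.2)]

/-- the autocorrelations of a function on a cyclic group of prime order are dominated by the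
uniform distribution on `[-1,1]` -/
theorem zp (p : ℕ) (hp : p.Prime) [NeZero p] (hp3 : 3 ≤ p) (f : ZMod p → ℝ) (hf : ∀ x, |f x| ≤ 1) (k : ℕ)
    (hk : 1 ≤ k) :
    ∑ t, AC p f t ^ (2 * k) ≤ p / (2 * k + 1) + 2 + 4 * k * ((∑ x, f x) / p) ^ 2 * p := by
  have hp0 : (0 : ℝ) < p := by exact_mod_cast (by omega : 0 < p)
  set μ : ℝ := (∑ x, f x) / p with hμ
  have hμ1 : μ ^ 2 ≤ 1 := by
    have h1 : |∑ x, f x| ≤ p := by
      refine (abs_sum_le_sum_abs _ _).trans ((sum_le_sum fun x _ => hf x).trans (le_of_eq ?_))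
      rw [sum_const, card_univ, ZMod.card, nsmul_eq_mul, mul_one]
    have h2 : |μ| ≤ 1 := by
      rw [hμ, abs_div, abs_of_pos hp0, div_le_one hp0]
      exact h1
    rw [← sq_abs]
    exact pow_le_one₀ (abs_nonneg _) h2
  set D : ZMod p → ℝ := fun t => (1 - AC p f t) / 2 with hD
  have hA1 : ∀ t, |AC p f t| ≤ 1 := by
    intro t
    unfold AC
    rw [abs_div, abs_of_pos hp0, div_le_one hp0]
    refine (abs_sum_le_sum_abs _ _).trans ((sum_le_sum fun x _ => ?_ : _ ≤ ∑ _x : ZMod p, (1 : ℝ)).trans (le_of_eq ?_))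
    · rw [abs_mul]
      exact mul_le_one₀ (hf _) (abs_nonneg _) (hf _)
    · rw [sum_const, card_univ, ZMod.card, nsmul_eq_mul, mul_one]
  have hsub : ∀ s t, D (s + t) ≤ D s + D t := by
    intro s t
    have h1 : (1 : ℝ) - AC p f (s + t) ≤ (1 - AC p f s) + (1 - AC p f t) := by
      have e1 : ∀ r, (1 : ℝ) - AC p f r = (∑ x, (1 - f x * f (x + r))) / p := by
        intro r
        unfold AC
        rw [sum_sub_distrib, sum_const, card_univ, ZMod.card, nsmul_eq_mul, mul_one, sub_div, div_self hp0.ne']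
      have e2 : ∑ x, (1 - f x * f (x + t)) = ∑ x, (1 - f (x + s) * f (x + s + t)) :=
        (Equiv.sum_comp (Equiv.addRight s) (fun x => 1 - f x * f (x + t))).symm
      rw [e1, e1, e1, e2, ← add_div, ← sum_add_distrib]
      refine div_le_div_of_nonneg_right (sum_le_sum fun x _ => ?_) hp0.le
      rw [← add_assoc]
      exact three (hf _) (hf _) (hf _)
    simp only [hD]
    linarith
  obtain ⟨q, hm, hsum, hq⟩ := quant p hp D hsub
  set d : ℕ → ℝ := fun i => D (q i) with hd
  have hDn : ∀ t, 0 ≤ D t := by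
    intro t
    have := (abs_le.mp (hA1 t)).2
    simp only [hD]
    linarith
  have hD1 : ∀ t, D t ≤ 1 := by
    intro t
    have := (abs_le.mp (hA1 t)).1
    simp only [hD]
    linarith
  -- the mean
  have htot : ∑ i ∈ range p, d i = p * (1 - μ ^ 2) / 2 := by
    rw [← hsum D]
    simp only [hD]
    rw [← sum_div, sum_sub_distrib, sum_const, card_univ, ZMod.card, nsmul_eq_mul, mul_one]
    have h1 : ∑ t, AC p f t = p * μ ^ 2 := by
      unfold AC
      rw [← sum_div, sum_comm]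
      have : ∀ x, ∑ t, f x * f (x + t) = f x * ∑ y, f y := by
        intro x
        rw [← mul_sum]
        congr 1
        exact Equiv.sum_comp (Equiv.addLeft x) f
      simp only [this]
      rw [← sum_mul, hμ]
      field_simp
    rw [h1]
    ring
  obtain ⟨M, hM⟩ : ∃ M, p = 2 * M + 1 := by
    rcases hp.eq_two_or_odd' with h | h
    · omega
    · exact h
  have hM1 : 1 ≤ M := by omega
  set e : ℕ → ℝ := fun i => (1 - μ ^ 2) * ((i : ℝ) / (p - 1)) with he
  have hp1 : (0 : ℝ) < (p : ℝ) - 1 := by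
    have : (3 : ℝ) ≤ p := by exact_mod_cast hp3
    linarith
  have hesum : ∀ k : ℕ, ∑ i ∈ range k, e i = (1 - μ ^ 2) * ((k : ℝ) * (k - 1) / 2) / (p - 1) := by
    intro k
    simp only [he]
    rw [← mul_sum, ← sum_div]
    have : ∑ i ∈ range k, (i : ℝ) = (k : ℝ) * (k - 1) / 2 := by
      induction k with
      | zero => simp
      | succ k ih => rw [sum_range_succ, ih]; push_cast; ring
    rw [this]
    ring
  have hpart : ∀ k, k ≤ p → 0 ≤ ∑ i ∈ range k, (d i - e i) := by
    intro k hk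
    rw [sum_sub_distrib, hesum, sub_nonneg]
    have h1 := maj p (by omega) d hq k hk
    rw [htot] at h1
    rw [div_le_iff₀ hp1]
    have h2 : (p : ℝ) * ((1 - μ ^ 2) * ((k : ℝ) * (k - 1) / 2)) ≤ p * ((∑ i ∈ range k, d i) * (p - 1)) := by
      calc (p : ℝ) * ((1 - μ ^ 2) * ((k : ℝ) * (k - 1) / 2)) = (k : ℝ) * (k - 1) * (p * (1 - μ ^ 2) / 2) := by ring
        _ ≤ (p : ℝ) * (p - 1) * ∑ i ∈ range k, d i := h1
        _ = p * ((∑ i ∈ range k, d i) * (p - 1)) := by ring
    exact le_of_mul_le_mul_left h2 hp0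
  have hzero : ∑ i ∈ range p, (d i - e i) = 0 := by
    rw [sum_sub_distrib, hesum, htot]
    field_simp
    ring
  -- convexity
  have hconv : ∑ i ∈ range p, (1 - 2 * d i) ^ (2 * k) ≤ ∑ i ∈ range p, (1 - 2 * e i) ^ (2 * k) := by
    have h1 : ∀ i ∈ range p, (1 - 2 * d i) ^ (2 * k) - (1 - 2 * e i) ^ (2 * k) ≤
        (-(4 * k * (1 - 2 * d i) ^ (2 * k - 1))) * (d i - e i) := by
      intro i _
      have := tangent k hk (1 - 2 * d i) (1 - 2 * e i)
      linarith
    have h2 := abel p (by omega) (fun i => -(4 * k * (1 - 2 * d i) ^ (2 * k - 1))) (fun i => d i - e i) ?_ hpart hzero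
    · have h3 := sum_le_sum h1
      rw [sum_sub_distrib] at h3
      linarith
    · intro i hi
      have h3 : d i ≤ d (i + 1) := hm i (i + 1) (by omega) hi
      have hodd : Odd (2 * k - 1) := ⟨k - 1, by omega⟩
      have h4 : (1 - 2 * d (i + 1)) ^ (2 * k - 1) ≤ (1 - 2 * d i) ^ (2 * k - 1) :=
        hodd.strictMono_pow.monotone (by linarith)
      have hk0 : (0 : ℝ) ≤ 4 * k := by positivity
      have := mul_le_mul_of_nonneg_left h4 hk0
      linarith
  have hψ : ∑ t, AC p f t ^ (2 * k) = ∑ i ∈ range p, (1 - 2 * d i) ^ (2 * k) := by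
    rw [hsum (fun t => AC p f t ^ (2 * k))]
    refine sum_congr rfl fun i _ => ?_
    simp only [hd, hD]
    congr 1
    ring
  rw [hψ]
  refine hconv.trans ?_
  have hr := riemann M k hk hM1
  have hpM : (p : ℝ) = 2 * M + 1 := by rw [hM]; push_cast; ring
  have hel : ∀ i ∈ range p, (1 - 2 * e i) ^ (2 * k) ≤ (1 - 2 * ((i : ℝ) / (2 * M))) ^ (2 * k) + 4 * k * μ ^ 2 := by
    intro i hi
    rw [mem_range] at hi
    have hM0 : (0 : ℝ) < 2 * M := by
      have : (0 : ℝ) < M := by exact_mod_cast hM1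
      linarith
    have hx0 : 0 ≤ (i : ℝ) / (2 * M) := by positivity
    have hx1 : (i : ℝ) / (2 * M) ≤ 1 := by
      rw [div_le_one hM0]
      have : i ≤ 2 * M := by omega
      exact_mod_cast this
    have hex : e i = (1 - μ ^ 2) * ((i : ℝ) / (2 * M)) := by
      simp only [he]
      rw [hpM]
      ring
    set x := (i : ℝ) / (2 * M) with hx
    have hμ0 : 0 ≤ μ ^ 2 := sq_nonneg _
    have h1 := pow_sub_le (2 * k) (1 - 2 * e i) (1 - 2 * x) (by rw [hex, abs_le]; constructor <;> nlinarith)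
      (by rw [abs_le]; constructor <;> linarith)
    have h2 : |1 - 2 * e i - (1 - 2 * x)| ≤ 2 * μ ^ 2 := by
      rw [hex, abs_le]
      constructor <;> nlinarith
    have h3 := (abs_le.mp h1).2
    have h4 : ((2 * k : ℕ) : ℝ) * |1 - 2 * e i - (1 - 2 * x)| ≤ ((2 * k : ℕ) : ℝ) * (2 * μ ^ 2) :=
      mul_le_mul_of_nonneg_left h2 (Nat.cast_nonneg _)
    push_cast at h4 h3
    linarith
  refine (sum_le_sum hel).trans ?_
  rw [sum_add_distrib, sum_const, card_range, nsmul_eq_mul]
  have h5 : ∑ i ∈ range p, (1 - 2 * ((i : ℝ) / (2 * M))) ^ (2 * k) ≤ p / (2 * k + 1) + 2 := by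
    rw [hpM, hM]
    exact hr
  linarith

end Pool.Agent.Q259.LU
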