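import Pool.Agent.Q259.LU.Par
import Pool.Agent.Q259.LU.Zp

set_option autoImplicit false

/-!
# Simultaneous approximation and small arcs
-/

namespace Pool.Agent.Q259.LU

open Finset Pool.Agent.H332R2.Lit

/-- simultaneous approximation -/
lemma dirichlet (L : Finset ℕ) (x : ℕ → ℝ) (n : ℕ) (hn : 1 ≤ n) :
    ∃ q : ℕ, 1 ≤ q ∧ q ≤ n ^ L.card ∧ ∀ j ∈ L, ∃ m : ℤ, |q * x j - m| ≤ 1 / n := by
  classical
  have hn0 : (0 : ℝ) < n := by exact_mod_cast hn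
  set f : ℕ → (L → ℕ) := fun q j => ⌊(n : ℝ) * Int.fract (q * x j)⌋₊ with hf
  have hmaps : ∀ q ∈ range (n ^ L.card + 1), f q ∈ Fintype.piFinset (fun _ : L => range n) := by
    intro q _
    rw [Fintype.mem_piFinset]
    intro j
    rw [mem_range]
    have h1 : (n : ℝ) * Int.fract (q * x j) < n := by
      have := Int.fract_lt_one ((q : ℝ) * x j)
      nlinarith
    exact (Nat.floor_lt (by have := Int.fract_nonneg ((q : ℝ) * x j); positivity)).mpr h1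
  have hcard : (Fintype.piFinset (fun _ : L => range n)).card < (range (n ^ L.card + 1)).card := by
    rw [Fintype.card_piFinset]
    simp
  obtain ⟨a, ha, b, hb, hab, hfab⟩ := exists_ne_map_eq_of_card_lt_of_maps_to hcard hmaps
  rw [mem_range] at ha hb
  have key : ∀ a b : ℕ, a < b → b < n ^ L.card + 1 → f a = f b →
      ∃ q : ℕ, 1 ≤ q ∧ q ≤ n ^ L.card ∧ ∀ j ∈ L, ∃ m : ℤ, |q * x j - m| ≤ 1 / n := by
    intro a b hab hb hfab
    refine ⟨b - a, by omega, by omega, fun j hj => ?_⟩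
    have h1 : f a ⟨j, hj⟩ = f b ⟨j, hj⟩ := by rw [hfab]
    simp only [hf] at h1
    refine ⟨⌊(b : ℝ) * x j⌋ - ⌊(a : ℝ) * x j⌋, ?_⟩
    rw [Nat.cast_sub hab.le]
    have e1 : ((b : ℝ) - a) * x j - ((⌊(b : ℝ) * x j⌋ - ⌊(a : ℝ) * x j⌋ : ℤ) : ℝ) =
        Int.fract ((b : ℝ) * x j) - Int.fract ((a : ℝ) * x j) := by
      push_cast
      unfold Int.fract
      ring
    rw [e1, abs_le]
    have p1 : 0 ≤ (n : ℝ) * Int.fract ((a : ℝ) * x j) := mul_nonneg hn0.le (Int.fract_nonneg _)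
    have p2 : 0 ≤ (n : ℝ) * Int.fract ((b : ℝ) * x j) := mul_nonneg hn0.le (Int.fract_nonneg _)
    have q1 := Nat.floor_le p1
    have q2 := Nat.floor_le p2
    have q3 := Nat.lt_floor_add_one ((n : ℝ) * Int.fract ((a : ℝ) * x j))
    have q4 := Nat.lt_floor_add_one ((n : ℝ) * Int.fract ((b : ℝ) * x j))
    rw [h1] at q1 q3
    constructor
    · rw [neg_le, ← sub_nonneg]
      have : 0 ≤ (1 - n * (Int.fract ((a : ℝ) * x j) - Int.fract ((b : ℝ) * x j))) / n :=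
        div_nonneg (by linarith) hn0.le
      have e2 : (1 - n * (Int.fract ((a : ℝ) * x j) - Int.fract ((b : ℝ) * x j))) / n =
          1 / n - -(Int.fract ((b : ℝ) * x j) - Int.fract ((a : ℝ) * x j)) := by
        field_simp
        ring
      linarith
    · rw [← sub_nonneg]
      have : 0 ≤ (1 - n * (Int.fract ((b : ℝ) * x j) - Int.fract ((a : ℝ) * x j))) / n :=
        div_nonneg (by linarith) hn0.le
      have e2 : (1 - n * (Int.fract ((b : ℝ) * x j) - Int.fract ((a : ℝ) * x j))) / n =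
          1 / n - (Int.fract ((b : ℝ) * x j) - Int.fract ((a : ℝ) * x j)) := by
        field_simp
      linarith
  rcases Nat.lt_or_ge a b with h | h
  · exact key a b h hb hfab
  · exact key b a (by omega) ha hfab.symm

/-- the Fejer type kernel -/
noncomputable def ker (S : ℕ) (x : ℝ) : ℝ := ‖∑ s ∈ range S, e ((s : ℝ) * x)‖ ^ 2 / (S : ℝ) ^ 2

lemma norm_esum_le (S : ℕ) (x : ℝ) : ‖∑ s ∈ range S, e ((s : ℝ) * x)‖ ≤ S := by
  refine (norm_sum_le _ _).trans ((sum_le_sum fun s _ => (norm_e _).le).trans (le_of_eq ?_))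
  simp

lemma ker_nonneg (S : ℕ) (x : ℝ) : 0 ≤ ker S x := by unfold ker; positivity

lemma ker_le_one (S : ℕ) (x : ℝ) : ker S x ≤ 1 := by
  unfold ker
  refine div_le_one_of_le₀ ?_ (by positivity)
  exact pow_le_pow_left₀ (norm_nonneg _) (norm_esum_le S x) 2

lemma ker_bd (S : ℕ) (x y w : ℝ) (hw : 0 < w) (hy : y ≤ |x - round x|) (hyS : w ≤ y * S) :
    ker S x ≤ 1 / (4 * w ^ 2) := by
  have hS : (0 : ℝ) < S := by
    rcases Nat.eq_zero_or_pos S with h | h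
    · subst h
      simp at hyS
      linarith
    · exact_mod_cast h
  have hy0 : 0 < y := by
    by_contra hc
    push Not at hc
    nlinarith
  have h1 := norm_geom x S
  have h2 := norm_one_sub_e x
  set G := ‖∑ s ∈ range S, e ((s : ℝ) * x)‖ with hG
  have hG0 : 0 ≤ G := norm_nonneg _
  have h3 : G * (4 * y) ≤ 2 := by
    refine le_trans (mul_le_mul_of_nonneg_left ?_ hG0) h1
    linarith
  have h4 : G * (2 * w) ≤ S := by
    have : G * (2 * w) ≤ G * (2 * (y * S)) := mul_le_mul_of_nonneg_left (by linarith) hG0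
    nlinarith
  unfold ker
  rw [div_le_div_iff₀ (by positivity) (by positivity), one_mul]
  calc G ^ 2 * (4 * w ^ 2) = (G * (2 * w)) ^ 2 := by ring
    _ ≤ (S : ℝ) ^ 2 := pow_le_pow_left₀ (by positivity) h4 2

noncomputable def uu (n : ℕ) : ℝ := if n ≤ 1 then 1 else 1 / (4 * ((n : ℝ) - 1) ^ 2)

lemma uu_nonneg (n : ℕ) : 0 ≤ uu n := by
  unfold uu
  split_ifs
  · exact zero_le_one
  · positivity

lemma uu_sum (T : Finset ℕ) : ∑ n ∈ T, uu n ≤ 5 / 2 := by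
  have h1 : ∀ N : ℕ, ∑ n ∈ range (N + 3), uu n ≤ 5 / 2 - 1 / (4 * (N + 1)) := by
    intro N
    induction N with
    | zero =>
      rw [sum_range_succ, sum_range_succ, sum_range_succ, sum_range_zero]
      unfold uu
      norm_num
    | succ N ih =>
      rw [show N + 1 + 3 = (N + 3) + 1 by omega, sum_range_succ]
      have e1 : uu (N + 3) = 1 / (4 * ((N : ℝ) + 2) ^ 2) := by
        unfold uu
        rw [if_neg (by omega)]
        push_cast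
        congr 2
        ring
      rw [e1]
      have e2 : 1 / (4 * ((N : ℝ) + 2) ^ 2) ≤ 1 / (4 * ((N : ℝ) + 1)) - 1 / (4 * (((N : ℝ) + 1) + 1)) := by
        have : 1 / (4 * ((N : ℝ) + 1)) - 1 / (4 * (((N : ℝ) + 1) + 1)) = 1 / (4 * ((N + 1) * (N + 2))) := by
          field_simp
          ring
        rw [this]
        refine one_div_le_one_div_of_le (by positivity) ?_
        nlinarith [(Nat.cast_nonneg N : (0 : ℝ) ≤ N)]
      push_cast
      linarith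
  set N := T.sup id with hN
  have h2 : T ⊆ range (N + 3) := by
    intro n hn
    rw [mem_range]
    have : n ≤ N := Finset.le_sup (f := id) hn
    omega
  calc ∑ n ∈ T, uu n ≤ ∑ n ∈ range (N + 3), uu n :=
        sum_le_sum_of_subset_of_nonneg h2 fun n _ _ => uu_nonneg n
    _ ≤ 5 / 2 - 1 / (4 * (N + 1)) := h1 N
    _ ≤ 5 / 2 := by
        have : 0 ≤ 1 / (4 * ((N : ℝ) + 1)) := by positivity
        linarith

lemma uu_inj (I : Finset ℕ) (φ : ℕ → ℕ) (hφ : ∀ i ∈ I, ∀ j ∈ I, φ i = φ j → i = j) :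
    ∑ i ∈ I, uu (φ i) ≤ 5 / 2 := by
  rw [← sum_image (f := uu) (g := φ) (fun i hi j hj h => hφ i hi j hj h)]
  exact uu_sum _

lemma uu_dist (Sa i0 : ℕ) (hi0 : i0 < Sa) :
    ∑ i ∈ range Sa, (uu ((i - i0) + (i0 - i)) + uu (Sa - ((i - i0) + (i0 - i)))) ≤ 10 := by
  rw [← sum_filter_add_sum_filter_not (range Sa) (fun i => i < i0)]
  rw [sum_add_distrib, sum_add_distrib]
  have h1 := uu_inj ((range Sa).filter (fun i => i < i0)) (fun i => (i - i0) + (i0 - i)) (by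
    intro i hi j hj h
    rw [mem_filter, mem_range] at hi hj
    omega)
  have h2 := uu_inj ((range Sa).filter (fun i => i < i0)) (fun i => Sa - ((i - i0) + (i0 - i))) (by
    intro i hi j hj h
    rw [mem_filter, mem_range] at hi hj
    omega)
  have h3 := uu_inj ((range Sa).filter (fun i => ¬ i < i0)) (fun i => (i - i0) + (i0 - i)) (by
    intro i hi j hj h
    rw [mem_filter, mem_range] at hi hj
    omega)
  have h4 := uu_inj ((range Sa).filter (fun i => ¬ i < i0)) (fun i => Sa - ((i - i0) + (i0 - i))) (by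
    intro i hi j hj h
    rw [mem_filter, mem_range] at hi hj
    omega)
  linarith

lemma ker_arc (S Sa : ℕ) (hS : Sa ≤ S) (x : ℝ) (D : ℕ) (hD : D ≤ Sa)
    (h1 : (D : ℝ) - 1 ≤ |x| * Sa) (h2 : (Sa : ℝ) - D - 1 ≤ (1 - |x|) * Sa) :
    ker S x ≤ uu D + uu (Sa - D) := by
  have hu1 := uu_nonneg D
  have hu2 := uu_nonneg (Sa - D)
  have hS' : (Sa : ℝ) ≤ S := by exact_mod_cast hS
  by_cases hr : round x = 0
  · by_cases hD1 : D ≤ 1
    · have : uu D = 1 := by unfold uu; rw [if_pos hD1]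
      linarith [ker_le_one S x]
    · have e1 : uu D = 1 / (4 * ((D : ℝ) - 1) ^ 2) := by unfold uu; rw [if_neg hD1]
      have hD2 : (0 : ℝ) < (D : ℝ) - 1 := by
        have : (2 : ℝ) ≤ D := by exact_mod_cast (by omega : 2 ≤ D)
        linarith
      have := ker_bd S x |x| ((D : ℝ) - 1) hD2 (by rw [hr]; simp) (by
        nlinarith [abs_nonneg x])
      linarith
  · by_cases hD1 : Sa - D ≤ 1
    · have : uu (Sa - D) = 1 := by unfold uu; rw [if_pos hD1]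
      linarith [ker_le_one S x]
    · have e1 : uu (Sa - D) = 1 / (4 * ((Sa : ℝ) - D - 1) ^ 2) := by
        unfold uu
        rw [if_neg hD1, Nat.cast_sub hD]
      have hD2 : (0 : ℝ) < (Sa : ℝ) - D - 1 := by
        have : (2 : ℝ) ≤ ((Sa - D : ℕ) : ℝ) := by exact_mod_cast (by omega : 2 ≤ Sa - D)
        rw [Nat.cast_sub hD] at this
        linarith
      have hrd : 1 - |x| ≤ |x - round x| := by
        have a1 : (1 : ℝ) ≤ |((round x : ℤ) : ℝ)| := by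
          have : 1 ≤ |round x| := Int.one_le_abs hr
          exact_mod_cast this
        have a2 : |((round x : ℤ) : ℝ)| ≤ |x| + |x - round x| := by
          have : ((round x : ℤ) : ℝ) = x - (x - round x) := by ring
          calc |((round x : ℤ) : ℝ)| = |x - (x - round x)| := by rw [← this]
            _ ≤ |x| + |x - round x| := abs_sub _ _
        linarith
      have h3 : 0 < 1 - |x| := by
        by_contra hc
        push Not at hc
        have : (1 - |x|) * Sa ≤ 0 := mul_nonpos_of_nonpos_of_nonneg hc (Nat.cast_nonneg _)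
        linarith
      have := ker_bd S x (1 - |x|) ((Sa : ℝ) - D - 1) hD2 hrd (by nlinarith)
      linarith

/-- frequencies in arcs of small mass -/
lemma bad_sum (I : Finset ℕ) (σ θ : ℕ → ℝ) (hσ : ∀ i, 0 ≤ σ i) (hθ0 : ∀ i ∈ I, 0 ≤ θ i) (hθ1 : ∀ i ∈ I, θ i < 1)
    (Sa S : ℕ) (hSa : 1 ≤ Sa) (hS : Sa ≤ S) (κ : ℝ)
    (hκ : ∀ i, ∑ ξ ∈ I.filter (fun ξ => ⌊(Sa : ℝ) * θ ξ⌋₊ = i), σ ξ ≤ κ) (x : ℝ) (hx0 : 0 ≤ x) (hx1 : x < 1) :
    ∑ ξ ∈ I, σ ξ * ker S (x - θ ξ) ≤ 10 * κ := by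
  have hSa0 : (0 : ℝ) < Sa := by exact_mod_cast hSa
  set i0 := ⌊(Sa : ℝ) * x⌋₊ with hi0
  have hi0' : i0 < Sa := by
    rw [hi0, Nat.floor_lt (by positivity)]
    nlinarith
  have hmaps : ∀ ξ ∈ I, ⌊(Sa : ℝ) * θ ξ⌋₊ ∈ range Sa := by
    intro ξ hξ
    rw [mem_range, Nat.floor_lt (mul_nonneg hSa0.le (hθ0 ξ hξ))]
    nlinarith [hθ1 ξ hξ]
  rw [← sum_fiberwise_of_maps_to hmaps]
  have h1 : ∀ i ∈ range Sa, ∑ ξ ∈ I.filter (fun ξ => ⌊(Sa : ℝ) * θ ξ⌋₊ = i), σ ξ * ker S (x - θ ξ) ≤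
      κ * (uu ((i - i0) + (i0 - i)) + uu (Sa - ((i - i0) + (i0 - i)))) := by
    intro i hi
    rw [mem_range] at hi
    have hu : 0 ≤ uu ((i - i0) + (i0 - i)) + uu (Sa - ((i - i0) + (i0 - i))) :=
      add_nonneg (uu_nonneg _) (uu_nonneg _)
    refine le_trans ?_ (mul_le_mul_of_nonneg_right (hκ i) hu)
    rw [sum_mul]
    refine sum_le_sum fun ξ hξ => ?_
    rw [mem_filter] at hξ
    refine mul_le_mul_of_nonneg_left ?_ (hσ ξ)
    have a1 := Nat.floor_le (mul_nonneg hSa0.le hx0)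
    have a2 := Nat.lt_floor_add_one ((Sa : ℝ) * x)
    have a3 := Nat.floor_le (mul_nonneg hSa0.le (hθ0 ξ hξ.1))
    have a4 := Nat.lt_floor_add_one ((Sa : ℝ) * θ ξ)
    rw [← hi0] at a1 a2
    rw [hξ.2] at a3 a4
    have hxs : |x - θ ξ| * Sa = |Sa * x - Sa * θ ξ| := by
      rw [← mul_sub, abs_mul, abs_of_pos hSa0, mul_comm]
    have hDr : (((i - i0) + (i0 - i) : ℕ) : ℝ) = |(i0 : ℝ) - i| := by
      rcases Nat.le_total i i0 with h | h
      · rw [show i - i0 + (i0 - i) = i0 - i by omega, Nat.cast_sub h, abs_of_nonneg]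
        have : (i : ℝ) ≤ i0 := by exact_mod_cast h
        linarith
      · rw [show i - i0 + (i0 - i) = i - i0 by omega, Nat.cast_sub h, abs_sub_comm, abs_of_nonneg]
        have : (i0 : ℝ) ≤ i := by exact_mod_cast h
        linarith
    have hd : |(Sa * x - Sa * θ ξ) - ((i0 : ℝ) - i)| ≤ 1 := by
      rw [abs_le]
      constructor <;> linarith
    refine ker_arc S Sa hS (x - θ ξ) _ (by omega) ?_ ?_
    · rw [hDr, hxs]
      have := abs_sub_abs_le_abs_sub ((i0 : ℝ) - i) (Sa * x - Sa * θ ξ)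
      rw [abs_sub_comm ((i0 : ℝ) - i) (Sa * x - Sa * θ ξ)] at this
      linarith
    · rw [hDr, sub_mul, hxs, one_mul]
      have := abs_sub_abs_le_abs_sub (Sa * x - Sa * θ ξ) ((i0 : ℝ) - i)
      linarith
  refine (sum_le_sum h1).trans ?_
  rw [← mul_sum]
  have h2 := uu_dist Sa i0 hi0'
  have hκ0 : 0 ≤ κ := (sum_nonneg fun ξ _ => hσ ξ).trans (hκ 0)
  nlinarith

/-- a combination of characters -/
noncomputable def cc (I : Finset ℕ) (σ θ : ℕ → ℝ) (t : ℝ) : ℂ := ∑ ξ ∈ I, (σ ξ : ℂ) * e (t * θ ξ)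

lemma cc_le (I : Finset ℕ) (σ θ : ℕ → ℝ) (hσ : ∀ i, 0 ≤ σ i) (h1 : ∑ ξ ∈ I, σ ξ ≤ 1) (t : ℝ) : ‖cc I σ θ t‖ ≤ 1 := by
  unfold cc
  refine (norm_sum_le _ _).trans (le_trans (le_of_eq (sum_congr rfl fun ξ _ => ?_)) h1)
  rw [norm_mul, norm_e, mul_one, Complex.norm_real, Real.norm_eq_abs, abs_of_nonneg (hσ ξ)]

lemma kersum (S : ℕ) (x : ℝ) : ∑ s ∈ range S, ∑ s' ∈ range S, e (((s' : ℝ) - s) * x) =
    (((‖∑ s ∈ range S, e ((s : ℝ) * x)‖ ^ 2 : ℝ)) : ℂ) := by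
  have e1 : (((‖∑ s ∈ range S, e ((s : ℝ) * x)‖ ^ 2 : ℝ)) : ℂ) =
      (starRingEnd ℂ) (∑ s ∈ range S, e ((s : ℝ) * x)) * (∑ s ∈ range S, e ((s : ℝ) * x)) := by
    rw [mul_comm, Complex.mul_conj, Complex.normSq_eq_norm_sq]
  rw [e1, map_sum, sum_mul_sum]
  refine sum_congr rfl fun s _ => sum_congr rfl fun s' _ => ?_
  rw [conj_e, ← e_add]
  congr 1
  ring

/-- the mean square of a combination of characters over differences -/
lemma cc_sq (I : Finset ℕ) (σ θ : ℕ → ℝ) (S : ℕ) :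
    ∑ s ∈ range S, ∑ s' ∈ range S, ‖cc I σ θ ((s' : ℝ) - s)‖ ^ 2 =
      ∑ ξ ∈ I, ∑ η ∈ I, σ ξ * (σ η * ‖∑ s ∈ range S, e ((s : ℝ) * (θ ξ - θ η))‖ ^ 2) := by
  have h1 : ((∑ s ∈ range S, ∑ s' ∈ range S, ‖cc I σ θ ((s' : ℝ) - s)‖ ^ 2 : ℝ) : ℂ) =
      ((∑ ξ ∈ I, ∑ η ∈ I, σ ξ * (σ η * ‖∑ s ∈ range S, e ((s : ℝ) * (θ ξ - θ η))‖ ^ 2) : ℝ) : ℂ) := by
    have e1 : ∀ t : ℝ, ((‖cc I σ θ t‖ ^ 2 : ℝ) : ℂ) = ∑ ξ ∈ I, ∑ η ∈ I, (σ ξ : ℂ) * ((σ η : ℂ) * e (t * (θ ξ - θ η))) := by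
      intro t
      rw [← Complex.normSq_eq_norm_sq, ← Complex.mul_conj]
      unfold cc
      rw [map_sum, sum_mul_sum]
      refine sum_congr rfl fun ξ _ => sum_congr rfl fun η _ => ?_
      rw [map_mul, Complex.conj_ofReal, conj_e]
      have : e (t * (θ ξ - θ η)) = e (t * θ ξ) * e (-(t * θ η)) := by rw [← e_add]; congr 1; ring
      rw [this]
      ring
    rw [Complex.ofReal_sum]
    simp only [Complex.ofReal_sum, e1]
    rw [sum_congr rfl fun s _ => sum_comm]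
    rw [sum_comm]
    refine sum_congr rfl fun ξ _ => ?_
    rw [sum_congr rfl fun s _ => sum_comm]
    rw [sum_comm]
    refine sum_congr rfl fun η _ => ?_
    simp only [← mul_sum]
    rw [kersum]
    push_cast
    ring
  exact_mod_cast h1

/-- the moments over differences -/
noncomputable def TT (S k : ℕ) (c : ℝ → ℂ) : ℝ := (∑ s ∈ range S, ∑ s' ∈ range S, ‖c ((s' : ℝ) - s)‖ ^ (2 * k)) / (S : ℝ) ^ 2

theorem stepA (I : Finset ℕ) (σ θ : ℕ → ℝ) (hσ : ∀ i, 0 ≤ σ i) (hσ1 : ∑ ξ ∈ I, σ ξ ≤ 1) (hθ0 : ∀ i ∈ I, 0 ≤ θ i)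
    (hθ1 : ∀ i ∈ I, θ i < 1) (Sa S : ℕ) (hSa : 1 ≤ Sa) (hS : Sa ≤ S) (κ : ℝ) (hκ : 0 ≤ κ) (G : Finset ℕ) (hG : G ⊆ I)
    (hbad : ∀ i, ∑ ξ ∈ (I \ G).filter (fun ξ => ⌊(Sa : ℝ) * θ ξ⌋₊ = i), σ ξ ≤ κ) (k : ℕ) :
    TT S k (cc I σ θ) ≤ TT S k (cc G σ θ) + 2 * k * Real.sqrt (10 * κ) := by
  have hS0 : (0 : ℝ) < S := by exact_mod_cast (by omega : 0 < S)
  set Bd := I \ G with hBd
  have hsplit : ∀ t, cc I σ θ t = cc G σ θ t + cc Bd σ θ t := by
    intro t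
    unfold cc
    rw [add_comm, sum_sdiff hG]
  have hG1 : ∑ ξ ∈ G, σ ξ ≤ 1 := (sum_le_sum_of_subset_of_nonneg hG fun i _ _ => hσ i).trans hσ1
  have hB1 : ∑ ξ ∈ Bd, σ ξ ≤ 1 :=
    (sum_le_sum_of_subset_of_nonneg sdiff_subset fun i _ _ => hσ i).trans hσ1
  have h1 : ∀ t, ‖cc I σ θ t‖ ^ (2 * k) ≤ ‖cc G σ θ t‖ ^ (2 * k) + 2 * k * ‖cc Bd σ θ t‖ := by
    intro t
    have a1 := cc_le I σ θ hσ hσ1 t
    have a2 := cc_le G σ θ hσ hG1 t
    have a3 := pow_sub_le (2 * k) ‖cc I σ θ t‖ ‖cc G σ θ t‖ (by rw [abs_of_nonneg (norm_nonneg _)]; exact a1)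
      (by rw [abs_of_nonneg (norm_nonneg _)]; exact a2)
    have a4 : |‖cc I σ θ t‖ - ‖cc G σ θ t‖| ≤ ‖cc Bd σ θ t‖ := by
      refine (abs_norm_sub_norm_le _ _).trans (le_of_eq ?_)
      rw [hsplit, add_sub_cancel_left]
    have a5 := (abs_le.mp a3).2
    have a6 : ((2 * k : ℕ) : ℝ) * |‖cc I σ θ t‖ - ‖cc G σ θ t‖| ≤ ((2 * k : ℕ) : ℝ) * ‖cc Bd σ θ t‖ :=
      mul_le_mul_of_nonneg_left a4 (Nat.cast_nonneg _)
    push_cast at a5 a6
    linarith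
  -- the mean of the bad part
  have h2 : ∑ s ∈ range S, ∑ s' ∈ range S, ‖cc Bd σ θ ((s' : ℝ) - s)‖ ^ 2 ≤ 10 * κ * (S : ℝ) ^ 2 := by
    rw [cc_sq]
    have b1 : ∀ ξ ∈ Bd, ∑ η ∈ Bd, σ ξ * (σ η * ‖∑ s ∈ range S, e ((s : ℝ) * (θ ξ - θ η))‖ ^ 2) ≤
        σ ξ * (10 * κ * (S : ℝ) ^ 2) := by
      intro ξ hξ
      rw [← mul_sum]
      refine mul_le_mul_of_nonneg_left ?_ (hσ ξ)
      have hξI : ξ ∈ I := (mem_sdiff.mp hξ).1
      have b2 := bad_sum Bd σ θ hσ (fun i hi => hθ0 i (mem_sdiff.mp hi).1) (fun i hi => hθ1 i (mem_sdiff.mp hi).1)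
        Sa S hSa hS κ hbad (θ ξ) (hθ0 ξ hξI) (hθ1 ξ hξI)
      have b3 : ∑ η ∈ Bd, σ η * ‖∑ s ∈ range S, e ((s : ℝ) * (θ ξ - θ η))‖ ^ 2 =
          (∑ η ∈ Bd, σ η * ker S (θ ξ - θ η)) * (S : ℝ) ^ 2 := by
        rw [sum_mul]
        refine sum_congr rfl fun η _ => ?_
        unfold ker
        rw [mul_assoc, div_mul_cancel₀ _ (by positivity)]
      rw [b3]
      exact mul_le_mul_of_nonneg_right b2 (by positivity)
    refine (sum_le_sum b1).trans ?_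
    rw [← sum_mul]
    calc (∑ ξ ∈ Bd, σ ξ) * (10 * κ * (S : ℝ) ^ 2) ≤ 1 * (10 * κ * (S : ℝ) ^ 2) :=
          mul_le_mul_of_nonneg_right hB1 (by positivity)
      _ = _ := one_mul _
  have h3 : ∑ s ∈ range S, ∑ s' ∈ range S, ‖cc Bd σ θ ((s' : ℝ) - s)‖ ≤ Real.sqrt (10 * κ) * (S : ℝ) ^ 2 := by
    rw [← sum_product' (range S) (range S) (fun s s' => ‖cc Bd σ θ ((s' : ℝ) - s)‖)]
    rw [← sum_product' (range S) (range S) (fun s s' => ‖cc Bd σ θ ((s' : ℝ) - s)‖ ^ 2)] at h2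
    have c1 := sq_sum_le_card_mul_sum_sq (s := range S ×ˢ range S)
      (f := fun x : ℕ × ℕ => ‖cc Bd σ θ ((x.2 : ℝ) - x.1)‖)
    rw [card_product, card_range] at c1
    have c2 : (∑ x ∈ range S ×ˢ range S, ‖cc Bd σ θ ((x.2 : ℝ) - x.1)‖) ^ 2 ≤
        (Real.sqrt (10 * κ) * (S : ℝ) ^ 2) ^ 2 := by
      refine c1.trans ?_
      rw [mul_pow, Real.sq_sqrt (by positivity)]
      push_cast
      calc (S : ℝ) * S * ∑ x ∈ range S ×ˢ range S, ‖cc Bd σ θ ((x.2 : ℝ) - x.1)‖ ^ 2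
          ≤ (S : ℝ) * S * (10 * κ * (S : ℝ) ^ 2) := mul_le_mul_of_nonneg_left h2 (by positivity)
        _ = 10 * κ * ((S : ℝ) ^ 2) ^ 2 := by ring
    have c3 := abs_le_of_sq_le_sq c2 (by positivity)
    exact (le_abs_self _).trans (by exact c3)
  unfold TT
  rw [div_add' _ _ _ (by positivity)]
  refine div_le_div_of_nonneg_right ?_ (by positivity)
  calc ∑ s ∈ range S, ∑ s' ∈ range S, ‖cc I σ θ ((s' : ℝ) - s)‖ ^ (2 * k)
      ≤ ∑ s ∈ range S, ∑ s' ∈ range S, (‖cc G σ θ ((s' : ℝ) - s)‖ ^ (2 * k) + 2 * k * ‖cc Bd σ θ ((s' : ℝ) - s)‖) :=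
        sum_le_sum fun s _ => sum_le_sum fun s' _ => h1 _
    _ = ∑ s ∈ range S, ∑ s' ∈ range S, ‖cc G σ θ ((s' : ℝ) - s)‖ ^ (2 * k) +
        2 * k * ∑ s ∈ range S, ∑ s' ∈ range S, ‖cc Bd σ θ ((s' : ℝ) - s)‖ := by
        simp only [sum_add_distrib, mul_sum]
    _ ≤ ∑ s ∈ range S, ∑ s' ∈ range S, ‖cc G σ θ ((s' : ℝ) - s)‖ ^ (2 * k) +
        2 * k * (Real.sqrt (10 * κ) * (S : ℝ) ^ 2) := by
        have : (0 : ℝ) ≤ 2 * k := by positivity
        linarith [mul_le_mul_of_nonneg_left h3 this]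
    _ = _ := by ring

end Pool.Agent.Q259.LU
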