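import Mathlib

set_option autoImplicit false

/-!
# The mean of `|cos|` on the circle
-/

namespace Pool.Agent.Q259.LU

open Finset MeasureTheory Real

lemma int_cos_pos : ∫ x in (-(1/4) : ℝ)..(1/4), |cos (2 * π * x)| = 1 / π := by
  have h1 : ∫ x in (-(1/4) : ℝ)..(1/4), |cos (2 * π * x)| = ∫ x in (-(1/4) : ℝ)..(1/4), cos (2 * π * x) := by
    refine intervalIntegral.integral_congr fun x hx => ?_
    rw [Set.uIcc_of_le (by norm_num)] at hx
    refine abs_of_nonneg (cos_nonneg_of_neg_pi_div_two_le_of_le ?_ ?_)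
    · nlinarith [pi_pos, hx.1]
    · nlinarith [pi_pos, hx.2]
  rw [h1, intervalIntegral.integral_comp_mul_left (fun x => cos x) (by positivity : (2 * π) ≠ 0), integral_cos]
  have e1 : 2 * π * (1 / 4) = π / 2 := by ring
  have e2 : 2 * π * -(1 / 4) = -(π / 2) := by ring
  rw [e1, e2, sin_neg, sin_pi_div_two, smul_eq_mul]
  field_simp
  norm_num

lemma int_cos_neg : ∫ x in (1/4 : ℝ)..(3/4), |cos (2 * π * x)| = 1 / π := by
  have h1 : ∫ x in (1/4 : ℝ)..(3/4), |cos (2 * π * x)| = ∫ x in (1/4 : ℝ)..(3/4), -cos (2 * π * x) := by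
    refine intervalIntegral.integral_congr fun x hx => ?_
    rw [Set.uIcc_of_le (by norm_num)] at hx
    refine abs_of_nonpos (cos_nonpos_of_pi_div_two_le_of_le ?_ ?_)
    · nlinarith [pi_pos, hx.1]
    · nlinarith [pi_pos, hx.2]
  rw [h1, intervalIntegral.integral_neg,
    intervalIntegral.integral_comp_mul_left (fun x => cos x) (by positivity : (2 * π) ≠ 0), integral_cos]
  have e1 : 2 * π * (3 / 4) = π / 2 + π := by ring
  have e2 : 2 * π * (1 / 4) = π / 2 := by ring
  rw [e1, e2, sin_add_pi, sin_pi_div_two, smul_eq_mul]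
  field_simp
  norm_num

lemma int_cos : ∫ x in (-(1/4) : ℝ)..(-(1/4) + 1), |cos (2 * π * x)| = 2 / π := by
  have hc : Continuous fun x : ℝ => |cos (2 * π * x)| := by fun_prop
  have e : (-(1/4) + 1 : ℝ) = 3/4 := by norm_num
  rw [e, ← intervalIntegral.integral_add_adjacent_intervals (hc.intervalIntegrable (-(1/4)) (1/4))
    (hc.intervalIntegrable (1/4) (3/4)), int_cos_pos, int_cos_neg]
  ring

/-- the mean of the real part of a character -/
theorem int_char (ω : ℂ) (hω : ‖ω‖ = 1) : ∫ t : UnitAddCircle, |(ω * ((fourier 1 t : ℂ) - 0)).re| = 2 / π := by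
  have h0 : ω = (fourier 1 ((Complex.arg ω / (2 * π) : ℝ) : UnitAddCircle) : ℂ) := by
    rw [fourier_coe_apply]
    have h1 := Complex.norm_mul_exp_arg_mul_I ω
    rw [hω, Complex.ofReal_one, one_mul] at h1
    rw [← h1]
    congr 1
    have : (π : ℂ) ≠ 0 := by exact_mod_cast pi_ne_zero
    have h2 : Complex.arg (Complex.exp (Complex.arg ω * Complex.I)) = Complex.arg ω := by rw [h1]
    rw [h2]
    push_cast
    field_simp
  have h1 : ∀ t : UnitAddCircle, |(ω * ((fourier 1 t : ℂ) - 0)).re| =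
      |(fourier 1 (t + ((Complex.arg ω / (2 * π) : ℝ) : UnitAddCircle)) : ℂ).re| := by
    intro t
    conv_lhs => rw [h0]
    rw [sub_zero, mul_comm]
    congr 2
    simp only [fourier_apply, one_smul]
    rw [AddCircle.toCircle_add]
    simp
  simp only [h1]
  rw [integral_add_right_eq_self (fun t : UnitAddCircle => |(fourier 1 t : ℂ).re|),
    ← UnitAddCircle.intervalIntegral_preimage (-(1/4))]
  rw [← int_cos]
  refine intervalIntegral.integral_congr fun x _ => ?_
  show |(fourier 1 (x : UnitAddCircle) : ℂ).re| = |cos (2 * π * x)|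
  congr 1
  rw [fourier_coe_apply]
  have : (2 * π * Complex.I * (1 : ℤ) * x / (1 : ℝ) : ℂ) = ((2 * π * x : ℝ) : ℂ) * Complex.I := by
    push_cast
    ring
  rw [this, Complex.exp_ofReal_mul_I_re]

end Pool.Agent.Q259.LU
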