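import Pool.Agent.Q259.LU.Zp

set_option autoImplicit false

/-!
# Autocorrelations of slowly varying periodic sequences
-/

namespace Pool.Agent.Q259.LU

open Finset

lemma count_sum (M p : ℕ) (hM : 1 ≤ M) (hp : 1 ≤ p) (G : ℕ → ℝ) (hG : ∀ x, |G x| ≤ 1) :
    |(∑ y ∈ range p, G (y * M / p)) / p - (∑ x ∈ range M, G x) / M| ≤ M / p := by
  have hM0 : (0 : ℝ) < M := by exact_mod_cast hM
  have hp0 : (0 : ℝ) < p := by exact_mod_cast hp
  set c : ℕ → ℕ := fun x => (x * p + (M - 1)) / M with hc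
  have hcle : ∀ x y, c x ≤ y ↔ x * p ≤ y * M := by
    intro x y
    simp only [hc]
    rw [← Nat.lt_succ_iff, Nat.div_lt_iff_lt_mul hM, Nat.succ_mul]
    constructor <;> intro h <;> omega
  have hfib : ∀ x ∈ range M, (range p).filter (fun y => y * M / p = x) = Ico (c x) (c (x + 1)) := by
    intro x hx
    rw [mem_range] at hx
    ext y
    rw [mem_filter, mem_range, mem_Ico, hcle, ← not_le, ← not_le (a := c (x + 1)), hcle]
    have h1 : y * M / p = x ↔ x * p ≤ y * M ∧ y * M < (x + 1) * p := by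
      rw [← Nat.le_div_iff_mul_le hp, ← Nat.div_lt_iff_lt_mul hp]
      omega
    rw [h1]
    constructor
    · rintro ⟨_, h2, h3⟩
      exact ⟨h2, by omega⟩
    · rintro ⟨h2, h3⟩
      refine ⟨?_, h2, by omega⟩
      intro h4
      apply h3
      calc (x + 1) * p ≤ M * p := Nat.mul_le_mul_right _ (by omega)
        _ = p * M := Nat.mul_comm _ _
        _ ≤ y * M := Nat.mul_le_mul_right _ h4
  have hmaps : ∀ y ∈ range p, y * M / p ∈ range M := by
    intro y hy
    rw [mem_range] at hy ⊢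
    rw [Nat.div_lt_iff_lt_mul hp, Nat.mul_comm M p]
    exact Nat.mul_lt_mul_of_pos_right hy hM
  have h1 : ∑ y ∈ range p, G (y * M / p) = ∑ x ∈ range M, ((c (x + 1) - c x : ℕ) : ℝ) * G x := by
    rw [← sum_fiberwise_of_maps_to hmaps]
    refine sum_congr rfl fun x hx => ?_
    have e1 : ∑ y ∈ (range p).filter (fun y => y * M / p = x), G (y * M / p) =
        ∑ y ∈ (range p).filter (fun y => y * M / p = x), G x := by
      refine sum_congr rfl fun y hy => ?_
      rw [(mem_filter.mp hy).2]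
    rw [e1, hfib x hx, sum_const, Nat.card_Ico, nsmul_eq_mul]
  have h2 : ∀ x, |((c (x + 1) - c x : ℕ) : ℝ) - p / M| ≤ 1 := by
    intro x
    have a1 : x * p ≤ c x * M := (hcle x (c x)).mp le_rfl
    have a2 : c x * M ≤ x * p + (M - 1) := Nat.div_mul_le_self _ _
    have a3 : (x + 1) * p ≤ c (x + 1) * M := (hcle (x + 1) (c (x + 1))).mp le_rfl
    have a4 : c (x + 1) * M ≤ (x + 1) * p + (M - 1) := Nat.div_mul_le_self _ _
    have a5 : c x ≤ c (x + 1) := by
      rw [hcle]
      calc x * p ≤ (x + 1) * p := Nat.mul_le_mul_right _ (by omega)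
        _ ≤ _ := a3
    rw [Nat.cast_sub a5]
    have b1 : (x : ℝ) * p ≤ c x * M := by exact_mod_cast a1
    have b2 : (c x : ℝ) * M ≤ x * p + (M - 1) := by
      have : ((c x * M : ℕ) : ℝ) ≤ ((x * p + (M - 1) : ℕ) : ℝ) := by exact_mod_cast a2
      push_cast [Nat.cast_sub hM] at this
      linarith
    have b3 : ((x : ℝ) + 1) * p ≤ c (x + 1) * M := by exact_mod_cast a3
    have b4 : (c (x + 1) : ℝ) * M ≤ (x + 1) * p + (M - 1) := by
      have : ((c (x + 1) * M : ℕ) : ℝ) ≤ (((x + 1) * p + (M - 1) : ℕ) : ℝ) := by exact_mod_cast a4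
      push_cast [Nat.cast_sub hM] at this
      linarith
    rw [abs_le]
    constructor
    · rw [neg_le_sub_iff_le_add, div_le_iff₀ hM0]
      nlinarith
    · rw [sub_le_iff_le_add, ← sub_le_iff_le_add', le_div_iff₀ hM0]
      nlinarith
  rw [h1]
  have h3 : (∑ x ∈ range M, ((c (x + 1) - c x : ℕ) : ℝ) * G x) / p - (∑ x ∈ range M, G x) / M =
      (∑ x ∈ range M, (((c (x + 1) - c x : ℕ) : ℝ) - p / M) * G x) / p := by
    simp only [sub_mul]
    rw [sum_sub_distrib, ← mul_sum, sub_div]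
    congr 1
    field_simp
  rw [h3, abs_div, abs_of_pos hp0]
  refine div_le_div_of_nonneg_right ?_ hp0.le
  refine (abs_sum_le_sum_abs _ _).trans ((sum_le_sum fun x _ => ?_ : _ ≤ ∑ _x ∈ range M, (1 : ℝ)).trans (le_of_eq ?_))
  · rw [abs_mul]
    exact mul_le_one₀ (h2 x) (abs_nonneg _) (hG x)
  · rw [sum_const, card_range, nsmul_eq_mul, mul_one]

lemma per_mul (g : ℕ → ℝ) (M : ℕ) (hper : ∀ x, g (x + M) = g x) (c x : ℕ) : g (x + c * M) = g x := by
  induction c with
  | zero => simp
  | succ c ih =>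
    rw [Nat.succ_mul, ← add_assoc, hper, ih]

theorem rnd (M : ℕ) (hM : 1 ≤ M) (g : ℕ → ℝ) (hg : ∀ x, |g x| ≤ 1) (hper : ∀ x, g (x + M) = g x) (τ : ℝ)
    (hτ : ∀ x, |g (x + 1) - g x| ≤ τ) (k : ℕ) (hk : 1 ≤ k) :
    (∑ t ∈ range M, ((∑ x ∈ range M, g x * g (x + t)) / M) ^ (2 * k)) / M ≤
      1 / (2 * k + 1) + 4 * k * ((∑ x ∈ range M, g x) / M) ^ 2 + 2 * k * τ := by
  have hM0 : (0 : ℝ) < M := by exact_mod_cast hM
  set A : ℕ → ℝ := fun t => (∑ x ∈ range M, g x * g (x + t)) / M with hA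
  set μ : ℝ := (∑ x ∈ range M, g x) / M with hμ
  have hgg : ∀ t x, |g x * g (x + t)| ≤ 1 := by
    intro t x
    rw [abs_mul]
    exact mul_le_one₀ (hg _) (abs_nonneg _) (hg _)
  have hA1 : ∀ t, |A t| ≤ 1 := by
    intro t
    simp only [hA]
    rw [abs_div, abs_of_pos hM0, div_le_one hM0]
    refine (abs_sum_le_sum_abs _ _).trans ((sum_le_sum fun x _ => hgg t x).trans (le_of_eq ?_))
    rw [sum_const, card_range, nsmul_eq_mul, mul_one]
  have hμ1 : |μ| ≤ 1 := by
    simp only [hμ]
    rw [abs_div, abs_of_pos hM0, div_le_one hM0]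
    refine (abs_sum_le_sum_abs _ _).trans ((sum_le_sum fun x _ => hg x).trans (le_of_eq ?_))
    rw [sum_const, card_range, nsmul_eq_mul, mul_one]
  refine le_of_forall_pos_le_add fun η hη => ?_
  obtain ⟨n0, hn0⟩ := exists_nat_ge (((M : ℝ) + 2 + 10 * k * M) / η)
  obtain ⟨p, hpn, hp⟩ := Nat.exists_infinite_primes (n0 + M + 3)
  have : NeZero p := ⟨hp.ne_zero⟩
  have hp0 : (0 : ℝ) < p := by exact_mod_cast hp.pos
  have hp3 : 3 ≤ p := by omega
  have hη' : ((M : ℝ) + 2 + 10 * k * M) / p ≤ η := by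
    rw [div_le_iff₀ hp0]
    rw [div_le_iff₀ hη] at hn0
    have : (n0 : ℝ) ≤ p := by exact_mod_cast (by omega : n0 ≤ p)
    nlinarith
  set F : ZMod p → ℝ := fun y => g (y.val * M / p) with hF
  have hzsum : ∀ H : ℕ → ℝ, ∑ y : ZMod p, H y.val = ∑ y ∈ range p, H y := by
    intro H
    obtain ⟨m, rfl⟩ := Nat.exists_eq_succ_of_ne_zero hp.ne_zero
    exact Fin.sum_univ_eq_sum_range H (m + 1)
  have hz := zp p hp hp3 F (fun x => hg _) k hk
  -- the autocorrelation of `F`
  have hAC : ∀ v : ZMod p, |AC p F v - A (v.val * M / p)| ≤ τ + M / p := by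
    intro v
    have h1 : ∑ y : ZMod p, F y * F (y + v) = ∑ y ∈ range p, g (y * M / p) * g ((y + v.val) * M / p) := by
      rw [← hzsum (fun y => g (y * M / p) * g ((y + v.val) * M / p))]
      refine sum_congr rfl fun y _ => ?_
      simp only [hF]
      congr 1
      rw [ZMod.val_add]
      have h2 : (y.val + v.val) * M / p = (y.val + v.val) % p * M / p + (y.val + v.val) / p * M := by
        conv_lhs => rw [← Nat.mod_add_div (y.val + v.val) p]
        rw [add_mul, mul_assoc, Nat.add_mul_div_left _ _ hp.pos]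
      rw [h2, per_mul g M hper]
    have h2 : |(∑ y ∈ range p, g (y * M / p) * g ((y + v.val) * M / p)) / p -
        (∑ y ∈ range p, g (y * M / p) * g (y * M / p + v.val * M / p)) / p| ≤ τ := by
      rw [← sub_div, ← sum_sub_distrib, abs_div, abs_of_pos hp0, div_le_iff₀ hp0]
      refine (abs_sum_le_sum_abs _ _).trans ((sum_le_sum fun y _ => ?_ : _ ≤ ∑ _y ∈ range p, τ).trans (le_of_eq ?_))
      · rw [← mul_sub, abs_mul]
        have h3 : |g ((y + v.val) * M / p) - g (y * M / p + v.val * M / p)| ≤ τ := by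
          have hτ0 : 0 ≤ τ := (abs_nonneg _).trans (hτ 0)
          rcases (by
            rw [add_mul]
            have e1 := Nat.div_add_mod (y * M) p
            have e2 := Nat.div_add_mod (v.val * M) p
            have e3 := Nat.mod_lt (y * M) hp.pos
            have e4 := Nat.mod_lt (v.val * M) hp.pos
            have e5 : (y * M + v.val * M) / p = y * M / p + v.val * M / p + (y * M % p + v.val * M % p) / p := by
              conv_lhs => rw [← e1, ← e2]
              rw [show p * (y * M / p) + y * M % p + (p * (v.val * M / p) + v.val * M % p) =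
                (y * M % p + v.val * M % p) + p * (y * M / p + v.val * M / p) by ring,
                Nat.add_mul_div_left _ _ hp.pos]
              omega
            rw [e5]
            have e6 : (y * M % p + v.val * M % p) / p < 2 := by
              rw [Nat.div_lt_iff_lt_mul hp.pos]
              omega
            generalize (y * M % p + v.val * M % p) / p = w at e6 ⊢
            generalize y * M / p = w1
            generalize v.val * M / p = w2
            omega : (y + v.val) * M / p = y * M / p + v.val * M / p ∨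
              (y + v.val) * M / p = y * M / p + v.val * M / p + 1) with h | h
          · rw [h, sub_self, abs_zero]; exact hτ0
          · rw [h]; exact hτ _
        calc |g (y * M / p)| * |g ((y + v.val) * M / p) - g (y * M / p + v.val * M / p)|
            ≤ 1 * |g ((y + v.val) * M / p) - g (y * M / p + v.val * M / p)| :=
              mul_le_mul_of_nonneg_right (hg _) (abs_nonneg _)
          _ ≤ τ := by rw [one_mul]; exact h3
      · rw [sum_const, card_range, nsmul_eq_mul, mul_comm]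
    have h3 := count_sum M p hM hp.pos (fun x => g x * g (x + v.val * M / p)) (fun x => hgg _ x)
    unfold AC
    rw [h1]
    have h4 := abs_sub_le ((∑ y ∈ range p, g (y * M / p) * g ((y + v.val) * M / p)) / p)
      ((∑ y ∈ range p, g (y * M / p) * g (y * M / p + v.val * M / p)) / p) (A (v.val * M / p))
    refine h4.trans (add_le_add h2 h3)
  have hAC1 : ∀ t, |AC p F t| ≤ 1 := by
    intro t
    unfold AC
    rw [abs_div, abs_of_pos hp0, div_le_one hp0]
    refine (abs_sum_le_sum_abs _ _).trans ((sum_le_sum fun x _ => ?_ : _ ≤ ∑ _x : ZMod p, (1 : ℝ)).trans (le_of_eq ?_))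
    · rw [abs_mul]
      exact mul_le_one₀ (hg _) (abs_nonneg _) (hg _)
    · rw [sum_const, card_univ, ZMod.card, nsmul_eq_mul, mul_one]
  -- the mean of `F`
  have hmean : ((∑ x, F x) / p) ^ 2 ≤ μ ^ 2 + 2 * (M / p) := by
    have h1 : ∑ x, F x = ∑ y ∈ range p, g (y * M / p) := hzsum (fun y => g (y * M / p))
    have h2 := count_sum M p hM hp.pos g hg
    rw [h1]
    set m : ℝ := (∑ y ∈ range p, g (y * M / p)) / p with hm
    have h3 : |m| ≤ 1 := by
      rw [hm, abs_div, abs_of_pos hp0, div_le_one hp0]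
      refine (abs_sum_le_sum_abs _ _).trans ((sum_le_sum fun x _ => hg _).trans (le_of_eq ?_))
      rw [sum_const, card_range, nsmul_eq_mul, mul_one]
    have h4 := pow_sub_le 2 m μ h3 hμ1
    have h5 : |m - μ| ≤ M / p := h2
    have h6 := (abs_le.mp h4).2
    push_cast at h6
    linarith
  -- transfer of the sum over shifts
  have hshift := count_sum M p hM hp.pos (fun t => A t ^ (2 * k)) (fun t => by
    rw [abs_pow]; exact pow_le_one₀ (abs_nonneg _) (hA1 t))
  have hsh2 : (∑ v ∈ range p, A (v * M / p) ^ (2 * k)) / p ≤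
      (∑ v : ZMod p, AC p F v ^ (2 * k)) / p + 2 * k * (τ + M / p) := by
    rw [← hzsum (fun v => A (v * M / p) ^ (2 * k)), div_add' _ _ _ hp0.ne']
    refine div_le_div_of_nonneg_right ?_ hp0.le
    have h1 : ∑ v : ZMod p, A (v.val * M / p) ^ (2 * k) ≤
        ∑ v : ZMod p, (AC p F v ^ (2 * k) + 2 * k * (τ + M / p)) := by
      refine sum_le_sum fun v _ => ?_
      have h2 := pow_sub_le (2 * k) (AC p F v) (A (v.val * M / p)) (hAC1 v) (hA1 _)
      have h3 := (abs_le.mp h2).1
      have h4 : ((2 * k : ℕ) : ℝ) * |AC p F v - A (v.val * M / p)| ≤ ((2 * k : ℕ) : ℝ) * (τ + M / p) :=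
        mul_le_mul_of_nonneg_left (hAC v) (Nat.cast_nonneg _)
      push_cast at h3 h4
      linarith
    refine h1.trans (le_of_eq ?_)
    rw [sum_add_distrib, sum_const, card_univ, ZMod.card, nsmul_eq_mul]
    ring
  have hz2 : (∑ v : ZMod p, AC p F v ^ (2 * k)) / p ≤ 1 / (2 * k + 1) + 2 / p + 4 * k * (μ ^ 2 + 2 * (M / p)) := by
    rw [div_le_iff₀ hp0]
    refine hz.trans ?_
    have hk0 : (0 : ℝ) ≤ 4 * k := by positivity
    have h1 : 4 * (k : ℝ) * ((∑ x, F x) / p) ^ 2 * p ≤ 4 * k * (μ ^ 2 + 2 * (M / p)) * p :=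
      mul_le_mul_of_nonneg_right (mul_le_mul_of_nonneg_left hmean hk0) hp0.le
    have h2 : (1 / (2 * (k : ℝ) + 1) + 2 / p + 4 * k * (μ ^ 2 + 2 * (M / p))) * p =
        p / (2 * k + 1) + 2 + 4 * k * (μ ^ 2 + 2 * (M / p)) * p := by
      field_simp
    rw [h2]
    linarith
  have h7 := (abs_le.mp hshift).1
  have h8 : (∑ t ∈ range M, A t ^ (2 * k)) / M ≤ (∑ v ∈ range p, A (v * M / p) ^ (2 * k)) / p + M / p := by
    linarith
  have h9 : ((M : ℝ) + 2 + 10 * k * M) / p = M / p + 2 / p + 10 * k * (M / p) := by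
    field_simp
  rw [h9] at hη'
  calc (∑ t ∈ range M, A t ^ (2 * k)) / M
      ≤ (∑ v ∈ range p, A (v * M / p) ^ (2 * k)) / p + M / p := h8
    _ ≤ ((∑ v : ZMod p, AC p F v ^ (2 * k)) / p + 2 * k * (τ + M / p)) + M / p := by linarith
    _ ≤ ((1 / (2 * k + 1) + 2 / p + 4 * k * (μ ^ 2 + 2 * (M / p))) + 2 * k * (τ + M / p)) + M / p := by linarith
    _ = 1 / (2 * k + 1) + 4 * k * μ ^ 2 + 2 * k * τ + (M / p + 2 / p + 10 * k * (M / p)) := by ring
    _ ≤ 1 / (2 * k + 1) + 4 * k * μ ^ 2 + 2 * k * τ + η := by linarith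

end Pool.Agent.Q259.LU
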