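import Pool.Agent.Q259.LU.Rel
import Pool.Agent.Q259.LU.Rnd

set_option autoImplicit false

/-!
# Spectral identities
-/

namespace Pool.Agent.Q259.LU

open Finset Pool.Agent.H332R2.Lit

/-- Parseval, bilinear form -/
lemma parsB (a b : ℕ → ℂ) (M : ℕ) :
    ∑ k ∈ range M, (∑ x ∈ range M, a x * e ((k : ℝ) * x / M)) *
      (starRingEnd ℂ) (∑ x ∈ range M, b x * e ((k : ℝ) * x / M)) =
      M * ∑ x ∈ range M, a x * (starRingEnd ℂ) (b x) := by
  simp only [map_sum, map_mul, sum_mul_sum]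
  rw [sum_comm, mul_sum]
  refine sum_congr rfl fun x hx => ?_
  rw [sum_comm]
  have e2 : ∀ y ∈ range M, ∑ k ∈ range M, a x * e ((k : ℝ) * x / M) *
      ((starRingEnd ℂ) (b y) * (starRingEnd ℂ) (e ((k : ℝ) * y / M))) =
      a x * (starRingEnd ℂ) (b y) * (if x = y then (M : ℂ) else 0) := by
    intro y hy
    rw [mem_range] at hx hy
    rw [← orth2 M x y (by omega) (by omega), mul_sum]
    refine sum_congr rfl fun k _ => ?_
    ring
  rw [sum_congr rfl e2]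
  simp only [mul_ite, mul_zero]
  rw [sum_ite_eq, if_pos hx]
  ring

/-- the transform of a shifted sequence -/
lemma dft_shift (α : ℕ → ℂ) (ℓ Y i : ℕ) (hi : i ≤ ℓ) (hα : ∀ x, x < ℓ → α x = 0) (hα' : ∀ x, Y ≤ x → α x = 0) (k : ℕ) :
    ∑ z ∈ range Y, α (z + i) * e ((k : ℝ) * z / Y) = e (-((i : ℝ) * (k / Y))) * ∑ x ∈ range Y, α x * e ((k : ℝ) * x / Y) := by
  rw [mul_sum]
  have e1 : ∑ z ∈ range Y, α (z + i) * e ((k : ℝ) * z / Y) =
      ∑ x ∈ Ico i (Y + i), α x * e ((k : ℝ) * ((x : ℝ) - i) / Y) := by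
    rw [sum_Ico_eq_sum_range]
    simp only [Nat.add_sub_cancel]
    refine sum_congr rfl fun z _ => ?_
    rw [add_comm i z]
    congr 2
    push_cast
    ring
  have e2 : ∑ x ∈ Ico i (Y + i), α x * e ((k : ℝ) * ((x : ℝ) - i) / Y) =
      ∑ x ∈ range (Y + i), α x * e ((k : ℝ) * ((x : ℝ) - i) / Y) := by
    refine sum_subset ?_ ?_
    · intro x hx
      rw [mem_Ico] at hx
      rw [mem_range]; exact hx.2
    · intro x hx hx'
      rw [mem_range] at hx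
      rw [mem_Ico] at hx'
      rw [hα x (by omega)]
      ring
  have e3 : ∑ x ∈ range Y, α x * e ((k : ℝ) * ((x : ℝ) - i) / Y) =
      ∑ x ∈ range (Y + i), α x * e ((k : ℝ) * ((x : ℝ) - i) / Y) := by
    refine sum_subset (range_subset_range.mpr (by omega)) ?_
    intro x _ hx'
    rw [mem_range] at hx'
    rw [hα' x (by omega)]
    ring
  rw [e1, e2, ← e3]
  refine sum_congr rfl fun x _ => ?_
  have e4 : e ((k : ℝ) * ((x : ℝ) - i) / Y) = e (-((i : ℝ) * (k / Y))) * e ((k : ℝ) * x / Y) := by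
    rw [← e_add]
    congr 1
    ring
  rw [e4]
  ring

/-- the spectral weights -/
noncomputable def sg (a : ℕ → ℝ) (W R : ℕ) (ξ : ℕ) : ℝ :=
  ‖∑ x ∈ range W, (a x : ℂ) * e ((ξ : ℝ) * x / W)‖ ^ 2 / (W * R)

lemma sg_nonneg (a : ℕ → ℝ) (W R ξ : ℕ) : 0 ≤ sg a W R ξ := by unfold sg; positivity

lemma sg_sum (a : ℕ → ℝ) (W R : ℕ) (hW : 1 ≤ W) (hR : 1 ≤ R) (ha : ∑ x ∈ range W, a x ^ 2 ≤ R) :
    ∑ ξ ∈ range W, sg a W R ξ ≤ 1 := by
  have hW0 : (0 : ℝ) < W := by exact_mod_cast hW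
  have hR0 : (0 : ℝ) < R := by exact_mod_cast hR
  unfold sg
  rw [← sum_div, pars _ W W le_rfl]
  have : ∑ x ∈ range W, ‖((a x : ℝ) : ℂ)‖ ^ 2 = ∑ x ∈ range W, a x ^ 2 := by
    refine sum_congr rfl fun x _ => ?_
    rw [Complex.norm_real, Real.norm_eq_abs, sq_abs]
  rw [this, div_le_one (by positivity)]
  exact mul_le_mul_of_nonneg_left ha hW0.le

/-- the spectral identity -/
lemma spec (a : ℕ → ℝ) (ℓ W R : ℕ) (hW : 1 ≤ W) (hR : 1 ≤ R) (ha : ∀ x, x < ℓ → a x = 0) (ha' : ∀ x, W ≤ x → a x = 0)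
    (i j : ℕ) (hi : i ≤ ℓ) (hj : j ≤ ℓ) :
    (((∑ z ∈ range W, a (z + i) * a (z + j)) / R : ℝ) : ℂ) =
      cc (range W) (sg a W R) (fun ξ => (ξ : ℝ) / W) ((j : ℝ) - i) := by
  have hW0 : (W : ℂ) ≠ 0 := by
    have : W ≠ 0 := by omega
    exact_mod_cast this
  have hR0 : (R : ℂ) ≠ 0 := by
    have : R ≠ 0 := by omega
    exact_mod_cast this
  have hα : ∀ x, x < ℓ → ((a x : ℝ) : ℂ) = 0 := fun x hx => by rw [ha x hx]; simp
  have hα' : ∀ x, W ≤ x → ((a x : ℝ) : ℂ) = 0 := fun x hx => by rw [ha' x hx]; simp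
  have h1 := parsB (fun z => ((a (z + i) : ℝ) : ℂ)) (fun z => ((a (z + j) : ℝ) : ℂ)) W
  have h2 : ∀ k : ℕ, ∑ x ∈ range W, ((a (x + i) : ℝ) : ℂ) * e ((k : ℝ) * x / W) = _ :=
    fun k => dft_shift (fun x => ((a x : ℝ) : ℂ)) ℓ W i hi hα hα' k
  have h3 : ∀ k : ℕ, ∑ x ∈ range W, ((a (x + j) : ℝ) : ℂ) * e ((k : ℝ) * x / W) = _ :=
    fun k => dft_shift (fun x => ((a x : ℝ) : ℂ)) ℓ W j hj hα hα' k
  simp only [h2, h3] at h1
  have h4 : ∑ x ∈ range W, ((a (x + i) : ℝ) : ℂ) * (starRingEnd ℂ) ((a (x + j) : ℝ) : ℂ) =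
      ((∑ z ∈ range W, a (z + i) * a (z + j) : ℝ) : ℂ) := by
    push_cast
    refine sum_congr rfl fun x _ => ?_
    rw [Complex.conj_ofReal]
  rw [h4] at h1
  have h5 : ((∑ z ∈ range W, a (z + i) * a (z + j) : ℝ) : ℂ) = (∑ k ∈ range W,
      ((‖∑ x ∈ range W, ((a x : ℝ) : ℂ) * e ((k : ℝ) * x / W)‖ ^ 2 : ℝ) : ℂ) * e (((j : ℝ) - i) * (k / W))) / W := by
    rw [eq_div_iff hW0, mul_comm, ← h1]
    refine sum_congr rfl fun k _ => ?_
    rw [map_mul, conj_e]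
    have : e (((j : ℝ) - i) * (k / W)) = e (-((i : ℝ) * (k / W))) * e (- -((j : ℝ) * (k / W))) := by
      rw [← e_add]; congr 1; ring
    rw [this]
    have h6 : ((‖∑ x ∈ range W, ((a x : ℝ) : ℂ) * e ((k : ℝ) * x / W)‖ ^ 2 : ℝ) : ℂ) =
        (∑ x ∈ range W, ((a x : ℝ) : ℂ) * e ((k : ℝ) * x / W)) *
        (starRingEnd ℂ) (∑ x ∈ range W, ((a x : ℝ) : ℂ) * e ((k : ℝ) * x / W)) := by
      rw [Complex.mul_conj, Complex.normSq_eq_norm_sq]
    rw [h6]
    ring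
  rw [Complex.ofReal_div, h5]
  unfold cc sg
  rw [sum_div, sum_div]
  refine sum_congr rfl fun k _ => ?_
  push_cast
  field_simp

/-- the transform of a shifted periodic sequence -/
lemma dft_per (F : ℕ → ℂ) (M : ℕ) (hM : 1 ≤ M) (hF : ∀ x, F (x + M) = F x) (t l : ℕ) :
    ∑ x ∈ range M, F (x + t) * e ((l : ℝ) * x / M) = e (-((l : ℝ) * t / M)) * ∑ x ∈ range M, F x * e ((l : ℝ) * x / M) := by
  have hM0 : (M : ℝ) ≠ 0 := by
    have : M ≠ 0 := by omega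
    exact_mod_cast this
  set H : ℕ → ℂ := fun x => F x * e ((l : ℝ) * x / M) with hH
  have hHp : ∀ x, H (x + M) = H x := by
    intro x
    simp only [hH]
    rw [hF]
    have : (l : ℝ) * ((x + M : ℕ) : ℝ) / M = (l : ℝ) * x / M + ((l : ℤ) : ℝ) := by
      push_cast
      field_simp
    rw [this, e_add, e_int, mul_one]
  have h1 : ∑ x ∈ range M, H (x + t) = ∑ x ∈ range M, H x := by
    induction t with
    | zero => rfl
    | succ t ih =>
      rw [← ih]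
      have e1 := sum_range_succ (fun x => H (x + t)) M
      have e2 := sum_range_succ' (fun x => H (x + t)) M
      rw [e1] at e2
      have e3 : H (M + t) = H (0 + t) := by rw [zero_add, add_comm M t, hHp]
      rw [e3] at e2
      have e4 : ∑ x ∈ range M, H (x + (t + 1)) = ∑ x ∈ range M, H (x + 1 + t) :=
        sum_congr rfl fun x _ => by congr 1; omega
      rw [e4]
      exact (add_right_cancel e2).symm
  rw [mul_sum]
  have h2 : ∑ x ∈ range M, F (x + t) * e ((l : ℝ) * x / M) = ∑ x ∈ range M, e (-((l : ℝ) * t / M)) * H (x + t) := by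
    refine sum_congr rfl fun x _ => ?_
    simp only [hH]
    have : e ((l : ℝ) * x / M) = e (-((l : ℝ) * t / M)) * e ((l : ℝ) * ((x + t : ℕ) : ℝ) / M) := by
      rw [← e_add]
      congr 1
      push_cast
      ring
    rw [this]
    ring
  rw [h2, ← mul_sum, h1, mul_sum]

/-- the autocorrelation of a smoothed character on a cycle -/
lemma cyc_id (M h : ℕ) (hM : 1 ≤ M) (hh : 1 ≤ h) (φ : ℝ) (t : ℕ) :
    (∑ x ∈ range M, (∑ i ∈ range h, e (φ * ((x + t + i) % M : ℕ))) *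
      (starRingEnd ℂ) (∑ i ∈ range h, e (φ * ((x + i) % M : ℕ)))) / ((M : ℂ) * (h : ℂ) ^ 2) =
      ∑ l ∈ range M, ((ker h (-((l : ℝ) / M)) * ker M (φ + l / M) : ℝ) : ℂ) * e ((t : ℝ) * (-(l : ℤ) : ℤ) / M) := by
  have hM0 : (M : ℂ) ≠ 0 := by
    have : M ≠ 0 := by omega
    exact_mod_cast this
  have hh0 : (h : ℂ) ≠ 0 := by
    have : h ≠ 0 := by omega
    exact_mod_cast this
  set E : ℕ → ℂ := fun y => e (φ * ((y % M : ℕ) : ℝ)) with hE
  have hEp : ∀ x, E (x + M) = E x := fun x => by simp only [hE]; rw [Nat.add_mod_right]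
  set F : ℕ → ℂ := fun x => ∑ i ∈ range h, E (x + i) with hF
  have hFp : ∀ x, F (x + M) = F x := by
    intro x
    simp only [hF]
    refine sum_congr rfl fun i _ => ?_
    rw [show x + M + i = x + i + M by omega, hEp]
  have h1 := parsB (fun x => F (x + t)) F M
  have h2 : ∀ l : ℕ, ∑ x ∈ range M, F x * e ((l : ℝ) * x / M) =
      (∑ i ∈ range h, e ((i : ℝ) * (-((l : ℝ) / M)))) * ∑ y ∈ range M, e ((y : ℝ) * (φ + l / M)) := by
    intro l
    simp only [hF, sum_mul]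
    rw [sum_comm]
    refine sum_congr rfl fun i _ => ?_
    rw [dft_per E M hM hEp i l]
    congr 1
    · congr 1
      ring
    · refine sum_congr rfl fun y hy => ?_
      rw [mem_range] at hy
      simp only [hE]
      rw [Nat.mod_eq_of_lt hy, ← e_add]
      congr 1
      ring
  have h3 : ∑ l ∈ range M, (∑ x ∈ range M, F (x + t) * e ((l : ℝ) * x / M)) *
      (starRingEnd ℂ) (∑ x ∈ range M, F x * e ((l : ℝ) * x / M)) =
      ∑ l ∈ range M, ((ker h (-((l : ℝ) / M)) * ker M (φ + l / M) : ℝ) : ℂ) * e ((t : ℝ) * (-(l : ℤ) : ℤ) / M) *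
        ((h : ℂ) ^ 2 * (M : ℂ) ^ 2) := by
    refine sum_congr rfl fun l _ => ?_
    rw [dft_per F M hM hFp t l]
    have e1 : ∀ z w : ℂ, z * w * (starRingEnd ℂ) w = z * ((‖w‖ ^ 2 : ℝ) : ℂ) := by
      intro z w
      rw [mul_assoc, Complex.mul_conj, Complex.normSq_eq_norm_sq]
    rw [e1, h2, norm_mul]
    unfold ker
    have e2 : e ((t : ℝ) * (-(l : ℤ) : ℤ) / M) = e (-((l : ℝ) * t / M)) := by
      congr 1
      push_cast
      ring
    rw [e2]
    generalize ‖∑ i ∈ range h, e ((i : ℝ) * (-((l : ℝ) / M)))‖ = p1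
    generalize ‖∑ y ∈ range M, e ((y : ℝ) * (φ + l / M))‖ = p2
    generalize e (-((l : ℝ) * t / M)) = p3
    push_cast
    field_simp
  rw [h3] at h1
  have h4 : ∑ x ∈ range M, (∑ i ∈ range h, e (φ * ((x + t + i) % M : ℕ))) *
      (starRingEnd ℂ) (∑ i ∈ range h, e (φ * ((x + i) % M : ℕ))) =
      ∑ x ∈ range M, F (x + t) * (starRingEnd ℂ) (F x) := rfl
  rw [h4, div_eq_iff (by positivity)]
  rw [← sum_mul] at h1
  have h5 : (M : ℂ) * ∑ x ∈ range M, F (x + t) * (starRingEnd ℂ) (F x) = (M : ℂ) *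
      ((∑ l ∈ range M, ((ker h (-((l : ℝ) / M)) * ker M (φ + l / M) : ℝ) : ℂ) * e ((t : ℝ) * (-(l : ℤ) : ℤ) / M)) *
        ((M : ℂ) * (h : ℂ) ^ 2)) := by
    rw [← h1]
    ring
  exact mul_left_cancel₀ hM0 h5

end Pool.Agent.Q259.LU
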