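import Pool.Agent.Q259.LU.Cyc

set_option autoImplicit false

/-!
# Cyclic averages over windows
-/

namespace Pool.Agent.Q259.LU

open Finset Pool.Agent.H332R2.Lit

lemma per_sh {T : Type*} [AddCommGroup T] (H : ℕ → T) (M : ℕ) (hH : ∀ x, H (x + M) = H x) (t : ℕ) :
    ∑ x ∈ range M, H (x + t) = ∑ x ∈ range M, H x := by
  induction t with
  | zero => rfl
  | succ t ih =>
    rw [← ih]
    have e1 := sum_range_succ (fun x => H (x + t)) M
    have e2 := sum_range_succ' (fun x => H (x + t)) M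
    rw [e1] at e2
    have e3 : H (M + t) = H (0 + t) := by rw [zero_add, add_comm M t, hH]
    rw [e3] at e2
    have e4 : ∑ x ∈ range M, H (x + (t + 1)) = ∑ x ∈ range M, H (x + 1 + t) :=
      sum_congr rfl fun x _ => by congr 1; omega
    rw [e4]
    exact (add_right_cancel e2).symm

/-- smoothed cyclic piece of a progression -/
noncomputable def gm (a : ℕ → ℝ) (d M h m : ℕ) (x : ℕ) : ℝ := (∑ i ∈ range h, a (m + d * ((x + i) % M))) / h

/-- its autocorrelation -/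
noncomputable def Am (a : ℕ → ℝ) (d M h m : ℕ) (t : ℕ) : ℝ :=
  (∑ x ∈ range M, gm a d M h m x * gm a d M h m (x + t)) / M

lemma gm_le (a : ℕ → ℝ) (ha : ∀ x, |a x| ≤ 1) (d M h m : ℕ) (hh : 1 ≤ h) (x : ℕ) : |gm a d M h m x| ≤ 1 := by
  have hh0 : (0 : ℝ) < h := by exact_mod_cast hh
  unfold gm
  rw [abs_div, abs_of_pos hh0, div_le_one hh0]
  refine (abs_sum_le_sum_abs _ _).trans ((sum_le_sum fun i _ => ha _).trans (le_of_eq ?_))
  simp

lemma gm_per (a : ℕ → ℝ) (d M h m x : ℕ) : gm a d M h m (x + M) = gm a d M h m x := by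
  unfold gm
  congr 1
  refine sum_congr rfl fun i _ => ?_
  rw [show x + M + i = x + i + M by omega, Nat.add_mod_right]

lemma gm_lip (a : ℕ → ℝ) (ha : ∀ x, |a x| ≤ 1) (d M h m : ℕ) (hh : 1 ≤ h) (x : ℕ) :
    |gm a d M h m (x + 1) - gm a d M h m x| ≤ 2 / h := by
  have hh0 : (0 : ℝ) < h := by exact_mod_cast hh
  unfold gm
  rw [← sub_div, abs_div, abs_of_pos hh0]
  refine div_le_div_of_nonneg_right ?_ hh0.le
  have e1 := sum_range_succ (fun i => a (m + d * ((x + i) % M))) h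
  have e2 := sum_range_succ' (fun i => a (m + d * ((x + i) % M))) h
  rw [e1] at e2
  have e3 : ∑ i ∈ range h, a (m + d * ((x + 1 + i) % M)) = ∑ i ∈ range h, a (m + d * ((x + (i + 1)) % M)) :=
    sum_congr rfl fun i _ => by rw [show x + 1 + i = x + (i + 1) by omega]
  rw [e3]
  have e4 : ∑ i ∈ range h, a (m + d * ((x + (i + 1)) % M)) - ∑ i ∈ range h, a (m + d * ((x + i) % M)) =
      a (m + d * ((x + h) % M)) - a (m + d * ((x + 0) % M)) := by linarith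
  rw [e4]
  refine (abs_sub _ _).trans ?_
  linarith [ha (m + d * ((x + h) % M)), ha (m + d * ((x + 0) % M))]

lemma gm_sum (a : ℕ → ℝ) (d M h m : ℕ) (hh : 1 ≤ h) :
    ∑ x ∈ range M, gm a d M h m x = ∑ x ∈ range M, a (m + d * x) := by
  have hh0 : (h : ℝ) ≠ 0 := by
    have : h ≠ 0 := by omega
    exact_mod_cast this
  unfold gm
  rw [← sum_div, sum_comm, div_eq_iff hh0]
  have : ∀ i ∈ range h, ∑ x ∈ range M, a (m + d * ((x + i) % M)) = ∑ x ∈ range M, a (m + d * x) := by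
    intro i _
    rw [per_sh (fun x => a (m + d * (x % M))) M (fun x => by rw [Nat.add_mod_right]) i]
    refine sum_congr rfl fun x hx => ?_
    rw [mem_range] at hx
    rw [Nat.mod_eq_of_lt hx]
  rw [sum_congr rfl this, sum_const, card_range, nsmul_eq_mul, mul_comm]

lemma Am_le (a : ℕ → ℝ) (ha : ∀ x, |a x| ≤ 1) (d M h m : ℕ) (hh : 1 ≤ h) (t : ℕ) : |Am a d M h m t| ≤ 1 := by
  unfold Am
  rcases Nat.eq_zero_or_pos M with h0 | h0
  · subst h0
    simp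
  have hM0 : (0 : ℝ) < M := by exact_mod_cast h0
  rw [abs_div, abs_of_pos hM0, div_le_one hM0]
  refine (abs_sum_le_sum_abs _ _).trans ((sum_le_sum fun x _ => ?_ : _ ≤ ∑ _x ∈ range M, (1 : ℝ)).trans (le_of_eq ?_))
  · rw [abs_mul]
    exact mul_le_one₀ (gm_le a ha d M h m hh _) (abs_nonneg _) (gm_le a ha d M h m hh _)
  · simp

theorem tilde (a : ℕ → ℝ) (ℓ W R : ℕ) (hW : 1 ≤ W) (hR : 1 ≤ R) (ha : ∀ x, x < ℓ → a x = 0) (ha' : ∀ x, W ≤ x → a x = 0)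
    (d M h : ℕ) (hM : 1 ≤ M) (hh : 1 ≤ h) (hdM : d * M ≤ ℓ) (t : ℕ) :
    (((∑ m ∈ range W, Am a d M h m t) / R : ℝ) : ℂ) = ∑ l ∈ range M,
      ((∑ ξ ∈ range W, sg a W R ξ * (ker h (-((l : ℝ) / M)) * ker M ((d : ℝ) * ((ξ : ℝ) / W) + l / M)) : ℝ) : ℂ) *
        e ((t : ℝ) * (-(l : ℤ) : ℤ) / M) := by
  have e0 : (∑ m ∈ range W, Am a d M h m t) / R = (∑ x ∈ range M, ∑ i ∈ range h, ∑ i' ∈ range h,
      (∑ m ∈ range W, a (m + d * ((x + i) % M)) * a (m + d * ((x + t + i') % M))) / R) / (M * (h : ℝ) ^ 2) := by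
    have e1 : ∀ m, Am a d M h m t = (∑ x ∈ range M, ∑ i ∈ range h, ∑ i' ∈ range h,
        a (m + d * ((x + i) % M)) * a (m + d * ((x + t + i') % M))) / (M * (h : ℝ) ^ 2) := by
      intro m
      unfold Am gm
      have e2 : ∀ x, (∑ i ∈ range h, a (m + d * ((x + i) % M))) / h * ((∑ i ∈ range h, a (m + d * ((x + t + i) % M))) / h) =
          (∑ i ∈ range h, ∑ i' ∈ range h, a (m + d * ((x + i) % M)) * a (m + d * ((x + t + i') % M))) / (h : ℝ) ^ 2 := by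
        intro x
        rw [div_mul_div_comm, sum_mul_sum, sq]
      simp only [e2]
      rw [← sum_div, div_div, mul_comm ((h : ℝ) ^ 2)]
    simp only [e1]
    rw [← sum_div, div_div, mul_comm ((M : ℝ) * (h : ℝ) ^ 2) (R : ℝ), ← div_div]
    congr 1
    rw [sum_comm, sum_div]
    refine sum_congr rfl fun x _ => ?_
    rw [sum_comm, sum_div]
    refine sum_congr rfl fun i _ => ?_
    rw [sum_comm, sum_div]
  rw [e0]
  have hmod : ∀ y, d * (y % M) ≤ ℓ := fun y =>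
    (Nat.mul_le_mul_left d (Nat.mod_lt y hM).le).trans hdM
  have e3 : ∀ x i i' : ℕ, (((∑ m ∈ range W, a (m + d * ((x + i) % M)) * a (m + d * ((x + t + i') % M))) / R : ℝ) : ℂ) =
      ∑ ξ ∈ range W, ((sg a W R ξ : ℝ) : ℂ) * (e ((d : ℝ) * ((ξ : ℝ) / W) * ((x + t + i') % M : ℕ)) *
        (starRingEnd ℂ) (e ((d : ℝ) * ((ξ : ℝ) / W) * ((x + i) % M : ℕ)))) := by
    intro x i i'
    rw [spec a ℓ W R hW hR ha ha' _ _ (hmod _) (hmod _)]
    unfold cc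
    refine sum_congr rfl fun ξ _ => ?_
    congr 1
    rw [conj_e, ← e_add]
    congr 1
    push_cast
    ring
  rw [Complex.ofReal_div]
  have e4 : ((∑ x ∈ range M, ∑ i ∈ range h, ∑ i' ∈ range h,
      (∑ m ∈ range W, a (m + d * ((x + i) % M)) * a (m + d * ((x + t + i') % M))) / R : ℝ) : ℂ) =
      ∑ ξ ∈ range W, ((sg a W R ξ : ℝ) : ℂ) * ∑ x ∈ range M,
        (∑ i ∈ range h, e ((d : ℝ) * ((ξ : ℝ) / W) * ((x + t + i) % M : ℕ))) *
        (starRingEnd ℂ) (∑ i ∈ range h, e ((d : ℝ) * ((ξ : ℝ) / W) * ((x + i) % M : ℕ))) := by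
    rw [Complex.ofReal_sum]
    simp only [Complex.ofReal_sum, e3]
    simp only [mul_sum]
    rw [sum_comm (s := range W)]
    refine sum_congr rfl fun x _ => ?_
    have e5 : ∀ ξ, ((sg a W R ξ : ℝ) : ℂ) * ((∑ i ∈ range h, e ((d : ℝ) * ((ξ : ℝ) / W) * ((x + t + i) % M : ℕ))) *
        (starRingEnd ℂ) (∑ i ∈ range h, e ((d : ℝ) * ((ξ : ℝ) / W) * ((x + i) % M : ℕ)))) =
        ∑ i ∈ range h, ∑ i' ∈ range h, ((sg a W R ξ : ℝ) : ℂ) * (e ((d : ℝ) * ((ξ : ℝ) / W) * ((x + t + i') % M : ℕ)) *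
        (starRingEnd ℂ) (e ((d : ℝ) * ((ξ : ℝ) / W) * ((x + i) % M : ℕ)))) := by
      intro ξ
      rw [map_sum, sum_mul_sum, sum_comm, mul_sum]
      refine sum_congr rfl fun i _ => ?_
      rw [mul_sum]
    rw [sum_congr rfl fun i _ => sum_comm, sum_comm]
    refine sum_congr rfl fun ξ _ => ?_
    rw [e5]
  rw [e4, sum_div]
  have e6 : ∀ ξ ∈ range W, ((sg a W R ξ : ℝ) : ℂ) * (∑ x ∈ range M,
        (∑ i ∈ range h, e ((d : ℝ) * ((ξ : ℝ) / W) * ((x + t + i) % M : ℕ))) *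
        (starRingEnd ℂ) (∑ i ∈ range h, e ((d : ℝ) * ((ξ : ℝ) / W) * ((x + i) % M : ℕ)))) / ((M * (h : ℝ) ^ 2 : ℝ) : ℂ) =
      ∑ l ∈ range M, ((sg a W R ξ * (ker h (-((l : ℝ) / M)) * ker M ((d : ℝ) * ((ξ : ℝ) / W) + l / M)) : ℝ) : ℂ) *
        e ((t : ℝ) * (-(l : ℤ) : ℤ) / M) := by
    intro ξ _
    have e7 := cyc_id M h hM hh ((d : ℝ) * ((ξ : ℝ) / W)) t
    have e8 : ((M * (h : ℝ) ^ 2 : ℝ) : ℂ) = (M : ℂ) * (h : ℂ) ^ 2 := by push_cast; rfl
    rw [e8, mul_div_assoc, e7, mul_sum]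
    refine sum_congr rfl fun l _ => ?_
    push_cast
    ring
  rw [sum_congr rfl e6, sum_comm]
  refine sum_congr rfl fun l _ => ?_
  rw [← sum_mul, Complex.ofReal_sum]

lemma ker_near (S : ℕ) (hS : 1 ≤ S) (x y : ℝ) (r : ℤ) (h : |x - r| ≤ y) : 1 - 4 * Real.pi * S * y ≤ ker S x := by
  have hS0 : (0 : ℝ) < S := by exact_mod_cast hS
  have hy : 0 ≤ y := (abs_nonneg _).trans h
  have h1 : ‖∑ s ∈ range S, e ((s : ℝ) * x) - (S : ℂ)‖ ≤ 2 * Real.pi * S * y * S := by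
    have e1 : (S : ℂ) = ∑ s ∈ range S, e (((s : ℤ) * r : ℤ) : ℝ) := by
      simp only [e_int]
      simp
    rw [e1, ← sum_sub_distrib]
    refine (norm_sum_le _ _).trans ((sum_le_sum fun s hs => ?_ : _ ≤ ∑ _s ∈ range S, 2 * Real.pi * S * y).trans (le_of_eq ?_))
    · refine (e_lip _ _).trans ?_
      rw [mem_range] at hs
      have e2 : (s : ℝ) * x - (((s : ℤ) * r : ℤ) : ℝ) = s * (x - r) := by push_cast; ring
      rw [e2, abs_mul, abs_of_nonneg (Nat.cast_nonneg s)]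
      have e3 : (s : ℝ) * |x - r| ≤ S * y :=
        mul_le_mul (by exact_mod_cast hs.le) h (abs_nonneg _) hS0.le
      calc 2 * Real.pi * ((s : ℝ) * |x - r|) ≤ 2 * Real.pi * (S * y) :=
            mul_le_mul_of_nonneg_left e3 (by positivity)
        _ = _ := by ring
    · rw [sum_const, card_range, nsmul_eq_mul]
      ring
  by_cases hc : 1 - 2 * Real.pi * S * y ≤ 0
  · have := ker_nonneg S x
    have h2 : 0 ≤ 2 * Real.pi * S * y := by positivity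
    linarith
  · push Not at hc
    have h2 : (S : ℝ) * (1 - 2 * Real.pi * S * y) ≤ ‖∑ s ∈ range S, e ((s : ℝ) * x)‖ := by
      have e1 := norm_sub_norm_le (S : ℂ) ((S : ℂ) - ∑ s ∈ range S, e ((s : ℝ) * x))
      rw [sub_sub_cancel, Complex.norm_natCast, norm_sub_rev (S : ℂ) (∑ s ∈ range S, e ((s : ℝ) * x))] at e1
      nlinarith
    unfold ker
    rw [le_div_iff₀ (by positivity)]
    have h3 : ((S : ℝ) * (1 - 2 * Real.pi * S * y)) ^ 2 ≤ ‖∑ s ∈ range S, e ((s : ℝ) * x)‖ ^ 2 :=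
      pow_le_pow_left₀ (by positivity) h2 2
    refine le_trans ?_ h3
    have h4 : 1 - 4 * Real.pi * S * y ≤ (1 - 2 * Real.pi * S * y) ^ 2 := by nlinarith [sq_nonneg (2 * Real.pi * S * y)]
    calc (1 - 4 * Real.pi * S * y) * (S : ℝ) ^ 2 ≤ (1 - 2 * Real.pi * S * y) ^ 2 * (S : ℝ) ^ 2 :=
          mul_le_mul_of_nonneg_right h4 (by positivity)
      _ = _ := by ring

lemma Pos.range {M : ℕ} (c : ℕ → ℝ) (hc : ∀ l, l < M → 0 ≤ c l) :
    Pos M (fun t => ∑ l ∈ range M, (c l : ℂ) * e ((t : ℝ) * (-(l : ℤ) : ℤ) / M)) := by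
  refine ⟨Fin M, inferInstance, fun l => c l, fun l => -(l.val : ℤ), fun l => hc l.val l.isLt, fun t => ?_⟩
  exact (Fin.sum_univ_eq_sum_range (fun l => (c l : ℂ) * e ((t : ℝ) * (-(l : ℤ) : ℤ) / M)) M).symm

/-- the main frequencies survive -/
theorem survive (a : ℕ → ℝ) (ℓ W R : ℕ) (hW : 1 ≤ W) (hR : 1 ≤ R) (ha : ∀ x, x < ℓ → a x = 0) (ha' : ∀ x, W ≤ x → a x = 0)
    (ha1 : ∀ x, |a x| ≤ 1) (d M h : ℕ) (hM : 1 ≤ M) (hh : 1 ≤ h) (hdM : d * M ≤ ℓ) (G : Finset ℕ) (hG : G ⊆ range W)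
    (n : ℕ → ℤ) (δ ρ : ℝ) (hn : ∀ ξ ∈ G, |(d : ℝ) * M * ((ξ : ℝ) / W) - n ξ| ≤ δ)
    (hr : ∀ ξ ∈ G, ∃ r : ℤ, |(d : ℝ) * ((ξ : ℝ) / W) - r| ≤ ρ) (ε₁ : ℝ) (hε1 : ε₁ ≤ 1)
    (hε : 4 * Real.pi * δ + 4 * Real.pi * h * (ρ + δ) ≤ ε₁) (k : ℕ) :
    (1 - ε₁) ^ (2 * k) * ((R : ℝ) / W) ^ (2 * k) *
      ∑ t ∈ range M, ‖∑ ξ ∈ G, ((sg a W R ξ : ℝ) : ℂ) * e ((t : ℝ) * n ξ / M)‖ ^ (2 * k) ≤
      (∑ m ∈ range W, ∑ t ∈ range M, Am a d M h m t ^ (2 * k)) / W := by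
  have hW0 : (0 : ℝ) < W := by exact_mod_cast hW
  have hR0 : (0 : ℝ) < R := by exact_mod_cast hR
  have hM0 : (0 : ℝ) < M := by exact_mod_cast hM
  have hMz : (0 : ℤ) < M := by exact_mod_cast hM
  set σ := sg a W R with hσ
  have hσ0 : ∀ ξ, 0 ≤ σ ξ := sg_nonneg a W R
  set L : ℕ → ℕ := fun ξ => ((-(n ξ)) % M).toNat with hL
  have hL1 : ∀ ξ, ((L ξ : ℕ) : ℤ) = (-(n ξ)) % M := fun ξ => Int.toNat_of_nonneg (Int.emod_nonneg _ hMz.ne')
  have hL2 : ∀ ξ, L ξ < M := by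
    intro ξ
    have := Int.emod_lt_of_pos (-(n ξ)) hMz
    have h1 := hL1 ξ
    omega
  -- `-n = L + M q`
  have hq : ∀ ξ, ∃ q : ℤ, (n ξ : ℝ) = -(L ξ : ℝ) - M * q := by
    intro ξ
    refine ⟨(-(n ξ)) / M, ?_⟩
    have e3 : -(n ξ) = (L ξ : ℤ) + M * ((-(n ξ)) / M) := by
      rw [hL1]
      exact (Int.emod_add_mul_ediv _ _).symm
    have e4 : ((-(n ξ) : ℤ) : ℝ) = (((L ξ : ℤ) + M * ((-(n ξ)) / M) : ℤ) : ℝ) := by rw [← e3]
    push_cast at e4
    push_cast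
    linarith
  set A : ℕ → ℂ := fun t => (((∑ m ∈ range W, Am a d M h m t) / R : ℝ) : ℂ) with hA
  set B : ℕ → ℂ := fun t => ∑ ξ ∈ G, ((σ ξ : ℝ) : ℂ) * e ((t : ℝ) * n ξ / M) with hB
  have hBr : ∀ t, B t = ∑ l ∈ range M, ((∑ ξ ∈ G.filter (fun ξ => L ξ = l), σ ξ : ℝ) : ℂ) * e ((t : ℝ) * (-(l : ℤ) : ℤ) / M) := by
    intro t
    simp only [hB]
    rw [← sum_fiberwise_of_maps_to (fun ξ _ => mem_range.mpr (hL2 ξ))]
    refine sum_congr rfl fun l _ => ?_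
    rw [Complex.ofReal_sum, sum_mul]
    refine sum_congr rfl fun ξ hξ => ?_
    rw [mem_filter] at hξ
    congr 1
    obtain ⟨q, hq'⟩ := hq ξ
    rw [hq', hξ.2]
    have : (t : ℝ) * (-(l : ℝ) - M * q) / M = (t : ℝ) * ((-(l : ℤ) : ℤ) : ℝ) / M + (((-((t : ℤ) * q)) : ℤ) : ℝ) := by
      push_cast
      field_simp
      ring
    rw [this, e_add, e_int, mul_one]
  set α : ℕ → ℝ := fun l => ∑ ξ ∈ range W, σ ξ * (ker h (-((l : ℝ) / M)) * ker M ((d : ℝ) * ((ξ : ℝ) / W) + l / M)) with hα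
  have hAr : ∀ t, A t = ∑ l ∈ range M, ((α l : ℝ) : ℂ) * e ((t : ℝ) * (-(l : ℤ) : ℤ) / M) :=
    fun t => tilde a ℓ W R hW hR ha ha' d M h hM hh hdM t
  have hpos : ∀ l, l < M → 0 ≤ α l - (1 - ε₁) * ∑ ξ ∈ G.filter (fun ξ => L ξ = l), σ ξ := by
    intro l _
    rw [sub_nonneg, mul_sum]
    calc ∑ ξ ∈ G.filter (fun ξ => L ξ = l), (1 - ε₁) * σ ξ
        ≤ ∑ ξ ∈ G.filter (fun ξ => L ξ = l), σ ξ * (ker h (-((l : ℝ) / M)) * ker M ((d : ℝ) * ((ξ : ℝ) / W) + l / M)) := by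
          refine sum_le_sum fun ξ hξ => ?_
          rw [mem_filter] at hξ
          rw [mul_comm]
          refine mul_le_mul_of_nonneg_left ?_ (hσ0 ξ)
          obtain ⟨q, hq'⟩ := hq ξ
          obtain ⟨r, hr'⟩ := hr ξ hξ.1
          have hn' := hn ξ hξ.1
          rw [hξ.2] at hq'
          have hδ0 : 0 ≤ δ := (abs_nonneg _).trans hn'
          have b1 : |((d : ℝ) * ((ξ : ℝ) / W) + l / M) - ((-q : ℤ) : ℝ)| ≤ δ / M := by
            have e1 : ((d : ℝ) * ((ξ : ℝ) / W) + l / M) - ((-q : ℤ) : ℝ) =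
                ((d : ℝ) * M * ((ξ : ℝ) / W) - n ξ) / M := by
              rw [hq']
              push_cast
              field_simp
              ring
            rw [e1, abs_div, abs_of_pos hM0]
            exact div_le_div_of_nonneg_right hn' hM0.le
          have b2 : |(-((l : ℝ) / M)) - ((r + q : ℤ) : ℝ)| ≤ ρ + δ / M := by
            have : (-((l : ℝ) / M)) - ((r + q : ℤ) : ℝ) = ((d : ℝ) * ((ξ : ℝ) / W) - r) -
                (((d : ℝ) * ((ξ : ℝ) / W) + l / M) - ((-q : ℤ) : ℝ)) := by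
              push_cast
              ring
            rw [this]
            exact (abs_sub _ _).trans (add_le_add hr' b1)
          have c1 := ker_near M hM _ _ _ b1
          have c2 := ker_near h hh _ _ _ b2
          have hδM : δ / M ≤ δ := by
            rw [div_le_iff₀ hM0]
            have : (1 : ℝ) ≤ M := by exact_mod_cast hM
            nlinarith
          have c3 : 4 * Real.pi * M * (δ / M) = 4 * Real.pi * δ := by field_simp
          rw [c3] at c1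
          have c4 : 4 * Real.pi * h * (ρ + δ / M) ≤ 4 * Real.pi * h * (ρ + δ) :=
            mul_le_mul_of_nonneg_left (by linarith) (by positivity)
          have d1 := ker_nonneg h (-((l : ℝ) / M))
          have d2 := ker_le_one h (-((l : ℝ) / M))
          have d3 := ker_nonneg M ((d : ℝ) * ((ξ : ℝ) / W) + l / M)
          have d4 := ker_le_one M ((d : ℝ) * ((ξ : ℝ) / W) + l / M)
          nlinarith [mul_nonneg (sub_nonneg.mpr d2) (sub_nonneg.mpr d4)]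
      _ ≤ α l := by
          simp only [hα]
          refine sum_le_sum_of_subset_of_nonneg ((filter_subset _ _).trans hG) fun ξ _ _ => ?_
          exact mul_nonneg (hσ0 ξ) (mul_nonneg (ker_nonneg _ _) (ker_nonneg _ _))
  have hP1 : Pos M (fun t => A t - ((1 - ε₁ : ℝ) : ℂ) * B t) := by
    have h1 := Pos.range (M := M) (fun l => α l - (1 - ε₁) * ∑ ξ ∈ G.filter (fun ξ => L ξ = l), σ ξ) hpos
    convert h1 using 2 with t
    rw [hAr, hBr, mul_sum, ← sum_sub_distrib]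
    refine sum_congr rfl fun l _ => ?_
    push_cast
    ring
  have hP2 : Pos M (fun t => ((1 - ε₁ : ℝ) : ℂ) * B t) := by
    have h1 := Pos.range (M := M) (fun l => (1 - ε₁) * ∑ ξ ∈ G.filter (fun ξ => L ξ = l), σ ξ)
      (fun l _ => mul_nonneg (by linarith) (sum_nonneg fun ξ _ => hσ0 ξ))
    convert h1 using 2 with t
    rw [hBr, mul_sum]
    refine sum_congr rfl fun l _ => ?_
    push_cast
    ring
  have hcmp := hP1.cmp hM hP2 k
  have h3 : ∀ t, ‖((1 - ε₁ : ℝ) : ℂ) * B t‖ ^ (2 * k) = (1 - ε₁) ^ (2 * k) * ‖B t‖ ^ (2 * k) := by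
    intro t
    rw [norm_mul, mul_pow, Complex.norm_real, Real.norm_eq_abs, abs_of_nonneg (by linarith)]
  simp only [h3] at hcmp
  rw [← mul_sum] at hcmp
  -- Jensen
  have hJ : ∀ t, ((R : ℝ) / W) ^ (2 * k) * ‖A t‖ ^ (2 * k) ≤ (∑ m ∈ range W, Am a d M h m t ^ (2 * k)) / W := by
    intro t
    have h4 := Real.pow_arith_mean_le_arith_mean_pow_of_even (range W) (fun _ => (1 : ℝ) / W) (fun m => Am a d M h m t)
      (fun _ _ => by positivity) (by rw [sum_const, card_range, nsmul_eq_mul]; field_simp) (n := 2 * k) (even_two_mul k)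
    have h5 : ((R : ℝ) / W) ^ (2 * k) * ‖A t‖ ^ (2 * k) = (∑ m ∈ range W, 1 / (W : ℝ) * Am a d M h m t) ^ (2 * k) := by
      rw [← mul_pow]
      simp only [hA]
      rw [Complex.norm_real, Real.norm_eq_abs, ← mul_sum]
      have h6 : (R : ℝ) / W * |(∑ m ∈ range W, Am a d M h m t) / R| = |1 / (W : ℝ) * ∑ m ∈ range W, Am a d M h m t| := by
        rw [abs_div, abs_mul, abs_of_pos hR0, abs_of_pos (by positivity : (0 : ℝ) < 1 / W)]
        field_simp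
      rw [h6, (even_two_mul k).pow_abs]
    rw [h5]
    refine h4.trans (le_of_eq ?_)
    rw [← mul_sum, mul_comm, mul_one_div]
  calc (1 - ε₁) ^ (2 * k) * ((R : ℝ) / W) ^ (2 * k) * ∑ t ∈ range M, ‖B t‖ ^ (2 * k)
      = ((R : ℝ) / W) ^ (2 * k) * ((1 - ε₁) ^ (2 * k) * ∑ t ∈ range M, ‖B t‖ ^ (2 * k)) := by ring
    _ ≤ ((R : ℝ) / W) ^ (2 * k) * ∑ t ∈ range M, ‖A t‖ ^ (2 * k) :=
        mul_le_mul_of_nonneg_left hcmp (by positivity)
    _ = ∑ t ∈ range M, ((R : ℝ) / W) ^ (2 * k) * ‖A t‖ ^ (2 * k) := by rw [mul_sum]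
    _ ≤ ∑ t ∈ range M, (∑ m ∈ range W, Am a d M h m t ^ (2 * k)) / W := sum_le_sum fun t _ => hJ t
    _ = (∑ m ∈ range W, ∑ t ∈ range M, Am a d M h m t ^ (2 * k)) / W := by
        rw [← sum_div, sum_comm]

end Pool.Agent.Q259.LU
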