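import Pool.Agent.Q259.LU.Glob

set_option autoImplicit false

/-!
# Sequences with small differences of high order
-/

namespace Pool.Agent.Q259.LU

open Finset MeasureTheory Pool.Agent.H332R2.Lit Polynomial

/-- iterated forward differences -/
def dd (φ : ℕ → ℝ) : ℕ → ℕ → ℝ
  | 0, n => φ n
  | k + 1, n => dd φ k (n + 1) - dd φ k n

lemma dd_zero (φ : ℕ → ℝ) (n : ℕ) : dd φ 0 n = φ n := rfl

lemma dd_succ (φ : ℕ → ℝ) (k n : ℕ) : dd φ (k + 1) n = dd φ k (n + 1) - dd φ k n := rfl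

lemma dd_comm (φ : ℕ → ℝ) (k : ℕ) : ∀ n, dd (fun m => φ (m + 1) - φ m) k n = dd φ (k + 1) n := by
  induction k with
  | zero => intro n; rfl
  | succ k ih => intro n; rw [dd_succ, ih, ih, ← dd_succ]

/-- Newton's formula with remainder -/
lemma newton (k : ℕ) : ∀ (φ : ℕ → ℝ) (δ : ℝ), 0 ≤ δ → (∀ m, |dd φ (k + 1) m| ≤ δ) → ∀ a j : ℕ,
    |φ (a + j) - ∑ i ∈ range (k + 1), dd φ i a * (j.choose i : ℝ)| ≤ δ * (j : ℝ) ^ (k + 1) := by
  induction k with
  | zero =>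
    intro φ δ hδ h a j
    simp only [zero_add, sum_range_one, Nat.choose_zero_right, Nat.cast_one, mul_one, dd_zero, pow_one]
    induction j with
    | zero => simp
    | succ j ih =>
      have h1 : φ (a + (j + 1)) - φ a = (φ (a + j) - φ a) + dd φ 1 (a + j) := by
        rw [dd_succ, dd_zero, dd_zero, ← add_assoc]; ring
      rw [h1]
      refine (abs_add_le _ _).trans ?_
      have := h (a + j)
      simp only [zero_add] at this
      push_cast
      linarith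
  | succ k ih =>
    intro φ δ hδ h a j
    have hψ := ih (fun m => φ (m + 1) - φ m) δ hδ (fun m => by rw [dd_comm]; exact h m) a
    have h1 : φ (a + j) - φ a = ∑ l ∈ range j, (φ (a + l + 1) - φ (a + l)) := by
      clear hψ
      induction j with
      | zero => simp
      | succ j ih => rw [sum_range_succ, ← ih, ← add_assoc]; ring
    have h2 : ∀ i, ∑ l ∈ range j, (l.choose i : ℝ) = (j.choose (i + 1) : ℝ) := by
      intro i
      clear hψ h1
      induction j with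
      | zero => simp
      | succ j ih =>
        rw [sum_range_succ, ih, Nat.choose_succ_succ]
        push_cast
        ring
    have h3 : φ (a + j) - ∑ i ∈ range (k + 1 + 1), dd φ i a * (j.choose i : ℝ) =
        ∑ l ∈ range j, ((φ (a + l + 1) - φ (a + l)) -
          ∑ i ∈ range (k + 1), dd (fun m => φ (m + 1) - φ m) i a * (l.choose i : ℝ)) := by
      rw [sum_range_succ', sum_sub_distrib, ← h1, sum_comm]
      have h4 : ∀ i ∈ range (k + 1), ∑ l ∈ range j, dd (fun m => φ (m + 1) - φ m) i a * (l.choose i : ℝ) =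
          dd φ (i + 1) a * (j.choose (i + 1) : ℝ) := by
        intro i _
        rw [← mul_sum, h2, dd_comm]
      rw [sum_congr rfl h4, Nat.choose_zero_right, dd_zero]
      push_cast
      ring
    rw [h3]
    refine (abs_sum_le_sum_abs _ _).trans ?_
    have h5 : ∀ l ∈ range j, |(φ (a + l + 1) - φ (a + l)) -
        ∑ i ∈ range (k + 1), dd (fun m => φ (m + 1) - φ m) i a * (l.choose i : ℝ)| ≤ δ * (j : ℝ) ^ (k + 1) := by
      intro l hl
      rw [mem_range] at hl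
      refine (hψ l).trans (mul_le_mul_of_nonneg_left ?_ hδ)
      exact pow_le_pow_left₀ (Nat.cast_nonneg _) (by exact_mod_cast hl.le) _
    refine (sum_le_sum h5).trans (le_of_eq ?_)
    rw [sum_const, card_range, nsmul_eq_mul]
    ring

/-- Newton's polynomial -/
noncomputable def newt (φ : ℕ → ℝ) (k a : ℕ) : ℝ[X] :=
  ∑ i ∈ range (k + 1), C (dd φ i a / (i.factorial : ℝ)) * descPochhammer ℝ i

lemma newt_deg (φ : ℕ → ℝ) (k a : ℕ) : (newt φ k a).natDegree ≤ k := by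
  unfold newt
  refine natDegree_sum_le_of_forall_le _ _ fun i hi => ?_
  rw [mem_range] at hi
  refine (natDegree_C_mul_le _ _).trans ?_
  rw [descPochhammer_natDegree]
  omega

lemma newt_eval (φ : ℕ → ℝ) (k a j : ℕ) :
    (newt φ k a).eval (j : ℝ) = ∑ i ∈ range (k + 1), dd φ i a * (j.choose i : ℝ) := by
  unfold newt
  rw [eval_finset_sum]
  refine sum_congr rfl fun i _ => ?_
  rw [eval_mul, eval_C, descPochhammer_eval_eq_descFactorial, Nat.descFactorial_eq_factorial_mul_choose]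
  have : (i.factorial : ℝ) ≠ 0 := by exact_mod_cast (Nat.factorial_ne_zero i)
  push_cast
  field_simp

/-- the majorant for sequences with small differences -/
theorem diff_le (k : ℕ) (F : C(UnitAddCircle, ℂ)) (c : ℂ) (κ : ℝ) (hκ : 0 ≤ κ)
    (hF : ∀ ω : ℂ, ‖ω‖ = 1 → ∫ t : UnitAddCircle, |(ω * (F t - c)).re| ≤ κ) (M : ℕ) (hM : 1 ≤ M)
    (ε : ℝ) (hε : 0 < ε) : ∃ Q : ℕ, ∃ C : ℝ, 0 ≤ C ∧ ∀ L : ℕ, 1 ≤ L → ∃ δ : ℝ, 0 < δ ∧ ∃ H₀ : ℕ, ∀ H, H₀ ≤ H →
    ∀ φ : ℕ → ℝ, (∀ m, |dd φ (k + 1) m| ≤ δ) →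
    ∀ (u w : ℕ → ℝ), (∀ n, |u n| ≤ w n) → (∀ n, w n ≤ 1) → (∀ n, w (n + M) = w n) →
      ‖∑ h ∈ range H, (u h : ℂ) * F ((φ h : ℝ) : UnitAddCircle)‖ ≤
        κ * ∑ h ∈ range H, w h + ε * H + C * (GG u H L Q / L) := by
  obtain ⟨Q, -, C, hC, hcl⟩ := claim_all F c κ hκ hF M hM k (ε / 4) (by positivity)
  refine ⟨Q, C, hC, fun L hL => ?_⟩
  obtain ⟨B₁, hB₁, hB⟩ := hcl L hL
  have huc : UniformContinuous F := CompactSpace.uniformContinuous_of_continuous F.continuous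
  obtain ⟨δ₁, hδ₁, hFδ⟩ := Metric.uniformContinuous_iff.mp huc (ε / 4) (by positivity)
  have hB₁0 : (0 : ℝ) < B₁ := by exact_mod_cast hB₁
  obtain ⟨H₀, hH₀⟩ := exists_nat_ge (2 * (1 : ℕ) * B₁ * (κ + C * Q + ‖F‖) / (ε / 4))
  refine ⟨δ₁ / (2 * (B₁ : ℝ) ^ (k + 1)), by positivity, H₀, fun H hH φ hφ u w huw hw1 hwM => ?_⟩
  have hu1 : ∀ n, |u n| ≤ 1 := fun n => (huw n).trans (hw1 n)
  have h1 := case_two F κ hκ H B₁ L Q 1 hB₁ hL le_rfl C (ε / 4 + ε / 4) hC u w huw hw1 φ (by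
    intro a
    simp only [one_mul]
    have hclose : ∀ j ∈ range B₁, ‖F ((φ (a + j) : ℝ) : UnitAddCircle) -
        F (((newt φ k a).eval (j : ℝ) : ℝ) : UnitAddCircle)‖ ≤ ε / 4 := by
      intro j hj
      rw [mem_range] at hj
      rw [← dist_eq_norm]
      refine (hFδ ?_).le
      rw [dist_eq_norm, ← AddCircle.coe_sub]
      refine lt_of_le_of_lt (norm_coe_le _) ?_
      rw [newt_eval]
      have h2 := newton k φ _ (by positivity) hφ a j
      have b2 : (j : ℝ) ^ (k + 1) ≤ (B₁ : ℝ) ^ (k + 1) :=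
        pow_le_pow_left₀ (Nat.cast_nonneg _) (by exact_mod_cast hj.le) _
      calc |φ (a + j) - ∑ i ∈ range (k + 1), dd φ i a * (j.choose i : ℝ)|
          ≤ δ₁ / (2 * (B₁ : ℝ) ^ (k + 1)) * (j : ℝ) ^ (k + 1) := h2
        _ ≤ δ₁ / (2 * (B₁ : ℝ) ^ (k + 1)) * (B₁ : ℝ) ^ (k + 1) := mul_le_mul_of_nonneg_left b2 (by positivity)
        _ = δ₁ / 2 := by field_simp
        _ < δ₁ := by linarith
    have h5 := hB B₁ le_rfl (newt φ k a) (newt_deg _ _ _) (fun n => u (a + n)) (fun n => w (a + n)) (fun n => huw _)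
      (fun n => hw1 _) (fun n => by rw [← add_assoc, hwM])
    have h6 : ∑ j ∈ range B₁, (u (a + j) : ℂ) * F ((φ (a + j) : ℝ) : UnitAddCircle) =
        ∑ j ∈ range B₁, (u (a + j) : ℂ) * F (((newt φ k a).eval (j : ℝ) : ℝ) : UnitAddCircle) +
        ∑ j ∈ range B₁, (u (a + j) : ℂ) * (F ((φ (a + j) : ℝ) : UnitAddCircle) -
          F (((newt φ k a).eval (j : ℝ) : ℝ) : UnitAddCircle)) := by
      rw [← sum_add_distrib]
      refine sum_congr rfl fun j _ => ?_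
      ring
    have h7 : ‖∑ j ∈ range B₁, (u (a + j) : ℂ) * (F ((φ (a + j) : ℝ) : UnitAddCircle) -
          F (((newt φ k a).eval (j : ℝ) : ℝ) : UnitAddCircle))‖ ≤ ε / 4 * B₁ := by
      refine (norm_sum_le _ _).trans ?_
      have : ∀ j ∈ range B₁, ‖(u (a + j) : ℂ) * (F ((φ (a + j) : ℝ) : UnitAddCircle) -
          F (((newt φ k a).eval (j : ℝ) : ℝ) : UnitAddCircle))‖ ≤ ε / 4 := by
        intro j hj
        rw [norm_mul, Complex.norm_real, Real.norm_eq_abs]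
        calc |u (a + j)| * ‖F ((φ (a + j) : ℝ) : UnitAddCircle) -
              F (((newt φ k a).eval (j : ℝ) : ℝ) : UnitAddCircle)‖ ≤ 1 * (ε / 4) :=
              mul_le_mul (hu1 _) (hclose j hj) (norm_nonneg _) zero_le_one
          _ = ε / 4 := one_mul _
      refine (sum_le_sum this).trans (le_of_eq ?_)
      rw [sum_const, card_range, nsmul_eq_mul]
      ring
    rw [h6]
    refine (norm_add_le _ _).trans ?_
    linarith)
  rw [mul_one] at h1
  have h8 : 2 * ((1 : ℕ) : ℝ) * B₁ * (κ + C * Q + ‖F‖) ≤ ε / 4 * H := by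
    have h9 := hH₀.trans (by exact_mod_cast hH : (H₀ : ℝ) ≤ H)
    rw [div_le_iff₀ (by positivity)] at h9
    linarith
  have h10 : 0 ≤ ε * H := by positivity
  linarith

/-- the supremum over all real sequences whose differences of order `k + 1` are at most `δ` -/
noncomputable def difSup (k : ℕ) (δ : ℝ) (F : C(UnitAddCircle, ℂ)) (u : ℕ → ℝ) (n H : ℕ) : ℝ :=
  ⨆ φ : {φ : ℕ → ℝ // ∀ m, |dd φ (k + 1) m| ≤ δ},
    ‖∑ h ∈ Icc 1 H, F ((φ.1 h : ℝ) : UnitAddCircle) * ((u (n + h) : ℝ) : ℂ)‖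

lemma dd_shift (φ : ℕ → ℝ) (k : ℕ) : ∀ n, dd (fun m => φ (1 + m)) k n = dd φ k (1 + n) := by
  induction k with
  | zero => intro n; rfl
  | succ k ih => intro n; rw [dd_succ, ih, ih, dd_succ, ← add_assoc]

lemma dd_const_zero (k : ℕ) : ∀ n, dd (fun _ => (0 : ℝ)) k n = 0 := by
  induction k with
  | zero => intro n; rfl
  | succ k ih => intro n; rw [dd_succ, ih, ih, sub_zero]

/-- **averages of suprema over all sequences with small differences of order `k + 1`** -/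
theorem main (k : ℕ) (F : C(UnitAddCircle, ℂ)) (c : ℂ) (κ : ℝ) (hκ : 0 ≤ κ)
    (hF : ∀ ω : ℂ, ‖ω‖ = 1 → ∫ t : UnitAddCircle, |(ω * (F t - c)).re| ≤ κ) (u : ℕ → ℝ) (hSA : SA u)
    (M : ℕ) (hM : 1 ≤ M) (w : ℕ → ℝ) (huw : ∀ n, |u n| ≤ w n) (hw1 : ∀ n, w n ≤ 1) (hwM : ∀ n, w (n + M) = w n)
    (ρ : ℝ) (hρ : ∑ r ∈ range M, w r ≤ ρ * M) (ε : ℝ) (hε : 0 < ε) :
    ∃ δ : ℝ, 0 < δ ∧ ∃ H₀ : ℕ, ∀ N H : ℕ, H₀ ≤ H → H ≤ N →
      ∑ n ∈ Icc 1 N, (1 / (n : ℝ)) * difSup k δ F u n H ≤ (ρ * κ + ε) * H * Real.log N ∧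
      ∑ n ∈ Icc 1 N, difSup k δ F u n H ≤ (ρ * κ + ε) * H * N := by
  have hw0 : ∀ n, 0 ≤ w n := fun n => (abs_nonneg _).trans (huw n)
  obtain ⟨Q, C, hC, h⟩ := diff_le k F c κ hκ hF M hM (ε / 8) (by positivity)
  obtain ⟨L, hL, H₁, hcore⟩ := core κ hκ u hSA M hM w hw0 hw1 hwM ρ hρ ε hε Q C hC
  obtain ⟨δ, hδ, H₂, hH₂⟩ := h L hL
  refine ⟨δ, hδ, H₁ + H₂, fun N H hH hHN => hcore N H (by omega) hHN _ fun n => ?_⟩
  have : Nonempty {φ : ℕ → ℝ // ∀ m, |dd φ (k + 1) m| ≤ δ} :=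
    ⟨⟨fun _ => 0, fun m => by rw [dd_const_zero]; simpa using hδ.le⟩⟩
  refine ciSup_le fun φ => ?_
  have h3 := hH₂ H (by omega) (fun m => φ.1 (1 + m)) (fun m => by rw [dd_shift]; exact φ.2 _)
    (fun h => u (n + 1 + h)) (fun h => w (n + 1 + h)) (fun h => huw _) (fun h => hw1 _)
    (fun h => by rw [← add_assoc, hwM])
  refine le_trans (le_of_eq ?_) h3
  rw [icc_range']
  congr 1
  refine sum_congr rfl fun i _ => ?_
  rw [mul_comm]
  congr 3
  omega

end Pool.Agent.Q259.LU
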