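import Mathlib

set_option autoImplicit false

/-!
# Averages over progressions
-/

namespace Pool.Agent.Q259.LU

open Finset

lemma shift_norm {E : Type*} [SeminormedAddCommGroup E] (g : ℕ → E) (C : ℝ) (hg : ∀ n, ‖g n‖ ≤ C) (B t : ℕ) :
    ‖∑ a ∈ range B, g (a + t) - ∑ a ∈ range B, g a‖ ≤ 2 * t * C := by
  induction t with
  | zero => simp
  | succ t ih =>
    have h1 : ∑ a ∈ range B, g (a + (t + 1)) + g (0 + t) = ∑ a ∈ range B, g (a + t) + g (B + t) := by
      have e1 := sum_range_succ' (fun a => g (a + t)) B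
      have e2 := sum_range_succ (fun a => g (a + t)) B
      rw [e1] at e2
      have e3 : ∀ a, g (a + 1 + t) = g (a + (t + 1)) := fun a => by congr 1; omega
      simp only [e3] at e2
      exact e2
    have h2 : ∑ a ∈ range B, g (a + (t + 1)) - ∑ a ∈ range B, g a =
        (∑ a ∈ range B, g (a + t) - ∑ a ∈ range B, g a) + (g (B + t) - g (0 + t)) := by
      have := eq_sub_of_add_eq h1
      rw [this]
      abel
    rw [h2]
    refine (norm_add_le _ _).trans ?_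
    have h3 := norm_sub_le (g (B + t)) (g (0 + t))
    have h4 := hg (B + t)
    have h5 := hg (0 + t)
    push_cast
    linarith

lemma avg_norm (g : ℕ → ℂ) (C : ℝ) (hC : 0 ≤ C) (hg : ∀ n, ‖g n‖ ≤ C) (B B₁ m : ℕ) :
    (B₁ : ℝ) * ‖∑ h ∈ range B, g h‖ ≤ ∑ a ∈ range B, ‖∑ j ∈ range B₁, g (a + m * j)‖ + 2 * m * B₁ * B₁ * C := by
  have h1 : (B₁ : ℂ) * ∑ h ∈ range B, g h = ∑ a ∈ range B, ∑ j ∈ range B₁, g (a + m * j) -
      ∑ j ∈ range B₁, (∑ a ∈ range B, g (a + m * j) - ∑ a ∈ range B, g a) := by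
    rw [sum_sub_distrib, sum_comm, sum_const, card_range, nsmul_eq_mul]
    ring
  have h2 : (B₁ : ℝ) * ‖∑ h ∈ range B, g h‖ = ‖(B₁ : ℂ) * ∑ h ∈ range B, g h‖ := by
    rw [norm_mul, Complex.norm_natCast]
  rw [h2, h1]
  refine (norm_sub_le _ _).trans (add_le_add (norm_sum_le _ _) ?_)
  refine (norm_sum_le _ _).trans ?_
  have h3 : ∀ j ∈ range B₁, ‖∑ a ∈ range B, g (a + m * j) - ∑ a ∈ range B, g a‖ ≤ 2 * m * B₁ * C := by
    intro j hj
    refine (shift_norm g C hg B (m * j)).trans ?_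
    have h4 : ((m * j : ℕ) : ℝ) ≤ m * B₁ := by
      rw [mem_range] at hj
      push_cast
      exact mul_le_mul_of_nonneg_left (by exact_mod_cast hj.le) (Nat.cast_nonneg _)
    nlinarith
  refine (sum_le_sum h3).trans (le_of_eq ?_)
  rw [sum_const, card_range, nsmul_eq_mul]
  ring

lemma avg_le (w : ℕ → ℝ) (C : ℝ) (hC : 0 ≤ C) (hw : ∀ n, |w n| ≤ C) (B B₁ m : ℕ) :
    ∑ a ∈ range B, ∑ j ∈ range B₁, w (a + m * j) ≤ B₁ * ∑ h ∈ range B, w h + 2 * m * B₁ * B₁ * C := by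
  rw [sum_comm]
  have h3 : ∀ j ∈ range B₁, ∑ a ∈ range B, w (a + m * j) ≤ ∑ h ∈ range B, w h + 2 * m * B₁ * C := by
    intro j hj
    have h5 := shift_norm w C hw B (m * j)
    rw [Real.norm_eq_abs] at h5
    have h6 := (abs_le.mp h5).2
    have h4 : ((m * j : ℕ) : ℝ) ≤ m * B₁ := by
      rw [mem_range] at hj
      push_cast
      exact mul_le_mul_of_nonneg_left (by exact_mod_cast hj.le) (Nat.cast_nonneg _)
    nlinarith
  refine (sum_le_sum h3).trans (le_of_eq ?_)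
  rw [sum_const, card_range, nsmul_eq_mul]
  ring

/-- total absolute sums over progressions of length `L` and difference at most `Q` -/
noncomputable def GG (u : ℕ → ℝ) (B L Q : ℕ) : ℝ :=
  ∑ q ∈ Icc 1 Q, ∑ s ∈ range B, |∑ j ∈ range L, u (s + q * j)|

lemma GG_nonneg (u : ℕ → ℝ) (B L Q : ℕ) : 0 ≤ GG u B L Q :=
  sum_nonneg fun _ _ => sum_nonneg fun _ _ => abs_nonneg _

lemma GG_mono (u : ℕ → ℝ) (B L : ℕ) {Q Q' : ℕ} (h : Q ≤ Q') : GG u B L Q ≤ GG u B L Q' := by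
  refine sum_le_sum_of_subset_of_nonneg (Icc_subset_Icc le_rfl h) fun _ _ _ => sum_nonneg fun _ _ => abs_nonneg _

lemma GG_dil (u : ℕ → ℝ) (hu : ∀ n, |u n| ≤ 1) (B B₁ L Q m : ℕ) (hm : 1 ≤ m) :
    ∑ a ∈ range B, GG (fun n => u (a + m * n)) B₁ L Q ≤ B₁ * GG u B L (Q * m) + 2 * Q * m * B₁ * B₁ * L := by
  have h1 : ∑ a ∈ range B, GG (fun n => u (a + m * n)) B₁ L Q =
      ∑ q ∈ Icc 1 Q, ∑ s ∈ range B₁, ∑ a ∈ range B, |∑ j ∈ range L, u (a + m * s + (q * m) * j)| := by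
    unfold GG
    rw [sum_comm]
    refine sum_congr rfl fun q _ => ?_
    rw [sum_comm]
    refine sum_congr rfl fun s _ => sum_congr rfl fun a _ => ?_
    congr 1
    refine sum_congr rfl fun j _ => ?_
    show u (a + m * (s + q * j)) = u (a + m * s + q * m * j)
    congr 1
    ring
  have hL : ∀ q n, |(|∑ j ∈ range L, u (n + (q * m) * j)|)| ≤ (L : ℝ) := by
    intro q n
    rw [abs_abs]
    refine (abs_sum_le_sum_abs _ _).trans ?_
    refine (sum_le_sum fun j _ => hu _).trans ?_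
    simp
  have h2 : ∀ q ∈ Icc 1 Q, ∀ s ∈ range B₁, ∑ a ∈ range B, |∑ j ∈ range L, u (a + m * s + (q * m) * j)| ≤
      ∑ a ∈ range B, |∑ j ∈ range L, u (a + (q * m) * j)| + 2 * m * B₁ * L := by
    intro q _ s hs
    have h5 := shift_norm (fun a => |∑ j ∈ range L, u (a + (q * m) * j)|) (L : ℝ) (hL q) B (m * s)
    rw [Real.norm_eq_abs] at h5
    have h6 := (abs_le.mp h5).2
    have h4 : ((m * s : ℕ) : ℝ) ≤ m * B₁ := by
      rw [mem_range] at hs
      push_cast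
      exact mul_le_mul_of_nonneg_left (by exact_mod_cast hs.le) (Nat.cast_nonneg _)
    have h7 : (0 : ℝ) ≤ L := Nat.cast_nonneg _
    nlinarith
  rw [h1]
  calc ∑ q ∈ Icc 1 Q, ∑ s ∈ range B₁, ∑ a ∈ range B, |∑ j ∈ range L, u (a + m * s + (q * m) * j)|
      ≤ ∑ q ∈ Icc 1 Q, ∑ _s ∈ range B₁, (∑ a ∈ range B, |∑ j ∈ range L, u (a + (q * m) * j)| + 2 * m * B₁ * L) :=
        sum_le_sum fun q hq => sum_le_sum fun s hs => h2 q hq s hs
    _ = B₁ * ∑ q ∈ Icc 1 Q, ∑ a ∈ range B, |∑ j ∈ range L, u (a + (q * m) * j)| + 2 * Q * m * B₁ * B₁ * L := by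
        simp only [sum_const, card_range, nsmul_eq_mul]
        rw [← mul_sum, sum_add_distrib, sum_const, Nat.card_Icc, nsmul_eq_mul]
        push_cast
        ring
    _ ≤ B₁ * GG u B L (Q * m) + 2 * Q * m * B₁ * B₁ * L := by
        refine add_le_add (mul_le_mul_of_nonneg_left ?_ (Nat.cast_nonneg _)) le_rfl
        unfold GG
        have hinj : Set.InjOn (fun q => q * m) (Icc 1 Q : Finset ℕ) := by
          intro a _ b _ hab
          exact Nat.eq_of_mul_eq_mul_right (by omega) hab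
        have h8 : ∑ q ∈ Icc 1 Q, ∑ a ∈ range B, |∑ j ∈ range L, u (a + (q * m) * j)| =
            ∑ q ∈ (Icc 1 Q).image (fun q => q * m), ∑ a ∈ range B, |∑ j ∈ range L, u (a + q * j)| := by
          rw [sum_image hinj]
        rw [h8]
        refine sum_le_sum_of_subset_of_nonneg ?_ fun _ _ _ => sum_nonneg fun _ _ => abs_nonneg _
        intro q hq
        rw [mem_image] at hq
        obtain ⟨a, ha, rfl⟩ := hq
        rw [mem_Icc] at ha ⊢
        exact ⟨Nat.mul_pos ha.1 hm, Nat.mul_le_mul_right _ ha.2⟩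

lemma sum_small (u : ℕ → ℝ) (hu : ∀ n, |u n| ≤ 1) (B L : ℕ) (hL : 1 ≤ L) :
    |∑ h ∈ range B, u h| ≤ GG u B L 1 / L + 2 * L := by
  have hL0 : (0 : ℝ) < L := by exact_mod_cast hL
  have h1 := avg_norm (fun n => (u n : ℂ)) 1 zero_le_one (fun n => by
    rw [Complex.norm_real, Real.norm_eq_abs]; exact hu n) B L 1
  have h2 : ‖∑ h ∈ range B, (u h : ℂ)‖ = |∑ h ∈ range B, u h| := by
    rw [← Complex.ofReal_sum, Complex.norm_real, Real.norm_eq_abs]
  have h3 : ∑ a ∈ range B, ‖∑ j ∈ range L, ((u (a + 1 * j) : ℝ) : ℂ)‖ = GG u B L 1 := by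
    unfold GG
    simp only [Icc_self, sum_singleton]
    refine sum_congr rfl fun a _ => ?_
    rw [← Complex.ofReal_sum, Complex.norm_real, Real.norm_eq_abs]
  rw [h2, h3] at h1
  have h4 : GG u B L 1 / L * L = GG u B L 1 := by field_simp
  have h5 : (L : ℝ) * |∑ h ∈ range B, u h| ≤ L * (GG u B L 1 / L + 2 * L) := by
    push_cast at h1
    nlinarith
  exact le_of_mul_le_mul_left h5 hL0

lemma split (f : ℕ → ℝ) (M B' : ℕ) :
    ∑ h ∈ range (M * B'), f h = ∑ r ∈ range M, ∑ i ∈ range B', f (r + M * i) := by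
  induction B' with
  | zero => simp
  | succ n ih =>
    rw [Nat.mul_succ, sum_range_add (n := M * n) (m := M), ih]
    simp only [sum_range_succ]
    rw [sum_add_distrib]
    congr 1
    refine sum_congr rfl fun r _ => ?_
    rw [add_comm]

end Pool.Agent.Q259.LU
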