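import Pool.Agent.TH327.Dim.Torus
import Pool.Agent.TH327.Dim.Inst
import Pool.Agent.Q259.LU.Edge

set_option autoImplicit false

/-!
# Averages of the Moebius and the Liouville function over short progressions
-/

namespace Pool.Agent.Q259.LU

open Finset Pool.Agent.TH327.Dim

/-- `e(a n)` on the circle -/
noncomputable def chf : C(Fin 1 → UnitAddCircle, ℂ) where
  toFun y := fourier 1 (y 0)
  continuous_toFun := by fun_prop

lemma chf_eval (α : ℝ) (n : ℕ) :
    evT ((fun _ : Fin 1 => ((α : ℝ) : UnitAddCircle)), (0 : Fin 1 → UnitAddCircle)) n chf =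
      Complex.exp (2 * Real.pi * Complex.I * (n * α)) := by
  show (fourier 1 (((0 : Fin 1 → UnitAddCircle) + n • (fun _ : Fin 1 => ((α : ℝ) : UnitAddCircle))) 0) : ℂ) = _
  have h1 : (((0 : Fin 1 → UnitAddCircle) + n • (fun _ : Fin 1 => ((α : ℝ) : UnitAddCircle))) 0) =
      (((n : ℝ) * α : ℝ) : UnitAddCircle) := by
    simp only [Pi.add_apply, Pi.zero_apply, Pi.smul_apply, zero_add]
    rw [← AddCircle.coe_nsmul, nsmul_eq_mul]
  rw [h1, fourier_coe_apply]
  congr 1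
  push_cast
  ring

lemma mr_char (h : ℕ → ℂ) (hh : ∀ n, ‖h n‖ ≤ 1)
    (hG : ∀ C : ℝ, 0 ≤ C → Good {K | Cov K C 0} {h}) (ε : ℝ) (hε : 0 < ε) : ∃ H0 : ℕ, ∀ H, H0 ≤ H → ∀ X, H ≤ X →
    ∀ α : ℝ, ∑ x ∈ range X, ‖∑ n ∈ Ioc x (x + H), h n * Complex.exp (2 * Real.pi * Complex.I * (n * α))‖ ≤ ε * H * X := by
  have hF : ∀ f ∈ ({h} : Set (ℕ → ℂ)), ∀ n, ‖f n‖ ≤ 1 := by
    intro f hf n
    rw [Set.mem_singleton_iff] at hf
    rw [hf]; exact hh n
  have hPW := PW_torus hF (s := 0) hG 1 1 zero_le_one chf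
  obtain ⟨H0, h0⟩ := hPW ε hε
  refine ⟨H0, fun H hH X hX α => ?_⟩
  have hcov : CovT ({fun _ : Fin 1 => ((α : ℝ) : UnitAddCircle)} : Set (Fin 1 → UnitAddCircle)) 1 0 := by
    intro n hn
    refine ⟨{fun _ : Fin 1 => ((α : ℝ) : UnitAddCircle)}, by simp,
      fun g hg => ⟨fun _ : Fin 1 => ((α : ℝ) : UnitAddCircle), mem_singleton_self _, ?_⟩⟩
    rw [Set.mem_singleton_iff] at hg
    rw [hg, dist_self]
    positivity
  have h1 := h0 H hH X hX ⟨_, hcov⟩ h rfl (fun _ => ((fun _ : Fin 1 => ((α : ℝ) : UnitAddCircle)), (0 : Fin 1 → UnitAddCircle)))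
    (fun x => Set.mem_singleton _)
  simpa only [chf_eval] using h1

/-- detecting multiples of `q` -/
lemma orth (q m : ℕ) (hq : 1 ≤ q) :
    ∑ a ∈ range q, Complex.exp (2 * Real.pi * Complex.I * (m * ((a : ℝ) / q : ℝ))) = if q ∣ m then (q : ℂ) else 0 := by
  have hq0 : q ≠ 0 := by omega
  have hqc : (q : ℂ) ≠ 0 := by exact_mod_cast hq0
  have hζ := Complex.isPrimitiveRoot_exp q hq0
  set ζ := Complex.exp (2 * Real.pi * Complex.I / q) with hζd
  have h1 : ∀ a : ℕ, Complex.exp (2 * Real.pi * Complex.I * (m * ((a : ℝ) / q : ℝ))) = (ζ ^ m) ^ a := by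
    intro a
    rw [hζd, ← Complex.exp_nat_mul, ← Complex.exp_nat_mul]
    congr 1
    push_cast
    field_simp
  simp only [h1]
  split_ifs with h
  · have : ζ ^ m = 1 := (hζ.pow_eq_one_iff_dvd m).mpr h
    simp [this]
  · have h2 : ζ ^ m ≠ 1 := fun hc => h ((hζ.pow_eq_one_iff_dvd m).mp hc)
    have h3 := mul_neg_geom_sum (ζ ^ m) q
    have h4 : (ζ ^ m) ^ q = 1 := by rw [← pow_mul, mul_comm, pow_mul, hζ.pow_eq_one, one_pow]
    rw [h4, sub_self] at h3
    rcases mul_eq_zero.mp h3 with h5 | h5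
    · exact absurd (sub_eq_zero.mp h5).symm h2
    · exact h5

/-- small averages over progressions, on average over the starting point -/
def SA (u : ℕ → ℝ) : Prop := ∀ ε : ℝ, 0 < ε → ∀ Q : ℕ, ∃ L : ℕ, 1 ≤ L ∧ ∃ X₀ : ℕ, ∀ X, X₀ ≤ X → ∀ q ∈ Icc 1 Q,
  ∑ n ∈ range X, |∑ j ∈ range L, u (n + q * j)| ≤ ε * L * X

lemma prog_le (u : ℕ → ℝ) (hu : ∀ n, |u n| ≤ 1) (q L x : ℕ) (hq : 1 ≤ q) :
    (q : ℝ) * |∑ j ∈ range L, u (x + q * j)| ≤ ∑ a ∈ range q, ‖∑ n ∈ Ioc x (x + q * L),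
      (u n : ℂ) * Complex.exp (2 * Real.pi * Complex.I * (n * ((a : ℝ) / q : ℝ)))‖ + 2 * q := by
  have hq0 : (0 : ℝ) < q := by exact_mod_cast hq
  -- the progression x + q, ..., x + q L
  have h1 : |∑ j ∈ range L, u (x + q * j)| ≤ |∑ j ∈ range L, u (x + q * (j + 1))| + 2 := by
    have e1 := sum_range_succ' (fun j => u (x + q * j)) L
    have e2 := sum_range_succ (fun j => u (x + q * j)) L
    rw [e1] at e2
    have e3 : ∑ j ∈ range L, u (x + q * j) = ∑ j ∈ range L, u (x + q * (j + 1)) + (u (x + q * 0) - u (x + q * L)) := by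
      linarith
    rw [e3]
    refine (abs_add_le _ _).trans (add_le_add le_rfl ?_)
    refine (abs_sub _ _).trans ?_
    linarith [hu (x + q * 0), hu (x + q * L)]
  have h2 : ((q : ℝ) * ∑ j ∈ range L, u (x + q * (j + 1)) : ℝ) = ((q : ℝ) * ∑ j ∈ range L, u (x + q * (j + 1)) : ℝ) := rfl
  have h3 : ((∑ j ∈ range L, u (x + q * (j + 1)) : ℝ) : ℂ) * q = ∑ n ∈ Ioc x (x + q * L), (u n : ℂ) *
      (if q ∣ (n - x) then (q : ℂ) else 0) := by
    have e1 : ∑ n ∈ Ioc x (x + q * L), (u n : ℂ) * (if q ∣ (n - x) then (q : ℂ) else 0) =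
        ∑ n ∈ (Ioc x (x + q * L)).filter (fun n => q ∣ (n - x)), (u n : ℂ) * q := by
      rw [sum_filter]
      refine sum_congr rfl fun n _ => ?_
      split_ifs <;> simp
    have e2 : (Ioc x (x + q * L)).filter (fun n => q ∣ (n - x)) = (range L).image (fun j => x + q * (j + 1)) := by
      ext n
      simp only [mem_filter, mem_Ioc, mem_image, mem_range]
      constructor
      · rintro ⟨⟨ha, hb⟩, c, hc⟩
        have hc0 : c ≠ 0 := by
          rintro rfl
          omega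
        obtain ⟨c', rfl⟩ := Nat.exists_eq_succ_of_ne_zero hc0
        refine ⟨c', ?_, ?_⟩
        · have : q * (c' + 1) ≤ q * L := by
            rw [Nat.succ_eq_add_one] at hc
            omega
          have := Nat.le_of_mul_le_mul_left this (by omega : 0 < q)
          omega
        · rw [Nat.succ_eq_add_one] at hc
          omega
      · rintro ⟨j, hj, rfl⟩
        have : q * (j + 1) ≤ q * L := Nat.mul_le_mul_left _ (by omega)
        have h5 : 0 < q * (j + 1) := Nat.mul_pos (by omega) (by omega)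
        refine ⟨⟨by omega, by omega⟩, ?_⟩
        rw [Nat.add_sub_cancel_left]
        exact Dvd.intro _ rfl
    rw [e1, e2, sum_image]
    · rw [← sum_mul]
      push_cast
      rfl
    · intro a _ b _ hab
      have : q * (a + 1) = q * (b + 1) := by
        have : x + q * (a + 1) = x + q * (b + 1) := hab
        omega
      have := Nat.eq_of_mul_eq_mul_left (by omega : 0 < q) this
      omega
  have h4 : ∑ n ∈ Ioc x (x + q * L), (u n : ℂ) * (if q ∣ (n - x) then (q : ℂ) else 0) =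
      ∑ a ∈ range q, Complex.exp (-(2 * Real.pi * Complex.I * (x * ((a : ℝ) / q : ℝ)))) *
        ∑ n ∈ Ioc x (x + q * L), (u n : ℂ) * Complex.exp (2 * Real.pi * Complex.I * (n * ((a : ℝ) / q : ℝ))) := by
    simp only [mul_sum]
    rw [sum_comm]
    refine sum_congr rfl fun n hn => ?_
    rw [mem_Ioc] at hn
    rw [← orth q (n - x) hq, mul_sum]
    refine sum_congr rfl fun a _ => ?_
    have e1 : Complex.exp (2 * Real.pi * Complex.I * (((n - x : ℕ) : ℂ) * ((a : ℝ) / q : ℝ))) =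
        Complex.exp (-(2 * Real.pi * Complex.I * (x * ((a : ℝ) / q : ℝ)))) *
        Complex.exp (2 * Real.pi * Complex.I * (n * ((a : ℝ) / q : ℝ))) := by
      rw [← Complex.exp_add]
      congr 1
      rw [Nat.cast_sub (by omega)]
      ring
    rw [e1]
    ring
  have h5 : (q : ℝ) * |∑ j ∈ range L, u (x + q * (j + 1))| ≤ ∑ a ∈ range q, ‖∑ n ∈ Ioc x (x + q * L),
      (u n : ℂ) * Complex.exp (2 * Real.pi * Complex.I * (n * ((a : ℝ) / q : ℝ)))‖ := by
    have e1 : (q : ℝ) * |∑ j ∈ range L, u (x + q * (j + 1))| =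
        ‖((∑ j ∈ range L, u (x + q * (j + 1)) : ℝ) : ℂ) * q‖ := by
      rw [norm_mul, Complex.norm_real, Real.norm_eq_abs, Complex.norm_natCast, mul_comm]
    rw [e1, h3, h4]
    refine (norm_sum_le _ _).trans (sum_le_sum fun a _ => ?_)
    rw [norm_mul]
    have e2 : ‖Complex.exp (-(2 * Real.pi * Complex.I * (x * ((a : ℝ) / q : ℝ))))‖ = 1 := by
      have : -(2 * Real.pi * Complex.I * ((x : ℂ) * ((a : ℝ) / q : ℝ))) =
          ((-(2 * Real.pi * (x * (a / q))) : ℝ) : ℂ) * Complex.I := by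
        push_cast
        ring
      rw [this, Complex.norm_exp_ofReal_mul_I]
    rw [e2, one_mul]
  nlinarith

theorem SA_of (u : ℕ → ℝ) (hu : ∀ n, |u n| ≤ 1)
    (hG : ∀ C : ℝ, 0 ≤ C → Good {K | Cov K C 0} {fun n => (u n : ℂ)}) : SA u := by
  intro ε hε Q
  have hu' : ∀ n, ‖((u n : ℝ) : ℂ)‖ ≤ 1 := fun n => by rw [Complex.norm_real, Real.norm_eq_abs]; exact hu n
  obtain ⟨H0, h0⟩ := mr_char (fun n => (u n : ℂ)) hu' hG (ε / (2 * (Q + 1))) (by positivity)
  obtain ⟨L1, hL1⟩ := exists_nat_ge (4 / ε)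
  set L := H0 + L1 + 1 with hL
  refine ⟨L, by omega, Q * L, fun X hX q hq => ?_⟩
  rw [mem_Icc] at hq
  have hq0 : (0 : ℝ) < q := by exact_mod_cast hq.1
  have hLr : (4 : ℝ) / ε ≤ L := by
    refine hL1.trans ?_
    exact_mod_cast (by omega : L1 ≤ L)
  rw [div_le_iff₀ hε] at hLr
  have hqL : H0 ≤ q * L := by
    calc H0 ≤ L := by omega
      _ ≤ q * L := Nat.le_mul_of_pos_left _ hq.1
  have hqX : q * L ≤ X := (Nat.mul_le_mul_right _ hq.2).trans hX
  have h1 : (q : ℝ) * ∑ n ∈ range X, |∑ j ∈ range L, u (n + q * j)| ≤ q * (ε * L * X) := by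
    calc (q : ℝ) * ∑ n ∈ range X, |∑ j ∈ range L, u (n + q * j)|
        = ∑ n ∈ range X, (q : ℝ) * |∑ j ∈ range L, u (n + q * j)| := by rw [mul_sum]
      _ ≤ ∑ x ∈ range X, (∑ a ∈ range q, ‖∑ n ∈ Ioc x (x + q * L),
          (u n : ℂ) * Complex.exp (2 * Real.pi * Complex.I * (n * ((a : ℝ) / q : ℝ)))‖ + 2 * q) :=
          sum_le_sum fun x _ => prog_le u hu q L x hq.1
      _ = ∑ a ∈ range q, ∑ x ∈ range X, ‖∑ n ∈ Ioc x (x + q * L),
          (u n : ℂ) * Complex.exp (2 * Real.pi * Complex.I * (n * ((a : ℝ) / q : ℝ)))‖ + X * (2 * q) := by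
          rw [sum_add_distrib, sum_comm, sum_const, card_range, nsmul_eq_mul]
      _ ≤ ∑ _a ∈ range q, ε / (2 * (Q + 1)) * ((q * L : ℕ) : ℝ) * X + X * (2 * q) :=
          add_le_add (sum_le_sum fun a _ => h0 (q * L) hqL X hqX _) le_rfl
      _ = q * (ε / (2 * (Q + 1)) * ((q * L : ℕ) : ℝ) * X) + X * (2 * q) := by
          rw [sum_const, card_range, nsmul_eq_mul]
      _ ≤ q * (ε * L * X) := by
          have h2 : ε / (2 * (Q + 1)) * ((q * L : ℕ) : ℝ) ≤ ε / 2 * L := by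
            push_cast
            have h3 : (q : ℝ) ≤ Q + 1 := by
              have : (q : ℝ) ≤ Q := by exact_mod_cast hq.2
              linarith
            calc ε / (2 * (Q + 1)) * (q * L) ≤ ε / (2 * (Q + 1)) * ((Q + 1) * L) := by gcongr
              _ = ε / 2 * L := by field_simp
          have h4 : (2 : ℝ) ≤ ε / 2 * L := by linarith
          have h5 : (0 : ℝ) ≤ X := Nat.cast_nonneg _
          have h6 := mul_le_mul_of_nonneg_right h2 (mul_nonneg hq0.le h5)
          have h7 := mul_le_mul_of_nonneg_right h4 (mul_nonneg hq0.le h5)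
          nlinarith
  exact le_of_mul_le_mul_left h1 hq0

end Pool.Agent.Q259.LU
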