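import Pool.Agent.Y293.SF.SQF
import Pool.Agent.Q259.LU.Edge

set_option autoImplicit false

/-!
# Periodic majorants of the squarefree integers
-/

namespace Pool.Agent.Q259.LU

open Finset Filter Topology

open scoped Classical in
/-- no square of an integer in `[2, P]` divides `n` -/
noncomputable def wP (P n : ℕ) : ℝ := if ∃ d ∈ Icc 2 P, d ^ 2 ∣ n then 0 else 1

lemma wP_nonneg (P n : ℕ) : 0 ≤ wP P n := by unfold wP; split_ifs <;> norm_num

lemma wP_le (P n : ℕ) : wP P n ≤ 1 := by unfold wP; split_ifs <;> norm_num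

lemma wP_per (P n : ℕ) : wP P (n + P.factorial ^ 2) = wP P n := by
  unfold wP
  have h : ∀ d ∈ Icc 2 P, (d ^ 2 ∣ n + P.factorial ^ 2 ↔ d ^ 2 ∣ n) := by
    intro d hd
    rw [mem_Icc] at hd
    exact (Nat.dvd_add_left (pow_dvd_pow_of_dvd (Nat.dvd_factorial (by omega) hd.2) 2))
  have h2 : (∃ d ∈ Icc 2 P, d ^ 2 ∣ n + P.factorial ^ 2) ↔ (∃ d ∈ Icc 2 P, d ^ 2 ∣ n) :=
    exists_congr fun d => and_congr_right fun hd => h d hd
  simp only [h2]

lemma mu_le_wP (P n : ℕ) : |((ArithmeticFunction.moebius n : ℤ) : ℝ)| ≤ wP P n := by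
  by_cases hn : Squarefree n
  · have h1 : wP P n = 1 := by
      unfold wP
      rw [if_neg]
      rintro ⟨d, hd, hdn⟩
      rw [mem_Icc] at hd
      have := hn d (by rw [← sq]; exact hdn)
      rw [Nat.isUnit_iff] at this
      omega
    rw [h1]
    have := ArithmeticFunction.abs_moebius_le_one (n := n)
    exact_mod_cast this
  · rw [ArithmeticFunction.moebius_eq_zero_of_not_squarefree hn]
    simpa using wP_nonneg P n

open scoped Classical in
lemma wP_sum_le (P X : ℕ) (hP : 1 ≤ P) : ∑ h ∈ Icc 1 X, wP P h ≤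
    (((Icc 1 X).filter (fun m => Squarefree m)).card : ℝ) + X / P := by
  have h1 : ∀ h ∈ Icc 1 X, wP P h ≤ (if Squarefree h then (1 : ℝ) else 0) +
      ∑ d ∈ Ioc P X, if d ^ 2 ∣ h then (1 : ℝ) else 0 := by
    intro h hh
    rw [mem_Icc] at hh
    have hs : 0 ≤ ∑ d ∈ Ioc P X, if d ^ 2 ∣ h then (1 : ℝ) else 0 := sum_nonneg fun d _ => by split_ifs <;> norm_num
    by_cases hsq : Squarefree h
    · rw [if_pos hsq]
      linarith [wP_le P h]
    · rw [if_neg hsq, zero_add]
      by_cases hw : ∃ d ∈ Icc 2 P, d ^ 2 ∣ h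
      · have : wP P h = 0 := by unfold wP; rw [if_pos hw]
        rw [this]; exact hs
      · rw [Nat.squarefree_iff_prime_squarefree] at hsq
        push Not at hsq
        obtain ⟨p, hp, hph⟩ := hsq
        have hpP : P < p := by
          by_contra hc
          push Not at hc
          exact hw ⟨p, by rw [mem_Icc]; exact ⟨hp.two_le, hc⟩, by rw [sq]; exact hph⟩
        have hpX : p ≤ X := by
          have := Nat.le_of_dvd (by omega) hph
          have h2 : p * 1 ≤ p * p := Nat.mul_le_mul_left _ hp.one_lt.le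
          omega
        refine (wP_le P h).trans ?_
        have h3 := single_le_sum (f := fun d => if d ^ 2 ∣ h then (1 : ℝ) else 0) (s := Ioc P X)
          (fun d _ => by split_ifs <;> norm_num) (show p ∈ Ioc P X by rw [mem_Ioc]; exact ⟨hpP, hpX⟩)
        refine le_trans (le_of_eq ?_) h3
        show (1 : ℝ) = if p ^ 2 ∣ h then (1 : ℝ) else 0
        rw [if_pos (by rw [sq]; exact hph)]
  refine (sum_le_sum h1).trans ?_
  rw [sum_add_distrib]
  refine add_le_add (le_of_eq ?_) ?_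
  · rw [card_filter]
    push_cast
    rfl
  · rw [sum_comm]
    have h2 : ∀ d ∈ Ioc P X, ∑ h ∈ Icc 1 X, (if d ^ 2 ∣ h then (1 : ℝ) else 0) ≤ X * ((d : ℝ) ^ 2)⁻¹ := by
      intro d hd
      rw [mem_Ioc] at hd
      have h3 := Pool.Agent.Y293.SF.card_mult X (d ^ 2) (by have : 0 < d := by omega
                                                            positivity)
      have h4 : ∑ h ∈ Icc 1 X, (if d ^ 2 ∣ h then (1 : ℝ) else 0) = ((X / d ^ 2 : ℕ) : ℝ) := by
        rw [← h3, card_filter]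
        push_cast
        rfl
      rw [h4]
      refine (Nat.cast_div_le).trans ?_
      push_cast
      rw [div_eq_mul_inv]
    refine (sum_le_sum h2).trans ?_
    rw [← mul_sum, div_eq_mul_inv]
    refine mul_le_mul_of_nonneg_left ?_ (Nat.cast_nonneg _)
    by_cases hPX : P ≤ X
    · refine (sum_Ioc_inv_sq_le_sub (α := ℝ) (by omega) hPX).trans ?_
      have : (0 : ℝ) ≤ (X : ℝ)⁻¹ := by positivity
      linarith
    · rw [Ioc_eq_empty (by omega), sum_empty]
      positivity

lemma wP_mean (ε : ℝ) (hε : 0 < ε) : ∃ P : ℕ, ∑ r ∈ range (P.factorial ^ 2), wP P r ≤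
    (6 / Real.pi ^ 2 + ε) * ((P.factorial ^ 2 : ℕ) : ℝ) := by
  classical
  obtain ⟨P, hP⟩ := exists_nat_ge (3 / ε)
  have hP0 : (0 : ℝ) < P := lt_of_lt_of_le (by positivity) hP
  have hP1 : 1 ≤ P := by exact_mod_cast hP0
  refine ⟨P, ?_⟩
  set M := P.factorial ^ 2 with hM
  have hM1 : 1 ≤ M := Nat.one_le_pow _ _ (Nat.factorial_pos P)
  have hM0 : (0 : ℝ) < M := by exact_mod_cast hM1
  have hlim := Pool.Agent.Y293.SF.t_SQF
  unfold Pool.Agent.Y859.SF.S_SQF at hlim
  have hev := hlim.eventually (gt_mem_nhds (show 6 / Real.pi ^ 2 < 6 / Real.pi ^ 2 + ε / 3 by linarith))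
  obtain ⟨N₀, hN₀⟩ := eventually_atTop.mp hev
  obtain ⟨T₁, hT₁⟩ := exists_nat_ge (3 / ε)
  set T := N₀ + T₁ + 1 with hT
  have hT0 : (0 : ℝ) < T := by exact_mod_cast (by omega : 0 < T)
  have hMT : N₀ ≤ M * T := by
    calc N₀ ≤ T := by omega
      _ ≤ M * T := Nat.le_mul_of_pos_left _ hM1
  have h1 := hN₀ (M * T) hMT
  have hMT0 : (0 : ℝ) < ((M * T : ℕ) : ℝ) := by exact_mod_cast Nat.mul_pos hM1 (by omega)
  rw [div_lt_iff₀ hMT0] at h1
  have h2 := wP_sum_le P (M * T) hP1
  have h3 : ∑ h ∈ range (M * T), wP P h = T * ∑ r ∈ range M, wP P r := by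
    have hper : ∀ r i, wP P (r + M * i) = wP P r := by
      intro r i
      induction i with
      | zero => simp
      | succ i ih => rw [Nat.mul_succ, ← add_assoc, hM, wP_per, ← hM, ih]
    rw [split, mul_sum]
    refine sum_congr rfl fun r _ => ?_
    simp only [hper]
    rw [sum_const, card_range, nsmul_eq_mul]
  have h4 : ∑ h ∈ range (M * T), wP P h ≤ 1 + ∑ h ∈ Icc 1 (M * T), wP P h := by
    have e1 : range (M * T) ⊆ insert 0 (Icc 1 (M * T)) := by
      intro x hx
      rw [mem_range] at hx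
      rw [mem_insert, mem_Icc]
      omega
    refine (sum_le_sum_of_subset_of_nonneg e1 fun _ _ _ => wP_nonneg _ _).trans ?_
    rw [sum_insert (by simp)]
    linarith [wP_le P 0]
  have h5 : (T : ℝ) * ∑ r ∈ range M, wP P r ≤ T * ((6 / Real.pi ^ 2 + ε) * (M : ℝ)) := by
    rw [← h3]
    have h6 : ((M * T : ℕ) : ℝ) / P ≤ ε / 3 * ((M * T : ℕ) : ℝ) := by
      rw [div_le_iff₀ hP0]
      rw [div_le_iff₀ hε] at hP
      nlinarith
    have h7 : (1 : ℝ) ≤ ε / 3 * ((M * T : ℕ) : ℝ) := by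
      have e1 : (T₁ : ℝ) ≤ ((M * T : ℕ) : ℝ) := by
        exact_mod_cast (show T₁ ≤ M * T from by
          calc T₁ ≤ T := by omega
            _ ≤ M * T := Nat.le_mul_of_pos_left _ hM1)
      have e2 := hT₁.trans e1
      rw [div_le_iff₀ hε] at e2
      linarith
    have h8 : ((M * T : ℕ) : ℝ) = T * M := by push_cast; ring
    rw [h8] at h1 h6 h7 h2
    nlinarith
  exact le_of_mul_le_mul_left h5 hT0

end Pool.Agent.Q259.LU
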