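import Pool.Agent.Q259.LU.Ind
import Pool.Agent.Q259.LU.Inp
import Pool.Agent.Q259.LU.Sqf

set_option autoImplicit false

/-!
# Averages of suprema over polynomials
-/

namespace Pool.Agent.Q259.LU

open Finset MeasureTheory Pool.Agent.H332R2.Lit Polynomial

theorem claim_all (F : C(UnitAddCircle, ℂ)) (c : ℂ) (κ : ℝ) (hκ : 0 ≤ κ)
    (hF : ∀ ω : ℂ, ‖ω‖ = 1 → ∫ t : UnitAddCircle, |(ω * (F t - c)).re| ≤ κ) (M : ℕ) (hM : 1 ≤ M) (k : ℕ) :
    Claim F κ M k := by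
  induction k with
  | zero => exact claim_zero F κ hκ M
  | succ k ih => exact claim_succ F c κ hκ hF M hM k ih

lemma per_shift (w : ℕ → ℝ) (M : ℕ) (hwM : ∀ n, w (n + M) = w n) (x : ℕ) :
    ∑ r ∈ range M, w (x + r) = ∑ r ∈ range M, w r := by
  induction x with
  | zero => simp
  | succ x ih =>
    rw [← ih]
    have e1 := sum_range_succ' (fun r => w (x + r)) M
    have e2 := sum_range_succ (fun r => w (x + r)) M
    rw [e1] at e2
    have e3 : ∀ r, w (x + (r + 1)) = w (x + 1 + r) := fun r => by congr 1; omega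
    simp only [e3, add_zero, hwM] at e2
    linarith

lemma per_sum (w : ℕ → ℝ) (M : ℕ) (hM : 1 ≤ M) (hw0 : ∀ n, 0 ≤ w n) (hw1 : ∀ n, w n ≤ 1)
    (hwM : ∀ n, w (n + M) = w n) (ρ : ℝ) (hρ : ∑ r ∈ range M, w r ≤ ρ * M) (x H : ℕ) :
    ∑ h ∈ range H, w (x + h) ≤ ρ * H + M := by
  have hM0 : (0 : ℝ) < M := by exact_mod_cast hM
  have hS0 : 0 ≤ ∑ r ∈ range M, w r := sum_nonneg fun r _ => hw0 r
  have hS1 : ∑ r ∈ range M, w r ≤ M := by
    refine (sum_le_sum fun r _ => hw1 r).trans ?_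
    simp
  have hρ0 : 0 ≤ ρ := by
    by_contra hc
    push Not at hc
    have : ρ * M < 0 := mul_neg_of_neg_of_pos hc hM0
    linarith
  have hper : ∀ y i, w (y + M * i) = w y := by
    intro y i
    induction i with
    | zero => simp
    | succ i ih => rw [Nat.mul_succ, ← add_assoc, hwM, ih]
  have h1 : range H ⊆ range (M * (H / M + 1)) := by
    intro y hy
    rw [mem_range] at hy ⊢
    have := Nat.div_add_mod H M
    have h2 := Nat.mod_lt H hM
    rw [Nat.mul_add, Nat.mul_one]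
    omega
  have h2 : ∑ h ∈ range (M * (H / M + 1)), w (x + h) = ((H / M : ℕ) + 1) * ∑ r ∈ range M, w r := by
    rw [split (fun h => w (x + h)), ← per_shift w M hwM x, mul_sum]
    refine sum_congr rfl fun r _ => ?_
    have : ∀ i, w (x + (r + M * i)) = w (x + r) := fun i => by rw [← add_assoc, hper]
    simp only [this]
    rw [sum_const, card_range, nsmul_eq_mul]
    push_cast
    ring
  have h3 : ((H / M : ℕ) : ℝ) * M ≤ H := by exact_mod_cast Nat.div_mul_le_self H M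
  calc ∑ h ∈ range H, w (x + h) ≤ ∑ h ∈ range (M * (H / M + 1)), w (x + h) :=
        sum_le_sum_of_subset_of_nonneg h1 fun _ _ _ => hw0 _
    _ = ((H / M : ℕ) : ℝ) * ∑ r ∈ range M, w r + ∑ r ∈ range M, w r := by rw [h2]; ring
    _ ≤ ((H / M : ℕ) : ℝ) * (ρ * M) + M :=
        add_le_add (mul_le_mul_of_nonneg_left hρ (Nat.cast_nonneg _)) hS1
    _ = ρ * (((H / M : ℕ) : ℝ) * M) + M := by ring
    _ ≤ ρ * H + M := add_le_add (mul_le_mul_of_nonneg_left h3 hρ0) le_rfl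

lemma icc_range (f : ℕ → ℝ) (t : ℕ) : ∑ n ∈ Icc 1 t, f n = ∑ i ∈ range t, f (1 + i) := by
  have h1 : Icc 1 t = Ico 1 (t + 1) := by ext x; simp only [mem_Icc, mem_Ico]; omega
  rw [h1, sum_Ico_eq_sum_range]
  simp

lemma icc_range' (f : ℕ → ℂ) (t : ℕ) : ∑ n ∈ Icc 1 t, f n = ∑ i ∈ range t, f (1 + i) := by
  have h1 : Icc 1 t = Ico 1 (t + 1) := by ext x; simp only [mem_Icc, mem_Ico]; omega
  rw [h1, sum_Ico_eq_sum_range]
  simp

lemma tail_le (g : ℕ → ℝ) (hg : ∀ n, 0 ≤ g n) (a b X : ℕ) (h : a + b ≤ X) :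
    ∑ s ∈ range b, g (a + s) ≤ ∑ m ∈ range X, g m := by
  have h1 : ∑ m ∈ range (a + b), g m = ∑ m ∈ range a, g m + ∑ s ∈ range b, g (a + s) := by
    rw [sum_range_add]
  have h2 : ∑ m ∈ range (a + b), g m ≤ ∑ m ∈ range X, g m :=
    sum_le_sum_of_subset_of_nonneg (range_subset_range.mpr h) fun _ _ _ => hg _
  have h3 : 0 ≤ ∑ m ∈ range a, g m := sum_nonneg fun _ _ => hg _
  linarith

/-- double averages over windows -/
lemma win_avg (g : ℕ → ℝ) (hg : ∀ n, 0 ≤ g n) (c : ℝ) (hc : 0 ≤ c) (X₀ : ℕ)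
    (hX : ∀ X, X₀ ≤ X → ∑ m ∈ range X, g m ≤ c * X) (H : ℕ) (hH : X₀ + 1 ≤ H) (t : ℕ) :
    ∑ n ∈ Icc 1 t, ∑ s ∈ range H, g (n + 1 + s) ≤ 3 * c * H * t := by
  have hH1 : (1 : ℝ) ≤ H := by exact_mod_cast (by omega : 1 ≤ H)
  by_cases ht : t ≤ H
  · calc ∑ n ∈ Icc 1 t, ∑ s ∈ range H, g (n + 1 + s) ≤ ∑ _n ∈ Icc 1 t, 3 * c * H := by
          refine sum_le_sum fun n hn => ?_
          rw [mem_Icc] at hn
          refine (tail_le g hg (n + 1) H _ le_rfl).trans ?_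
          refine (hX (n + 1 + H) (by omega)).trans ?_
          have h1 : ((n + 1 + H : ℕ) : ℝ) ≤ 3 * H := by
            have : n + 1 + H ≤ 3 * H := by omega
            exact_mod_cast this
          nlinarith
      _ = 3 * c * H * t := by rw [sum_const, Nat.card_Icc, nsmul_eq_mul, Nat.add_sub_cancel]; ring
  · push Not at ht
    rw [sum_comm]
    calc ∑ s ∈ range H, ∑ n ∈ Icc 1 t, g (n + 1 + s) ≤ ∑ _s ∈ range H, 3 * c * t := by
          refine sum_le_sum fun s hs => ?_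
          rw [mem_range] at hs
          rw [icc_range (fun n => g (n + 1 + s))]
          have e1 : ∀ i, g (1 + i + 1 + s) = g (s + 2 + i) := fun i => by congr 1; omega
          simp only [e1]
          refine (tail_le g hg (s + 2) t (t + 1 + H) (by omega)).trans ?_
          refine (hX (t + 1 + H) (by omega)).trans ?_
          have h1 : ((t + 1 + H : ℕ) : ℝ) ≤ 3 * t := by
            have : t + 1 + H ≤ 3 * t := by omega
            exact_mod_cast this
          nlinarith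
      _ = 3 * c * H * t := by rw [sum_const, card_range, nsmul_eq_mul]; ring

lemma avg_GG (u : ℕ → ℝ) (hSA : SA u) (ε : ℝ) (hε : 0 < ε) (Q : ℕ) :
    ∃ L : ℕ, 1 ≤ L ∧ ∃ H₀ : ℕ, ∀ H, H₀ ≤ H → ∀ t : ℕ,
      ∑ n ∈ Icc 1 t, GG (fun h => u (n + 1 + h)) H L Q / L ≤ ε * H * t := by
  obtain ⟨L, hL, X₀, hX₀⟩ := hSA (ε / (3 * (Q + 1))) (by positivity) Q
  have hL0 : (0 : ℝ) < L := by exact_mod_cast hL
  refine ⟨L, hL, X₀ + 1, fun H hH t => ?_⟩
  have h1 : ∑ n ∈ Icc 1 t, GG (fun h => u (n + 1 + h)) H L Q =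
      ∑ q ∈ Icc 1 Q, ∑ n ∈ Icc 1 t, ∑ s ∈ range H, |∑ j ∈ range L, u (n + 1 + s + q * j)| := by
    unfold GG
    rw [sum_comm]
    refine sum_congr rfl fun q _ => sum_congr rfl fun n _ => sum_congr rfl fun s _ => ?_
    congr 1
    refine sum_congr rfl fun j _ => ?_
    show u (n + 1 + (s + q * j)) = _
    congr 1
    omega
  rw [← sum_div, h1, div_le_iff₀ hL0]
  calc ∑ q ∈ Icc 1 Q, ∑ n ∈ Icc 1 t, ∑ s ∈ range H, |∑ j ∈ range L, u (n + 1 + s + q * j)|
      ≤ ∑ _q ∈ Icc 1 Q, 3 * (ε / (3 * (Q + 1)) * L) * H * t :=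
        sum_le_sum fun q hq => win_avg (fun m => |∑ j ∈ range L, u (m + q * j)|) (fun _ => abs_nonneg _)
          (ε / (3 * (Q + 1)) * L) (by positivity) X₀ (fun X hX => hX₀ X hX q hq) H hH t
    _ = (Q / (Q + 1)) * (ε * H * t * L) := by
        rw [sum_const, Nat.card_Icc, nsmul_eq_mul, Nat.add_sub_cancel]
        field_simp
    _ ≤ 1 * (ε * H * t * L) := by
        refine mul_le_mul_of_nonneg_right ?_ (by positivity)
        rw [div_le_one (by positivity)]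
        linarith
    _ = ε * H * t * L := one_mul _

/-- **the averages** of functions with the majorant of the claim -/
theorem core (κ : ℝ) (hκ : 0 ≤ κ) (u : ℕ → ℝ) (hSA : SA u)
    (M : ℕ) (hM : 1 ≤ M) (w : ℕ → ℝ) (hw0 : ∀ n, 0 ≤ w n) (hw1 : ∀ n, w n ≤ 1) (hwM : ∀ n, w (n + M) = w n)
    (ρ : ℝ) (hρ : ∑ r ∈ range M, w r ≤ ρ * M) (ε : ℝ) (hε : 0 < ε) (Q : ℕ) (C : ℝ) (hC : 0 ≤ C) :
    ∃ L : ℕ, 1 ≤ L ∧ ∃ H₀ : ℕ, ∀ N H : ℕ, H₀ ≤ H → H ≤ N → ∀ S : ℕ → ℝ,
      (∀ n, S n ≤ κ * ∑ h ∈ range H, w (n + 1 + h) + ε / 8 * H + C * (GG (fun h => u (n + 1 + h)) H L Q / L)) →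
      ∑ n ∈ Icc 1 N, (1 / (n : ℝ)) * S n ≤ (ρ * κ + ε) * H * Real.log N ∧
      ∑ n ∈ Icc 1 N, S n ≤ (ρ * κ + ε) * H * N := by
  have hM0 : (0 : ℝ) < M := by exact_mod_cast hM
  have hρ0 : 0 ≤ ρ := by
    by_contra hc
    push Not at hc
    have : ρ * M < 0 := mul_neg_of_neg_of_pos hc hM0
    have : 0 ≤ ∑ r ∈ range M, w r := sum_nonneg fun r _ => hw0 r
    linarith
  obtain ⟨L, hL, H₁, hH₁⟩ := avg_GG u hSA (ε / (8 * (C + 1))) (by positivity) Q
  obtain ⟨H₂, hH₂⟩ := exists_nat_ge (κ * M / (ε / 8))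
  obtain ⟨H₃, hH₃⟩ := exists_nat_ge (Real.exp (2 * (ρ * κ + ε) / (ε / 8)))
  refine ⟨L, hL, H₁ + H₂ + H₃ + 3, fun N H hH hHN S hS => ?_⟩
  have hH0 : (0 : ℝ) < H := by exact_mod_cast (by omega : 0 < H)
  have hNH : (H : ℝ) ≤ N := by exact_mod_cast hHN
  have hN0 : (0 : ℝ) < N := by linarith
  -- pointwise bound
  have hκM : κ * M ≤ ε / 8 * H := by
    have h1 := hH₂.trans (by exact_mod_cast (by omega : H₂ ≤ H) : (H₂ : ℝ) ≤ H)
    rw [div_le_iff₀ (by positivity)] at h1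
    linarith
  have hpt : ∀ n, S n ≤ (ρ * κ + ε / 4) * H + C * (GG (fun h => u (n + 1 + h)) H L Q / L) := by
    intro n
    have h1 := hS n
    have h2 := per_sum w M hM hw0 hw1 hwM ρ hρ (n + 1) H
    have h3 := mul_le_mul_of_nonneg_left h2 hκ
    nlinarith
  have hL0 : (0 : ℝ) < L := by exact_mod_cast hL
  have hG : ∀ t : ℕ, ∑ n ∈ Icc 1 t, C * (GG (fun h => u (n + 1 + h)) H L Q / L) ≤ ε / 8 * H * t := by
    intro t
    rw [← mul_sum]
    calc C * ∑ n ∈ Icc 1 t, GG (fun h => u (n + 1 + h)) H L Q / L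
        ≤ C * (ε / (8 * (C + 1)) * H * t) := mul_le_mul_of_nonneg_left (hH₁ H (by omega) t) hC
      _ = (C / (C + 1)) * (ε / 8 * H * t) := by field_simp
      _ ≤ 1 * (ε / 8 * H * t) := by
          refine mul_le_mul_of_nonneg_right ?_ (by positivity)
          rw [div_le_one (by positivity)]
          linarith
      _ = ε / 8 * H * t := one_mul _
  constructor
  · -- logarithmic averages
    have hlog := Pool.Agent.TH327.Dim.log_of_ces (fun n => C * (GG (fun h => u (n + 1 + h)) H L Q / L))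
      (ε / 8 * H) (by positivity) N (fun t _ _ => hG t)
    have h4 : ∑ n ∈ Icc 1 N, 1 / (n : ℝ) ≤ 1 + Real.log N := by
      have h3 := harmonic_le_one_add_log N
      refine le_trans (le_of_eq ?_) h3
      rw [harmonic_eq_sum_Icc]
      push_cast
      exact sum_congr rfl fun x _ => one_div _
    have hlogN : 2 * (ρ * κ + ε) / (ε / 8) ≤ Real.log N := by
      rw [Real.le_log_iff_exp_le hN0]
      refine hH₃.trans (le_trans ?_ hNH)
      exact_mod_cast (by omega : H₃ ≤ H)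
    rw [div_le_iff₀ (by positivity)] at hlogN
    have hlog0 : 0 ≤ Real.log N := Real.log_natCast_nonneg N
    calc ∑ n ∈ Icc 1 N, (1 / (n : ℝ)) * S n
        ≤ ∑ n ∈ Icc 1 N, ((ρ * κ + ε / 4) * H * (1 / (n : ℝ)) +
            C * (GG (fun h => u (n + 1 + h)) H L Q / L) / n) := by
          refine sum_le_sum fun n hn => ?_
          rw [mem_Icc] at hn
          have hn0 : (0 : ℝ) < n := by exact_mod_cast hn.1
          have := mul_le_mul_of_nonneg_left (hpt n) (show (0 : ℝ) ≤ 1 / n by positivity)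
          refine this.trans (le_of_eq ?_)
          ring
      _ = (ρ * κ + ε / 4) * H * ∑ n ∈ Icc 1 N, 1 / (n : ℝ) +
            ∑ n ∈ Icc 1 N, C * (GG (fun h => u (n + 1 + h)) H L Q / L) / n := by
          rw [sum_add_distrib, mul_sum]
      _ ≤ (ρ * κ + ε / 4) * H * (1 + Real.log N) + ε / 8 * H * (2 + Real.log N) :=
          add_le_add (mul_le_mul_of_nonneg_left h4 (by positivity)) hlog
      _ ≤ (ρ * κ + ε) * H * Real.log N := by
          have h5 : (ρ * κ + ε / 4) * (1 + Real.log N) + ε / 8 * (2 + Real.log N) ≤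
              (ρ * κ + ε) * Real.log N := by
            nlinarith [mul_nonneg hρ0 hκ]
          have h6 := mul_le_mul_of_nonneg_right h5 hH0.le
          nlinarith
  · calc ∑ n ∈ Icc 1 N, S n
        ≤ ∑ n ∈ Icc 1 N, ((ρ * κ + ε / 4) * H + C * (GG (fun h => u (n + 1 + h)) H L Q / L)) :=
          sum_le_sum fun n _ => hpt n
      _ = N * ((ρ * κ + ε / 4) * H) + ∑ n ∈ Icc 1 N, C * (GG (fun h => u (n + 1 + h)) H L Q / L) := by
          rw [sum_add_distrib, sum_const, Nat.card_Icc, nsmul_eq_mul, Nat.add_sub_cancel]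
      _ ≤ N * ((ρ * κ + ε / 4) * H) + ε / 8 * H * N := add_le_add le_rfl (hG N)
      _ ≤ (ρ * κ + ε) * H * N := by
          have : 0 ≤ ε * H * N := by positivity
          nlinarith

end Pool.Agent.Q259.LU
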