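import Pool.Agent.Q259.LU.Zp

set_option autoImplicit false

/-!
# Autocorrelations of functions on cyclic groups of prime order, arbitrary mean
-/

namespace Pool.Agent.Q259.LU

open Finset

lemma amgm_pow (w : ℝ) (hw : 0 ≤ w) (n : ℕ) : (n + 1) * w ^ n ≤ 1 + n * w ^ (n + 1) := by
  induction n with
  | zero => simp
  | succ n ih =>
    have h1 : 0 ≤ (w ^ (n + 1) - 1) * (w - 1) := by
      rcases le_total 1 w with h | h
      · exact mul_nonneg (sub_nonneg.mpr (one_le_pow₀ h)) (by linarith)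
      · have : w ^ (n + 1) ≤ 1 := pow_le_one₀ hw h
        exact mul_nonneg_of_nonpos_of_nonpos (by linarith) (by linarith)
    have h2 := mul_le_mul_of_nonneg_left ih hw
    have e1 : w ^ (n + 1 + 1) = w * w ^ (n + 1) := by ring
    have e2 : w * w ^ n = w ^ (n + 1) := by ring
    push_cast
    nlinarith

/-- the moments of the extremal law -/
lemma lam_le (w : ℝ) (hw0 : -1 ≤ w) (hw1 : w ≤ 1) (k : ℕ) :
    (1 - w ^ (2 * k + 1)) / (2 * (2 * k + 1)) + (1 + w) / 2 * w ^ (2 * k) ≤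
      1 / (2 * k + 1) + 2 * k / (2 * k + 1) * ((1 + w) / 2) ^ (4 * k + 2) := by
  have hk : (0 : ℝ) < 2 * k + 1 := by positivity
  have hk0 : (0 : ℝ) ≤ k := Nat.cast_nonneg _
  have key : (2 * k + 1) * w ^ (2 * k) + 2 * k * w ^ (2 * k + 1) ≤ 1 + 4 * k * ((1 + w) / 2) ^ (4 * k + 2) := by
    rcases le_total 0 w with h | h
    · have h1 := amgm_pow w h (2 * k)
      push_cast at h1
      have h2 : w ≤ ((1 + w) / 2) ^ 2 := by nlinarith [sq_nonneg (1 - w)]
      have h3 : w ^ (2 * k + 1) ≤ ((1 + w) / 2) ^ (4 * k + 2) := by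
        have : ((1 + w) / 2) ^ (4 * k + 2) = (((1 + w) / 2) ^ 2) ^ (2 * k + 1) := by
          rw [← pow_mul]; congr 1; ring
        rw [this]
        exact pow_le_pow_left₀ h h2 _
      nlinarith
    · have h1 := amgm_pow (-w) (by linarith) (2 * k)
      have e1 : (-w) ^ (2 * k) = w ^ (2 * k) := (even_two_mul k).neg_pow w
      have e2 : (-w) ^ (2 * k + 1) = -w ^ (2 * k + 1) := (Odd.neg_pow ⟨k, rfl⟩ w)
      rw [e1, e2] at h1
      push_cast at h1
      have h3 : 0 ≤ 4 * (k : ℝ) * ((1 + w) / 2) ^ (4 * k + 2) := by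
        have : 0 ≤ (1 + w) / 2 := by linarith
        positivity
      linarith
  have e1 : (1 - w ^ (2 * k + 1)) / (2 * (2 * k + 1)) + (1 + w) / 2 * w ^ (2 * k) =
      (1 + ((2 * k + 1) * w ^ (2 * k) + 2 * k * w ^ (2 * k + 1))) / (2 * (2 * k + 1)) := by
    have : w ^ (2 * k + 1) = w * w ^ (2 * k) := by ring
    rw [this]
    field_simp
    ring
  have e2 : 1 / (2 * (k : ℝ) + 1) + 2 * k / (2 * k + 1) * ((1 + w) / 2) ^ (4 * k + 2) =
      (1 + (1 + 4 * k * ((1 + w) / 2) ^ (4 * k + 2))) / (2 * (2 * k + 1)) := by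
    field_simp
    ring
  rw [e1, e2]
  exact div_le_div_of_nonneg_right (by linarith) (by positivity)

lemma step_pow (n : ℕ) (x y : ℝ) (hx : |x| ≤ 1) (hy : |y| ≤ 1) (hxy : y ≤ x) :
    (n + 1) * (x - y) * x ^ n ≤ x ^ (n + 1) - y ^ (n + 1) + (n + 1) * n * (x - y) ^ 2 := by
  induction n with
  | zero => simp
  | succ n ih =>
    -- `x^(n+2) - y^(n+2) = x (x^(n+1) - y^(n+1)) + (x - y) y^(n+1)` is not convenient for signs; use the sum
    have h1 : ∀ m : ℕ, ∀ i ≤ m, x ^ m - m * (x - y) ≤ x ^ (m - i) * y ^ i := by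
      intro m i hi
      have e1 : x ^ m = x ^ (m - i) * x ^ i := by rw [← pow_add, Nat.sub_add_cancel hi]
      have e2 := pow_sub_le i x y hx hy
      rw [abs_of_nonneg (by linarith : 0 ≤ x - y)] at e2
      have e3 : |x ^ (m - i)| ≤ 1 := by rw [abs_pow]; exact pow_le_one₀ (abs_nonneg _) hx
      have e4 : |x ^ (m - i) * (x ^ i - y ^ i)| ≤ i * (x - y) := by
        rw [abs_mul]
        exact (mul_le_of_le_one_left (abs_nonneg _) e3).trans e2
      have e5 := (abs_le.mp e4).2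
      have e6 : (i : ℝ) * (x - y) ≤ m * (x - y) :=
        mul_le_mul_of_nonneg_right (by exact_mod_cast hi) (by linarith)
      rw [e1]
      nlinarith
    have h2 : x ^ (n + 1 + 1) - y ^ (n + 1 + 1) = (x - y) * ∑ i ∈ range (n + 1 + 1), x ^ (n + 1 - i) * y ^ i := by
      have := (Commute.all x y).geom_sum₂_mul (n := n + 1 + 1)
      rw [← this, mul_comm]
      congr 1
      rw [← sum_range_reflect]
      refine sum_congr rfl fun i hi => ?_
      rw [mem_range] at hi
      rw [show n + 1 + 1 - 1 - i = n + 1 - i by omega, show n + 1 + 1 - 1 - (n + 1 - i) = i by omega]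
    have h3 : ((n + 1 + 1 : ℕ) : ℝ) * (x ^ (n + 1) - ((n + 1 : ℕ) : ℝ) * (x - y)) ≤
        ∑ i ∈ range (n + 1 + 1), x ^ (n + 1 - i) * y ^ i := by
      calc ((n + 1 + 1 : ℕ) : ℝ) * (x ^ (n + 1) - ((n + 1 : ℕ) : ℝ) * (x - y))
          = ∑ _i ∈ range (n + 1 + 1), (x ^ (n + 1) - ((n + 1 : ℕ) : ℝ) * (x - y)) := by
            rw [sum_const, card_range, nsmul_eq_mul]
        _ ≤ _ := sum_le_sum fun i hi => h1 (n + 1) i (by rw [mem_range] at hi; omega)
    have h4 := mul_le_mul_of_nonneg_left h3 (by linarith : 0 ≤ x - y)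
    rw [← h2] at h4
    push_cast at h4 ⊢
    nlinarith

/-- the sums of the extremal profile -/
lemma riemann' (p k0 k : ℕ) (hp : 1 ≤ p) (hk0 : k0 ≤ p) (c : ℝ) (hc0 : 0 ≤ c) (hc1 : c ≤ 1) (h1 : c * p ≤ k0)
    (h2 : (k0 : ℝ) ≤ c * p + 1) :
    ∑ i ∈ range k0, (1 - 2 * ((i : ℝ) / p)) ^ (2 * k) + (p - k0) * (1 - 2 * c) ^ (2 * k) ≤
      p * ((1 - (1 - 2 * c) ^ (2 * k + 1)) / (2 * (2 * k + 1)) + (1 - c) * (1 - 2 * c) ^ (2 * k)) + (4 * k + 1) := by
  have hp0 : (0 : ℝ) < p := by exact_mod_cast hp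
  have hk : (0 : ℝ) < 2 * k + 1 := by positivity
  set x : ℕ → ℝ := fun i => 1 - 2 * ((i : ℝ) / p) with hx
  have hx1 : ∀ i, i ≤ p → |x i| ≤ 1 := by
    intro i hi
    have a1 : (i : ℝ) / p ≤ 1 := by rw [div_le_one hp0]; exact_mod_cast hi
    have a2 : 0 ≤ (i : ℝ) / p := by positivity
    simp only [hx]
    rw [abs_le]
    constructor <;> linarith
  have hs : ∀ i, i < p → x i ^ (2 * k) ≤ p / (2 * (2 * k + 1)) * (x i ^ (2 * k + 1) - x (i + 1) ^ (2 * k + 1)) +
      4 * k / p := by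
    intro i hi
    have e1 : x i - x (i + 1) = 2 / p := by simp only [hx]; push_cast; ring
    have e2 := step_pow (2 * k) (x i) (x (i + 1)) (hx1 i hi.le) (hx1 (i + 1) hi) (by
      have : (0 : ℝ) < 2 / p := by positivity
      linarith)
    rw [e1] at e2
    push_cast at e2
    have e3 : x i ^ (2 * k) = p / (2 * (2 * k + 1)) * ((2 * k + 1) * (2 / p) * x i ^ (2 * k)) := by field_simp
    rw [e3]
    have e4 := mul_le_mul_of_nonneg_left e2 (by positivity : (0 : ℝ) ≤ p / (2 * (2 * k + 1)))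
    refine e4.trans (le_of_eq ?_)
    rw [mul_add]
    congr 1
    field_simp
    ring
  have htel : ∑ i ∈ range k0, (x i ^ (2 * k + 1) - x (i + 1) ^ (2 * k + 1)) = 1 - x k0 ^ (2 * k + 1) := by
    rw [sum_range_sub']
    congr 1
    simp [hx]
  have h3 : ∑ i ∈ range k0, x i ^ (2 * k) ≤ p / (2 * (2 * k + 1)) * (1 - x k0 ^ (2 * k + 1)) + 4 * k := by
    refine (sum_le_sum fun i hi => hs i (by rw [mem_range] at hi; omega)).trans ?_
    rw [sum_add_distrib, ← mul_sum, htel, sum_const, card_range, nsmul_eq_mul]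
    have : (k0 : ℝ) * (4 * k / p) ≤ 4 * k := by
      rw [mul_div_assoc', div_le_iff₀ hp0]
      have : (k0 : ℝ) ≤ p := by exact_mod_cast hk0
      have hk' : (0 : ℝ) ≤ 4 * k := by positivity
      nlinarith
    linarith
  set w := 1 - 2 * c with hw
  have hw1 : |w| ≤ 1 := by rw [hw, abs_le]; constructor <;> linarith
  have h4 : w ^ (2 * k + 1) - (2 * k + 1) * (2 / p) ≤ x k0 ^ (2 * k + 1) := by
    have e1 := pow_sub_le (2 * k + 1) w (x k0) hw1 (hx1 k0 hk0)
    have e2 : |w - x k0| ≤ 2 / p := by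
      have : w - x k0 = 2 * ((k0 : ℝ) - c * p) / p := by
        simp only [hw, hx]
        field_simp
        ring
      rw [this, abs_div, abs_of_pos hp0]
      refine div_le_div_of_nonneg_right ?_ hp0.le
      rw [abs_of_nonneg (by linarith)]
      linarith
    have e3 := (abs_le.mp e1).2
    have e4 : ((2 * k + 1 : ℕ) : ℝ) * |w - x k0| ≤ ((2 * k + 1 : ℕ) : ℝ) * (2 / p) :=
      mul_le_mul_of_nonneg_left e2 (Nat.cast_nonneg _)
    push_cast at e3 e4
    linarith
  have h5 : (p : ℝ) / (2 * (2 * k + 1)) * (1 - x k0 ^ (2 * k + 1)) ≤ p / (2 * (2 * k + 1)) * (1 - w ^ (2 * k + 1)) + 1 := by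
    have e1 : (p : ℝ) / (2 * (2 * k + 1)) * (1 - x k0 ^ (2 * k + 1)) ≤
        p / (2 * (2 * k + 1)) * (1 - (w ^ (2 * k + 1) - (2 * k + 1) * (2 / p))) :=
      mul_le_mul_of_nonneg_left (by linarith) (by positivity)
    refine e1.trans (le_of_eq ?_)
    field_simp
    ring
  have h6 : ((p : ℝ) - k0) * w ^ (2 * k) ≤ p * ((1 - c) * w ^ (2 * k)) := by
    have : 0 ≤ w ^ (2 * k) := (even_two_mul k).pow_nonneg w
    nlinarith
  calc ∑ i ∈ range k0, x i ^ (2 * k) + (p - k0) * w ^ (2 * k)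
      ≤ (p / (2 * (2 * k + 1)) * (1 - w ^ (2 * k + 1)) + 1 + 4 * k) + p * ((1 - c) * w ^ (2 * k)) := by linarith
    _ = _ := by ring

lemma maj_step (p : ℕ) (d : ℕ → ℝ) (hd : ∀ i j, i + j < p → d (i + j) ≤ d i + d j) (k : ℕ) (hk : k + 1 ≤ p) :
    ((k : ℝ) - 1) * ∑ i ∈ range (k + 1), d i ≤ (k + 1) * ∑ i ∈ range k, d i := by
  have h1 : ((k : ℝ) + 1) * d k ≤ 2 * ∑ i ∈ range (k + 1), d i := by
    have e1 : ∑ i ∈ range (k + 1), d k ≤ ∑ i ∈ range (k + 1), (d i + d (k - i)) := by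
      refine sum_le_sum fun i hi => ?_
      rw [mem_range] at hi
      have := hd i (k - i) (by omega)
      rwa [show i + (k - i) = k by omega] at this
    have e2 : ∑ i ∈ range (k + 1), d (k - i) = ∑ i ∈ range (k + 1), d i := by
      have := sum_range_reflect d (k + 1)
      rw [← this]
      refine sum_congr rfl fun i _ => ?_
      rw [show k + 1 - 1 - i = k - i by omega]
    rw [sum_add_distrib, e2, sum_const, card_range, nsmul_eq_mul] at e1
    push_cast at e1
    linarith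
  rw [sum_range_succ] at h1 ⊢
  nlinarith

/-- the sums of the smallest values, compared with a longer sum -/
lemma maj' (p : ℕ) (d : ℕ → ℝ) (hd0 : ∀ i, i < p → 0 ≤ d i) (hd : ∀ i j, i + j < p → d (i + j) ≤ d i + d j) (k0 : ℕ)
    (hk0 : k0 ≤ p) :
    ∀ k, k ≤ k0 → (k : ℝ) * (k - 1) * ∑ i ∈ range k0, d i ≤ (k0 : ℝ) * (k0 - 1) * ∑ i ∈ range k, d i := by
  have key : ∀ j k, k + j = k0 → (k : ℝ) * (k - 1) * ∑ i ∈ range k0, d i ≤ (k0 : ℝ) * (k0 - 1) * ∑ i ∈ range k, d i := by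
    intro j
    induction j with
    | zero =>
      intro k hk
      have : k = k0 := by omega
      subst this
      exact le_rfl
    | succ j ih =>
      intro k hk
      rcases Nat.eq_zero_or_pos k with h0 | h0
      · subst h0
        simp
      · have h1 := ih (k + 1) (by omega)
        have h2 := maj_step p d hd k (by omega)
        have hk01 : (1 : ℝ) ≤ k0 := by exact_mod_cast (show 1 ≤ k0 by omega)
        have hp1 : (0 : ℝ) ≤ (k0 : ℝ) * (k0 - 1) := mul_nonneg (by linarith) (by linarith)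
        have h3 : (k0 : ℝ) * (k0 - 1) * (((k : ℝ) - 1) * ∑ i ∈ range (k + 1), d i) ≤
            (k0 : ℝ) * (k0 - 1) * ((k + 1) * ∑ i ∈ range k, d i) := mul_le_mul_of_nonneg_left h2 hp1
        have hk1 : (0 : ℝ) ≤ (k : ℝ) - 1 := by
          have : (1 : ℝ) ≤ k := by exact_mod_cast h0
          linarith
        have h4 := mul_le_mul_of_nonneg_left h1 hk1
        push_cast at h4
        have hk2 : (0 : ℝ) < (k : ℝ) + 1 := by positivity
        have h5 : ((k : ℝ) + 1) * ((k : ℝ) * (k - 1) * ∑ i ∈ range k0, d i) ≤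
            ((k : ℝ) + 1) * ((k0 : ℝ) * (k0 - 1) * ∑ i ∈ range k, d i) := by
          calc ((k : ℝ) + 1) * ((k : ℝ) * (k - 1) * ∑ i ∈ range k0, d i)
              = ((k : ℝ) - 1) * (((k : ℝ) + 1) * ((k : ℝ) + 1 - 1) * ∑ i ∈ range k0, d i) := by ring
            _ ≤ ((k : ℝ) - 1) * ((k0 : ℝ) * (k0 - 1) * ∑ i ∈ range (k + 1), d i) := h4
            _ = (k0 : ℝ) * (k0 - 1) * (((k : ℝ) - 1) * ∑ i ∈ range (k + 1), d i) := by ring
            _ ≤ (k0 : ℝ) * (k0 - 1) * ((k + 1) * ∑ i ∈ range k, d i) := h3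
            _ = ((k : ℝ) + 1) * ((k0 : ℝ) * (k0 - 1) * ∑ i ∈ range k, d i) := by ring
        exact le_of_mul_le_mul_left h5 hk2
  intro k hk
  exact key (k0 - k) k (by omega)

lemma abel' (p : ℕ) (hp : 1 ≤ p) (G x : ℕ → ℝ) (C : ℝ) (hG : ∀ i, i + 1 < p → G i ≤ G (i + 1))
    (hx : ∀ k, k ≤ p → 0 ≤ ∑ i ∈ range k, x i) (hx1 : ∑ i ∈ range p, x i ≤ 1) (hGC : |G (p - 1)| ≤ C) :
    ∑ i ∈ range p, G i * x i ≤ C := by
  have h1 := Finset.sum_range_by_parts G x p
  simp only [smul_eq_mul] at h1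
  rw [h1]
  have h2 : 0 ≤ ∑ i ∈ range (p - 1), (G (i + 1) - G i) * ∑ i ∈ range (i + 1), x i := by
    refine sum_nonneg fun i hi => ?_
    rw [mem_range] at hi
    exact mul_nonneg (by linarith [hG i (by omega)]) (hx _ (by omega))
  have h3 : G (p - 1) * ∑ i ∈ range p, x i ≤ C := by
    have h4 := hx p le_rfl
    have h5 := (abs_le.mp hGC).2
    have h6 : 0 ≤ C := (abs_nonneg _).trans hGC
    calc G (p - 1) * ∑ i ∈ range p, x i ≤ C * ∑ i ∈ range p, x i := mul_le_mul_of_nonneg_right h5 h4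
      _ ≤ C * 1 := mul_le_mul_of_nonneg_left hx1 h6
      _ = C := mul_one C
  linarith

theorem zp' (p : ℕ) (hp : p.Prime) [NeZero p] (f : ZMod p → ℝ) (hf : ∀ x, |f x| ≤ 1) (k : ℕ) (hk : 1 ≤ k) :
    ∑ t, AC p f t ^ (2 * k) ≤
      p * (1 / (2 * k + 1) + 2 * k / (2 * k + 1) * |(∑ x, f x) / p| ^ (4 * k + 2)) + (8 * k + 1) := by
  have hp0 : (0 : ℝ) < p := by exact_mod_cast hp.pos
  set μ : ℝ := (∑ x, f x) / p with hμ
  have hμ1 : |μ| ≤ 1 := by
    rw [hμ, abs_div, abs_of_pos hp0, div_le_one hp0]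
    refine (abs_sum_le_sum_abs _ _).trans ((sum_le_sum fun x _ => hf x).trans (le_of_eq ?_))
    rw [sum_const, card_univ, ZMod.card, nsmul_eq_mul, mul_one]
  set c : ℝ := 1 - |μ| with hc
  have hc0 : 0 ≤ c := by linarith
  have hc1 : c ≤ 1 := by linarith [abs_nonneg μ]
  set D : ZMod p → ℝ := fun t => (1 - AC p f t) / 2 with hD
  have hA1 : ∀ t, |AC p f t| ≤ 1 := by
    intro t
    unfold AC
    rw [abs_div, abs_of_pos hp0, div_le_one hp0]
    refine (abs_sum_le_sum_abs _ _).trans ((sum_le_sum fun x _ => ?_ : _ ≤ ∑ _x : ZMod p, (1 : ℝ)).trans (le_of_eq ?_))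
    · rw [abs_mul]
      exact mul_le_one₀ (hf _) (abs_nonneg _) (hf _)
    · rw [sum_const, card_univ, ZMod.card, nsmul_eq_mul, mul_one]
  -- the lower bound for the correlations
  have hAl : ∀ t, 2 * |μ| - 1 ≤ AC p f t := by
    intro t
    have hsh : ∑ x, f (x + t) = ∑ x, f x := Equiv.sum_comp (Equiv.addRight t) f
    have h1 : 2 * μ - 1 ≤ AC p f t := by
      unfold AC
      rw [hμ, le_div_iff₀ hp0, sub_mul, mul_assoc, div_mul_cancel₀ _ hp0.ne', one_mul]
      have : ∑ x, (f x + f (x + t) - 1) ≤ ∑ x, f x * f (x + t) := by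
        refine sum_le_sum fun x _ => ?_
        have a1 := (abs_le.mp (hf x)).2
        have a2 := (abs_le.mp (hf (x + t))).2
        nlinarith [mul_nonneg (sub_nonneg.mpr a1) (sub_nonneg.mpr a2)]
      rw [sum_sub_distrib, sum_add_distrib, hsh, sum_const, card_univ, ZMod.card, nsmul_eq_mul, mul_one] at this
      linarith
    have h2 : 2 * (-μ) - 1 ≤ AC p f t := by
      unfold AC
      rw [hμ, le_div_iff₀ hp0, sub_mul, mul_assoc, ← neg_div, div_mul_cancel₀ _ hp0.ne', one_mul]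
      have : ∑ x, (-f x - f (x + t) - 1) ≤ ∑ x, f x * f (x + t) := by
        refine sum_le_sum fun x _ => ?_
        have a1 := (abs_le.mp (hf x)).1
        have a2 := (abs_le.mp (hf (x + t))).1
        nlinarith [mul_nonneg (by linarith : 0 ≤ 1 + f x) (by linarith : 0 ≤ 1 + f (x + t))]
      rw [sum_sub_distrib, sum_sub_distrib, sum_neg_distrib, hsh, sum_const, card_univ, ZMod.card, nsmul_eq_mul,
        mul_one] at this
      linarith
    rcases abs_cases μ with ⟨h, _⟩ | ⟨h, _⟩ <;> rw [h] <;> linarith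
  have hsub : ∀ s t, D (s + t) ≤ D s + D t := by
    intro s t
    have h1 : (1 : ℝ) - AC p f (s + t) ≤ (1 - AC p f s) + (1 - AC p f t) := by
      have e1 : ∀ r, (1 : ℝ) - AC p f r = (∑ x, (1 - f x * f (x + r))) / p := by
        intro r
        unfold AC
        rw [sum_sub_distrib, sum_const, card_univ, ZMod.card, nsmul_eq_mul, mul_one, sub_div, div_self hp0.ne']
      have e2 : ∑ x, (1 - f x * f (x + t)) = ∑ x, (1 - f (x + s) * f (x + s + t)) :=
        (Equiv.sum_comp (Equiv.addRight s) (fun x => 1 - f x * f (x + t))).symm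
      rw [e1, e1, e1, e2, ← add_div, ← sum_add_distrib]
      refine div_le_div_of_nonneg_right (sum_le_sum fun x _ => ?_) hp0.le
      rw [← add_assoc]
      exact three (hf _) (hf _) (hf _)
    simp only [hD]
    linarith
  obtain ⟨q, hm, hsum, hq⟩ := quant p hp D hsub
  set d : ℕ → ℝ := fun i => D (q i) with hd
  have hDn : ∀ t, 0 ≤ D t := by
    intro t
    have := (abs_le.mp (hA1 t)).2
    simp only [hD]
    linarith
  have hDc : ∀ t, D t ≤ c := by
    intro t
    have := hAl t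
    simp only [hD]
    linarith
  -- the mean
  have htot : ∑ i ∈ range p, d i = p * (c - c ^ 2 / 2) := by
    rw [← hsum D]
    simp only [hD]
    rw [← sum_div, sum_sub_distrib, sum_const, card_univ, ZMod.card, nsmul_eq_mul, mul_one]
    have h1 : ∑ t, AC p f t = p * μ ^ 2 := by
      unfold AC
      rw [← sum_div, sum_comm]
      have : ∀ x, ∑ t, f x * f (x + t) = f x * ∑ y, f y := by
        intro x
        rw [← mul_sum]
        congr 1
        exact Equiv.sum_comp (Equiv.addLeft x) f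
      simp only [this]
      rw [← sum_mul, hμ]
      field_simp
    rw [h1, hc, ← sq_abs μ]
    ring
  set k0 : ℕ := ⌈c * p⌉₊ with hk0
  have hk0p : k0 ≤ p := by
    rw [hk0, Nat.ceil_le]
    nlinarith
  have hk1 : c * p ≤ k0 := Nat.le_ceil _
  have hk2 : (k0 : ℝ) < c * p + 1 := Nat.ceil_lt_add_one (by positivity)
  set e : ℕ → ℝ := fun i => if i < k0 then (i : ℝ) / p else c with he
  have hsumi : ∀ k : ℕ, ∑ i ∈ range k, (i : ℝ) = (k : ℝ) * (k - 1) / 2 := by
    intro k
    induction k with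
    | zero => simp
    | succ k ih => rw [sum_range_succ, ih]; push_cast; ring
  have he1 : ∀ k, k ≤ k0 → ∑ i ∈ range k, e i = (k : ℝ) * (k - 1) / 2 / p := by
    intro k hk
    rw [← hsumi, sum_div]
    refine sum_congr rfl fun i hi => ?_
    rw [mem_range] at hi
    simp only [he]
    rw [if_pos (by omega)]
  have he2 : ∀ k, k0 ≤ k → ∑ i ∈ range k, e i = (k0 : ℝ) * (k0 - 1) / 2 / p + c * (k - k0) := by
    intro k hk
    obtain ⟨r, rfl⟩ := Nat.exists_eq_add_of_le hk
    rw [sum_range_add, he1 k0 le_rfl]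
    congr 1
    have : ∀ i ∈ range r, e (k0 + i) = c := by
      intro i _
      simp only [he]
      rw [if_neg (by omega)]
    rw [sum_congr rfl this, sum_const, card_range, nsmul_eq_mul]
    push_cast
    ring
  -- `k0 = c p + θ`
  set θ : ℝ := k0 - c * p with hθ
  have hθ0 : 0 ≤ θ := by linarith
  have hθ1 : θ ≤ 1 := by linarith
  have hE0 : (k0 : ℝ) * (k0 - 1) / 2 / p = c ^ 2 * p / 2 + c * (2 * θ - 1) / 2 + θ * (θ - 1) / (2 * p) := by
    have : (k0 : ℝ) = c * p + θ := by rw [hθ]; ring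
    rw [this]
    field_simp
    ring
  have hθp : 0 ≤ θ * (1 - θ) / (2 * p) := by
    have : 0 ≤ θ * (1 - θ) := mul_nonneg hθ0 (by linarith)
    positivity
  have hlarge : ∀ k, k0 ≤ k → k ≤ p → 0 ≤ ∑ i ∈ range k, (d i - e i) := by
    intro k hk hkp
    rw [sum_sub_distrib, he2 k hk, hE0]
    obtain ⟨r, hr⟩ := Nat.exists_eq_add_of_le hkp
    have h1 : ∑ i ∈ range k, d i = p * (c - c ^ 2 / 2) - ∑ i ∈ range r, d (k + i) := by
      rw [← htot, hr, sum_range_add]
      ring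
    have h2 : ∑ i ∈ range r, d (k + i) ≤ c * (p - k) := by
      refine (sum_le_sum fun i _ => hDc _).trans (le_of_eq ?_)
      rw [sum_const, card_range, nsmul_eq_mul, hr]
      push_cast
      ring
    have e1 : θ * (θ - 1) / (2 * p) = -(θ * (1 - θ) / (2 * p)) := by ring
    rw [h1, e1]
    have e2 : c * ((k : ℝ) - k0) = c * k - c * (c * p) - c * θ := by rw [hθ]; ring
    rw [e2]
    nlinarith
  have hpart : ∀ k, k ≤ p → 0 ≤ ∑ i ∈ range k, (d i - e i) := by
    intro k hk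
    rcases le_total k0 k with h | h
    · exact hlarge k h hk
    · rcases le_or_gt k 1 with h1 | h1
      · rw [sum_sub_distrib, he1 k h]
        have e1 : 0 ≤ ∑ i ∈ range k, d i := sum_nonneg fun i _ => hDn _
        have e2 : (k : ℝ) * (k - 1) / 2 / p = 0 := by
          interval_cases k <;> simp
        rw [e2]
        linarith
      · have h2 := maj' p d (fun i _ => hDn _) hq k0 hk0p k h
        have h3 := hlarge k0 le_rfl hk0p
        rw [sum_sub_distrib, he1 k0 le_rfl] at h3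
        rw [sum_sub_distrib, he1 k h]
        have hkr : (1 : ℝ) < k := by exact_mod_cast h1
        have hk0r : (1 : ℝ) < k0 := by exact_mod_cast (show 1 < k0 by omega)
        have hk0pos : 0 < (k0 : ℝ) * (k0 - 1) := mul_pos (by linarith) (by linarith)
        have hkpos : 0 ≤ (k : ℝ) * (k - 1) := mul_nonneg (by linarith) (by linarith)
        have h4 : (k : ℝ) * (k - 1) * ((k0 : ℝ) * (k0 - 1) / 2 / p) ≤ (k0 : ℝ) * (k0 - 1) * ∑ i ∈ range k, d i :=
          (mul_le_mul_of_nonneg_left (by linarith) hkpos).trans h2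
        have h5 : (k0 : ℝ) * (k0 - 1) * ((k : ℝ) * (k - 1) / 2 / p) ≤ (k0 : ℝ) * (k0 - 1) * ∑ i ∈ range k, d i := by
          refine le_trans (le_of_eq ?_) h4
          ring
        have h6 := le_of_mul_le_mul_left h5 hk0pos
        linarith
  have hone : ∑ i ∈ range p, (d i - e i) ≤ 1 := by
    rw [sum_sub_distrib, he2 p hk0p, hE0, htot]
    have e1 : θ * (θ - 1) / (2 * p) = -(θ * (1 - θ) / (2 * p)) := by ring
    have e2 : c * ((p : ℝ) - k0) = c * p - c * (c * p) - c * θ := by rw [hθ]; ring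
    rw [e1, e2]
    have e3 : θ * (1 - θ) / (2 * p) ≤ 1 / 2 := by
      rw [div_le_div_iff₀ (by positivity) (by norm_num)]
      have : (1 : ℝ) ≤ p := by exact_mod_cast hp.pos
      nlinarith
    nlinarith
  -- convexity
  have hd1 : ∀ i, |1 - 2 * d i| ≤ 1 := by
    intro i
    have a1 := hDn (q i)
    have a2 := hDc (q i)
    rw [abs_le]
    simp only [hd]
    constructor <;> linarith
  have hconv : ∑ i ∈ range p, (1 - 2 * d i) ^ (2 * k) ≤ ∑ i ∈ range p, (1 - 2 * e i) ^ (2 * k) + 4 * k := by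
    have h1 : ∀ i ∈ range p, (1 - 2 * d i) ^ (2 * k) - (1 - 2 * e i) ^ (2 * k) ≤
        (-(4 * k * (1 - 2 * d i) ^ (2 * k - 1))) * (d i - e i) := by
      intro i _
      have := tangent k hk (1 - 2 * d i) (1 - 2 * e i)
      linarith
    have h2 := abel' p hp.pos (fun i => -(4 * k * (1 - 2 * d i) ^ (2 * k - 1))) (fun i => d i - e i) (4 * k) ?_ hpart
      hone ?_
    · have h3 := sum_le_sum h1
      rw [sum_sub_distrib] at h3
      linarith
    · intro i hi
      have h3 : d i ≤ d (i + 1) := hm i (i + 1) (by omega) hi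
      have hodd : Odd (2 * k - 1) := ⟨k - 1, by omega⟩
      have h4 : (1 - 2 * d (i + 1)) ^ (2 * k - 1) ≤ (1 - 2 * d i) ^ (2 * k - 1) :=
        hodd.strictMono_pow.monotone (by linarith)
      have hk0' : (0 : ℝ) ≤ 4 * k := by positivity
      have := mul_le_mul_of_nonneg_left h4 hk0'
      linarith
    · rw [abs_neg, abs_mul, abs_pow, abs_of_nonneg (by positivity : (0 : ℝ) ≤ 4 * k)]
      exact mul_le_of_le_one_right (by positivity) (pow_le_one₀ (abs_nonneg _) (hd1 _))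
  have hψ : ∑ t, AC p f t ^ (2 * k) = ∑ i ∈ range p, (1 - 2 * d i) ^ (2 * k) := by
    rw [hsum (fun t => AC p f t ^ (2 * k))]
    refine sum_congr rfl fun i _ => ?_
    simp only [hd, hD]
    congr 1
    ring
  rw [hψ]
  refine hconv.trans ?_
  have hesum : ∑ i ∈ range p, (1 - 2 * e i) ^ (2 * k) =
      ∑ i ∈ range k0, (1 - 2 * ((i : ℝ) / p)) ^ (2 * k) + (p - k0) * (1 - 2 * c) ^ (2 * k) := by
    obtain ⟨r, hr⟩ := Nat.exists_eq_add_of_le hk0p
    have e1 : (p : ℝ) - k0 = r := by rw [hr]; push_cast; ring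
    rw [e1]
    conv_lhs => rw [hr]
    rw [sum_range_add]
    congr 1
    · refine sum_congr rfl fun i hi => ?_
      rw [mem_range] at hi
      simp only [he]
      rw [if_pos hi]
    · have : ∀ i ∈ range r, (1 - 2 * e (k0 + i)) ^ (2 * k) = (1 - 2 * c) ^ (2 * k) := by
        intro i _
        simp only [he]
        rw [if_neg (by omega)]
      rw [sum_congr rfl this, sum_const, card_range, nsmul_eq_mul]
  rw [hesum]
  have hr := riemann' p k0 k hp.pos hk0p c hc0 hc1 hk1 hk2.le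
  have hl := lam_le (1 - 2 * c) (by linarith) (by linarith) k
  have e3 : (1 + (1 - 2 * c)) / 2 = |μ| := by rw [hc]; ring
  have e4 : 1 - c = |μ| := by rw [hc]; ring
  rw [e3] at hl
  rw [e4] at hr
  have hl2 := mul_le_mul_of_nonneg_left hl hp0.le
  linarith

end Pool.Agent.Q259.LU
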