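import Pool.Agent.Q259.LU.Rnd
import Pool.Agent.Q259.LU.Gz

set_option autoImplicit false

/-!
# Autocorrelations of slowly varying periodic sequences with arbitrary mean
-/

namespace Pool.Agent.Q259.LU

open Finset

theorem rnd' (M : ℕ) (hM : 1 ≤ M) (g : ℕ → ℝ) (hg : ∀ x, |g x| ≤ 1) (hper : ∀ x, g (x + M) = g x) (τ : ℝ)
    (hτ : ∀ x, |g (x + 1) - g x| ≤ τ) (k : ℕ) (hk : 1 ≤ k) :
    (∑ t ∈ range M, ((∑ x ∈ range M, g x * g (x + t)) / M) ^ (2 * k)) / M ≤
      1 / (2 * k + 1) + 2 * k / (2 * k + 1) * |(∑ x ∈ range M, g x) / M| ^ (4 * k + 2) + 2 * k * τ := by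
  have hM0 : (0 : ℝ) < M := by exact_mod_cast hM
  set A : ℕ → ℝ := fun t => (∑ x ∈ range M, g x * g (x + t)) / M with hA
  set μ : ℝ := (∑ x ∈ range M, g x) / M with hμ
  have hgg : ∀ t x, |g x * g (x + t)| ≤ 1 := by
    intro t x
    rw [abs_mul]
    exact mul_le_one₀ (hg _) (abs_nonneg _) (hg _)
  have hA1 : ∀ t, |A t| ≤ 1 := by
    intro t
    simp only [hA]
    rw [abs_div, abs_of_pos hM0, div_le_one hM0]
    refine (abs_sum_le_sum_abs _ _).trans ((sum_le_sum fun x _ => hgg t x).trans (le_of_eq ?_))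
    rw [sum_const, card_range, nsmul_eq_mul, mul_one]
  have hμ1 : |μ| ≤ 1 := by
    simp only [hμ]
    rw [abs_div, abs_of_pos hM0, div_le_one hM0]
    refine (abs_sum_le_sum_abs _ _).trans ((sum_le_sum fun x _ => hg x).trans (le_of_eq ?_))
    rw [sum_const, card_range, nsmul_eq_mul, mul_one]
  refine le_of_forall_pos_le_add fun η hη => ?_
  obtain ⟨n0, hn0⟩ := exists_nat_ge (((M : ℝ) + (8 * k + 1) + 6 * k * M) / η)
  obtain ⟨p, hpn, hp⟩ := Nat.exists_infinite_primes (n0 + M + 3)
  have : NeZero p := ⟨hp.ne_zero⟩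
  have hp0 : (0 : ℝ) < p := by exact_mod_cast hp.pos
  have hp3 : 3 ≤ p := by omega
  have hη' : ((M : ℝ) + (8 * k + 1) + 6 * k * M) / p ≤ η := by
    rw [div_le_iff₀ hp0]
    rw [div_le_iff₀ hη] at hn0
    have : (n0 : ℝ) ≤ p := by exact_mod_cast (by omega : n0 ≤ p)
    nlinarith
  set F : ZMod p → ℝ := fun y => g (y.val * M / p) with hF
  have hzsum : ∀ H : ℕ → ℝ, ∑ y : ZMod p, H y.val = ∑ y ∈ range p, H y := by
    intro H
    obtain ⟨m, rfl⟩ := Nat.exists_eq_succ_of_ne_zero hp.ne_zero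
    exact Fin.sum_univ_eq_sum_range H (m + 1)
  have hz := zp' p hp F (fun x => hg _) k hk
  -- the autocorrelation of `F`
  have hAC : ∀ v : ZMod p, |AC p F v - A (v.val * M / p)| ≤ τ + M / p := by
    intro v
    have h1 : ∑ y : ZMod p, F y * F (y + v) = ∑ y ∈ range p, g (y * M / p) * g ((y + v.val) * M / p) := by
      rw [← hzsum (fun y => g (y * M / p) * g ((y + v.val) * M / p))]
      refine sum_congr rfl fun y _ => ?_
      simp only [hF]
      congr 1
      rw [ZMod.val_add]
      have h2 : (y.val + v.val) * M / p = (y.val + v.val) % p * M / p + (y.val + v.val) / p * M := by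
        conv_lhs => rw [← Nat.mod_add_div (y.val + v.val) p]
        rw [add_mul, mul_assoc, Nat.add_mul_div_left _ _ hp.pos]
      rw [h2, per_mul g M hper]
    have h2 : |(∑ y ∈ range p, g (y * M / p) * g ((y + v.val) * M / p)) / p -
        (∑ y ∈ range p, g (y * M / p) * g (y * M / p + v.val * M / p)) / p| ≤ τ := by
      rw [← sub_div, ← sum_sub_distrib, abs_div, abs_of_pos hp0, div_le_iff₀ hp0]
      refine (abs_sum_le_sum_abs _ _).trans ((sum_le_sum fun y _ => ?_ : _ ≤ ∑ _y ∈ range p, τ).trans (le_of_eq ?_))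
      · rw [← mul_sub, abs_mul]
        have h3 : |g ((y + v.val) * M / p) - g (y * M / p + v.val * M / p)| ≤ τ := by
          have hτ0 : 0 ≤ τ := (abs_nonneg _).trans (hτ 0)
          rcases (by
            rw [add_mul]
            have e1 := Nat.div_add_mod (y * M) p
            have e2 := Nat.div_add_mod (v.val * M) p
            have e3 := Nat.mod_lt (y * M) hp.pos
            have e4 := Nat.mod_lt (v.val * M) hp.pos
            have e5 : (y * M + v.val * M) / p = y * M / p + v.val * M / p + (y * M % p + v.val * M % p) / p := by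
              conv_lhs => rw [← e1, ← e2]
              rw [show p * (y * M / p) + y * M % p + (p * (v.val * M / p) + v.val * M % p) =
                (y * M % p + v.val * M % p) + p * (y * M / p + v.val * M / p) by ring,
                Nat.add_mul_div_left _ _ hp.pos]
              omega
            rw [e5]
            have e6 : (y * M % p + v.val * M % p) / p < 2 := by
              rw [Nat.div_lt_iff_lt_mul hp.pos]
              omega
            generalize (y * M % p + v.val * M % p) / p = w at e6 ⊢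
            generalize y * M / p = w1
            generalize v.val * M / p = w2
            omega : (y + v.val) * M / p = y * M / p + v.val * M / p ∨
              (y + v.val) * M / p = y * M / p + v.val * M / p + 1) with h | h
          · rw [h, sub_self, abs_zero]; exact hτ0
          · rw [h]; exact hτ _
        calc |g (y * M / p)| * |g ((y + v.val) * M / p) - g (y * M / p + v.val * M / p)|
            ≤ 1 * |g ((y + v.val) * M / p) - g (y * M / p + v.val * M / p)| :=
              mul_le_mul_of_nonneg_right (hg _) (abs_nonneg _)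
          _ ≤ τ := by rw [one_mul]; exact h3
      · rw [sum_const, card_range, nsmul_eq_mul, mul_comm]
    have h3 := count_sum M p hM hp.pos (fun x => g x * g (x + v.val * M / p)) (fun x => hgg _ x)
    unfold AC
    rw [h1]
    have h4 := abs_sub_le ((∑ y ∈ range p, g (y * M / p) * g ((y + v.val) * M / p)) / p)
      ((∑ y ∈ range p, g (y * M / p) * g (y * M / p + v.val * M / p)) / p) (A (v.val * M / p))
    refine h4.trans (add_le_add h2 h3)
  have hAC1 : ∀ t, |AC p F t| ≤ 1 := by
    intro t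
    unfold AC
    rw [abs_div, abs_of_pos hp0, div_le_one hp0]
    refine (abs_sum_le_sum_abs _ _).trans ((sum_le_sum fun x _ => ?_ : _ ≤ ∑ _x : ZMod p, (1 : ℝ)).trans (le_of_eq ?_))
    · rw [abs_mul]
      exact mul_le_one₀ (hg _) (abs_nonneg _) (hg _)
    · rw [sum_const, card_univ, ZMod.card, nsmul_eq_mul, mul_one]
  -- the mean of `F`
  have hmean : |(∑ x, F x) / p| ^ (4 * k + 2) ≤ |μ| ^ (4 * k + 2) + (4 * k + 2) * (M / p) := by
    have h1 : ∑ x, F x = ∑ y ∈ range p, g (y * M / p) := hzsum (fun y => g (y * M / p))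
    have h2 := count_sum M p hM hp.pos g hg
    rw [h1]
    set m : ℝ := (∑ y ∈ range p, g (y * M / p)) / p with hm
    have h3 : |m| ≤ 1 := by
      rw [hm, abs_div, abs_of_pos hp0, div_le_one hp0]
      refine (abs_sum_le_sum_abs _ _).trans ((sum_le_sum fun x _ => hg _).trans (le_of_eq ?_))
      rw [sum_const, card_range, nsmul_eq_mul, mul_one]
    have h4 := pow_sub_le (4 * k + 2) |m| |μ| (by rw [abs_abs]; exact h3) (by rw [abs_abs]; exact hμ1)
    have h5 : |(|m| - |μ|)| ≤ M / p := (abs_abs_sub_abs_le_abs_sub m μ).trans h2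
    have h6 := (abs_le.mp h4).2
    have h7 : ((4 * k + 2 : ℕ) : ℝ) * |(|m| - |μ|)| ≤ ((4 * k + 2 : ℕ) : ℝ) * (M / p) :=
      mul_le_mul_of_nonneg_left h5 (Nat.cast_nonneg _)
    push_cast at h6 h7
    linarith
  -- transfer of the sum over shifts
  have hshift := count_sum M p hM hp.pos (fun t => A t ^ (2 * k)) (fun t => by
    rw [abs_pow]; exact pow_le_one₀ (abs_nonneg _) (hA1 t))
  have hsh2 : (∑ v ∈ range p, A (v * M / p) ^ (2 * k)) / p ≤
      (∑ v : ZMod p, AC p F v ^ (2 * k)) / p + 2 * k * (τ + M / p) := by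
    rw [← hzsum (fun v => A (v * M / p) ^ (2 * k)), div_add' _ _ _ hp0.ne']
    refine div_le_div_of_nonneg_right ?_ hp0.le
    have h1 : ∑ v : ZMod p, A (v.val * M / p) ^ (2 * k) ≤
        ∑ v : ZMod p, (AC p F v ^ (2 * k) + 2 * k * (τ + M / p)) := by
      refine sum_le_sum fun v _ => ?_
      have h2 := pow_sub_le (2 * k) (AC p F v) (A (v.val * M / p)) (hAC1 v) (hA1 _)
      have h3 := (abs_le.mp h2).1
      have h4 : ((2 * k : ℕ) : ℝ) * |AC p F v - A (v.val * M / p)| ≤ ((2 * k : ℕ) : ℝ) * (τ + M / p) :=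
        mul_le_mul_of_nonneg_left (hAC v) (Nat.cast_nonneg _)
      push_cast at h3 h4
      linarith
    refine h1.trans (le_of_eq ?_)
    rw [sum_add_distrib, sum_const, card_univ, ZMod.card, nsmul_eq_mul]
    ring
  have hz2 : (∑ v : ZMod p, AC p F v ^ (2 * k)) / p ≤ 1 / (2 * k + 1) +
      2 * k / (2 * k + 1) * |μ| ^ (4 * k + 2) + 4 * k * (M / p) + (8 * k + 1) / p := by
    rw [div_le_iff₀ hp0]
    refine hz.trans ?_
    have hk0 : (0 : ℝ) ≤ 2 * k / (2 * k + 1) := by positivity
    have h1 := mul_le_mul_of_nonneg_left hmean hk0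
    have h2 : 2 * (k : ℝ) / (2 * k + 1) * (|μ| ^ (4 * k + 2) + (4 * k + 2) * (M / p)) =
        2 * k / (2 * k + 1) * |μ| ^ (4 * k + 2) + 4 * k * (M / p) := by
      field_simp
      ring
    rw [h2] at h1
    have h3 : (8 * (k : ℝ) + 1) = (8 * k + 1) / p * p := by field_simp
    have h4 : (p : ℝ) * (1 / (2 * k + 1) + 2 * k / (2 * k + 1) * |(∑ x, F x) / p| ^ (4 * k + 2)) ≤
        p * (1 / (2 * k + 1) + (2 * k / (2 * k + 1) * |μ| ^ (4 * k + 2) + 4 * k * (M / p))) :=
      mul_le_mul_of_nonneg_left (by linarith) hp0.le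
    have h5 : (1 / (2 * (k : ℝ) + 1) + 2 * k / (2 * k + 1) * |μ| ^ (4 * k + 2) + 4 * k * (M / p) + (8 * k + 1) / p) * p =
        p * (1 / (2 * k + 1) + (2 * k / (2 * k + 1) * |μ| ^ (4 * k + 2) + 4 * k * (M / p))) + (8 * k + 1) / p * p := by
      ring
    rw [h5, ← h3]
    linarith
  have h7 := (abs_le.mp hshift).1
  have h8 : (∑ t ∈ range M, A t ^ (2 * k)) / M ≤ (∑ v ∈ range p, A (v * M / p) ^ (2 * k)) / p + M / p := by
    linarith
  have h9 : ((M : ℝ) + (8 * k + 1) + 6 * k * M) / p = M / p + (8 * k + 1) / p + 6 * k * (M / p) := by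
    field_simp
  rw [h9] at hη'
  calc (∑ t ∈ range M, A t ^ (2 * k)) / M
      ≤ (∑ v ∈ range p, A (v * M / p) ^ (2 * k)) / p + M / p := h8
    _ ≤ ((∑ v : ZMod p, AC p F v ^ (2 * k)) / p + 2 * k * (τ + M / p)) + M / p := by linarith
    _ ≤ ((1 / (2 * k + 1) + 2 * k / (2 * k + 1) * |μ| ^ (4 * k + 2) + 4 * k * (M / p) + (8 * k + 1) / p) +
        2 * k * (τ + M / p)) + M / p := by linarith
    _ = 1 / (2 * k + 1) + 2 * k / (2 * k + 1) * |μ| ^ (4 * k + 2) + 2 * k * τ +
        (M / p + (8 * k + 1) / p + 6 * k * (M / p)) := by ring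
    _ ≤ 1 / (2 * k + 1) + 2 * k / (2 * k + 1) * |μ| ^ (4 * k + 2) + 2 * k * τ + η := by linarith

end Pool.Agent.Q259.LU
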