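import Pool.Agent.Q259.LU.Edge
import Pool.Agent.Q259.LU.Zp

set_option autoImplicit false

/-!
# Box averages
-/

namespace Pool.Agent.Q259.LU

open Finset

/-- bounded real sequences -/
abbrev Al := BoundedContinuousFunction ℕ ℝ

/-- shifts -/
noncomputable def sh (c : ℕ) (x : Al) : Al := x.compContinuous ⟨fun n => n + c, continuous_of_discreteTopology⟩

lemma sh_apply (c : ℕ) (x : Al) (n : ℕ) : sh c x n = x (n + c) := rfl

lemma sh_mul (c : ℕ) (x y : Al) : sh c (x * y) = sh c x * sh c y := by ext n; simp [sh_apply]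

lemma sh_add (c : ℕ) (x y : Al) : sh c (x + y) = sh c x + sh c y := by ext n; simp [sh_apply]

lemma sh_smul (c : ℕ) (r : ℝ) (x : Al) : sh c (r • x) = r • sh c x := by ext n; simp [sh_apply]

lemma sh_sh (a b : ℕ) (x : Al) : sh a (sh b x) = sh (a + b) x := by
  ext n; simp only [sh_apply]; congr 1; ring

lemma sh_zero (x : Al) : sh 0 x = x := by ext n; simp [sh_apply]

lemma sum_apply {ι : Type*} (s : Finset ι) (x : ι → Al) (n : ℕ) : (∑ i ∈ s, x i) n = ∑ i ∈ s, x i n := by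
  rw [BoundedContinuousFunction.coe_sum, Finset.sum_apply]

/-- absolute value at most one -/
def U1 (x : Al) : Prop := ∀ n, |x n| ≤ 1

lemma U1.sh {x : Al} (h : U1 x) (c : ℕ) : U1 (sh c x) := fun n => h (n + c)

lemma U1.mul {x y : Al} (h : U1 x) (h' : U1 y) : U1 (x * y) := by
  intro n
  rw [BoundedContinuousFunction.mul_apply, abs_mul]
  exact mul_le_one₀ (h n) (abs_nonneg _) (h' n)

/-- averages along a progression, as a linear map -/
noncomputable def av (Q R : ℕ) : Al →ₗ[ℝ] Al where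
  toFun x := (R : ℝ)⁻¹ • ∑ j ∈ range R, sh (Q * j) x
  map_add' x y := by
    simp only [sh_add, sum_add_distrib, smul_add]
  map_smul' r x := by
    simp only [sh_smul, RingHom.id_apply]
    rw [← smul_sum, smul_comm]

lemma av_apply (Q R : ℕ) (x : Al) (n : ℕ) : av Q R x n = (∑ j ∈ range R, x (n + Q * j)) / R := by
  show (R : ℝ)⁻¹ * (∑ j ∈ range R, sh (Q * j) x) n = _
  rw [sum_apply, div_eq_inv_mul]
  rfl

lemma av_mono (Q R : ℕ) (x y : Al) (h : ∀ n, x n ≤ y n) (n : ℕ) : av Q R x n ≤ av Q R y n := by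
  rw [av_apply, av_apply]
  exact div_le_div_of_nonneg_right (sum_le_sum fun j _ => h _) (Nat.cast_nonneg _)

lemma av_mono_add (Q R : ℕ) (hR : 1 ≤ R) (x y : Al) (c : ℝ) (h : ∀ n, x n ≤ y n + c) (n : ℕ) :
    av Q R x n ≤ av Q R y n + c := by
  have hR0 : (0 : ℝ) < R := by exact_mod_cast hR
  rw [av_apply, av_apply, div_add' _ _ _ hR0.ne']
  refine div_le_div_of_nonneg_right ?_ hR0.le
  refine (sum_le_sum fun j _ => h _).trans (le_of_eq ?_)
  rw [sum_add_distrib, sum_const, card_range, nsmul_eq_mul]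
  ring

lemma U1.av {x : Al} (h : U1 x) (Q R : ℕ) : U1 (av Q R x) := by
  intro n
  rw [av_apply]
  rcases Nat.eq_zero_or_pos R with h0 | h0
  · subst h0; simp
  have hR0 : (0 : ℝ) < R := by exact_mod_cast h0
  rw [abs_div, abs_of_pos hR0, div_le_one hR0]
  refine (abs_sum_le_sum_abs _ _).trans ((sum_le_sum fun j _ => h _).trans (le_of_eq ?_))
  simp

/-- changing the progression -/
lemma av_av (x : Al) (hx : U1 x) (Q d R R' : ℕ) (hR : 1 ≤ R) (n : ℕ) :
    |av Q R' x n - av Q R' (av (Q * d) R x) n| ≤ 2 * (d * R) / R' := by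
  have hR0 : (0 : ℝ) < R := by exact_mod_cast hR
  have h1 : av Q R' (av (Q * d) R x) n = (∑ j ∈ range R, ∑ j' ∈ range R', x (n + Q * (j' + d * j))) / R / R' := by
    rw [av_apply]
    simp only [av_apply]
    rw [← sum_div, sum_comm]
    congr 2
    refine sum_congr rfl fun j _ => sum_congr rfl fun j' _ => ?_
    congr 1
    ring
  have h2 : av Q R' x n = (∑ _j ∈ range R, ∑ j' ∈ range R', x (n + Q * j')) / R / R' := by
    rw [av_apply, sum_const, card_range, nsmul_eq_mul]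
    congr 1
    field_simp
  rw [h1, h2, ← sub_div, ← sub_div, ← sum_sub_distrib, abs_div, abs_div, abs_of_pos hR0,
    abs_of_nonneg (Nat.cast_nonneg R' : (0 : ℝ) ≤ (R' : ℝ))]
  refine div_le_div_of_nonneg_right ?_ (Nat.cast_nonneg _)
  rw [div_le_iff₀ hR0]
  refine (abs_sum_le_sum_abs _ _).trans ?_
  have h3 : ∀ j ∈ range R, |∑ j' ∈ range R', x (n + Q * j') - ∑ j' ∈ range R', x (n + Q * (j' + d * j))| ≤
      2 * (d * R) := by
    intro j hj
    rw [mem_range] at hj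
    rw [abs_sub_comm]
    have := shift_norm (fun j' => x (n + Q * j')) 1 (fun m => by rw [Real.norm_eq_abs]; exact hx _) R' (d * j)
    rw [Real.norm_eq_abs] at this
    have hj' : ((d * j : ℕ) : ℝ) ≤ d * R := by exact_mod_cast Nat.mul_le_mul_left _ hj.le
    linarith
  refine (sum_le_sum h3).trans (le_of_eq ?_)
  rw [sum_const, card_range, nsmul_eq_mul]
  ring

lemma pow_av_le (Q R : ℕ) (hR : 1 ≤ R) (x : Al) (κ n : ℕ) : (av Q R x n) ^ (2 * κ) ≤ av Q R (x ^ (2 * κ)) n := by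
  have hR0 : (0 : ℝ) < R := by exact_mod_cast hR
  have h := Real.pow_arith_mean_le_arith_mean_pow_of_even (range R) (fun _ => (1 : ℝ) / R)
    (fun j => x (n + Q * j)) (fun _ _ => by positivity)
    (by rw [sum_const, card_range, nsmul_eq_mul]; field_simp) (n := 2 * κ) (even_two_mul κ)
  rw [← mul_sum, ← mul_sum] at h
  rw [av_apply, av_apply]
  simp only [BoundedContinuousFunction.coe_pow, Pi.pow_apply]
  rw [div_eq_mul_one_div, mul_comm, div_eq_mul_one_div (∑ j ∈ range R, x (n + Q * j) ^ (2 * κ)),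
    mul_comm (∑ j ∈ range R, x (n + Q * j) ^ (2 * κ))]
  exact h

lemma jens (x : Al) (hx : U1 x) (Q d R R' κ : ℕ) (hR : 1 ≤ R) (hR' : 1 ≤ R') (n : ℕ) :
    (av Q R' x n) ^ (2 * κ) ≤ av Q R' ((av (Q * d) R x) ^ (2 * κ)) n + 4 * κ * (d * R) / R' := by
  have h1 := av_av x hx Q d R R' hR n
  have h2 := pow_sub_le (2 * κ) (av Q R' x n) (av Q R' (av (Q * d) R x) n) (hx.av Q R' n)
    ((hx.av (Q * d) R).av Q R' n)
  have h3 := (abs_le.mp h2).2
  have h4 : ((2 * κ : ℕ) : ℝ) * |av Q R' x n - av Q R' (av (Q * d) R x) n| ≤ ((2 * κ : ℕ) : ℝ) * (2 * (d * R) / R') :=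
    mul_le_mul_of_nonneg_left h1 (Nat.cast_nonneg _)
  have h5 := pow_av_le Q R' hR' (av (Q * d) R x) κ n
  have h6 : ((2 * κ : ℕ) : ℝ) * (2 * (d * R) / R') = 4 * κ * (d * R) / R' := by push_cast; ring
  linarith

/-- multiplicative derivatives -/
noncomputable def dv (a b : ℕ) (x : Al) : Al := sh a x * sh b x

lemma U1.dv {x : Al} (h : U1 x) (a b : ℕ) : U1 (dv a b x) := (h.sh a).mul (h.sh b)

lemma dv_comm (a b c d : ℕ) (x : Al) : dv a b (dv c d x) = dv c d (dv a b x) := by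
  unfold dv
  simp only [sh_mul, sh_sh]
  rw [add_comm a c, add_comm a d, add_comm b c, add_comm b d]
  ring

section
variable {E F : Type*} [AddCommGroup E] [Module ℝ E] [AddCommGroup F] [Module ℝ F]

/-- averages over the family of derivatives -/
noncomputable def Fam : List (ℕ × ℕ) → (Al → E) → Al → E
  | [], Φ, x => Φ x
  | p :: l, Φ, x => ((p.2 : ℝ) ^ 2)⁻¹ • ∑ s ∈ range p.2, ∑ s' ∈ range p.2, Fam l Φ (dv (p.1 * s) (p.1 * s') x)

lemma Fam_append (l l' : List (ℕ × ℕ)) (Φ : Al → E) (x : Al) : Fam (l ++ l') Φ x = Fam l (Fam l' Φ) x := by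
  induction l generalizing x with
  | nil => rfl
  | cons p l ih =>
    show ((p.2 : ℝ) ^ 2)⁻¹ • ∑ s ∈ range p.2, ∑ s' ∈ range p.2, Fam (l ++ l') Φ _ = _
    simp only [ih]
    rfl

lemma Fam_map (L : E →ₗ[ℝ] F) (l : List (ℕ × ℕ)) (Φ : Al → E) (x : Al) : L (Fam l Φ x) = Fam l (fun y => L (Φ y)) x := by
  induction l generalizing x with
  | nil => rfl
  | cons p l ih =>
    show L (((p.2 : ℝ) ^ 2)⁻¹ • ∑ s ∈ range p.2, ∑ s' ∈ range p.2, Fam l Φ _) = _
    rw [map_smul, map_sum]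
    simp only [map_sum, ih]
    rfl

lemma Fam_swap (p q : ℕ × ℕ) (l : List (ℕ × ℕ)) (Φ : Al → E) (x : Al) : Fam (p :: q :: l) Φ x = Fam (q :: p :: l) Φ x := by
  show ((p.2 : ℝ) ^ 2)⁻¹ • ∑ s ∈ range p.2, ∑ s' ∈ range p.2, ((q.2 : ℝ) ^ 2)⁻¹ • ∑ t ∈ range q.2, ∑ t' ∈ range q.2,
    Fam l Φ (dv (q.1 * t) (q.1 * t') (dv (p.1 * s) (p.1 * s') x)) =
    ((q.2 : ℝ) ^ 2)⁻¹ • ∑ t ∈ range q.2, ∑ t' ∈ range q.2, ((p.2 : ℝ) ^ 2)⁻¹ • ∑ s ∈ range p.2, ∑ s' ∈ range p.2,
    Fam l Φ (dv (p.1 * s) (p.1 * s') (dv (q.1 * t) (q.1 * t') x))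
  simp only [← smul_sum]
  rw [smul_comm]
  congr 2
  rw [sum_congr rfl fun s _ => sum_comm]
  rw [sum_comm]
  refine sum_congr rfl fun t _ => ?_
  rw [sum_congr rfl fun s _ => sum_comm]
  rw [sum_comm]
  refine sum_congr rfl fun t' _ => sum_congr rfl fun s _ => sum_congr rfl fun s' _ => ?_
  rw [dv_comm]

lemma Fam_perm {l l' : List (ℕ × ℕ)} (h : l.Perm l') (Φ : Al → E) (x : Al) : Fam l Φ x = Fam l' Φ x := by
  induction h generalizing x with
  | nil => rfl
  | cons p _ ih =>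
    show ((p.2 : ℝ) ^ 2)⁻¹ • ∑ s ∈ range p.2, ∑ s' ∈ range p.2, Fam _ Φ _ = _
    simp only [ih]
    rfl
  | swap p q l => exact Fam_swap _ _ _ _ _
  | trans _ _ ih1 ih2 => rw [ih1, ih2]

lemma Fam_add (l : List (ℕ × ℕ)) (Φ Ψ : Al → E) (x : Al) :
    Fam l (fun y => Φ y + Ψ y) x = Fam l Φ x + Fam l Ψ x := by
  induction l generalizing x with
  | nil => rfl
  | cons p l ih =>
    show ((p.2 : ℝ) ^ 2)⁻¹ • ∑ s ∈ range p.2, ∑ s' ∈ range p.2, Fam l (fun y => Φ y + Ψ y) _ = _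
    simp only [ih, sum_add_distrib, smul_add]
    rfl

end

lemma Fam_const (l : List (ℕ × ℕ)) (hl : ∀ p ∈ l, 1 ≤ p.2) (c : ℝ) (x : Al) : Fam l (fun _ => c) x = c := by
  induction l generalizing x with
  | nil => rfl
  | cons p l ih =>
    show ((p.2 : ℝ) ^ 2)⁻¹ • ∑ s ∈ range p.2, ∑ s' ∈ range p.2, Fam l (fun _ => c) _ = _
    simp only [ih (fun q hq => hl q (List.mem_cons_of_mem _ hq))]
    have : (0 : ℝ) < p.2 := by exact_mod_cast hl p List.mem_cons_self
    simp only [sum_const, card_range, nsmul_eq_mul, smul_eq_mul]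
    field_simp

lemma Fam_mul (l : List (ℕ × ℕ)) (c : ℝ) (Φ : Al → ℝ) (x : Al) : Fam l (fun y => c * Φ y) x = c * Fam l Φ x := by
  have := Fam_map (LinearMap.lsmul ℝ ℝ c) l Φ x
  simpa using this.symm

lemma Fam_finsum {ι : Type*} (l : List (ℕ × ℕ)) (s : Finset ι) (Φ : ι → Al → ℝ) (x : Al) :
    Fam l (fun y => ∑ i ∈ s, Φ i y) x = ∑ i ∈ s, Fam l (Φ i) x := by
  classical
  induction s using Finset.induction_on with
  | empty =>
    simp only [sum_empty]
    have := Fam_mul l 0 (fun _ => 0) x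
    simpa using this
  | insert a s ha ih =>
    simp only [sum_insert ha]
    rw [Fam_add, ih]

/-- all members of the family of derivatives -/
def All : List (ℕ × ℕ) → Al → (Al → Prop) → Prop
  | [], x, P => P x
  | p :: l, x, P => ∀ s < p.2, ∀ s' < p.2, All l (dv (p.1 * s) (p.1 * s') x) P

lemma All_of (l : List (ℕ × ℕ)) (P : Al → Prop) (h : ∀ y, U1 y → P y) (x : Al) (hx : U1 x) : All l x P := by
  induction l generalizing x with
  | nil => exact h x hx
  | cons p l ih => exact fun s _ s' _ => ih _ (hx.dv _ _)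

lemma All_imp (l : List (ℕ × ℕ)) (P Q : Al → Prop) (h : ∀ y, U1 y → P y → Q y) (x : Al) (hx : U1 x) (hP : All l x P) :
    All l x Q := by
  induction l generalizing x with
  | nil => exact h x hx hP
  | cons p l ih => exact fun s hs s' hs' => ih _ (hx.dv _ _) (hP s hs s' hs')

lemma All_and (l : List (ℕ × ℕ)) (P Q : Al → Prop) (x : Al) (hP : All l x P) (hQ : All l x Q) :
    All l x (fun y => P y ∧ Q y) := by
  induction l generalizing x with
  | nil => exact ⟨hP, hQ⟩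
  | cons p l ih => exact fun s hs s' hs' => ih _ (hP s hs s' hs') (hQ s hs s' hs')

lemma All_unif (l : List (ℕ × ℕ)) (P : ℕ → Al → Prop) (h : ∀ y, U1 y → ∃ R₀, ∀ R, R₀ ≤ R → P R y) (x : Al)
    (hx : U1 x) : ∃ R₀, ∀ R, R₀ ≤ R → All l x (P R) := by
  induction l generalizing x with
  | nil => exact h x hx
  | cons p l ih =>
    choose R₀ hR₀ using fun s s' => ih (dv (p.1 * s) (p.1 * s') x) (hx.dv _ _)
    refine ⟨∑ s ∈ range p.2, ∑ s' ∈ range p.2, R₀ s s', fun R hR s hs s' hs' => hR₀ s s' R ?_⟩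
    have h1 := single_le_sum (f := fun s => ∑ s' ∈ range p.2, R₀ s s') (fun _ _ => Nat.zero_le _) (mem_range.mpr hs)
    have h2 := single_le_sum (f := fun s' => R₀ s s') (fun _ _ => Nat.zero_le _) (mem_range.mpr hs')
    exact (h2.trans h1).trans hR

lemma Fam_le (l : List (ℕ × ℕ)) (Φ Ψ : Al → ℝ) (x : Al) (h : All l x (fun y => Φ y ≤ Ψ y)) :
    Fam l Φ x ≤ Fam l Ψ x := by
  induction l generalizing x with
  | nil => exact h
  | cons p l ih =>
    show ((p.2 : ℝ) ^ 2)⁻¹ • ∑ s ∈ range p.2, ∑ s' ∈ range p.2, Fam l Φ _ ≤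
      ((p.2 : ℝ) ^ 2)⁻¹ • ∑ s ∈ range p.2, ∑ s' ∈ range p.2, Fam l Ψ _
    rw [smul_eq_mul, smul_eq_mul]
    refine mul_le_mul_of_nonneg_left ?_ (by positivity)
    refine sum_le_sum fun s hs => sum_le_sum fun s' hs' => ih _ (h s (mem_range.mp hs) s' (mem_range.mp hs'))

/-- box averages, as functions of the starting point -/
noncomputable def bx (l : List (ℕ × ℕ)) (x : Al) : Al := Fam l (fun y => y) x

lemma bx_append (l l' : List (ℕ × ℕ)) (x : Al) : bx (l ++ l') x = Fam l (bx l') x := Fam_append l l' _ x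

lemma bx_perm {l l' : List (ℕ × ℕ)} (h : l.Perm l') (x : Al) : bx l x = bx l' x := Fam_perm h _ x

lemma bx_one (p : ℕ × ℕ) (x : Al) : bx [p] x = (av p.1 p.2 x) ^ 2 := by
  ext n
  show ((p.2 : ℝ) ^ 2)⁻¹ * (∑ s ∈ range p.2, ∑ s' ∈ range p.2, dv (p.1 * s) (p.1 * s') x) n = _
  rw [sum_apply]
  simp only [sum_apply]
  rw [BoundedContinuousFunction.coe_pow, Pi.pow_apply, av_apply, div_pow, sq (∑ j ∈ range p.2, x (n + p.1 * j)),
    sum_mul_sum, div_eq_inv_mul]
  rfl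

/-- evaluation -/
noncomputable def ev (n : ℕ) : Al →ₗ[ℝ] ℝ where
  toFun x := x n
  map_add' x y := rfl
  map_smul' r x := rfl

/-- iterated averages -/
noncomputable def AV : List (ℕ × ℕ) → Al → Al
  | [], x => x
  | p :: l, x => av p.1 p.2 (AV l x)

/-- the comparison of two directions of a box -/
def CR (η : ℝ) (p r : ℕ × ℕ) : Prop := 1 ≤ p.2 ∧ 1 ≤ r.2 ∧ ∃ d : ℕ, r.1 = p.1 * d ∧ 4 * (d * r.2 : ℝ) ≤ η * p.2

lemma cmp_one (η : ℝ) (p r : ℕ × ℕ) (h : CR η p r) (l : List (ℕ × ℕ)) (hl : ∀ p ∈ l, 1 ≤ p.2) (x : Al) (hx : U1 x)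
    (n : ℕ) : bx (p :: l) x n ≤ av p.1 p.2 (bx (r :: l) x) n + η := by
  obtain ⟨hp, hr, d, hd, hη⟩ := h
  have hp0 : (0 : ℝ) < p.2 := by exact_mod_cast hp
  have h1 : bx (p :: l) x = bx (l ++ [p]) x := bx_perm (by
    have := List.perm_append_comm (l₁ := [p]) (l₂ := l)
    exact this) x
  have h2 : bx (r :: l) x = bx (l ++ [r]) x := bx_perm (by
    have := List.perm_append_comm (l₁ := [r]) (l₂ := l)
    exact this) x
  rw [h1, h2, bx_append, bx_append]
  have h3 : (Fam l (bx [p]) x) n = Fam l (fun y => (bx [p] y) n) x := Fam_map (ev n) l (bx [p]) x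
  have h4 : av p.1 p.2 (Fam l (bx [r]) x) n = Fam l (fun y => av p.1 p.2 (bx [r] y) n) x := by
    rw [Fam_map (av p.1 p.2) l (bx [r]) x]
    exact Fam_map (ev n) l (fun y => av p.1 p.2 (bx [r] y)) x
  rw [h3, h4]
  have h5 := Fam_const l hl η x
  rw [← h5, ← Fam_add]
  refine Fam_le l _ _ x (All_of l _ (fun y hy => ?_) x hx)
  rw [bx_one, bx_one, BoundedContinuousFunction.coe_pow, Pi.pow_apply]
  have h6 := jens y hy p.1 d r.2 p.2 1 hr hp n
  rw [mul_one, ← hd] at h6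
  have h7 : 4 * ((1 : ℕ) : ℝ) * (d * r.2) / p.2 ≤ η := by
    rw [div_le_iff₀ hp0]
    push_cast
    linarith
  linarith

lemma f2_one {η : ℝ} {l l' : List (ℕ × ℕ)} (h : List.Forall₂ (CR η) l l') : ∀ q ∈ l, 1 ≤ q.2 := by
  induction h with
  | nil => simp
  | cons hpr _ ih =>
    intro q hq
    rw [List.mem_cons] at hq
    rcases hq with rfl | hq
    · exact hpr.1
    · exact ih q hq

lemma cmp_list (η : ℝ) (l l' : List (ℕ × ℕ)) (h : List.Forall₂ (CR η) l l') : ∀ (t : List (ℕ × ℕ)),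
    (∀ p ∈ t, 1 ≤ p.2) → ∀ x, U1 x → ∀ n, bx (l ++ t) x n ≤ AV l (bx (l' ++ t) x) n + l.length * η := by
  induction h with
  | nil =>
    intro t _ x _ n
    simp only [List.nil_append, List.length_nil]
    show bx t x n ≤ bx t x n + _
    simp
  | @cons p r l l' hpr hll ih =>
    intro t ht x hx n
    have hl : ∀ q ∈ l, 1 ≤ q.2 := f2_one hll
    have h1 := cmp_one η p r hpr (l ++ t) (by
      intro q hq
      rw [List.mem_append] at hq
      rcases hq with hq | hq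
      · exact hl q hq
      · exact ht q hq) x hx n
    have h2 : bx (r :: (l ++ t)) x = bx (l ++ (r :: t)) x := bx_perm List.perm_middle.symm x
    have h3 : bx (r :: (l' ++ t)) x = bx (l' ++ (r :: t)) x := bx_perm List.perm_middle.symm x
    have h4 := ih (r :: t) (by
      intro q hq
      rw [List.mem_cons] at hq
      rcases hq with rfl | hq
      · exact hpr.2.1
      · exact ht q hq) x hx
    rw [h2] at h1
    have h5 := av_mono_add p.1 p.2 hpr.1 _ _ _ h4 n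
    rw [List.cons_append, List.cons_append, h3, List.length_cons]
    show _ ≤ av p.1 p.2 (AV l (bx (l' ++ (r :: t)) x)) n + _
    push_cast
    linarith

end Pool.Agent.Q259.LU
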