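import Pool.Agent.Q259.LU.Gs

set_option autoImplicit false

/-!
# Invariant means
-/

namespace Pool.Agent.Q259.LU

open Finset

/-- invariant means -/
structure Mn where
  /-- the functional -/
  M : Al →ₗ[ℝ] ℝ
  pos : ∀ x : Al, (∀ n, 0 ≤ x n) → 0 ≤ M x
  one : M 1 = 1
  inv : ∀ x, M (sh 1 x) = M x

namespace Mn

variable (m : Mn)

lemma mono (x y : Al) (h : ∀ n, x n ≤ y n) : m.M x ≤ m.M y := by
  have := m.pos (y - x) (fun n => by rw [BoundedContinuousFunction.sub_apply]; linarith [h n])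
  rw [map_sub] at this
  linarith

lemma cst (c : ℝ) : m.M (c • (1 : Al)) = c := by rw [map_smul, m.one, smul_eq_mul, mul_one]

lemma mono_add (x y : Al) (c : ℝ) (h : ∀ n, x n ≤ y n + c) : m.M x ≤ m.M y + c := by
  have := m.mono x (y + c • (1 : Al)) (fun n => by
    rw [BoundedContinuousFunction.add_apply]
    show x n ≤ y n + c * (1 : Al) n
    rw [BoundedContinuousFunction.coe_one, Pi.one_apply, mul_one]
    exact h n)
  rw [map_add, m.cst] at this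
  exact this

lemma shc (c : ℕ) (x : Al) : m.M (sh c x) = m.M x := by
  induction c with
  | zero => rw [sh_zero]
  | succ c ih =>
    have : sh (c + 1) x = sh 1 (sh c x) := by rw [sh_sh, add_comm]
    rw [this, m.inv, ih]

lemma av (Q R : ℕ) (hR : 1 ≤ R) (x : Al) : m.M (av Q R x) = m.M x := by
  have hR0 : (R : ℝ) ≠ 0 := by exact_mod_cast (show R ≠ 0 by omega)
  show m.M ((R : ℝ)⁻¹ • ∑ j ∈ range R, sh (Q * j) x) = _
  rw [map_smul, map_sum]
  simp only [m.shc, sum_const, card_range, nsmul_eq_mul, smul_eq_mul]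
  field_simp

lemma AV (l : List (ℕ × ℕ)) (hl : ∀ p ∈ l, 1 ≤ p.2) (x : Al) : m.M (AV l x) = m.M x := by
  induction l with
  | nil => rfl
  | cons p l ih =>
    show m.M (LU.av p.1 p.2 (LU.AV l x)) = _
    rw [m.av _ _ (hl p List.mem_cons_self), ih (fun q hq => hl q (List.mem_cons_of_mem _ hq))]

/-- the moments of the averages -/
noncomputable def a (κ Q R : ℕ) (x : Al) : ℝ := m.M ((LU.av Q R x) ^ (2 * κ))

/-- the limit of the moments -/
noncomputable def V (κ Q : ℕ) (x : Al) : ℝ := ⨅ R : ℕ, m.a κ Q (R + 1) x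

lemma a_nonneg (κ Q R : ℕ) (x : Al) : 0 ≤ m.a κ Q R x :=
  m.pos _ fun n => by
    rw [BoundedContinuousFunction.coe_pow, Pi.pow_apply]
    exact (even_two_mul κ).pow_nonneg _

lemma a_bdd (κ Q : ℕ) (x : Al) : BddBelow (Set.range fun R : ℕ => m.a κ Q (R + 1) x) := by
  refine ⟨0, ?_⟩
  rintro _ ⟨R, rfl⟩
  exact m.a_nonneg _ _ _ _

lemma V_nonneg (κ Q : ℕ) (x : Al) : 0 ≤ m.V κ Q x := le_ciInf fun R => m.a_nonneg _ _ _ _

lemma a_step (κ Q d R R' : ℕ) (hR : 1 ≤ R) (hR' : 1 ≤ R') (x : Al) (hx : U1 x) :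
    m.a κ Q R' x ≤ m.a κ (Q * d) R x + 4 * κ * (d * R) / R' := by
  have h1 := m.mono_add ((LU.av Q R' x) ^ (2 * κ)) (LU.av Q R' ((LU.av (Q * d) R x) ^ (2 * κ))) (4 * κ * (d * R) / R')
    (fun n => by
      rw [BoundedContinuousFunction.coe_pow, Pi.pow_apply]
      exact jens x hx Q d R R' κ hR hR' n)
  rw [m.av _ _ hR'] at h1
  exact h1

lemma V_le_a' (κ Q R : ℕ) (hR : 1 ≤ R) (x : Al) : m.V κ Q x ≤ m.a κ Q R x := by
  have := ciInf_le (m.a_bdd κ Q x) (R - 1)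
  rw [show R - 1 + 1 = R by omega] at this
  exact this

lemma V_le_a (κ Q d R : ℕ) (hR : 1 ≤ R) (x : Al) (hx : U1 x) : m.V κ Q x ≤ m.a κ (Q * d) R x := by
  refine le_of_forall_pos_le_add fun ε hε => ?_
  obtain ⟨R', hR'⟩ := exists_nat_ge (4 * κ * (d * R) / ε)
  have h1 := m.V_le_a' κ Q (R' + 1) (by omega) x
  have h2 := m.a_step κ Q d R (R' + 1) hR (by omega) x hx
  have h3 : 4 * (κ : ℝ) * (d * R) / ((R' + 1 : ℕ) : ℝ) ≤ ε := by
    rw [div_le_iff₀ (by positivity)]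
    rw [div_le_iff₀ hε] at hR'
    push_cast
    nlinarith
  linarith

lemma a_le_V (κ Q : ℕ) (x : Al) (hx : U1 x) (ε : ℝ) (hε : 0 < ε) :
    ∃ R₀ : ℕ, ∀ R, R₀ ≤ R → m.a κ Q R x ≤ m.V κ Q x + ε := by
  obtain ⟨R, hR⟩ := exists_lt_of_ciInf_lt (show m.V κ Q x < m.V κ Q x + ε / 2 by linarith)
  obtain ⟨R', hR'⟩ := exists_nat_ge (4 * κ * (((1 : ℕ) : ℝ) * (R + 1 : ℕ)) / (ε / 2))
  refine ⟨R' + 1, fun T hT => ?_⟩
  have h2 := m.a_step κ Q 1 (R + 1) T (by omega) (by omega) x hx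
  rw [mul_one] at h2
  have hT0 : ((R' + 1 : ℕ) : ℝ) ≤ T := by exact_mod_cast hT
  have h3 : 4 * (κ : ℝ) * (((1 : ℕ) : ℝ) * (R + 1 : ℕ)) / (T : ℝ) ≤ ε / 2 := by
    rw [div_le_iff₀ (by push_cast at hT0; linarith [(Nat.cast_nonneg R' : (0 : ℝ) ≤ R')])]
    rw [div_le_iff₀ (by linarith)] at hR'
    push_cast at hT0
    nlinarith
  linarith

lemma V_one (κ Q : ℕ) (hκ : 1 ≤ κ) (x : Al) (hx : U1 x) : m.V κ Q x ≤ m.V 1 Q x := by
  refine ciInf_mono (m.a_bdd κ Q x) fun R => m.mono _ _ fun n => ?_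
  rw [BoundedContinuousFunction.coe_pow, Pi.pow_apply, BoundedContinuousFunction.coe_pow, Pi.pow_apply, pow_mul,
    mul_one]
  have h1 := hx.av Q (R + 1) n
  have h2 : (LU.av Q (R + 1) x n) ^ 2 ≤ 1 := by rw [← sq_abs]; exact pow_le_one₀ (abs_nonneg _) h1
  exact pow_le_of_le_one (sq_nonneg _) h2 (by omega)

/-- the convexity lemma -/
lemma V_le_sq (Q : ℕ) (x z : Al) (hx : U1 x) (hz : U1 z)
    (h : ∀ η : ℝ, 0 < η → ∃ R : ℕ, 1 ≤ R ∧ ∀ n, |LU.av Q R x n - LU.av Q R z n| ≤ η) : m.V 1 Q x ≤ m.M (z ^ 2) := by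
  refine le_of_forall_pos_le_add fun ε hε => ?_
  obtain ⟨R, hR, h1⟩ := h (ε / 2) (by linarith)
  have h2 := m.V_le_a' 1 Q R hR x
  have h3 := m.mono_add ((LU.av Q R x) ^ (2 * 1)) (LU.av Q R (z ^ 2)) ε (fun n => by
    rw [BoundedContinuousFunction.coe_pow, Pi.pow_apply]
    have h4 := pow_sub_le (2 * 1) _ _ (hx.av Q R n) (hz.av Q R n)
    have h5 := pow_av_le Q R hR z 1 n
    rw [mul_one] at h5
    have h6 := (abs_le.mp h4).2
    have h7 := h1 n
    push_cast at h6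
    rw [mul_one]
    linarith)
  rw [m.av _ _ hR] at h3
  exact h2.trans h3

lemma dist_le (Q d R R' : ℕ) (hR : 1 ≤ R) (hR' : 1 ≤ R') (x : Al) (hx : U1 x) :
    m.M ((LU.av (Q * d) R x - LU.av Q R' x) ^ 2) ≤
      2 * (m.a 1 (Q * d) R x - m.V 1 Q x) + 2 * (m.a 1 Q R' x - m.V 1 Q x) := by
  set p := LU.av (Q * d) R x with hp
  set q := LU.av Q R' x with hq
  set z := (1 / 2 : ℝ) • (p + q) with hz
  have hz1 : ∀ n, z n = (p n + q n) / 2 := by
    intro n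
    show (1 / 2 : ℝ) * (p n + q n) = _
    ring
  have hzU : U1 z := by
    intro n
    rw [hz1, abs_div, abs_of_pos (by norm_num : (0 : ℝ) < 2)]
    have h1 := hx.av (Q * d) R n
    have h2 := hx.av Q R' n
    have h3 := abs_add_le (p n) (q n)
    rw [← hp] at h1
    rw [← hq] at h2
    rw [div_le_iff₀ (by norm_num)]
    linarith
  have key : m.V 1 Q x ≤ m.M (z ^ 2) := by
    refine m.V_le_sq Q x z hx hzU fun η hη => ?_
    obtain ⟨T, hT⟩ := exists_nat_ge ((d * R + R') / η)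
    have hT0 : (0 : ℝ) < (T + 1 : ℕ) := by positivity
    refine ⟨T + 1, by omega, fun n => ?_⟩
    have h1 := av_av x hx Q d R (T + 1) hR n
    have h2 := av_av x hx Q 1 R' (T + 1) hR' n
    rw [mul_one] at h2
    rw [← hp] at h1
    rw [← hq] at h2
    have h3 : LU.av Q (T + 1) z n = (LU.av Q (T + 1) p n + LU.av Q (T + 1) q n) / 2 := by
      rw [hz, map_smul, map_add]
      show (1 / 2 : ℝ) * (LU.av Q (T + 1) p n + LU.av Q (T + 1) q n) = _
      ring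
    rw [h3]
    have h4 : LU.av Q (T + 1) x n - (LU.av Q (T + 1) p n + LU.av Q (T + 1) q n) / 2 =
        ((LU.av Q (T + 1) x n - LU.av Q (T + 1) p n) + (LU.av Q (T + 1) x n - LU.av Q (T + 1) q n)) / 2 := by ring
    rw [h4, abs_div, abs_of_pos (by norm_num : (0 : ℝ) < 2), div_le_iff₀ (by norm_num)]
    refine (abs_add_le _ _).trans ((add_le_add h1 h2).trans ?_)
    rw [← add_div, div_le_iff₀ hT0]
    rw [div_le_iff₀ hη] at hT
    push_cast
    nlinarith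
  have e1 : (p - q) ^ 2 = (2 : ℝ) • p ^ 2 + (2 : ℝ) • q ^ 2 - (4 : ℝ) • z ^ 2 := by
    ext n
    show (p n - q n) ^ 2 = 2 * (p n) ^ 2 + 2 * (q n) ^ 2 - 4 * (z n) ^ 2
    rw [hz1]
    ring
  have e2 : m.a 1 (Q * d) R x = m.M (p ^ 2) := rfl
  have e3 : m.a 1 Q R' x = m.M (q ^ 2) := rfl
  rw [e1, e2, e3, map_sub, map_add, map_smul, map_smul, map_smul, smul_eq_mul, smul_eq_mul, smul_eq_mul]
  linarith

end Mn

end Pool.Agent.Q259.LU
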