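import Pool.Agent.Q259.LU.Wip
import Pool.Agent.Q259.LU.Gr

set_option autoImplicit false

/-!
# Moments of the correlations in one window, arbitrary means
-/

namespace Pool.Agent.Q259.LU

open Finset Pool.Agent.H332R2.Lit

/-- truncation and the means along progressions -/
lemma tr_mean' (v : ℕ → ℝ) (hv : ∀ x, |v x| ≤ 1) (Y R d M P e : ℕ) (hM : 1 ≤ M) (hP : d * M ≤ P) :
    ∑ m ∈ range (Y + R), |(∑ x ∈ range M, tr v Y R (m + d * x)) / M| ^ e ≤
      ∑ j ∈ range R, |(∑ x ∈ range M, v (j + d * x)) / M| ^ e + (Y + P) := by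
  have hM0 : (0 : ℝ) < M := by exact_mod_cast hM
  set a := tr v Y R with ha
  have hle : ∀ m, |(∑ x ∈ range M, a (m + d * x)) / M| ≤ 1 := by
    intro m
    rw [abs_div, abs_of_pos hM0, div_le_one hM0]
    refine (abs_sum_le_sum_abs _ _).trans ((sum_le_sum fun x _ => tr_le v hv Y R _).trans (le_of_eq ?_))
    simp
  have hsq : ∀ m, |(∑ x ∈ range M, a (m + d * x)) / M| ^ e ≤ 1 := fun m => pow_le_one₀ (abs_nonneg _) (hle m)
  rw [sum_range_add]
  have h1 : ∑ m ∈ range Y, |(∑ x ∈ range M, a (m + d * x)) / M| ^ e ≤ Y := by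
    refine (sum_le_sum fun m _ => hsq m).trans (le_of_eq ?_)
    simp
  have h2 : ∑ j ∈ range R, |(∑ x ∈ range M, a (Y + j + d * x)) / M| ^ e ≤
      ∑ j ∈ range R, |(∑ x ∈ range M, v (j + d * x)) / M| ^ e + P := by
    have h3 : ∀ j ∈ range R, |(∑ x ∈ range M, a (Y + j + d * x)) / M| ^ e ≤
        |(∑ x ∈ range M, v (j + d * x)) / M| ^ e + if R < j + P + 0 then 1 else 0 := by
      intro j _
      split_ifs with h
      · have := hsq (Y + j)
        have := pow_nonneg (abs_nonneg ((∑ x ∈ range M, v (j + d * x)) / M)) e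
        linarith
      · rw [add_zero]
        refine (le_of_eq ?_)
        congr 3
        refine sum_congr rfl fun x hx => ?_
        rw [mem_range] at hx
        rw [show Y + j + d * x = Y + (j + d * x) by omega, ha]
        rcases Nat.eq_zero_or_pos d with hd | hd
        · subst hd
          by_cases hj : j < R
          · exact tr_add v Y R _ (by omega)
          · rename_i hjR
            rw [mem_range] at hjR
            omega
        · exact tr_add v Y R _ (by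
            have : d * x < d * M := Nat.mul_lt_mul_of_pos_left hx hd
            omega)
    refine (sum_le_sum h3).trans ?_
    rw [sum_add_distrib, ← sum_filter, sum_const, nsmul_eq_mul, mul_one]
    have := card_lt_le 0 R P
    rw [add_zero] at this
    have h4 : (((range R).filter (fun j => R < j + P + 0)).card : ℝ) ≤ P := by exact_mod_cast this
    linarith
  linarith

theorem winA' (k : ℕ) (hk : 1 ≤ k) (a : ℕ → ℝ) (ℓ W R : ℕ) (hW : 1 ≤ W) (hR : 1 ≤ R) (hRW : R ≤ W)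
    (ha : ∀ x, x < ℓ → a x = 0) (ha' : ∀ x, W ≤ x → a x = 0) (ha1 : ∀ x, |a x| ≤ 1)
    (ha2 : ∑ x ∈ range W, a x ^ 2 ≤ R) (J : ℕ) (hJ : 1 ≤ J) (Sa M₁ n S h : ℕ) (hSa : 1 ≤ Sa) (hn : 1 ≤ n) (hM₁ : 1 ≤ M₁)
    (hh : 1 ≤ h) (δ : ℝ) (hδ : 0 ≤ δ) (h1 : 1 / (n : ℝ) ≤ δ / 2)
    (h2 : ((n ^ J * (M₁ * n ^ J) : ℕ) : ℝ) / Sa ≤ δ / 2) (hSS : Sa ≤ S)
    (hdiv : ∀ d q : ℕ, 1 ≤ d → d ≤ n ^ J → 1 ≤ q → q ≤ n ^ J → d * (M₁ * q) ∣ S)
    (hℓ : n ^ J * (M₁ * n ^ J) ≤ ℓ) (ε₁ : ℝ) (hε1 : ε₁ ≤ 1) (hε0 : 0 ≤ ε₁)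
    (hε : 4 * Real.pi * δ + 4 * Real.pi * h * (δ + δ) ≤ ε₁) :
    ∃ d q : ℕ, 1 ≤ d ∧ d ≤ n ^ J ∧ 1 ≤ q ∧ q ≤ n ^ J ∧
      TT S k (cc (range W) (sg a W R) (fun ξ => (ξ : ℝ) / W)) ≤ 1 / (2 * k + 1) + 4 * k / h +
        2 * k / (2 * k + 1) * ((∑ m ∈ range W, |(∑ x ∈ range (M₁ * q), a (m + d * x)) / (M₁ * q : ℕ)| ^ (4 * k + 2)) / W) +
        2 * k * ε₁ + 2 * k * (1 - R / W) + 4 * Real.pi * k * δ + 2 * k * Real.sqrt (10 * (1 / J)) := by
  have hW0 : (0 : ℝ) < W := by exact_mod_cast hW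
  have hR0 : (0 : ℝ) < R := by exact_mod_cast hR
  have hh0 : (0 : ℝ) < h := by exact_mod_cast hh
  have hS1 : 1 ≤ S := hSa.trans hSS
  have hσ0 := sg_nonneg a W R
  have hσ1 := sg_sum a W R hW hR ha2
  have hθ0 : ∀ ξ ∈ range W, 0 ≤ (ξ : ℝ) / W := fun ξ _ => by positivity
  have hθ1 : ∀ ξ ∈ range W, (ξ : ℝ) / W < 1 := by
    intro ξ hξ
    rw [mem_range] at hξ
    rw [div_lt_one hW0]
    exact_mod_cast hξ
  obtain ⟨d, q, hd1, hd2, hq1, hq2, G, hGI, hbad, hr, hm⟩ := arcs (range W) (sg a W R) (fun ξ => (ξ : ℝ) / W) hσ0 hσ1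
    hθ0 hθ1 J hJ Sa M₁ n hSa hn δ h1 h2 hM₁
  refine ⟨d, q, hd1, hd2, hq1, hq2, ?_⟩
  set M := M₁ * q with hM
  have hM1 : 1 ≤ M := Nat.mul_pos hM₁ hq1
  have hM0 : (0 : ℝ) < M := by exact_mod_cast hM1
  classical
  choose! nn hnn using hm
  have hG1 : ∑ ξ ∈ G, sg a W R ξ ≤ 1 :=
    (sum_le_sum_of_subset_of_nonneg hGI fun i _ _ => hσ0 i).trans hσ1
  have hA := stepA (range W) (sg a W R) (fun ξ => (ξ : ℝ) / W) hσ0 hσ1 hθ0 hθ1 Sa S hSa hSS (1 / J) (by positivity)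
    G hGI hbad k
  have hrel := (rel_base d M δ G (sg a W R) (fun ξ => (ξ : ℝ) / W) hσ0 hG1 nn hnn).abs k
  have hcmp := hrel.cmp (by positivity) hd1 hM1 S hS1 (hdiv d q hd1 hd2 hq1 hq2)
  set B : ℕ → ℂ := fun t => ∑ ξ ∈ G, ((sg a W R ξ : ℝ) : ℂ) * e ((t : ℝ) * nn ξ / M) with hB
  have hT : TT S k (cc G (sg a W R) (fun ξ => (ξ : ℝ) / W)) ≤ (∑ t ∈ range M, ‖B t‖ ^ (2 * k)) / M +
      2 * Real.pi * (k * (δ + δ)) := by
    unfold TT
    simpa only [Complex.ofReal_re] using hcmp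
  have hdM : d * M ≤ ℓ := by
    refine le_trans ?_ hℓ
    exact Nat.mul_le_mul hd2 (Nat.mul_le_mul_left _ hq2)
  have hsur := survive a ℓ W R hW hR ha ha' ha1 d M h hM1 hh hdM G hGI nn δ δ hnn hr ε₁ hε1 hε k
  have hB1 : ∀ t, ‖B t‖ ≤ 1 := by
    intro t
    simp only [hB]
    refine (norm_sum_le _ _).trans (le_trans (le_of_eq (sum_congr rfl fun ξ _ => ?_)) hG1)
    rw [norm_mul, norm_e, mul_one, Complex.norm_real, Real.norm_eq_abs, abs_of_nonneg (hσ0 ξ)]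
  set E := (∑ t ∈ range M, ‖B t‖ ^ (2 * k)) / M with hE
  have hE0 : 0 ≤ E := by rw [hE]; positivity
  have hE1 : E ≤ 1 := by
    rw [hE, div_le_one hM0]
    calc ∑ t ∈ range M, ‖B t‖ ^ (2 * k) ≤ ∑ _t ∈ range M, (1 : ℝ) :=
          sum_le_sum fun t _ => pow_le_one₀ (norm_nonneg _) (hB1 t)
      _ = M := by simp
  set Z := (∑ m ∈ range W, ∑ t ∈ range M, Am a d M h m t ^ (2 * k)) / W / M with hZ
  have hEZ : (1 - ε₁) ^ (2 * k) * ((R : ℝ) / W) ^ (2 * k) * E ≤ Z := by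
    rw [hE, hZ, ← mul_div_assoc]
    exact div_le_div_of_nonneg_right hsur hM0.le
  have hpg := prod_ge (1 - ε₁) ((R : ℝ) / W) (by linarith) (by linarith) (by positivity)
    (by rw [div_le_one hW0]; exact_mod_cast hRW) k
  have hEZ2 : E ≤ Z + 2 * k * ε₁ + 2 * k * (1 - R / W) := by
    have e1 : (1 - 2 * k * (1 - (1 - ε₁)) - 2 * k * (1 - (R : ℝ) / W)) * E ≤
        (1 - ε₁) ^ (2 * k) * ((R : ℝ) / W) ^ (2 * k) * E := mul_le_mul_of_nonneg_right hpg hE0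
    have e2 : 0 ≤ 2 * (k : ℝ) * (1 - (1 - ε₁)) + 2 * k * (1 - (R : ℝ) / W) := by
      have : (R : ℝ) / W ≤ 1 := by rw [div_le_one hW0]; exact_mod_cast hRW
      have e3 : 0 ≤ 2 * (k : ℝ) * (1 - (1 - ε₁)) := by
        rw [sub_sub_cancel]
        positivity
      have e4 : 0 ≤ 2 * (k : ℝ) * (1 - (R : ℝ) / W) := mul_nonneg (by positivity) (by linarith)
      linarith
    nlinarith
  -- every window
  have hZ2 : Z ≤ 1 / (2 * k + 1) + 4 * k / h +
      2 * k / (2 * k + 1) * ((∑ m ∈ range W, |(∑ x ∈ range M, a (m + d * x)) / M| ^ (4 * k + 2)) / W) := by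
    have hm1 : ∀ m ∈ range W, (∑ t ∈ range M, Am a d M h m t ^ (2 * k)) / M ≤
        1 / (2 * k + 1) + 2 * k / (2 * k + 1) * |(∑ x ∈ range M, a (m + d * x)) / M| ^ (4 * k + 2) + 4 * k / h := by
      intro m _
      have h3 := rnd' M hM1 (gm a d M h m) (gm_le a ha1 d M h m hh) (gm_per a d M h m) (2 / h)
        (gm_lip a ha1 d M h m hh) k hk
      rw [gm_sum a d M h m hh] at h3
      have e1 : 2 * (k : ℝ) * (2 / h) = 4 * k / h := by ring
      rw [e1] at h3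
      exact h3
    have e2 : Z = (∑ m ∈ range W, (∑ t ∈ range M, Am a d M h m t ^ (2 * k)) / M) / W := by
      rw [hZ, ← sum_div, div_div, div_div, mul_comm (W : ℝ) (M : ℝ)]
    rw [e2, div_le_iff₀ hW0]
    refine (sum_le_sum hm1).trans (le_of_eq ?_)
    rw [sum_add_distrib, sum_add_distrib, sum_const, sum_const, card_range, nsmul_eq_mul, nsmul_eq_mul, ← mul_sum]
    have e3 : ∀ x y z t : ℝ, (W : ℝ) * x + t * z + W * y = (x + y + t * (z / W)) * W := by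
      intro x y z t
      field_simp
      ring
    exact e3 _ _ _ _
  have e9 : 2 * Real.pi * (k * (δ + δ)) = 4 * Real.pi * k * δ := by ring
  rw [e9] at hT
  linarith

theorem win' (k : ℕ) (hk : 1 ≤ k) (ε : ℝ) (hε0 : 0 < ε) (hε1 : ε ≤ 1) :
    ∃ D : ℕ, 1 ≤ D ∧ ∀ M₁ : ℕ, 1 ≤ M₁ → ∀ S₀ : ℕ, ∃ S : ℕ, S₀ ≤ S ∧ 1 ≤ S ∧ ∃ C₀ : ℝ, 0 ≤ C₀ ∧ ∀ R : ℕ, 1 ≤ R → ∀ v : ℕ → ℝ,
      (∀ x, |v x| ≤ 1) → ∃ d q : ℕ, 1 ≤ d ∧ d ≤ D ∧ 1 ≤ q ∧ q ≤ D ∧
        (∑ s ∈ range S, ∑ s' ∈ range S, ((∑ j ∈ range R, v (j + s) * v (j + s')) / R) ^ (2 * k)) / (S : ℝ) ^ 2 ≤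
          1 / (2 * k + 1) + ε +
            2 * k / (2 * k + 1) * ((∑ j ∈ range R, |(∑ x ∈ range (M₁ * q), v (j + d * x)) / (M₁ * q : ℕ)| ^ (4 * k + 2)) / R) +
            C₀ / R := by
  have hk0 : (0 : ℝ) < k := by exact_mod_cast hk
  have hk1 : (1 : ℝ) ≤ k := by exact_mod_cast hk
  obtain ⟨h, hh⟩ := exists_nat_ge (16 * k / ε)
  set h' := h + 1 with hh'
  have hh1 : 4 * (k : ℝ) / h' ≤ ε / 4 := by
    rw [div_le_iff₀ hε0] at hh
    rw [div_le_iff₀ (by rw [hh']; positivity)]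
    rw [hh']
    push_cast
    nlinarith
  set ε₁ : ℝ := ε / (8 * k) with hε₁
  have hε₁0 : 0 < ε₁ := by rw [hε₁]; positivity
  have hε₁1 : ε₁ ≤ 1 := by
    rw [hε₁, div_le_one (by positivity)]
    linarith
  have hε₁k : 2 * (k : ℝ) * ε₁ = ε / 4 := by rw [hε₁]; field_simp; norm_num
  set δ : ℝ := ε₁ / (4 * Real.pi * (1 + 2 * h')) with hδ
  have hπ := Real.pi_pos
  have hh'0 : (0 : ℝ) < h' := by rw [hh']; positivity
  have hδ0 : 0 < δ := by rw [hδ]; positivity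
  have hδε : 4 * Real.pi * δ + 4 * Real.pi * h' * (δ + δ) = ε₁ := by
    rw [hδ]
    field_simp
    ring
  have hδk : 4 * Real.pi * k * δ ≤ ε / 8 := by
    have h1 : 4 * Real.pi * δ ≤ ε₁ := by
      have : 0 ≤ 4 * Real.pi * h' * (δ + δ) := by positivity
      linarith
    have h2 : 4 * Real.pi * k * δ = k * (4 * Real.pi * δ) := by ring
    rw [h2]
    have h3 := mul_le_mul_of_nonneg_left h1 hk0.le
    have h4 : (k : ℝ) * ε₁ = ε / 8 := by rw [hε₁]; field_simp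
    linarith
  obtain ⟨J0, hJ0⟩ := exists_nat_ge (10 * (8 * k / ε) ^ 2)
  set J := J0 + 1 with hJ
  have hJr : (0 : ℝ) < J := by rw [hJ]; positivity
  have hJk : 2 * (k : ℝ) * Real.sqrt (10 * (1 / J)) ≤ ε / 4 := by
    have h1 : 10 * (1 / (J : ℝ)) ≤ (ε / (8 * k)) ^ 2 := by
      rw [mul_one_div, div_le_iff₀ hJr]
      have h2 : 10 * (8 * (k : ℝ) / ε) ^ 2 ≤ J := by
        refine hJ0.trans ?_
        rw [hJ]
        push_cast
        linarith
      have h3 : (ε / (8 * (k : ℝ))) ^ 2 * (10 * (8 * (k : ℝ) / ε) ^ 2) = 10 := by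
        field_simp
      calc (10 : ℝ) = (ε / (8 * (k : ℝ))) ^ 2 * (10 * (8 * (k : ℝ) / ε) ^ 2) := h3.symm
        _ ≤ (ε / (8 * (k : ℝ))) ^ 2 * J := mul_le_mul_of_nonneg_left h2 (by positivity)
    have h2 : Real.sqrt (10 * (1 / J)) ≤ ε / (8 * k) := Real.sqrt_le_iff.mpr ⟨by positivity, h1⟩
    have h3 := mul_le_mul_of_nonneg_left h2 (by positivity : (0 : ℝ) ≤ 2 * k)
    have h4 : 2 * (k : ℝ) * (ε / (8 * k)) = ε / 4 := by field_simp; norm_num
    linarith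
  obtain ⟨n0, hn0⟩ := exists_nat_ge (2 / δ)
  set n := n0 + 1 with hn
  have hnr : (0 : ℝ) < n := by rw [hn]; positivity
  have hn1 : 1 / (n : ℝ) ≤ δ / 2 := by
    rw [div_le_iff₀ hnr]
    rw [div_le_iff₀ hδ0] at hn0
    rw [hn]
    push_cast
    nlinarith
  refine ⟨n ^ J, Nat.pos_of_ne_zero (by positivity), fun M₁ hM₁ S₀ => ?_⟩
  set P := n ^ J * (M₁ * n ^ J) with hP
  obtain ⟨Sa0, hSa0⟩ := exists_nat_ge (2 * (P : ℝ) / δ)
  set Sa := Sa0 + 1 + S₀ with hSa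
  have hSar : (0 : ℝ) < Sa := by rw [hSa]; positivity
  have hSa1 : (P : ℝ) / Sa ≤ δ / 2 := by
    rw [div_le_iff₀ hSar]
    rw [div_le_iff₀ hδ0] at hSa0
    rw [hSa]
    push_cast
    have : (0 : ℝ) ≤ S₀ * δ := by positivity
    nlinarith
  set S := Sa * P.factorial with hS
  have hfac : 1 ≤ P.factorial := Nat.factorial_pos P
  have hSaS : Sa ≤ S := Nat.le_mul_of_pos_right _ hfac
  have hS1 : 1 ≤ S := (by omega : 1 ≤ Sa).trans hSaS
  set Y := P + S with hY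
  set C₀ : ℝ := 2 * k / (2 * k + 1) * (Y + P) + 4 * k * S + 2 * k * Y with hC₀
  refine ⟨S, (by omega : S₀ ≤ Sa).trans hSaS, hS1, C₀, by positivity, fun R hR v hv => ?_⟩
  have hR0 : (0 : ℝ) < R := by exact_mod_cast hR
  have hS0 : (0 : ℝ) < S := by exact_mod_cast hS1
  set W := Y + R with hW
  have hW1 : 1 ≤ W := by omega
  have hW0 : (0 : ℝ) < W := by exact_mod_cast hW1
  set a := tr v Y R with ha
  have haz : ∀ x, x < Y → a x = 0 := by
    intro x hx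
    rw [ha]
    unfold tr
    rw [if_neg (by omega)]
  have haz' : ∀ x, W ≤ x → a x = 0 := by
    intro x hx
    rw [ha]
    unfold tr
    rw [if_neg (by omega)]
  obtain ⟨d, q, hd1, hd2, hq1, hq2, hmain⟩ := winA' k hk a Y W R hW1 hR (by omega) haz haz' (tr_le v hv Y R)
    (tr_sq v hv Y R) J (by omega) Sa M₁ n S h' (by omega) (by omega) hM₁ (by omega) δ hδ0.le hn1 hSa1 hSaS
    (by
      intro d q hd1 hd2 hq1 hq2
      refine (Nat.dvd_factorial (Nat.mul_pos hd1 (Nat.mul_pos hM₁ hq1)) ?_).mul_left Sa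
      exact Nat.mul_le_mul hd2 (Nat.mul_le_mul_left _ hq2))
    (by omega) ε₁ hε₁1 hε₁0.le hδε.le
  refine ⟨d, q, hd1, hd2, hq1, hq2, ?_⟩
  -- the correlations
  have hcor : (∑ s ∈ range S, ∑ s' ∈ range S, ((∑ j ∈ range R, v (j + s) * v (j + s')) / R) ^ (2 * k)) / (S : ℝ) ^ 2 ≤
      TT S k (cc (range W) (sg a W R) (fun ξ => (ξ : ℝ) / W)) + 4 * k * S / R := by
    unfold TT
    rw [div_add' _ _ _ (by positivity)]
    refine div_le_div_of_nonneg_right ?_ (by positivity)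
    have h1 : ∀ s ∈ range S, ∀ s' ∈ range S, ((∑ j ∈ range R, v (j + s) * v (j + s')) / R) ^ (2 * k) ≤
        ‖cc (range W) (sg a W R) (fun ξ => (ξ : ℝ) / W) ((s' : ℝ) - s)‖ ^ (2 * k) + 4 * k * S / R := by
      intro s hs s' hs'
      rw [mem_range] at hs hs'
      rw [← spec a Y W R hW1 hR haz haz' s s' (by omega) (by omega), Complex.norm_real, Real.norm_eq_abs]
      set X := (∑ j ∈ range R, v (j + s) * v (j + s')) / R with hX
      set Z := (∑ z ∈ range W, a (z + s) * a (z + s')) / R with hZ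
      have hX1 : |X| ≤ 1 := by
        rw [hX, abs_div, abs_of_pos hR0, div_le_one hR0]
        refine (abs_sum_le_sum_abs _ _).trans ((sum_le_sum fun x _ => ?_ : _ ≤ ∑ _x ∈ range R, (1 : ℝ)).trans (le_of_eq ?_))
        · rw [abs_mul]
          exact mul_le_one₀ (hv _) (abs_nonneg _) (hv _)
        · simp
      have hXZ : |X - Z| ≤ 2 * S / R := by
        rw [hX, hZ, ← sub_div, abs_div, abs_of_pos hR0]
        exact div_le_div_of_nonneg_right (tr_corr v hv Y R S s s' hs hs') hR0.le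
      have hZ1 : |Z| ≤ 1 := by
        have h2 : ((Z : ℝ) : ℂ) = cc (range W) (sg a W R) (fun ξ => (ξ : ℝ) / W) ((s' : ℝ) - s) :=
          spec a Y W R hW1 hR haz haz' s s' (by omega) (by omega)
        have h3 := cc_le (range W) (sg a W R) (fun ξ => (ξ : ℝ) / W) (sg_nonneg a W R)
          (sg_sum a W R hW1 hR (tr_sq v hv Y R)) ((s' : ℝ) - s)
        rw [← h2, Complex.norm_real, Real.norm_eq_abs] at h3
        exact h3
      have h4 := pow_sub_le (2 * k) X Z hX1 hZ1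
      have h5 := (abs_le.mp h4).2
      have h6 : ((2 * k : ℕ) : ℝ) * |X - Z| ≤ ((2 * k : ℕ) : ℝ) * (2 * S / R) :=
        mul_le_mul_of_nonneg_left hXZ (Nat.cast_nonneg _)
      rw [(even_two_mul k).pow_abs]
      push_cast at h5 h6
      have h7 : 2 * (k : ℝ) * (2 * S / R) = 4 * k * S / R := by ring
      linarith
    refine (sum_le_sum fun s hs => sum_le_sum fun s' hs' => h1 s hs s' hs').trans (le_of_eq ?_)
    simp only [sum_add_distrib, sum_const, card_range, nsmul_eq_mul]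
    ring
  have hmean : (∑ m ∈ range W, |(∑ x ∈ range (M₁ * q), a (m + d * x)) / (M₁ * q : ℕ)| ^ (4 * k + 2)) / W ≤
      (∑ j ∈ range R, |(∑ x ∈ range (M₁ * q), v (j + d * x)) / (M₁ * q : ℕ)| ^ (4 * k + 2)) / R + (Y + P) / R := by
    have h1 := tr_mean' v hv Y R d (M₁ * q) P (4 * k + 2) (Nat.mul_pos hM₁ hq1)
      (Nat.mul_le_mul hd2 (Nat.mul_le_mul_left _ hq2))
    have h2 : 0 ≤ ∑ m ∈ range W, |(∑ x ∈ range (M₁ * q), a (m + d * x)) / (M₁ * q : ℕ)| ^ (4 * k + 2) :=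
      sum_nonneg fun m _ => pow_nonneg (abs_nonneg _) _
    rw [← add_div]
    calc (∑ m ∈ range W, |(∑ x ∈ range (M₁ * q), a (m + d * x)) / (M₁ * q : ℕ)| ^ (4 * k + 2)) / W
        ≤ (∑ m ∈ range W, |(∑ x ∈ range (M₁ * q), a (m + d * x)) / (M₁ * q : ℕ)| ^ (4 * k + 2)) / R := by
          refine div_le_div_of_nonneg_left h2 hR0 ?_
          exact_mod_cast (by omega : R ≤ W)
      _ ≤ _ := div_le_div_of_nonneg_right h1 hR0.le
  have hRW : 2 * (k : ℝ) * (1 - R / W) ≤ 2 * k * Y / R := by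
    have h1 : 1 - (R : ℝ) / W = Y / W := by
      rw [hW]
      push_cast
      rw [hW] at hW0
      push_cast at hW0
      field_simp
      ring
    rw [h1]
    have h2 : (Y : ℝ) / W ≤ Y / R := by
      refine div_le_div_of_nonneg_left (by positivity) hR0 ?_
      exact_mod_cast (by omega : R ≤ W)
    have h3 := mul_le_mul_of_nonneg_left h2 (by positivity : (0 : ℝ) ≤ 2 * k)
    refine h3.trans (le_of_eq ?_)
    ring
  have hm2 := mul_le_mul_of_nonneg_left hmean (by positivity : (0 : ℝ) ≤ 2 * k / (2 * k + 1))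
  have hC : C₀ / R = 2 * k / (2 * k + 1) * ((Y + P) / R) + 4 * k * S / R + 2 * k * Y / R := by
    rw [hC₀]
    ring
  rw [mul_add] at hm2
  rw [hC]
  linarith

end Pool.Agent.Q259.LU
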