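import Pool.Agent.Q259.LU.Gt
import Pool.Agent.Q259.LU.Gw

set_option autoImplicit false

/-!
# The window inequality for invariant means
-/

namespace Pool.Agent.Q259.LU

open Finset

lemma amgm_pt (e : ℕ) (s t δ : ℝ) (hs : |s| ≤ 1) (ht : |t| ≤ 1) (hδ : 0 < δ) :
    t ^ e ≤ s ^ e + e * (δ / 2 + (t - s) ^ 2 / (2 * δ)) := by
  have h1 := (abs_le.mp (pow_sub_le e t s ht hs)).2
  have h2 : |t - s| ≤ δ / 2 + (t - s) ^ 2 / (2 * δ) := by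
    rw [← sq_abs (t - s)]
    have h3 : δ / 2 + |t - s| ^ 2 / (2 * δ) - |t - s| = (|t - s| - δ) ^ 2 / (2 * δ) := by
      field_simp
      ring
    have h4 : 0 ≤ (|t - s| - δ) ^ 2 / (2 * δ) := by positivity
    linarith
  have h5 : (e : ℝ) * |t - s| ≤ e * (δ / 2 + (t - s) ^ 2 / (2 * δ)) := mul_le_mul_of_nonneg_left h2 (Nat.cast_nonneg _)
  linarith

/-- the comparison function -/
noncomputable def Wf (Q D M₁ R' e : ℕ) (δ : ℝ) (y : Al) : Al :=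
  (av Q R' y) ^ e + (e * (δ / 2)) • (1 : Al) +
    (e / (2 * δ)) • ∑ d ∈ Icc 1 D, ∑ q ∈ Icc 1 D, (av (Q * d) (M₁ * q) y - av Q R' y) ^ 2

lemma Wf_apply (Q D M₁ R' e : ℕ) (δ : ℝ) (y : Al) (n : ℕ) : Wf Q D M₁ R' e δ y n =
    (av Q R' y n) ^ e + e * (δ / 2) +
      (e / (2 * δ)) * ∑ d ∈ Icc 1 D, ∑ q ∈ Icc 1 D, (av (Q * d) (M₁ * q) y n - av Q R' y n) ^ 2 := by
  have h1 : (∑ d ∈ Icc 1 D, ∑ q ∈ Icc 1 D, (av (Q * d) (M₁ * q) y - av Q R' y) ^ 2) n =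
      ∑ d ∈ Icc 1 D, ∑ q ∈ Icc 1 D, (av (Q * d) (M₁ * q) y n - av Q R' y n) ^ 2 := by
    rw [sum_apply]
    refine sum_congr rfl fun d _ => ?_
    rw [sum_apply]
    rfl
  rw [← h1]
  have h2 : (e * (δ / 2)) * (1 : ℝ) = e * (δ / 2) := mul_one _
  rw [← h2]
  rfl

lemma Wf_ge (Q D M₁ R' e : ℕ) (δ : ℝ) (hδ : 0 < δ) (y : Al) (hy : U1 y) (n d q : ℕ) (hd : d ∈ Icc 1 D)
    (hq : q ∈ Icc 1 D) : (av (Q * d) (M₁ * q) y n) ^ e ≤ Wf Q D M₁ R' e δ y n := by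
  rw [Wf_apply]
  have h1 := amgm_pt e (av Q R' y n) (av (Q * d) (M₁ * q) y n) δ (hy.av Q R' n) (hy.av (Q * d) (M₁ * q) n) hδ
  have h2 : (av (Q * d) (M₁ * q) y n - av Q R' y n) ^ 2 ≤
      ∑ d ∈ Icc 1 D, ∑ q ∈ Icc 1 D, (av (Q * d) (M₁ * q) y n - av Q R' y n) ^ 2 := by
    have h3 := single_le_sum (f := fun d => ∑ q ∈ Icc 1 D, (av (Q * d) (M₁ * q) y n - av Q R' y n) ^ 2)
      (fun _ _ => sum_nonneg fun _ _ => sq_nonneg _) hd
    have h4 := single_le_sum (f := fun q => (av (Q * d) (M₁ * q) y n - av Q R' y n) ^ 2)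
      (fun _ _ => sq_nonneg _) hq
    exact h4.trans h3
  have h5 : (e / (2 * δ)) * (av (Q * d) (M₁ * q) y n - av Q R' y n) ^ 2 ≤
      (e / (2 * δ)) * ∑ d ∈ Icc 1 D, ∑ q ∈ Icc 1 D, (av (Q * d) (M₁ * q) y n - av Q R' y n) ^ 2 :=
    mul_le_mul_of_nonneg_left h2 (by positivity)
  have h6 : (e : ℝ) * (δ / 2 + (av (Q * d) (M₁ * q) y n - av Q R' y n) ^ 2 / (2 * δ)) =
      e * (δ / 2) + (e / (2 * δ)) * (av (Q * d) (M₁ * q) y n - av Q R' y n) ^ 2 := by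
    field_simp
  linarith

namespace Mn

variable (m : Mn)

lemma M_Wf (Q D M₁ R' e : ℕ) (δ : ℝ) (y : Al) : m.M (Wf Q D M₁ R' e δ y) =
    m.M ((LU.av Q R' y) ^ e) + e * (δ / 2) +
      (e / (2 * δ)) * ∑ d ∈ Icc 1 D, ∑ q ∈ Icc 1 D, m.M ((LU.av (Q * d) (M₁ * q) y - LU.av Q R' y) ^ 2) := by
  unfold Wf
  rw [map_add, map_add, m.cst, map_smul, map_sum, smul_eq_mul]
  simp only [map_sum]

/-- one direction -/
theorem step1 (k : ℕ) (hk : 1 ≤ k) (ε : ℝ) (hε0 : 0 < ε) (hε1 : ε ≤ 1) : ∃ D : ℕ, 1 ≤ D ∧ ∀ M₁ : ℕ, 1 ≤ M₁ →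
    ∀ S₀ : ℕ, ∃ S : ℕ, S₀ ≤ S ∧ 1 ≤ S ∧ ∀ (m : Mn) (Q : ℕ) (y : Al), U1 y → ∀ δ : ℝ, 0 < δ →
      Fam [(Q, S)] (m.V k Q) y ≤ 1 / (2 * k + 1) + ε + 2 * k / (2 * k + 1) * (m.V (2 * k + 1) Q y + (2 * k + 1) * δ +
        (4 * k + 2) / δ * ∑ d ∈ Icc 1 D, ∑ q ∈ Icc 1 D, (m.a 1 (Q * d) (M₁ * q) y - m.V 1 Q y)) := by
  obtain ⟨D, hD, h0⟩ := win' k hk ε hε0 hε1
  refine ⟨D, hD, fun M₁ hM₁ S₀ => ?_⟩
  obtain ⟨S, hS₀, hS, C₀, hC₀, h1⟩ := h0 M₁ hM₁ S₀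
  refine ⟨S, hS₀, hS, fun m Q y hy δ hδ => ?_⟩
  have hk0 : (0 : ℝ) < 2 * k + 1 := by positivity
  set e := 4 * k + 2 with he
  have heven : Even e := ⟨2 * k + 1, by rw [he]; ring⟩
  have hc : (0 : ℝ) ≤ 2 * k / (2 * k + 1) := by positivity
  -- the pointwise bound
  have hpt : ∀ R R' : ℕ, 1 ≤ R → ∀ n, Fam [(Q, S)] (fun z => (LU.av Q R z) ^ (2 * k)) y n ≤
      ((2 * k / (2 * k + 1) : ℝ) • LU.av Q R (Wf Q D M₁ R' e δ y)) n + (1 / (2 * k + 1) + ε + C₀ / R) := by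
    intro R R' hR n
    have hR0 : (0 : ℝ) < R := by exact_mod_cast hR
    obtain ⟨d, q, hd1, hd2, hq1, hq2, h2⟩ := h1 R hR (fun j => y (n + Q * j)) (fun x => hy _)
    have e1 : Fam [(Q, S)] (fun z => (LU.av Q R z) ^ (2 * k)) y n =
        (∑ s ∈ range S, ∑ s' ∈ range S, ((∑ j ∈ range R, y (n + Q * (j + s)) * y (n + Q * (j + s'))) / R) ^ (2 * k)) /
          (S : ℝ) ^ 2 := by
      show (((S : ℝ) ^ 2)⁻¹ * (∑ s ∈ range S, ∑ s' ∈ range S, (LU.av Q R (dv (Q * s) (Q * s') y)) ^ (2 * k)) n) = _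
      rw [sum_apply, div_eq_inv_mul]
      congr 1
      refine sum_congr rfl fun s _ => ?_
      rw [sum_apply]
      refine sum_congr rfl fun s' _ => ?_
      rw [BoundedContinuousFunction.coe_pow, Pi.pow_apply, av_apply]
      congr 2
      refine sum_congr rfl fun j _ => ?_
      show y (n + Q * j + Q * s) * y (n + Q * j + Q * s') = _
      rw [show n + Q * j + Q * s = n + Q * (j + s) by ring, show n + Q * j + Q * s' = n + Q * (j + s') by ring]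
    have e2 : (∑ j ∈ range R, |(∑ x ∈ range (M₁ * q), y (n + Q * (j + d * x))) / (M₁ * q : ℕ)| ^ (4 * k + 2)) / R ≤
        LU.av Q R (Wf Q D M₁ R' e δ y) n := by
      rw [av_apply]
      refine div_le_div_of_nonneg_right (sum_le_sum fun j _ => ?_) hR0.le
      rw [← he, heven.pow_abs]
      have h3 := Wf_ge Q D M₁ R' e δ hδ y hy (n + Q * j) d q (mem_Icc.mpr ⟨hd1, hd2⟩) (mem_Icc.mpr ⟨hq1, hq2⟩)
      refine le_trans (le_of_eq ?_) h3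
      rw [av_apply]
      congr 2
      refine sum_congr rfl fun x _ => ?_
      congr 1
      ring
    rw [e1]
    refine h2.trans ?_
    show _ ≤ (2 * k / (2 * k + 1) : ℝ) * LU.av Q R (Wf Q D M₁ R' e δ y) n + _
    have := mul_le_mul_of_nonneg_left e2 hc
    linarith
  -- the mean
  have hmean : ∀ R' : ℕ, Fam [(Q, S)] (m.V k Q) y ≤
      (2 * k / (2 * k + 1) : ℝ) * m.M (Wf Q D M₁ R' e δ y) + (1 / (2 * k + 1) + ε) := by
    intro R'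
    refine le_of_forall_pos_le_add fun η hη => ?_
    obtain ⟨T, hT⟩ := exists_nat_ge (C₀ / η)
    have h3 := m.mono_add _ _ _ (hpt (T + 1) R' (by omega))
    rw [map_smul, smul_eq_mul, m.av _ _ (by omega), Fam_map m.M] at h3
    have h4 : Fam [(Q, S)] (m.V k Q) y ≤ Fam [(Q, S)] (fun z => m.M ((LU.av Q (T + 1) z) ^ (2 * k))) y :=
      Fam_le _ _ _ _ (All_of _ _ (fun z _ => m.V_le_a' k Q (T + 1) (by omega) z) y hy)
    have h5 : C₀ / ((T + 1 : ℕ) : ℝ) ≤ η := by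
      rw [div_le_iff₀ (by positivity)]
      rw [div_le_iff₀ hη] at hT
      push_cast
      nlinarith
    linarith
  refine le_of_forall_pos_le_add fun η hη => ?_
  -- choose R'
  set K : ℝ := 1 + 2 * (e / (2 * δ)) * D ^ 2 with hK
  have hK0 : 0 < K := by positivity
  obtain ⟨T1, hT1⟩ := m.a_le_V (2 * k + 1) Q y hy (η / K) (by positivity)
  obtain ⟨T2, hT2⟩ := m.a_le_V 1 Q y hy (η / K) (by positivity)
  set R' := max (max T1 T2) 1 with hR'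
  have h6 := hT1 R' (by omega)
  have h7 := hT2 R' (by omega)
  have h8 := hmean R'
  rw [m.M_Wf] at h8
  have h9 : m.M ((LU.av Q R' y) ^ e) = m.a (2 * k + 1) Q R' y := by
    unfold a
    congr 2
    rw [he]; ring
  rw [h9] at h8
  have h10 : ∀ d ∈ Icc 1 D, ∀ q ∈ Icc 1 D, m.M ((LU.av (Q * d) (M₁ * q) y - LU.av Q R' y) ^ 2) ≤
      2 * (m.a 1 (Q * d) (M₁ * q) y - m.V 1 Q y) + 2 * (η / K) := by
    intro d _ q hq
    rw [mem_Icc] at hq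
    have := m.dist_le Q d (M₁ * q) R' (Nat.mul_pos hM₁ hq.1) (by omega) y hy
    linarith
  have h11 : ∑ d ∈ Icc 1 D, ∑ q ∈ Icc 1 D, m.M ((LU.av (Q * d) (M₁ * q) y - LU.av Q R' y) ^ 2) ≤
      2 * ∑ d ∈ Icc 1 D, ∑ q ∈ Icc 1 D, (m.a 1 (Q * d) (M₁ * q) y - m.V 1 Q y) + D ^ 2 * (2 * (η / K)) := by
    refine (sum_le_sum fun d hd => sum_le_sum fun q hq => h10 d hd q hq).trans (le_of_eq ?_)
    simp only [sum_add_distrib, sum_const, Nat.card_Icc, nsmul_eq_mul, Nat.add_sub_cancel, mul_sum]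
    ring
  have h12 := mul_le_mul_of_nonneg_left h11 (by positivity : (0 : ℝ) ≤ e / (2 * δ))
  set G0 := ∑ d ∈ Icc 1 D, ∑ q ∈ Icc 1 D, (m.a 1 (Q * d) (M₁ * q) y - m.V 1 Q y) with hG0
  have h13 : (e : ℝ) / (2 * δ) * (2 * G0 + D ^ 2 * (2 * (η / K))) =
      (4 * k + 2) / δ * G0 + (K - 1) * (η / K) := by
    rw [hK, he]
    push_cast
    field_simp
    ring
  have h14 : η / K + (K - 1) * (η / K) = η := by field_simp; ring
  have h15 : (e : ℝ) * (δ / 2) = (2 * k + 1) * δ := by rw [he]; push_cast; ring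
  have h16 : m.a (2 * k + 1) Q R' y + (e : ℝ) * (δ / 2) +
      (e / (2 * δ)) * ∑ d ∈ Icc 1 D, ∑ q ∈ Icc 1 D, m.M ((LU.av (Q * d) (M₁ * q) y - LU.av Q R' y) ^ 2) ≤
      m.V (2 * k + 1) Q y + (2 * k + 1) * δ + (4 * k + 2) / δ * G0 + η := by
    linarith
  have h17 := mul_le_mul_of_nonneg_left h16 hc
  have h18 : (2 * (k : ℝ) / (2 * k + 1)) * η ≤ η := by
    have : (2 * (k : ℝ) / (2 * k + 1)) ≤ 1 := by rw [div_le_one hk0]; linarith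
    nlinarith
  linarith

end Mn

end Pool.Agent.Q259.LU
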