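import Pool.Agent.Q259.LU.Gu

set_option autoImplicit false

/-!
# Box norms of all orders, for invariant means
-/

namespace Pool.Agent.Q259.LU

open Finset

/-- the constants -/
noncomputable def ck (j κ : ℕ) : ℝ := (2 ^ j - 1) / (2 ^ j * (κ + 1) - 1)

lemma ck_zero (κ : ℕ) : ck 0 κ = 0 := by simp [ck]

lemma ck_succ (j κ : ℕ) (hκ : 1 ≤ κ) :
    ck (j + 1) κ = 1 / (2 * κ + 1) + 2 * κ / (2 * κ + 1) * ck j (2 * κ + 1) := by
  have hκ1 : (1 : ℝ) ≤ κ := by exact_mod_cast hκ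
  have h2 : (1 : ℝ) ≤ 2 ^ j := one_le_pow₀ (by norm_num)
  have h3 : (0 : ℝ) < 2 ^ (j + 1) * (κ + 1) - 1 := by
    have : (1 : ℝ) ≤ 2 ^ (j + 1) := one_le_pow₀ (by norm_num)
    nlinarith
  have h4 : (2 : ℝ) ^ j * (((2 * κ + 1 : ℕ) : ℝ) + 1) - 1 = 2 ^ (j + 1) * (κ + 1) - 1 := by push_cast; ring
  unfold ck
  rw [h4]
  have h5 : (2 * κ + 1 : ℝ) ≠ 0 := by positivity
  field_simp
  ring

lemma f2_rep {α β : Type*} (R : α → β → Prop) (p : α) (l : List β) (h : ∀ r ∈ l, R p r) :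
    List.Forall₂ R (List.replicate l.length p) l := by
  induction l with
  | nil => exact List.Forall₂.nil
  | cons r l ih =>
    rw [List.length_cons, List.replicate_succ]
    exact List.Forall₂.cons (h r List.mem_cons_self) (ih fun q hq => h q (List.mem_cons_of_mem _ hq))

lemma f2_rep' {α β : Type*} (R : α → β → Prop) (r : β) (l : List α) (h : ∀ p ∈ l, R p r) :
    List.Forall₂ R l (List.replicate l.length r) := by
  induction l with
  | nil => exact List.Forall₂.nil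
  | cons p l ih =>
    rw [List.length_cons, List.replicate_succ]
    exact List.Forall₂.cons (h p List.mem_cons_self) (ih fun q hq => h q (List.mem_cons_of_mem _ hq))

lemma bx_U1 (l : List (ℕ × ℕ)) (x : Al) (hx : U1 x) : U1 (bx l x) := by
  induction l generalizing x with
  | nil => exact hx
  | cons p l ih =>
    intro n
    have h1 : bx (p :: l) x n = ((p.2 : ℝ) ^ 2)⁻¹ * ∑ s ∈ range p.2, ∑ s' ∈ range p.2,
        bx l (dv (p.1 * s) (p.1 * s') x) n := by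
      have : (∑ s ∈ range p.2, ∑ s' ∈ range p.2, bx l (dv (p.1 * s) (p.1 * s') x)) n =
        ∑ s ∈ range p.2, ∑ s' ∈ range p.2, bx l (dv (p.1 * s) (p.1 * s') x) n := by
        rw [sum_apply]
        exact sum_congr rfl fun s _ => by rw [sum_apply]
      rw [← this]
      rfl
    rw [h1, abs_mul, abs_of_nonneg (by positivity : (0 : ℝ) ≤ ((p.2 : ℝ) ^ 2)⁻¹)]
    have h2 : |∑ s ∈ range p.2, ∑ s' ∈ range p.2, bx l (dv (p.1 * s) (p.1 * s') x) n| ≤ (p.2 : ℝ) ^ 2 := by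
      refine (abs_sum_le_sum_abs _ _).trans ((sum_le_sum fun s _ => (abs_sum_le_sum_abs _ _).trans
        (sum_le_sum fun s' _ => ih _ (hx.dv _ _) n)).trans (le_of_eq ?_))
      simp only [sum_const, card_range, nsmul_eq_mul, mul_one]
      ring
    rcases Nat.eq_zero_or_pos p.2 with h0 | h0
    · rw [h0]; simp
    have h3 : (0 : ℝ) < (p.2 : ℝ) ^ 2 := by positivity
    calc ((p.2 : ℝ) ^ 2)⁻¹ * _ ≤ ((p.2 : ℝ) ^ 2)⁻¹ * (p.2 : ℝ) ^ 2 := mul_le_mul_of_nonneg_left h2 (by positivity)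
      _ = 1 := inv_mul_cancel₀ h3.ne'

namespace Mn

variable (m : Mn)

lemma M_U1 (x : Al) (hx : U1 x) : |m.M x| ≤ 1 := by
  rw [abs_le]
  constructor
  · have := m.mono_add ((-1 : ℝ) • (1 : Al)) x 0 (fun n => by
      show (-1 : ℝ) * 1 ≤ x n + 0
      linarith [(abs_le.mp (hx n)).1])
    rw [m.cst] at this
    linarith
  · have := m.mono_add x ((1 : ℝ) • (1 : Al)) 0 (fun n => by
      show x n ≤ (1 : ℝ) * 1 + 0
      linarith [(abs_le.mp (hx n)).2])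
    rw [m.cst] at this
    linarith

/-- the limit of the box averages -/
noncomputable def Sq (f : Al) (n Q : ℕ) : ℝ := ⨅ H : ℕ, m.M (bx (List.replicate n (Q, H + 1)) f)

variable (f : Al) (hf : U1 f)

include hf

lemma Sq_bdd (n Q : ℕ) : BddBelow (Set.range fun H : ℕ => m.M (bx (List.replicate n (Q, H + 1)) f)) := by
  refine ⟨-1, ?_⟩
  rintro _ ⟨H, rfl⟩
  exact (abs_le.mp (m.M_U1 _ (bx_U1 _ _ hf))).1

lemma cmpM (η : ℝ) (l l' : List (ℕ × ℕ)) (h : List.Forall₂ (CR η) l l') :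
    m.M (bx l f) ≤ m.M (bx l' f) + l.length * η := by
  have h1 := cmp_list η l l' h [] (by simp) f hf
  rw [List.append_nil, List.append_nil] at h1
  have h2 := m.mono_add _ _ _ h1
  rwa [m.AV _ (f2_one h)] at h2

lemma Sq_le' (n Q H : ℕ) (hH : 1 ≤ H) : m.Sq f n Q ≤ m.M (bx (List.replicate n (Q, H)) f) := by
  have := ciInf_le (m.Sq_bdd f hf n Q) (H - 1)
  rw [show H - 1 + 1 = H by omega] at this
  exact this

lemma Sq_le (Q : ℕ) (hQ : 1 ≤ Q) (l : List (ℕ × ℕ)) (h : ∀ p ∈ l, 1 ≤ p.2 ∧ ∃ d, p.1 = Q * d) :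
    m.Sq f l.length Q ≤ m.M (bx l f) := by
  refine le_of_forall_pos_le_add fun ε hε => ?_
  set η : ℝ := ε / (l.length + 1) with hη
  have hη0 : 0 < η := by positivity
  obtain ⟨H, hH⟩ := exists_nat_ge (4 * ((l.map fun p => p.1 * p.2).sum : ℕ) / η)
  have h1 : List.Forall₂ (CR η) (List.replicate l.length (Q, H + 1)) l := by
    refine f2_rep _ _ _ fun r hr => ?_
    obtain ⟨hr1, d, hd⟩ := h r hr
    refine ⟨Nat.le_add_left _ _, hr1, d, hd, ?_⟩
    have h2 : r.1 * r.2 ≤ (l.map fun p => p.1 * p.2).sum := by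
      refine List.single_le_sum (fun _ _ => Nat.zero_le _) _ ?_
      exact List.mem_map.mpr ⟨r, hr, rfl⟩
    have h3 : d * r.2 ≤ r.1 * r.2 := Nat.mul_le_mul_right _ (by rw [hd]; exact Nat.le_mul_of_pos_left _ hQ)
    have h4 : ((d : ℝ) * r.2) ≤ ((l.map fun p => p.1 * p.2).sum : ℕ) := by exact_mod_cast h3.trans h2
    rw [div_le_iff₀ hη0] at hH
    push_cast
    nlinarith
  have h2 := m.cmpM f hf η _ _ h1
  rw [List.length_replicate] at h2
  have h3 := m.Sq_le' f hf l.length Q (H + 1) (by omega)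
  have h4 : (l.length : ℝ) * η ≤ ε := by
    rw [hη, mul_div_assoc', div_le_iff₀ (by positivity)]
    nlinarith
  linarith

lemma Sq_mono (n Q d : ℕ) (hQ : 1 ≤ Q) : m.Sq f n Q ≤ m.Sq f n (Q * d) := by
  refine le_ciInf fun H => ?_
  have := m.Sq_le f hf Q hQ (List.replicate n (Q * d, H + 1)) (fun p hp => by
    rw [List.eq_of_mem_replicate hp]
    exact ⟨Nat.le_add_left _ _, d, rfl⟩)
  rwa [List.length_replicate] at this

omit hf in
lemma Sq_near (n Q : ℕ) (ε : ℝ) (hε : 0 < ε) : ∃ H : ℕ, 1 ≤ H ∧ m.M (bx (List.replicate n (Q, H)) f) ≤ m.Sq f n Q + ε := by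
  obtain ⟨H, hH⟩ := exists_lt_of_ciInf_lt (show m.Sq f n Q < m.Sq f n Q + ε by linarith)
  exact ⟨H + 1, by omega, hH.le⟩

lemma Sq_le_one (n Q : ℕ) : m.Sq f n Q ≤ 1 :=
  (m.Sq_le' f hf n Q 1 le_rfl).trans (abs_le.mp (m.M_U1 _ (bx_U1 _ _ hf))).2

/-- stable steps -/
def Stab (k : ℕ) (τ : ℝ) (Q : ℕ) : Prop := 1 ≤ Q ∧ ∀ n ≤ k, ∀ d, 1 ≤ d → m.Sq f n (Q * d) ≤ m.Sq f n Q + τ

lemma exists_Stab (k : ℕ) (τ : ℝ) (hτ : 0 < τ) (Q : ℕ) (hQ : 1 ≤ Q) : ∃ d, 1 ≤ d ∧ m.Stab f k τ (Q * d) := by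
  set F : ℕ → ℝ := fun d => ∑ n ∈ range (k + 1), m.Sq f n (Q * (d + 1)) with hF
  have hb : BddAbove (Set.range F) := by
    refine ⟨k + 1, ?_⟩
    rintro _ ⟨d, rfl⟩
    refine (sum_le_sum fun n _ => m.Sq_le_one f hf n _).trans (le_of_eq ?_)
    simp
  obtain ⟨d, hd⟩ := exists_lt_of_lt_ciSup (show (⨆ d, F d) - τ < ⨆ d, F d by linarith)
  refine ⟨d + 1, by omega, Nat.mul_pos hQ (Nat.succ_pos d), fun n hn d' hd' => ?_⟩
  have h1 := le_ciSup hb ((d + 1) * d' - 1)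
  have h2 : F ((d + 1) * d' - 1) - F d < τ := by linarith
  have h3 : (d + 1) * d' - 1 + 1 = (d + 1) * d' := by
    have := Nat.mul_pos (Nat.succ_pos d) hd'
    simp only [Nat.succ_eq_add_one] at this
    omega
  simp only [hF, h3, ← sum_sub_distrib] at h2
  have h4 := single_le_sum (f := fun n => m.Sq f n (Q * ((d + 1) * d')) - m.Sq f n (Q * (d + 1)))
    (fun n _ => by
      have := m.Sq_mono f hf n (Q * (d + 1)) d' (Nat.mul_pos hQ (Nat.succ_pos d))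
      rw [mul_assoc] at this
      exact sub_nonneg.mpr this) (mem_range.mpr (Nat.lt_succ_of_le hn))
  rw [mul_assoc]
  linarith

lemma le_FamV (Q : ℕ) (hQ : 1 ≤ Q) (l : List (ℕ × ℕ)) (h : ∀ p ∈ l, 1 ≤ p.2 ∧ p.1 = Q) :
    m.Sq f (l.length + 1) Q ≤ Fam l (m.V 1 Q) f := by
  refine le_of_forall_pos_le_add fun ε hε => ?_
  obtain ⟨R₀, hR₀⟩ := All_unif l (fun R y => m.a 1 Q R y ≤ m.V 1 Q y + ε) (fun y hy => m.a_le_V 1 Q y hy ε hε) f hf
  have h1 := Fam_le l _ _ f (hR₀ (R₀ + 1) (by omega))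
  rw [Fam_add, Fam_const l (fun p hp => (h p hp).1)] at h1
  have h2 : Fam l (fun y => m.a 1 Q (R₀ + 1) y) f = m.M (bx (l ++ [(Q, R₀ + 1)]) f) := by
    rw [bx_append, Fam_map m.M]
    congr 1
    funext y
    rw [bx_one]
    rfl
  rw [h2] at h1
  have h3 := m.Sq_le f hf Q hQ (l ++ [(Q, R₀ + 1)]) (fun p hp => by
    rw [List.mem_append, List.mem_singleton] at hp
    rcases hp with hp | rfl
    · exact ⟨(h p hp).1, 1, by rw [mul_one, (h p hp).2]⟩
    · exact ⟨Nat.le_add_left _ _, 1, by rw [mul_one]⟩)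
  rw [List.length_append, List.length_singleton] at h3
  exact h3.trans h1

end Mn

end Pool.Agent.Q259.LU
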