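import Pool.Agent.Q259.LU.Gx

set_option autoImplicit false

/-!
# The induction on the order
-/

namespace Pool.Agent.Q259.LU

open Finset

namespace Mn

variable (m : Mn)

lemma Fam_rhs (l : List (ℕ × ℕ)) (hl : ∀ p ∈ l, 1 ≤ p.2) (D : ℕ) (c0 c1 c2 c3 : ℝ) (V V1 : Al → ℝ)
    (A : ℕ → ℕ → Al → ℝ) (f : Al) :
    Fam l (fun y => c0 + c1 * (V y + c2 + c3 * ∑ d ∈ Icc 1 D, ∑ q ∈ Icc 1 D, (A d q y - V1 y))) f =
      c0 + c1 * (Fam l V f + c2 + c3 * ∑ d ∈ Icc 1 D, ∑ q ∈ Icc 1 D, (Fam l (A d q) f - Fam l V1 f)) := by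
  rw [Fam_add l (fun _ => c0), Fam_const l hl, Fam_mul, Fam_add l (fun y => V y + c2), Fam_add l V, Fam_const l hl,
    Fam_mul, Fam_finsum]
  simp only [Fam_finsum]
  have h1 : ∀ d q, Fam l (fun y => A d q y - V1 y) f = Fam l (A d q) f - Fam l V1 f := by
    intro d q
    have : (fun y => A d q y - V1 y) = fun y => A d q y + (-1) * V1 y := by funext y; ring
    rw [this, Fam_add, Fam_mul]
    ring
  simp only [h1]

variable (f : Al) (hf : U1 f)

include hf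

theorem ind (h0 : ∀ Q, 1 ≤ Q → m.V 1 Q f ≤ 0) (j : ℕ) : ∀ κ : ℕ, 1 ≤ κ → ∀ ε : ℝ, 0 < ε → ∃ τ : ℝ, 0 < τ ∧ ∀ Q : ℕ,
    m.Stab f j τ Q → ∀ H₀ : ℕ, ∃ l : List (ℕ × ℕ), l.length = j ∧ (∀ p ∈ l, p.1 = Q ∧ H₀ ≤ p.2 ∧ 1 ≤ p.2) ∧
      Fam l (m.V κ Q) f ≤ ck j κ + ε := by
  induction j with
  | zero =>
    intro κ hκ ε hε
    refine ⟨1, one_pos, fun Q hQ H₀ => ⟨[], rfl, by simp, ?_⟩⟩
    rw [ck_zero]
    show m.V κ Q f ≤ 0 + ε
    linarith [m.V_one κ Q hκ f hf, h0 Q hQ.1]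
  | succ j ih =>
    intro κ hκ ε hε
    have hκ0 : (0 : ℝ) < κ := by exact_mod_cast hκ
    obtain ⟨D, hD, h1⟩ := step1 κ hκ (min (ε / 4) 1) (by positivity) (min_le_right _ _)
    have hD0 : (0 : ℝ) < D := by exact_mod_cast hD
    set δ : ℝ := ε / (8 * κ) with hδ
    have hδ0 : 0 < δ := by positivity
    obtain ⟨τ₁, hτ₁, h2⟩ := ih (2 * κ + 1) (by omega) (ε / 4) (by positivity)
    set K : ℝ := (4 * κ + 2) / δ * (D ^ 2 * 4) with hK
    have hK0 : 0 < K := by positivity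
    set τ : ℝ := min τ₁ (ε / 4 / K) with hτ
    have hτ0 : 0 < τ := by positivity
    refine ⟨τ, hτ0, fun Q hQ H₀ => ?_⟩
    choose Hs hHs1 hHs2 using fun d => m.Sq_near f (j + 1) (Q * d) τ hτ0
    set B : ℕ := ∑ d ∈ Icc 1 D, d * Hs d with hB
    set η : ℝ := τ / (j + 1) with hη
    have hη0 : 0 < η := by positivity
    obtain ⟨N, hN⟩ := exists_nat_ge (4 * (B : ℝ) / η)
    have hN' : 4 * (B : ℝ) ≤ η * N := by
      rw [div_le_iff₀ hη0] at hN
      linarith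
    have hQ' : m.Stab f j τ₁ Q := ⟨hQ.1, fun n hn d hd => (hQ.2 n (by omega) d hd).trans (by
      have := min_le_left τ₁ (ε / 4 / K)
      rw [← hτ] at this
      linarith)⟩
    obtain ⟨l, hl, hl1, hl2⟩ := h2 Q hQ' (max H₀ (N + 1))
    obtain ⟨S, hS₀, hS, h3⟩ := h1 (N + 1) (by omega) H₀
    have hl3 : ∀ p ∈ l, 1 ≤ p.2 := fun p hp => (hl1 p hp).2.2
    refine ⟨l ++ [(Q, S)], by rw [List.length_append, hl]; rfl, ?_, ?_⟩
    · intro p hp
      rw [List.mem_append, List.mem_singleton] at hp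
      rcases hp with hp | rfl
      · exact ⟨(hl1 p hp).1, (le_max_left _ _).trans (hl1 p hp).2.1, (hl1 p hp).2.2⟩
      · exact ⟨rfl, hS₀, hS⟩
    rw [Fam_append]
    have h4 := Fam_le l (Fam [(Q, S)] (m.V κ Q)) (fun y => (1 / (2 * κ + 1) + min (ε / 4) 1) + 2 * κ / (2 * κ + 1) *
        (m.V (2 * κ + 1) Q y + (2 * κ + 1) * δ + (4 * κ + 2) / δ * ∑ d ∈ Icc 1 D, ∑ q ∈ Icc 1 D,
          (m.a 1 (Q * d) ((N + 1) * q) y - m.V 1 Q y))) f
      (All_of l _ (fun y hy => h3 m Q y hy δ hδ0) f hf)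
    rw [Fam_rhs l hl3] at h4
    have h5 : m.Sq f (j + 1) Q ≤ Fam l (m.V 1 Q) f := by
      have := m.le_FamV f hf Q hQ.1 l (fun p hp => ⟨hl3 p hp, (hl1 p hp).1⟩)
      rwa [hl] at this
    have h6 : ∀ d ∈ Icc 1 D, ∀ q ∈ Icc 1 D, Fam l (fun y => m.a 1 (Q * d) ((N + 1) * q) y) f - Fam l (m.V 1 Q) f ≤
        4 * τ := by
      intro d hd q hq
      rw [mem_Icc] at hd hq
      have e1 : Fam l (fun y => m.a 1 (Q * d) ((N + 1) * q) y) f = m.M (bx (l ++ [(Q * d, (N + 1) * q)]) f) := by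
        rw [bx_append, Fam_map m.M]
        congr 1
        funext y
        rw [bx_one]
        rfl
      have e2 : List.Forall₂ (CR η) (l ++ [(Q * d, (N + 1) * q)]) (List.replicate (j + 1) (Q * d, Hs d)) := by
        have e3 : (l ++ [(Q * d, (N + 1) * q)]).length = j + 1 := by rw [List.length_append, hl]; rfl
        rw [← e3]
        have e4 : d * Hs d ≤ B := single_le_sum (f := fun d => d * Hs d) (fun _ _ => Nat.zero_le _)
          (mem_Icc.mpr hd)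
        have e5 : ((d : ℝ) * Hs d) ≤ B := by exact_mod_cast e4
        have e6 : 4 * ((d : ℝ) * Hs d) ≤ η * (N + 1 : ℕ) := by
          push_cast
          nlinarith
        refine f2_rep' _ _ _ fun p hp => ?_
        rw [List.mem_append, List.mem_singleton] at hp
        rcases hp with hp | rfl
        · refine ⟨hl3 p hp, hHs1 d, d, by rw [(hl1 p hp).1], ?_⟩
          have e7 : ((N + 1 : ℕ) : ℝ) ≤ p.2 := by exact_mod_cast (le_max_right _ _).trans (hl1 p hp).2.1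
          exact e6.trans (mul_le_mul_of_nonneg_left e7 hη0.le)
        · refine ⟨Nat.mul_pos (Nat.succ_pos N) hq.1, hHs1 d, 1, by rw [mul_one], ?_⟩
          have e7 : ((N + 1 : ℕ) : ℝ) ≤ ((N + 1) * q : ℕ) := by exact_mod_cast Nat.le_mul_of_pos_right _ hq.1
          have e8 : ((1 : ℕ) : ℝ) * Hs d ≤ (d : ℝ) * Hs d :=
            mul_le_mul_of_nonneg_right (by exact_mod_cast hd.1) (Nat.cast_nonneg _)
          have e9 := mul_le_mul_of_nonneg_left e7 hη0.le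
          show 4 * (((1 : ℕ) : ℝ) * Hs d) ≤ η * ((N + 1) * q : ℕ)
          linarith
      have e10 := m.cmpM f hf η _ _ e2
      have e11 : ((l ++ [(Q * d, (N + 1) * q)]).length : ℝ) * η = τ := by
        rw [List.length_append, hl, List.length_singleton, hη]
        push_cast
        field_simp
      rw [e11] at e10
      have e12 := hHs2 d
      have e13 := hQ.2 (j + 1) le_rfl d hd.1
      rw [e1]
      linarith
    have h7 : ∑ d ∈ Icc 1 D, ∑ q ∈ Icc 1 D, (Fam l (fun y => m.a 1 (Q * d) ((N + 1) * q) y) f - Fam l (m.V 1 Q) f) ≤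
        D ^ 2 * (4 * τ) := by
      refine (sum_le_sum fun d hd => sum_le_sum fun q hq => h6 d hd q hq).trans (le_of_eq ?_)
      simp only [sum_const, Nat.card_Icc, nsmul_eq_mul, Nat.add_sub_cancel]
      ring
    have h8 := mul_le_mul_of_nonneg_left h7 (by positivity : (0 : ℝ) ≤ (4 * κ + 2) / δ)
    have h9 : (4 * κ + 2) / δ * (D ^ 2 * (4 * τ)) = K * τ := by rw [hK]; ring
    have h10 : K * τ ≤ ε / 4 := by
      have := min_le_right τ₁ (ε / 4 / K)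
      rw [← hτ] at this
      have h11 := mul_le_mul_of_nonneg_left this hK0.le
      have h12 : K * (ε / 4 / K) = ε / 4 := by field_simp
      linarith
    have hc : (0 : ℝ) ≤ 2 * κ / (2 * κ + 1) := by positivity
    have hc1 : 2 * (κ : ℝ) / (2 * κ + 1) ≤ 1 := by rw [div_le_one (by positivity)]; linarith
    rw [ck_succ j κ hκ]
    have h13 : Fam l (fun y => m.V (2 * κ + 1) Q y) f + (2 * κ + 1) * δ + (4 * κ + 2) / δ * ∑ d ∈ Icc 1 D,
        ∑ q ∈ Icc 1 D, (Fam l (fun y => m.a 1 (Q * d) ((N + 1) * q) y) f - Fam l (m.V 1 Q) f) ≤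
        ck j (2 * κ + 1) + ε / 4 + (2 * κ + 1) * δ + ε / 4 := by
      have : Fam l (fun y => m.V (2 * κ + 1) Q y) f ≤ ck j (2 * κ + 1) + ε / 4 := hl2
      linarith
    have h14 := mul_le_mul_of_nonneg_left h13 hc
    have h15 : 2 * (κ : ℝ) / (2 * κ + 1) * (ck j (2 * κ + 1) + ε / 4 + (2 * κ + 1) * δ + ε / 4) =
        2 * (κ : ℝ) / (2 * κ + 1) * ck j (2 * κ + 1) + 2 * (κ : ℝ) / (2 * κ + 1) * (ε / 2) + ε / 4 := by
      rw [hδ]
      field_simp
      ring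
    have h16 : 2 * (κ : ℝ) / (2 * κ + 1) * (ε / 2) ≤ ε / 2 := by nlinarith
    have h17 := min_le_left (ε / 4) (1 : ℝ)
    refine h4.trans ?_
    linarith

/-- the box norms of all orders -/
theorem box_le (h0 : ∀ Q, 1 ≤ Q → m.V 1 Q f ≤ 0) (k Q : ℕ) (hQ : 1 ≤ Q) : m.Sq f (k + 1) Q ≤ ck k 1 := by
  refine le_of_forall_pos_le_add fun ε hε => ?_
  obtain ⟨τ, hτ, h1⟩ := m.ind f hf h0 k 1 le_rfl ε hε
  obtain ⟨d, hd, h2⟩ := m.exists_Stab f hf k τ hτ Q hQ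
  obtain ⟨l, hl, hl1, hl2⟩ := h1 _ h2 0
  have h3 := m.le_FamV f hf (Q * d) (Nat.mul_pos hQ hd) l (fun p hp => ⟨(hl1 p hp).2.2, (hl1 p hp).1⟩)
  rw [hl] at h3
  have h4 := m.Sq_mono f hf (k + 1) Q d hQ
  linarith

end Mn

end Pool.Agent.Q259.LU
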