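import Pool.Agent.Q259.LU.Gy

set_option autoImplicit false

/-!
# Moments of local averages over boxes
-/

namespace Pool.Agent.Q259.LU

open Finset

/-- shifts, as homomorphisms -/
noncomputable def shm (c : ℕ) : Al →* Al where
  toFun := sh c
  map_one' := by ext n; rfl
  map_mul' := sh_mul c

lemma sh_prod {ι : Type*} (c : ℕ) (s : Finset ι) (x : ι → Al) : sh c (∏ i ∈ s, x i) = ∏ i ∈ s, sh c (x i) :=
  map_prod (shm c) x s

/-- products of shifts -/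
noncomputable def zz {r : ℕ} (q : ℕ) (c : Fin r → ℕ) (y : Al) : Al := ∏ a, sh (q * c a) y

lemma zz_dv {r : ℕ} (q : ℕ) (c : Fin r → ℕ) (a b : ℕ) (y : Al) : zz q c (dv a b y) = dv a b (zz q c y) := by
  unfold zz dv
  rw [sh_prod, sh_prod, ← prod_mul_distrib]
  refine prod_congr rfl fun i _ => ?_
  rw [sh_mul, sh_sh, sh_sh, sh_sh, sh_sh, add_comm a, add_comm b]

lemma zz_sh {r : ℕ} (q : ℕ) (c : Fin r → ℕ) (a : ℕ) (y : Al) : zz q c (sh a y) = sh a (zz q c y) := by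
  unfold zz
  rw [sh_prod]
  refine prod_congr rfl fun i _ => ?_
  rw [sh_sh, sh_sh, add_comm]

lemma zz_mul {r : ℕ} (q : ℕ) (c : Fin r → ℕ) (x y : Al) : zz q c (x * y) = zz q c x * zz q c y := by
  unfold zz
  rw [← prod_mul_distrib]
  exact prod_congr rfl fun i _ => sh_mul _ _ _

lemma U1.prod {ι : Type*} (s : Finset ι) (x : ι → Al) (h : ∀ i ∈ s, U1 (x i)) : U1 (∏ i ∈ s, x i) := by
  classical
  induction s using Finset.induction_on with
  | empty =>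
    intro n
    rw [prod_empty]
    show |(1 : ℝ)| ≤ 1
    rw [abs_one]
  | insert a s ha ih =>
    rw [prod_insert ha]
    exact (h a (mem_insert_self _ _)).mul (ih fun i hi => h i (mem_insert_of_mem hi))

lemma U1.zz {y : Al} (h : U1 y) {r : ℕ} (q : ℕ) (c : Fin r → ℕ) : U1 (zz q c y) := U1.prod _ _ fun _ _ => h.sh _

/-- powers of averages -/
noncomputable def pw (r q L : ℕ) (y : Al) : Al := (av q L y) ^ r

lemma pw_apply (r q L : ℕ) (y : Al) (n : ℕ) : pw r q L y n = (av q L y n) ^ r := rfl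

lemma pw_eq (r q L : ℕ) (y : Al) :
    pw r q L y = ((L : ℝ) ^ r)⁻¹ • ∑ c ∈ Fintype.piFinset (fun _ : Fin r => range L), zz q c y := by
  unfold pw
  have h1 : av q L y = (L : ℝ)⁻¹ • ∑ j ∈ range L, sh (q * j) y := rfl
  rw [h1, smul_pow, inv_pow, Finset.sum_pow']
  rfl

section
variable {E : Type*} [AddCommGroup E] [Module ℝ E]

lemma Fam_smul (l : List (ℕ × ℕ)) (c : ℝ) (Φ : Al → E) (x : Al) : Fam l (fun y => c • Φ y) x = c • Fam l Φ x :=
  (Fam_map (LinearMap.lsmul ℝ E c) l Φ x).symm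

lemma Fam_sum {ι : Type*} (l : List (ℕ × ℕ)) (s : Finset ι) (Φ : ι → Al → E) (x : Al) :
    Fam l (fun y => ∑ i ∈ s, Φ i y) x = ∑ i ∈ s, Fam l (Φ i) x := by
  classical
  induction s using Finset.induction_on with
  | empty =>
    simp only [sum_empty]
    have := Fam_smul l 0 (fun _ : Al => (0 : E)) x
    simpa using this
  | insert a s ha ih =>
    simp only [sum_insert ha]
    rw [Fam_add, ih]

end

lemma Fam_zz {r : ℕ} (q : ℕ) (c : Fin r → ℕ) (l : List (ℕ × ℕ)) (x : Al) : Fam l (zz q c) x = bx l (zz q c x) := by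
  induction l generalizing x with
  | nil => rfl
  | cons p l ih =>
    show ((p.2 : ℝ) ^ 2)⁻¹ • ∑ s ∈ range p.2, ∑ s' ∈ range p.2, Fam l (zz q c) _ = _
    simp only [ih, zz_dv]
    rfl

lemma Fam_pw (r q L : ℕ) (l : List (ℕ × ℕ)) (x : Al) :
    Fam l (pw r q L) x = ((L : ℝ) ^ r)⁻¹ • ∑ c ∈ Fintype.piFinset (fun _ : Fin r => range L), bx l (zz q c x) := by
  have h1 : pw r q L = fun y => ((L : ℝ) ^ r)⁻¹ • ∑ c ∈ Fintype.piFinset (fun _ : Fin r => range L), zz q c y := by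
    funext y; exact pw_eq r q L y
  rw [h1, Fam_smul, Fam_sum]
  congr 1
  exact sum_congr rfl fun c _ => Fam_zz q c l x

/-- iterated averages, as linear maps -/
noncomputable def AVl : List (ℕ × ℕ) → (Al →ₗ[ℝ] Al)
  | [] => LinearMap.id
  | p :: l => (av p.1 p.2).comp (AVl l)

lemma AVl_eq (l : List (ℕ × ℕ)) (x : Al) : AVl l x = AV l x := by
  induction l with
  | nil => rfl
  | cons p l ih =>
    show av p.1 p.2 (AVl l x) = av p.1 p.2 (AV l x)
    rw [ih]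

lemma AV_mono_add (l : List (ℕ × ℕ)) (hl : ∀ p ∈ l, 1 ≤ p.2) (x y : Al) (c : ℝ) (h : ∀ n, x n ≤ y n + c) (n : ℕ) :
    AV l x n ≤ AV l y n + c := by
  induction l generalizing n with
  | nil => exact h n
  | cons p l ih =>
    exact av_mono_add p.1 p.2 (hl p List.mem_cons_self) _ _ c (ih fun q hq => hl q (List.mem_cons_of_mem _ hq)) n

lemma piF_card (r L : ℕ) : ((Fintype.piFinset (fun _ : Fin r => range L)).card : ℝ) = (L : ℝ) ^ r := by
  rw [Fintype.card_piFinset_const, card_range]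
  push_cast
  rfl

/-- the comparison in the directions of the box -/
lemma cmp_pw (r q L : ℕ) (hL : 1 ≤ L) (η : ℝ) (l l' : List (ℕ × ℕ)) (h : List.Forall₂ (CR η) l l') (x : Al) (hx : U1 x)
    (n : ℕ) : Fam l (pw r q L) x n ≤ AV l (Fam l' (pw r q L) x) n + l.length * η := by
  have hL0 : (0 : ℝ) < (L : ℝ) ^ r := by
    have : (0 : ℝ) < L := by exact_mod_cast hL
    positivity
  rw [Fam_pw, Fam_pw, ← AVl_eq, map_smul, map_sum]
  show ((L : ℝ) ^ r)⁻¹ * (∑ c ∈ Fintype.piFinset (fun _ : Fin r => range L), bx l (zz q c x)) n ≤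
    ((L : ℝ) ^ r)⁻¹ * (∑ c ∈ Fintype.piFinset (fun _ : Fin r => range L), AVl l (bx l' (zz q c x))) n + _
  rw [sum_apply, sum_apply]
  have h1 : ∑ c ∈ Fintype.piFinset (fun _ : Fin r => range L), bx l (zz q c x) n ≤
      ∑ c ∈ Fintype.piFinset (fun _ : Fin r => range L), (AVl l (bx l' (zz q c x)) n + l.length * η) := by
    refine sum_le_sum fun c _ => ?_
    have := cmp_list η l l' h [] (by simp) (zz q c x) (hx.zz q c) n
    rw [List.append_nil, List.append_nil] at this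
    rw [AVl_eq]
    exact this
  rw [sum_add_distrib, sum_const, nsmul_eq_mul, piF_card] at h1
  have h2 := mul_le_mul_of_nonneg_left h1 (inv_nonneg.mpr hL0.le)
  rw [mul_add, inv_mul_cancel_left₀ hL0.ne'] at h2
  exact h2

/-- the comparison in all directions -/
lemma cmp_all (κ q d L L' : ℕ) (hL : 1 ≤ L) (hL' : 1 ≤ L') (η : ℝ) (l l' : List (ℕ × ℕ))
    (h : List.Forall₂ (CR η) l l') (hl' : ∀ p ∈ l', 1 ≤ p.2) (x : Al) (hx : U1 x) (n : ℕ) :
    Fam l (pw (2 * κ) q L) x n ≤ AV l (av q L (Fam l' (pw (2 * κ) (q * d) L') x)) n + l.length * η +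
      4 * κ * (d * L') / L := by
  have h1 := cmp_pw (2 * κ) q L hL η l l' h x hx n
  have h2 : ∀ n, Fam l' (pw (2 * κ) q L) x n ≤ av q L (Fam l' (pw (2 * κ) (q * d) L') x) n + 4 * κ * (d * L') / L := by
    intro n
    have e1 : (Fam l' (pw (2 * κ) q L) x) n = Fam l' (fun y => pw (2 * κ) q L y n) x := Fam_map (ev n) l' _ x
    have e2 : av q L (Fam l' (pw (2 * κ) (q * d) L') x) n = Fam l' (fun y => av q L (pw (2 * κ) (q * d) L' y) n) x := by
      rw [Fam_map (av q L) l' _ x]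
      exact Fam_map (ev n) l' _ x
    rw [e1, e2]
    have e3 := Fam_const l' hl' (4 * κ * (d * L') / L) x
    rw [← e3, ← Fam_add]
    exact Fam_le l' _ _ x (All_of l' _ (fun y hy => jens y hy q d L' L κ hL' hL n) x hx)
  have h3 := AV_mono_add l (f2_one h) _ _ _ h2 n
  linarith

lemma Fam_U1 (l : List (ℕ × ℕ)) (Φ : Al → Al) (h : ∀ y, U1 y → U1 (Φ y)) (x : Al) (hx : U1 x) : U1 (Fam l Φ x) := by
  induction l generalizing x with
  | nil => exact h x hx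
  | cons p l ih =>
    intro n
    have h1 : Fam (p :: l) Φ x n = ((p.2 : ℝ) ^ 2)⁻¹ * ∑ s ∈ range p.2, ∑ s' ∈ range p.2,
        Fam l Φ (dv (p.1 * s) (p.1 * s') x) n := by
      have : (∑ s ∈ range p.2, ∑ s' ∈ range p.2, Fam l Φ (dv (p.1 * s) (p.1 * s') x)) n =
        ∑ s ∈ range p.2, ∑ s' ∈ range p.2, Fam l Φ (dv (p.1 * s) (p.1 * s') x) n := by
        rw [sum_apply]
        exact sum_congr rfl fun s _ => by rw [sum_apply]
      rw [← this]
      rfl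
    rw [h1, abs_mul, abs_of_nonneg (by positivity : (0 : ℝ) ≤ ((p.2 : ℝ) ^ 2)⁻¹)]
    have h2 : |∑ s ∈ range p.2, ∑ s' ∈ range p.2, Fam l Φ (dv (p.1 * s) (p.1 * s') x) n| ≤ (p.2 : ℝ) ^ 2 := by
      refine (abs_sum_le_sum_abs _ _).trans ((sum_le_sum fun s _ => (abs_sum_le_sum_abs _ _).trans
        (sum_le_sum fun s' _ => ih _ (hx.dv _ _) n)).trans (le_of_eq ?_))
      simp only [sum_const, card_range, nsmul_eq_mul, mul_one]
      ring
    rcases Nat.eq_zero_or_pos p.2 with h0 | h0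
    · rw [h0]; simp
    have h3 : (0 : ℝ) < (p.2 : ℝ) ^ 2 := by positivity
    calc ((p.2 : ℝ) ^ 2)⁻¹ * _ ≤ ((p.2 : ℝ) ^ 2)⁻¹ * (p.2 : ℝ) ^ 2 := mul_le_mul_of_nonneg_left h2 (by positivity)
      _ = 1 := inv_mul_cancel₀ h3.ne'

lemma U1.pw {y : Al} (h : U1 y) (r q L : ℕ) : U1 (pw r q L y) := by
  intro n
  rw [pw_apply, abs_pow]
  exact pow_le_one₀ (abs_nonneg _) (h.av q L n)

/-- the limit of the moments, for invariant means -/
theorem mom_le (m : Mn) (f : Al) (hf : U1 f) (h0 : ∀ Q, 1 ≤ Q → m.V 1 Q f ≤ 0) (j κ Q : ℕ) (hκ : 1 ≤ κ) (hQ : 1 ≤ Q)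
    (ε : ℝ) (hε : 0 < ε) : ∃ H : ℕ, 1 ≤ H ∧ m.M (Fam (List.replicate j (Q, H)) (pw (2 * κ) Q H) f) ≤ ck j κ + ε := by
  obtain ⟨τ, hτ, h1⟩ := m.ind f hf h0 j κ hκ (ε / 4) (by positivity)
  obtain ⟨d, hd, h2⟩ := m.exists_Stab f hf j τ hτ Q hQ
  obtain ⟨l, hl, hl1, hl2⟩ := h1 _ h2 0
  have hl3 : ∀ p ∈ l, 1 ≤ p.2 := fun p hp => (hl1 p hp).2.2
  obtain ⟨R₀, hR₀⟩ := All_unif l (fun R y => m.a κ (Q * d) R y ≤ m.V κ (Q * d) y + ε / 4)
    (fun y hy => m.a_le_V κ (Q * d) y hy (ε / 4) (by positivity)) f hf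
  have h3 := Fam_le l _ _ f (hR₀ (R₀ + 1) (by omega))
  rw [Fam_add, Fam_const l hl3] at h3
  have h4 : Fam l (fun y => m.a κ (Q * d) (R₀ + 1) y) f = m.M (Fam l (pw (2 * κ) (Q * d) (R₀ + 1)) f) :=
    (Fam_map m.M l _ f).symm
  rw [h4] at h3
  set η : ℝ := ε / (4 * (j + 1)) with hη
  have hη0 : 0 < η := by positivity
  obtain ⟨H, hH⟩ := exists_nat_ge (4 * (d * ((l.map fun p => p.2).sum : ℕ)) / η + 16 * κ * (d * (R₀ + 1 : ℕ)) / ε)
  have hH1 : 4 * (d * ((l.map fun p => p.2).sum : ℕ)) / η ≤ (H + 1 : ℕ) := by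
    have : (0 : ℝ) ≤ 16 * κ * (d * (R₀ + 1 : ℕ)) / ε := by positivity
    rw [Nat.cast_succ]
    linarith
  have hH2 : 16 * κ * (d * (R₀ + 1 : ℕ)) / ε ≤ (H + 1 : ℕ) := by
    have : (0 : ℝ) ≤ 4 * (d * ((l.map fun p => p.2).sum : ℕ)) / η := by positivity
    rw [Nat.cast_succ H]
    linarith
  refine ⟨H + 1, by omega, ?_⟩
  have h5 : List.Forall₂ (CR η) (List.replicate j (Q, H + 1)) l := by
    rw [← hl]
    refine f2_rep _ _ _ fun r hr => ⟨Nat.le_add_left _ _, hl3 r hr, d, (hl1 r hr).1, ?_⟩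
    have h6 : r.2 ≤ (l.map fun p => p.2).sum :=
      List.single_le_sum (fun _ _ => Nat.zero_le _) _ (List.mem_map.mpr ⟨r, hr, rfl⟩)
    have h7 : (r.2 : ℝ) ≤ ((l.map fun p => p.2).sum : ℕ) := by exact_mod_cast h6
    rw [div_le_iff₀ hη0] at hH1
    have h8 : (d : ℝ) * r.2 ≤ d * ((l.map fun p => p.2).sum : ℕ) := mul_le_mul_of_nonneg_left h7 (Nat.cast_nonneg _)
    show 4 * ((d : ℝ) * r.2) ≤ η * (H + 1 : ℕ)
    linarith
  have h6 := m.mono_add (Fam (List.replicate j (Q, H + 1)) (pw (2 * κ) Q (H + 1)) f)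
    (AV (List.replicate j (Q, H + 1)) (av Q (H + 1) (Fam l (pw (2 * κ) (Q * d) (R₀ + 1)) f))) (j * η +
      4 * κ * (d * (R₀ + 1 : ℕ)) / (H + 1 : ℕ)) (fun n => by
      have := cmp_all κ Q d (H + 1) (R₀ + 1) (by omega) (by omega) η _ _ h5 hl3 f hf n
      rw [List.length_replicate] at this
      linarith)
  rw [m.AV _ (fun p hp => by rw [List.eq_of_mem_replicate hp]; exact Nat.le_add_left _ _), m.av _ _ (by omega)] at h6
  have h7 : (j : ℝ) * η ≤ ε / 4 := by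
    rw [hη, mul_div_assoc', div_le_div_iff₀ (by positivity) (by positivity)]
    nlinarith
  have h8 : 4 * κ * (d * (R₀ + 1 : ℕ)) / ((H + 1 : ℕ) : ℝ) ≤ ε / 4 := by
    rw [div_le_iff₀ hε] at hH2
    rw [div_le_iff₀ (by positivity)]
    linarith
  linarith

end Pool.Agent.Q259.LU
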