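import Pool.Agent.Q259.LU.Ha
import Pool.Agent.Q259.LU.Inp

set_option autoImplicit false

/-!
# Transfer to intervals
-/

namespace Pool.Agent.Q259.LU

open Finset Filter Topology

/-- averages over intervals -/
noncomputable def EN (X N : ℕ) : Al →ₗ[ℝ] ℝ where
  toFun x := (∑ n ∈ range N, x (X + n)) / N
  map_add' x y := by
    rw [← add_div, ← sum_add_distrib]
    rfl
  map_smul' r x := by
    rw [RingHom.id_apply, smul_eq_mul, mul_div_assoc', mul_sum]
    rfl

lemma EN_apply (X N : ℕ) (x : Al) : EN X N x = (∑ n ∈ range N, x (X + n)) / N := rfl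

lemma EN_mono (X N : ℕ) (x y : Al) (h : ∀ n, x n ≤ y n) : EN X N x ≤ EN X N y := by
  rw [EN_apply, EN_apply]
  exact div_le_div_of_nonneg_right (sum_le_sum fun n _ => h _) (Nat.cast_nonneg _)

lemma EN_mono_add (X N : ℕ) (hN : 1 ≤ N) (x y : Al) (c : ℝ) (h : ∀ n, x n ≤ y n + c) : EN X N x ≤ EN X N y + c := by
  have hN0 : (0 : ℝ) < N := by exact_mod_cast hN
  rw [EN_apply, EN_apply, div_add' _ _ _ hN0.ne']
  refine div_le_div_of_nonneg_right ?_ hN0.le
  refine (sum_le_sum fun n _ => h _).trans (le_of_eq ?_)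
  rw [sum_add_distrib, sum_const, card_range, nsmul_eq_mul]
  ring

lemma EN_bdd (X N : ℕ) (x : Al) : |EN X N x| ≤ ‖x‖ := by
  rw [EN_apply]
  rcases Nat.eq_zero_or_pos N with h0 | h0
  · subst h0; simp
  have hN0 : (0 : ℝ) < N := by exact_mod_cast h0
  rw [abs_div, abs_of_pos hN0, div_le_iff₀ hN0]
  refine (abs_sum_le_sum_abs _ _).trans ((sum_le_sum fun n _ => x.norm_coe_le_norm (X + n)).trans (le_of_eq ?_))
  rw [sum_const, card_range, nsmul_eq_mul]
  ring

lemma EN_sh (X N c : ℕ) (x : Al) (B : ℝ) (hx : ∀ n, |x n| ≤ B) : |EN X N (sh c x) - EN X N x| ≤ 2 * c * B / N := by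
  rw [EN_apply, EN_apply, ← sub_div, abs_div, abs_of_nonneg (Nat.cast_nonneg N : (0 : ℝ) ≤ (N : ℝ))]
  refine div_le_div_of_nonneg_right ?_ (Nat.cast_nonneg _)
  have := shift_norm (fun n => x (X + n)) B (fun n => by rw [Real.norm_eq_abs]; exact hx _) N c
  rw [Real.norm_eq_abs] at this
  simp only [← add_assoc] at this
  exact this

lemma EN_av (X N q R : ℕ) (hR : 1 ≤ R) (x : Al) (hx : U1 x) : |EN X N (av q R x) - EN X N x| ≤ 2 * (q * R) / N := by
  have hR0 : (0 : ℝ) < R := by exact_mod_cast hR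
  have h1 : EN X N (av q R x) = (∑ j ∈ range R, EN X N (sh (q * j) x)) / R := by
    show EN X N ((R : ℝ)⁻¹ • ∑ j ∈ range R, sh (q * j) x) = _
    rw [map_smul, map_sum, smul_eq_mul, div_eq_inv_mul]
  have h2 : EN X N x = (∑ _j ∈ range R, EN X N x) / R := by
    rw [sum_const, card_range, nsmul_eq_mul]
    field_simp
  have h3 : EN X N (av q R x) - EN X N x = (∑ j ∈ range R, (EN X N (sh (q * j) x) - EN X N x)) / R := by
    rw [sum_sub_distrib, sub_div, ← h1, ← h2]
  rw [h3, abs_div, abs_of_pos hR0, div_le_iff₀ hR0]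
  refine (abs_sum_le_sum_abs _ _).trans ?_
  have h4 : ∀ j ∈ range R, |EN X N (sh (q * j) x) - EN X N x| ≤ 2 * (q * R) / N := by
    intro j hj
    rw [mem_range] at hj
    refine (EN_sh X N (q * j) x 1 hx).trans ?_
    refine div_le_div_of_nonneg_right ?_ (Nat.cast_nonneg _)
    have : ((q * j : ℕ) : ℝ) ≤ q * R := by exact_mod_cast Nat.mul_le_mul_left _ hj.le
    linarith
  refine (sum_le_sum h4).trans (le_of_eq ?_)
  rw [sum_const, card_range, nsmul_eq_mul]
  ring

lemma AV_U1 (l : List (ℕ × ℕ)) (x : Al) (hx : U1 x) : U1 (AV l x) := by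
  induction l with
  | nil => exact hx
  | cons p l ih => exact ih.av _ _

lemma EN_AV (X N : ℕ) (l : List (ℕ × ℕ)) (hl : ∀ p ∈ l, 1 ≤ p.2) (x : Al) (hx : U1 x) :
    EN X N (AV l x) ≤ EN X N x + 2 * ((l.map fun p => p.1 * p.2).sum : ℕ) / N := by
  induction l with
  | nil =>
    show EN X N x ≤ _
    simp
  | cons p l ih =>
    have h1 := ih fun q hq => hl q (List.mem_cons_of_mem _ hq)
    have h2 := (abs_le.mp (EN_av X N p.1 p.2 (hl p List.mem_cons_self) (AV l x) (AV_U1 l x hx))).2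
    show EN X N (av p.1 p.2 (AV l x)) ≤ _
    rw [List.map_cons, List.sum_cons]
    have h3 : 2 * ((p.1 * p.2 + (l.map fun p => p.1 * p.2).sum : ℕ) : ℝ) / N = 2 * (p.1 * p.2) / N +
        2 * ((l.map fun p => p.1 * p.2).sum : ℕ) / N := by
      push_cast
      ring
    rw [h3]
    linarith

/-- limits of averages over intervals -/
theorem exists_Mn (X N : ℕ → ℕ) (hN : ∀ i, i + 1 ≤ N i) : ∃ m : Mn, ∀ x, Tendsto (fun i => EN (X i) (N i) x)
    (hyperfilter ℕ : Ultrafilter ℕ) (𝓝 (m.M x)) := by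
  have h1 : ∀ x : Al, ∃ r : ℝ, Tendsto (fun i => EN (X i) (N i) x) (hyperfilter ℕ : Ultrafilter ℕ) (𝓝 r) := by
    intro x
    have h2 : (((hyperfilter ℕ : Ultrafilter ℕ).map (fun i => EN (X i) (N i) x) : Ultrafilter ℝ) : Filter ℝ) ≤
        𝓟 (Set.Icc (-‖x‖) ‖x‖) := by
      rw [le_principal_iff, Ultrafilter.coe_map, Filter.mem_map]
      exact Filter.univ_mem' fun i => abs_le.mp (EN_bdd (X i) (N i) x)
    obtain ⟨r, _, hr⟩ := isCompact_Icc.ultrafilter_le_nhds _ h2
    exact ⟨r, hr⟩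
  choose M hM using h1
  have hne : (hyperfilter ℕ : Filter ℕ).NeBot := inferInstance
  have hle : ((hyperfilter ℕ : Ultrafilter ℕ) : Filter ℕ) ≤ atTop := by
    rw [← Nat.cofinite_eq_atTop]
    exact hyperfilter_le_cofinite
  refine ⟨⟨⟨⟨M, fun x y => ?_⟩, fun r x => ?_⟩, ?_, ?_, ?_⟩, hM⟩
  · refine tendsto_nhds_unique (hM (x + y)) ?_
    have := (hM x).add (hM y)
    refine this.congr fun i => ?_
    rw [map_add]
  · refine tendsto_nhds_unique (hM (r • x)) ?_
    have := (hM x).const_mul r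
    refine this.congr fun i => ?_
    rw [map_smul, smul_eq_mul]
  · intro x hx
    refine ge_of_tendsto' (hM x) fun i => ?_
    rw [EN_apply]
    exact div_nonneg (sum_nonneg fun n _ => hx _) (Nat.cast_nonneg _)
  · refine tendsto_nhds_unique (hM 1) ?_
    refine tendsto_const_nhds.congr fun i => ?_
    rw [EN_apply]
    have : (0 : ℝ) < N i := by exact_mod_cast (Nat.succ_pos i).trans_le (hN i)
    simp only [BoundedContinuousFunction.coe_one, Pi.one_apply, sum_const, card_range, nsmul_eq_mul, mul_one]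
    rw [div_self this.ne']
  · intro x
    refine tendsto_nhds_unique (hM (sh 1 x)) ?_
    have h3 : Tendsto (fun i => EN (X i) (N i) (sh 1 x) - EN (X i) (N i) x) (hyperfilter ℕ : Ultrafilter ℕ) (𝓝 0) := by
      have h4 : Tendsto (fun i : ℕ => 2 * ‖x‖ * (1 / ((i : ℝ) + 1))) (hyperfilter ℕ : Ultrafilter ℕ) (𝓝 0) := by
        have := (tendsto_one_div_add_atTop_nhds_zero_nat (𝕜 := ℝ)).const_mul (2 * ‖x‖)
        rw [mul_zero] at this
        exact this.mono_left hle
      refine squeeze_zero_norm (fun i => ?_) h4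
      rw [Real.norm_eq_abs]
      refine (EN_sh (X i) (N i) 1 x ‖x‖ (fun n => x.norm_coe_le_norm n)).trans ?_
      have h5 : ((i : ℝ) + 1) ≤ N i := by exact_mod_cast hN i
      have h6 : (0 : ℝ) < (i : ℝ) + 1 := by positivity
      rw [mul_one_div]
      push_cast
      rw [mul_one]
      exact div_le_div_of_nonneg_left (by positivity) h6 h5
    have h7 := h3.add (hM x)
    rw [zero_add] at h7
    refine h7.congr fun i => ?_
    ring

/-- the moments over intervals -/
theorem fin_mom (f : Al) (hf : U1 f) (hs : SA f) (j κ Q A : ℕ) (hκ : 1 ≤ κ) (hQ : 1 ≤ Q) (ε : ℝ) (hε : 0 < ε) :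
    ∃ H : ℕ, 1 ≤ H ∧ ∃ N₀ : ℕ, ∀ N, N₀ ≤ N → ∀ X, X ≤ A * N →
      EN X N (Fam (List.replicate j (Q, H)) (pw (2 * κ) Q H) f) ≤ ck j κ + ε := by
  by_contra hcon
  push Not at hcon
  choose N hN X hX hb using fun i : ℕ => hcon (i + 1) (by omega) ((i + 1) ^ 2)
  have hN1 : ∀ i, i + 1 ≤ N i := fun i => le_trans (by nlinarith) (hN i)
  obtain ⟨m, hm⟩ := exists_Mn X N hN1
  have hle : ((hyperfilter ℕ : Ultrafilter ℕ) : Filter ℕ) ≤ atTop := by
    rw [← Nat.cofinite_eq_atTop]
    exact hyperfilter_le_cofinite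
  have h0 : ∀ Q, 1 ≤ Q → m.V 1 Q f ≤ 0 := by
    intro Q hQ
    refine le_of_forall_pos_le_add fun δ hδ => ?_
    obtain ⟨L, hL, X₀, h1⟩ := hs (δ / (A + 1)) (by positivity) Q
    refine (m.V_le_a' 1 Q L hL f).trans ?_
    refine le_of_tendsto (hm _) ?_
    have h2 : ∀ᶠ i in ((hyperfilter ℕ : Ultrafilter ℕ) : Filter ℕ), X₀ ≤ i := hle (eventually_ge_atTop X₀)
    filter_upwards [h2] with i hi
    have hNi : (0 : ℝ) < N i := by exact_mod_cast (Nat.succ_pos i).trans_le (hN1 i)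
    have hL0 : (0 : ℝ) < L := by exact_mod_cast hL
    have h3 := h1 (X i + N i) (by have := hN1 i; omega) Q (mem_Icc.mpr ⟨hQ, le_rfl⟩)
    rw [EN_apply, zero_add, div_le_iff₀ hNi]
    have h4 : ∀ n, ((av Q L f) ^ (2 * 1)) n ≤ |∑ j ∈ range L, f (n + Q * j)| / L := by
      intro n
      show (av Q L f n) ^ (2 * 1) ≤ _
      rw [mul_one, ← sq_abs]
      have h5 := hf.av Q L n
      have h6 : |av Q L f n| = |∑ j ∈ range L, f (n + Q * j)| / L := by
        rw [av_apply, abs_div, abs_of_pos hL0]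
      rw [← h6]
      nlinarith [abs_nonneg (av Q L f n)]
    calc ∑ n ∈ range (N i), ((av Q L f) ^ (2 * 1)) (X i + n)
        ≤ ∑ n ∈ range (N i), |∑ j ∈ range L, f (X i + n + Q * j)| / L := sum_le_sum fun n _ => h4 _
      _ = (∑ n ∈ range (N i), |∑ j ∈ range L, f (X i + n + Q * j)|) / L := by rw [sum_div]
      _ ≤ (∑ n ∈ range (X i + N i), |∑ j ∈ range L, f (n + Q * j)|) / L := by
          refine div_le_div_of_nonneg_right ?_ hL0.le
          rw [sum_range_add]
          have : 0 ≤ ∑ n ∈ range (X i), |∑ j ∈ range L, f (n + Q * j)| := sum_nonneg fun _ _ => abs_nonneg _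
          linarith
      _ ≤ (δ / (A + 1) * L * (X i + N i : ℕ)) / L := div_le_div_of_nonneg_right h3 hL0.le
      _ = δ / (A + 1) * (X i + N i : ℕ) := by field_simp
      _ ≤ δ * N i := by
          have h7 : ((X i + N i : ℕ) : ℝ) ≤ (A + 1) * N i := by
            have := hX i
            have h8 : ((X i : ℕ) : ℝ) ≤ A * N i := by exact_mod_cast this
            push_cast
            linarith
          rw [div_mul_eq_mul_div, div_le_iff₀ (by positivity)]
          nlinarith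
  obtain ⟨H, hH, h1⟩ := mom_le m f hf h0 j κ Q hκ hQ (ε / 2) (by positivity)
  set G := Fam (List.replicate j (Q, H)) (pw (2 * κ) Q H) f with hG
  have hGU : U1 G := Fam_U1 _ _ (fun y hy => hy.pw _ _ _) f hf
  set C : ℝ := 4 * j * H + 4 * κ * H + 2 * (j + 1) * Q with hC
  have h2 : ∀ i, ck j κ + ε ≤ EN (X i) (N i) G + C * (1 / ((i : ℝ) + 1)) := by
    intro i
    have hi0 : (0 : ℝ) < (i : ℝ) + 1 := by positivity
    have hlen : (List.replicate j ((Q, i + 1) : ℕ × ℕ)).length = j := List.length_replicate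
    have h3 : List.Forall₂ (CR (4 * H / ((i : ℝ) + 1))) (List.replicate j (Q, i + 1)) (List.replicate j (Q, H)) := by
      have := f2_rep (CR (4 * H / ((i : ℝ) + 1))) (Q, i + 1) (List.replicate j (Q, H)) (fun r hr => by
        rw [List.eq_of_mem_replicate hr]
        refine ⟨Nat.le_add_left _ _, hH, 1, by rw [mul_one], ?_⟩
        push_cast
        rw [div_mul_cancel₀ _ hi0.ne', one_mul])
      rwa [List.length_replicate] at this
    have h4 := EN_mono_add (X i) (N i) ((Nat.succ_pos i).trans_le (hN1 i)) _ _ _ (fun n => by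
      have := cmp_all κ Q 1 (i + 1) H (by omega) hH _ _ _ h3 (fun p hp => by
        rw [List.eq_of_mem_replicate hp]; exact hH) f hf n
      rw [add_assoc, mul_one, ← hG] at this
      exact this)
    have h5 := EN_AV (X i) (N i) (List.replicate j (Q, i + 1)) (fun p hp => by
        rw [List.eq_of_mem_replicate hp]; exact Nat.le_add_left _ _) (av Q (i + 1) G) (hGU.av _ _)
    have h6 := (abs_le.mp (EN_av (X i) (N i) Q (i + 1) (by omega) G hGU)).2
    have hsum : ((List.replicate j ((Q, i + 1) : ℕ × ℕ)).map fun p => p.1 * p.2).sum = j * (Q * (i + 1)) := by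
      rw [List.map_replicate, List.sum_replicate, smul_eq_mul]
    rw [hsum] at h5
    rw [hlen] at h4
    have h7 := hb i
    have hNi : (((i : ℝ) + 1) ^ 2) ≤ N i := by exact_mod_cast hN i
    have h8 : 2 * ((j * (Q * (i + 1)) : ℕ) : ℝ) / N i + 2 * (Q * ((i + 1 : ℕ) : ℝ)) / N i ≤
        2 * (j + 1) * Q * (1 / ((i : ℝ) + 1)) := by
      rw [← add_div, mul_one_div]
      have h9 : 2 * ((j * (Q * (i + 1)) : ℕ) : ℝ) + 2 * (Q * ((i + 1 : ℕ) : ℝ)) = 2 * (j + 1) * Q * ((i : ℝ) + 1) := by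
        push_cast; ring
      rw [h9, div_le_div_iff₀ (lt_of_lt_of_le (by positivity) hNi) hi0]
      have h10 : 0 ≤ 2 * ((j : ℝ) + 1) * Q := by positivity
      calc 2 * ((j : ℝ) + 1) * Q * ((i : ℝ) + 1) * ((i : ℝ) + 1) = 2 * ((j : ℝ) + 1) * Q * ((i : ℝ) + 1) ^ 2 := by ring
        _ ≤ 2 * ((j : ℝ) + 1) * Q * N i := mul_le_mul_of_nonneg_left hNi h10
    have h11 : (j : ℝ) * (4 * H / ((i : ℝ) + 1)) + 4 * κ * (((1 : ℕ) : ℝ) * H) / ((i + 1 : ℕ) : ℝ) +
        2 * (j + 1) * Q * (1 / ((i : ℝ) + 1)) = C * (1 / ((i : ℝ) + 1)) := by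
      rw [hC]
      push_cast
      field_simp
    linarith
  have h3 : Tendsto (fun i : ℕ => EN (X i) (N i) G + C * (1 / ((i : ℝ) + 1))) (hyperfilter ℕ : Ultrafilter ℕ)
      (𝓝 (m.M G + C * 0)) := by
    refine (hm G).add ?_
    exact ((tendsto_one_div_add_atTop_nhds_zero_nat (𝕜 := ℝ)).const_mul C).mono_left hle
  have h4 := ge_of_tendsto' h3 h2
  linarith

end Pool.Agent.Q259.LU
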