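import Pool.Agent.Q259.LU.Ha

set_option autoImplicit false

/-!
# Mixed boxes
-/

namespace Pool.Agent.Q259.LU

open Finset

section
variable {E F : Type*} [AddCommGroup E] [Module ℝ E] [AddCommGroup F] [Module ℝ F]

/-- mixed boxes -/
noncomputable def mix (Φ : Al → E) : List (ℕ × ℕ) → (List Bool → Al) → E
  | [], G => Φ (G [])
  | p :: l, G => ((p.2 : ℝ) ^ 2)⁻¹ • ∑ s ∈ range p.2, ∑ s' ∈ range p.2,
      mix Φ l (fun b => sh (p.1 * s) (G (false :: b)) * sh (p.1 * s') (G (true :: b)))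

lemma mix_const (Φ : Al → E) (l : List (ℕ × ℕ)) (x : Al) : mix Φ l (fun _ => x) = Fam l Φ x := by
  induction l generalizing x with
  | nil => rfl
  | cons p l ih =>
    show ((p.2 : ℝ) ^ 2)⁻¹ • ∑ s ∈ range p.2, ∑ s' ∈ range p.2,
      mix Φ l (fun _ => sh (p.1 * s) x * sh (p.1 * s') x) = _
    simp only [ih]
    rfl

lemma mix_map (L : E →ₗ[ℝ] F) (Φ : Al → E) (l : List (ℕ × ℕ)) (G : List Bool → Al) :
    L (mix Φ l G) = mix (fun y => L (Φ y)) l G := by
  induction l generalizing G with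
  | nil => rfl
  | cons p l ih =>
    show L (((p.2 : ℝ) ^ 2)⁻¹ • ∑ s ∈ range p.2, ∑ s' ∈ range p.2, mix Φ l _) = _
    rw [map_smul, map_sum]
    simp only [map_sum, ih]
    rfl

lemma mix_smul (c : ℝ) (Φ : Al → E) (l : List (ℕ × ℕ)) (G : List Bool → Al) :
    mix (fun y => c • Φ y) l G = c • mix Φ l G :=
  (mix_map (LinearMap.lsmul ℝ E c) Φ l G).symm

lemma mix_add (Φ Ψ : Al → E) (l : List (ℕ × ℕ)) (G : List Bool → Al) :
    mix (fun y => Φ y + Ψ y) l G = mix Φ l G + mix Ψ l G := by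
  induction l generalizing G with
  | nil => rfl
  | cons p l ih =>
    show ((p.2 : ℝ) ^ 2)⁻¹ • ∑ s ∈ range p.2, ∑ s' ∈ range p.2, mix (fun y => Φ y + Ψ y) l _ = _
    simp only [ih, sum_add_distrib, smul_add]
    rfl

lemma mix_sum {ι : Type*} (s : Finset ι) (Φ : ι → Al → E) (l : List (ℕ × ℕ)) (G : List Bool → Al) :
    mix (fun y => ∑ i ∈ s, Φ i y) l G = ∑ i ∈ s, mix (Φ i) l G := by
  classical
  induction s using Finset.induction_on with
  | empty =>
    simp only [sum_empty]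
    have := mix_smul 0 (fun _ : Al => (0 : E)) l G
    simpa using this
  | insert a s ha ih =>
    simp only [sum_insert ha]
    rw [mix_add, ih]

end

lemma mix_zz {r : ℕ} (q : ℕ) (c : Fin r → ℕ) (l : List (ℕ × ℕ)) (G : List Bool → Al) :
    mix (zz q c) l G = mix (fun y => y) l (fun b => zz q c (G b)) := by
  induction l generalizing G with
  | nil => rfl
  | cons p l ih =>
    show ((p.2 : ℝ) ^ 2)⁻¹ • ∑ s ∈ range p.2, ∑ s' ∈ range p.2, mix (zz q c) l _ = _
    simp only [ih, zz_mul, zz_sh]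
    rfl

lemma mix_pw (r q L : ℕ) (l : List (ℕ × ℕ)) (G : List Bool → Al) : mix (pw r q L) l G =
    ((L : ℝ) ^ r)⁻¹ • ∑ c ∈ Fintype.piFinset (fun _ : Fin r => range L), mix (fun y => y) l (fun b => zz q c (G b)) := by
  have h1 : pw r q L = fun y => ((L : ℝ) ^ r)⁻¹ • ∑ c ∈ Fintype.piFinset (fun _ : Fin r => range L), zz q c y := by
    funext y; exact pw_eq r q L y
  rw [h1, mix_smul, mix_sum]
  congr 1
  exact sum_congr rfl fun c _ => mix_zz q c l G

/-- averages over the vertices -/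
noncomputable def vs : ℕ → (List Bool → ℝ) → ℝ
  | 0, φ => φ []
  | k + 1, φ => (vs k (fun b => φ (false :: b)) + vs k (fun b => φ (true :: b))) / 2

lemma vs_mono (k : ℕ) (φ ψ : List Bool → ℝ) (h : ∀ b, φ b ≤ ψ b) : vs k φ ≤ vs k ψ := by
  induction k generalizing φ ψ with
  | zero => exact h _
  | succ k ih =>
    show (vs k _ + vs k _) / 2 ≤ (vs k _ + vs k _) / 2
    have h1 := ih _ _ fun b => h (false :: b)
    have h2 := ih _ _ fun b => h (true :: b)
    linarith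

lemma vs_const (k : ℕ) (c : ℝ) : vs k (fun _ => c) = c := by
  induction k with
  | zero => rfl
  | succ k ih =>
    show (vs k _ + vs k _) / 2 = _
    rw [ih]; ring

lemma vs_add (k : ℕ) (φ ψ : List Bool → ℝ) : vs k (fun b => φ b + ψ b) = vs k φ + vs k ψ := by
  induction k generalizing φ ψ with
  | zero => rfl
  | succ k ih =>
    show (vs k _ + vs k _) / 2 = (vs k _ + vs k _) / 2 + (vs k _ + vs k _) / 2
    rw [ih, ih]; ring

lemma vs_mul (k : ℕ) (c : ℝ) (φ : List Bool → ℝ) : vs k (fun b => c * φ b) = c * vs k φ := by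
  induction k generalizing φ with
  | zero => rfl
  | succ k ih =>
    show (vs k _ + vs k _) / 2 = c * ((vs k _ + vs k _) / 2)
    rw [ih, ih]; ring

lemma vs_sum {ι : Type*} (k : ℕ) (s : Finset ι) (φ : ι → List Bool → ℝ) :
    vs k (fun b => ∑ i ∈ s, φ i b) = ∑ i ∈ s, vs k (φ i) := by
  classical
  induction s using Finset.induction_on with
  | empty => simp only [sum_empty]; exact vs_const k 0
  | insert a s ha ih =>
    simp only [sum_insert ha]
    rw [vs_add, ih]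

lemma vs_succ' (k : ℕ) (φ : List Bool → ℝ) :
    vs (k + 1) φ = vs k (fun b => (φ (false :: b) + φ (true :: b)) / 2) := by
  show (vs k _ + vs k _) / 2 = _
  have : (fun b => (φ (false :: b) + φ (true :: b)) / 2) = fun b => (1 / 2 : ℝ) * (φ (false :: b) + φ (true :: b)) := by
    funext b; ring
  rw [this, vs_mul, vs_add]
  ring

/-- families of derivatives of two functions -/
noncomputable def F2 (Φ : Al → Al → ℝ) : List (ℕ × ℕ) → Al → Al → ℝ
  | [], x, y => Φ x y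
  | p :: l, x, y => ((p.2 : ℝ) ^ 2)⁻¹ * ∑ s ∈ range p.2, ∑ s' ∈ range p.2,
      F2 Φ l (dv (p.1 * s) (p.1 * s') x) (dv (p.1 * s) (p.1 * s') y)

lemma F2_bx (l : List (ℕ × ℕ)) (c c' : ℕ) (x y : Al) (n : ℕ) :
    bx l (sh c x * sh c' y) n = F2 (fun X Y => X (n + c) * Y (n + c')) l x y := by
  induction l generalizing x y with
  | nil => rfl
  | cons p l ih =>
    have h1 : bx (p :: l) (sh c x * sh c' y) n = ((p.2 : ℝ) ^ 2)⁻¹ * ∑ s ∈ range p.2, ∑ s' ∈ range p.2,
        bx l (dv (p.1 * s) (p.1 * s') (sh c x * sh c' y)) n := by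
      have : (∑ s ∈ range p.2, ∑ s' ∈ range p.2, bx l (dv (p.1 * s) (p.1 * s') (sh c x * sh c' y))) n =
        ∑ s ∈ range p.2, ∑ s' ∈ range p.2, bx l (dv (p.1 * s) (p.1 * s') (sh c x * sh c' y)) n := by
        rw [sum_apply]
        exact sum_congr rfl fun s _ => by rw [sum_apply]
      rw [← this]
      rfl
    have h2 : ∀ s s', dv (p.1 * s) (p.1 * s') (sh c x * sh c' y) =
        sh c (dv (p.1 * s) (p.1 * s') x) * sh c' (dv (p.1 * s) (p.1 * s') y) := by
      intro s s'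
      unfold dv
      simp only [sh_mul, sh_sh]
      rw [add_comm c, add_comm c, add_comm c', add_comm c']
      ring
    rw [h1]
    simp only [h2, ih]
    rfl

lemma F2_mul (l : List (ℕ × ℕ)) (c : ℝ) (Φ : Al → Al → ℝ) (x y : Al) :
    F2 (fun X Y => c * Φ X Y) l x y = c * F2 Φ l x y := by
  induction l generalizing x y with
  | nil => rfl
  | cons p l ih =>
    show ((p.2 : ℝ) ^ 2)⁻¹ * ∑ s ∈ range p.2, ∑ s' ∈ range p.2, F2 (fun X Y => c * Φ X Y) l _ _ =
      c * (((p.2 : ℝ) ^ 2)⁻¹ * ∑ s ∈ range p.2, ∑ s' ∈ range p.2, F2 Φ l _ _)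
    simp only [ih, ← mul_sum]
    ring

lemma F2_add (l : List (ℕ × ℕ)) (Φ Ψ : Al → Al → ℝ) (x y : Al) :
    F2 (fun X Y => Φ X Y + Ψ X Y) l x y = F2 Φ l x y + F2 Ψ l x y := by
  induction l generalizing x y with
  | nil => rfl
  | cons p l ih =>
    show ((p.2 : ℝ) ^ 2)⁻¹ * ∑ s ∈ range p.2, ∑ s' ∈ range p.2, F2 (fun X Y => Φ X Y + Ψ X Y) l _ _ =
      ((p.2 : ℝ) ^ 2)⁻¹ * ∑ s ∈ range p.2, ∑ s' ∈ range p.2, F2 Φ l _ _ +
      ((p.2 : ℝ) ^ 2)⁻¹ * ∑ s ∈ range p.2, ∑ s' ∈ range p.2, F2 Ψ l _ _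
    simp only [ih, sum_add_distrib]
    ring

lemma F2_sum {ι : Type*} (l : List (ℕ × ℕ)) (s : Finset ι) (Φ : ι → Al → Al → ℝ) (x y : Al) :
    F2 (fun X Y => ∑ i ∈ s, Φ i X Y) l x y = ∑ i ∈ s, F2 (Φ i) l x y := by
  classical
  induction s using Finset.induction_on with
  | empty =>
    simp only [sum_empty]
    have := F2_mul l 0 (fun _ _ => 0) x y
    simpa using this
  | insert a s ha ih =>
    simp only [sum_insert ha]
    rw [F2_add, ih]

lemma F2_left (l : List (ℕ × ℕ)) (Φ : Al → ℝ) (x y : Al) : F2 (fun X _ => Φ X) l x y = Fam l Φ x := by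
  induction l generalizing x y with
  | nil => rfl
  | cons p l ih =>
    show ((p.2 : ℝ) ^ 2)⁻¹ * ∑ s ∈ range p.2, ∑ s' ∈ range p.2, F2 (fun X _ => Φ X) l _ _ = _
    simp only [ih]
    rfl

lemma F2_right (l : List (ℕ × ℕ)) (Φ : Al → ℝ) (x y : Al) : F2 (fun _ Y => Φ Y) l x y = Fam l Φ y := by
  induction l generalizing x y with
  | nil => rfl
  | cons p l ih =>
    show ((p.2 : ℝ) ^ 2)⁻¹ * ∑ s ∈ range p.2, ∑ s' ∈ range p.2, F2 (fun _ Y => Φ Y) l _ _ = _
    simp only [ih]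
    rfl

lemma F2_le (l : List (ℕ × ℕ)) (Φ Ψ : Al → Al → ℝ) (h : ∀ X Y, Φ X Y ≤ Ψ X Y) (x y : Al) :
    F2 Φ l x y ≤ F2 Ψ l x y := by
  induction l generalizing x y with
  | nil => exact h _ _
  | cons p l ih =>
    show ((p.2 : ℝ) ^ 2)⁻¹ * ∑ s ∈ range p.2, ∑ s' ∈ range p.2, F2 Φ l _ _ ≤
      ((p.2 : ℝ) ^ 2)⁻¹ * ∑ s ∈ range p.2, ∑ s' ∈ range p.2, F2 Ψ l _ _
    exact mul_le_mul_of_nonneg_left (sum_le_sum fun s _ => sum_le_sum fun s' _ => ih _ _) (by positivity)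

/-- the inequality of the means in one direction -/
lemma gcs_one (p : ℕ × ℕ) (l : List (ℕ × ℕ)) (x y : Al) (n : ℕ) :
    ((p.2 : ℝ) ^ 2)⁻¹ * ∑ s ∈ range p.2, ∑ s' ∈ range p.2, bx l (sh (p.1 * s) x * sh (p.1 * s') y) n ≤
      (bx (p :: l) x n + bx (p :: l) y n) / 2 := by
  have h1 : ((p.2 : ℝ) ^ 2)⁻¹ * ∑ s ∈ range p.2, ∑ s' ∈ range p.2, bx l (sh (p.1 * s) x * sh (p.1 * s') y) n =
      F2 (fun X Y => av p.1 p.2 X n * av p.1 p.2 Y n) l x y := by
    have e1 : (fun X Y : Al => av p.1 p.2 X n * av p.1 p.2 Y n) = fun X Y => ((p.2 : ℝ) ^ 2)⁻¹ *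
        ∑ s ∈ range p.2, ∑ s' ∈ range p.2, X (n + p.1 * s) * Y (n + p.1 * s') := by
      funext X Y
      rw [av_apply, av_apply, div_mul_div_comm, sum_mul_sum, ← sq, div_eq_inv_mul]
    rw [e1, F2_mul, F2_sum]
    congr 1
    refine sum_congr rfl fun s _ => ?_
    rw [F2_sum]
    exact sum_congr rfl fun s' _ => F2_bx l _ _ x y n
  have h2 : ∀ z : Al, bx (p :: l) z n = Fam l (fun X => (av p.1 p.2 X n) ^ 2) z := by
    intro z
    have e1 : bx (p :: l) z = bx (l ++ [p]) z := bx_perm (by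
      have := List.perm_append_comm (l₁ := [p]) (l₂ := l)
      exact this) z
    rw [e1, bx_append]
    have e2 : (Fam l (bx [p]) z) n = Fam l (fun y => (bx [p] y) n) z := Fam_map (ev n) l (bx [p]) z
    rw [e2]
    congr 1
    funext X
    rw [bx_one]
    rfl
  have h3 := F2_le l (fun X Y => av p.1 p.2 X n * av p.1 p.2 Y n)
    (fun X Y => (1 / 2 : ℝ) * (av p.1 p.2 X n) ^ 2 + (1 / 2 : ℝ) * (av p.1 p.2 Y n) ^ 2)
    (fun X Y => by nlinarith [sq_nonneg (av p.1 p.2 X n - av p.1 p.2 Y n)]) x y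
  have e3 : F2 (fun X Y => (1 / 2 : ℝ) * (av p.1 p.2 X n) ^ 2 + (1 / 2 : ℝ) * (av p.1 p.2 Y n) ^ 2) l x y =
      1 / 2 * Fam l (fun X => (av p.1 p.2 X n) ^ 2) x + 1 / 2 * Fam l (fun X => (av p.1 p.2 X n) ^ 2) y := by
    rw [F2_add l (fun X _ => (1 / 2 : ℝ) * (av p.1 p.2 X n) ^ 2) (fun _ Y => (1 / 2 : ℝ) * (av p.1 p.2 Y n) ^ 2),
      F2_mul l (1 / 2) (fun X _ => (av p.1 p.2 X n) ^ 2), F2_mul l (1 / 2) (fun _ Y => (av p.1 p.2 Y n) ^ 2),
      F2_left l (fun X => (av p.1 p.2 X n) ^ 2), F2_right l (fun X => (av p.1 p.2 X n) ^ 2)]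
  rw [e3] at h3
  rw [h1, h2, h2]
  linarith

/-- the inequality of the means for boxes -/
theorem gcs (l : List (ℕ × ℕ)) (G : List Bool → Al) (n : ℕ) :
    mix (fun y => y) l G n ≤ vs l.length (fun b => bx l (G b) n) := by
  induction l generalizing G with
  | nil => exact le_rfl
  | cons p l ih =>
    have h1 : mix (fun y => y) (p :: l) G n = ((p.2 : ℝ) ^ 2)⁻¹ * ∑ s ∈ range p.2, ∑ s' ∈ range p.2,
        mix (fun y => y) l (fun b => sh (p.1 * s) (G (false :: b)) * sh (p.1 * s') (G (true :: b))) n := by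
      have : (∑ s ∈ range p.2, ∑ s' ∈ range p.2,
          mix (fun y => y) l (fun b => sh (p.1 * s) (G (false :: b)) * sh (p.1 * s') (G (true :: b)))) n =
        ∑ s ∈ range p.2, ∑ s' ∈ range p.2,
          mix (fun y => y) l (fun b => sh (p.1 * s) (G (false :: b)) * sh (p.1 * s') (G (true :: b))) n := by
        rw [sum_apply]
        exact sum_congr rfl fun s _ => by rw [sum_apply]
      rw [← this]
      rfl
    rw [h1]
    have h2 := mul_le_mul_of_nonneg_left (sum_le_sum fun s (_ : s ∈ range p.2) => sum_le_sum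
      fun s' (_ : s' ∈ range p.2) => ih (fun b => sh (p.1 * s) (G (false :: b)) * sh (p.1 * s') (G (true :: b))))
      (by positivity : (0 : ℝ) ≤ ((p.2 : ℝ) ^ 2)⁻¹)
    refine h2.trans ?_
    simp only [← vs_sum]
    rw [← vs_mul, List.length_cons, vs_succ']
    exact vs_mono _ _ _ fun b => gcs_one p l _ _ n

/-- the inequality of the means for moments over boxes -/
theorem gcs_pw (r q L : ℕ) (l : List (ℕ × ℕ)) (G : List Bool → Al) (n : ℕ) :
    mix (pw r q L) l G n ≤ vs l.length (fun b => Fam l (pw r q L) (G b) n) := by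
  have h1 : ∀ b, Fam l (pw r q L) (G b) n =
      ((L : ℝ) ^ r)⁻¹ * ∑ c ∈ Fintype.piFinset (fun _ : Fin r => range L), bx l (zz q c (G b)) n := by
    intro b
    rw [Fam_pw, ← sum_apply]
    rfl
  have h2 : mix (pw r q L) l G n = ((L : ℝ) ^ r)⁻¹ * ∑ c ∈ Fintype.piFinset (fun _ : Fin r => range L),
      mix (fun y => y) l (fun b => zz q c (G b)) n := by
    rw [mix_pw, ← sum_apply]
    rfl
  simp only [h1]
  rw [h2, vs_mul, vs_sum]
  exact mul_le_mul_of_nonneg_left (sum_le_sum fun c _ => gcs l _ n) (by positivity)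

end Pool.Agent.Q259.LU
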