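import Pool.Agent.Q259.LU.Hc

set_option autoImplicit false

/-!
# Residue classes
-/

namespace Pool.Agent.Q259.LU

open Finset

lemma sum_mul_range (Q T : ℕ) (g : ℕ → ℝ) :
    ∑ s ∈ range (Q * T), g s = ∑ r ∈ range Q, ∑ t ∈ range T, g (r + Q * t) := by
  induction T with
  | zero => simp
  | succ T ih =>
    rw [Nat.mul_succ, sum_range_add, ih, ← sum_add_distrib]
    refine sum_congr rfl fun r _ => ?_
    rw [sum_range_succ, add_comm (Q * T) r]

/-- shifts of the vertices -/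
def cs (a a' : ℕ) (c : List Bool → ℕ) : List Bool → ℕ
  | [] => 0
  | false :: b => a + c b
  | true :: b => a' + c b

/-- averages over residues -/
noncomputable def RV (Q : ℕ) : List (ℕ × ℕ) → ((List Bool → ℕ) → ℝ) → ℝ
  | [], Ψ => Ψ (fun _ => 0)
  | p :: l, Ψ => ((Q : ℝ) ^ 2)⁻¹ * ∑ r ∈ range Q, ∑ r' ∈ range Q, RV Q l (fun c => Ψ (cs (p.1 * r) (p.1 * r') c))

lemma RV_mul (Q : ℕ) (l : List (ℕ × ℕ)) (a : ℝ) (Ψ : (List Bool → ℕ) → ℝ) :
    RV Q l (fun c => a * Ψ c) = a * RV Q l Ψ := by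
  induction l generalizing Ψ with
  | nil => rfl
  | cons p l ih =>
    show ((Q : ℝ) ^ 2)⁻¹ * ∑ r ∈ range Q, ∑ r' ∈ range Q, RV Q l _ = a * (((Q : ℝ) ^ 2)⁻¹ *
      ∑ r ∈ range Q, ∑ r' ∈ range Q, RV Q l _)
    simp only [ih, ← mul_sum]
    ring

lemma RV_add (Q : ℕ) (l : List (ℕ × ℕ)) (Ψ Ψ' : (List Bool → ℕ) → ℝ) :
    RV Q l (fun c => Ψ c + Ψ' c) = RV Q l Ψ + RV Q l Ψ' := by
  induction l generalizing Ψ Ψ' with
  | nil => rfl
  | cons p l ih =>
    show ((Q : ℝ) ^ 2)⁻¹ * ∑ r ∈ range Q, ∑ r' ∈ range Q, RV Q l _ = ((Q : ℝ) ^ 2)⁻¹ *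
      ∑ r ∈ range Q, ∑ r' ∈ range Q, RV Q l _ + ((Q : ℝ) ^ 2)⁻¹ * ∑ r ∈ range Q, ∑ r' ∈ range Q, RV Q l _
    simp only [ih, sum_add_distrib]
    ring

lemma RV_zero (Q : ℕ) (l : List (ℕ × ℕ)) : RV Q l (fun _ => 0) = 0 := by
  have := RV_mul Q l 0 (fun _ => 0)
  simpa using this

lemma RV_sum {ι : Type*} (Q : ℕ) (l : List (ℕ × ℕ)) (s : Finset ι) (Ψ : ι → (List Bool → ℕ) → ℝ) :
    RV Q l (fun c => ∑ i ∈ s, Ψ i c) = ∑ i ∈ s, RV Q l (Ψ i) := by
  classical
  induction s using Finset.induction_on with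
  | empty => simp only [sum_empty]; exact RV_zero Q l
  | insert a s ha ih =>
    simp only [sum_insert ha]
    rw [RV_add, ih]

/-- the largest shift of a vertex -/
def rb (Q : ℕ) (l : List (ℕ × ℕ)) : ℕ := (l.map fun p => p.1 * Q).sum

lemma RV_mono (Q : ℕ) (l : List (ℕ × ℕ)) (Ψ Ψ' : (List Bool → ℕ) → ℝ)
    (h : ∀ c, (∀ b, c b ≤ rb Q l) → Ψ c ≤ Ψ' c) : RV Q l Ψ ≤ RV Q l Ψ' := by
  induction l generalizing Ψ Ψ' with
  | nil => exact h _ fun b => Nat.zero_le _
  | cons p l ih =>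
    refine mul_le_mul_of_nonneg_left (sum_le_sum fun r hr => sum_le_sum fun r' hr' => ih _ _ fun c hc => h _ ?_)
      (by positivity)
    rw [mem_range] at hr hr'
    have h1 : rb Q (p :: l) = p.1 * Q + rb Q l := rfl
    have h2 : p.1 * r ≤ p.1 * Q := Nat.mul_le_mul_left _ hr.le
    have h3 : p.1 * r' ≤ p.1 * Q := Nat.mul_le_mul_left _ hr'.le
    intro b
    rw [h1]
    rcases b with _ | ⟨_ | _, b⟩
    · exact Nat.zero_le _
    · exact Nat.add_le_add h2 (hc b)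
    · exact Nat.add_le_add h3 (hc b)

/-- sides multiplied by `Q` -/
def lS (Q : ℕ) (l : List (ℕ × ℕ)) : List (ℕ × ℕ) := l.map fun p => (p.1, Q * p.2)

/-- steps multiplied by `Q` -/
def lT (Q : ℕ) (l : List (ℕ × ℕ)) : List (ℕ × ℕ) := l.map fun p => (p.1 * Q, p.2)

lemma mix_split (Q : ℕ) (Φ : Al → ℝ) (l : List (ℕ × ℕ)) (G : List Bool → Al) :
    mix Φ (lS Q l) G = RV Q l (fun c => mix Φ (lT Q l) (fun b => sh (c b) (G b))) := by
  induction l generalizing G with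
  | nil =>
    show Φ (G []) = Φ (sh 0 (G []))
    rw [sh_zero]
  | cons p l ih =>
    have h1 : mix Φ (lS Q (p :: l)) G = (((Q * p.2 : ℕ) : ℝ) ^ 2)⁻¹ * ∑ s ∈ range (Q * p.2), ∑ s' ∈ range (Q * p.2),
        RV Q l (fun c => mix Φ (lT Q l) (fun b => sh (c b) (sh (p.1 * s) (G (false :: b)) *
          sh (p.1 * s') (G (true :: b))))) := by
      simp only [← ih]
      rfl
    have h2 : RV Q (p :: l) (fun c => mix Φ (lT Q (p :: l)) (fun b => sh (c b) (G b))) =
        ((Q : ℝ) ^ 2)⁻¹ * ∑ r ∈ range Q, ∑ r' ∈ range Q, RV Q l (fun c => ((p.2 : ℝ) ^ 2)⁻¹ * ∑ t ∈ range p.2,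
          ∑ t' ∈ range p.2, mix Φ (lT Q l) (fun b => sh (p.1 * Q * t) (sh (p.1 * r + c b) (G (false :: b))) *
            sh (p.1 * Q * t') (sh (p.1 * r' + c b) (G (true :: b))))) := rfl
    rw [h1, h2]
    simp only [RV_mul, RV_sum, ← mul_sum]
    rw [sum_mul_range Q p.2]
    simp only [sum_mul_range Q p.2]
    have h3 : (((Q * p.2 : ℕ) : ℝ) ^ 2)⁻¹ = ((Q : ℝ) ^ 2)⁻¹ * ((p.2 : ℝ) ^ 2)⁻¹ := by
      push_cast
      rw [mul_pow, mul_inv]
    rw [h3, mul_assoc]
    congr 2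
    refine sum_congr rfl fun r _ => ?_
    rw [sum_comm]
    refine sum_congr rfl fun r' _ => sum_congr rfl fun t _ => sum_congr rfl fun t' _ => ?_
    congr 1
    funext c
    congr 1
    funext b
    rw [sh_mul, sh_sh, sh_sh, sh_sh, sh_sh]
    congr 2
    · ring
    · ring

/-- products over the vertices -/
noncomputable def prA : ℕ → (List Bool → Al) → Al
  | 0, G => G []
  | k + 1, G => prA k (fun b => G (false :: b) * G (true :: b))

/-- periodicity -/
def Per (Q : ℕ) (x : Al) : Prop := ∀ n, x (n + Q) = x n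

lemma Per.sh {Q : ℕ} {x : Al} (h : Per Q x) (c : ℕ) : Per Q (sh c x) := by
  intro n
  rw [sh_apply, sh_apply, show n + Q + c = n + c + Q by ring]
  exact h _

lemma Per.mul {Q : ℕ} {x y : Al} (h : Per Q x) (h' : Per Q y) : Per Q (x * y) := by
  intro n
  rw [BoundedContinuousFunction.mul_apply, BoundedContinuousFunction.mul_apply, h, h']

lemma Per.add_mul {Q : ℕ} {x : Al} (h : Per Q x) (n k : ℕ) : x (n + Q * k) = x n := by
  induction k with
  | zero => simp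
  | succ k ih =>
    rw [show n + Q * (k + 1) = n + Q * k + Q by ring, h, ih]

lemma Per.sh_eq {Q : ℕ} {x : Al} (h : Per Q x) (c k : ℕ) : LU.sh (c * Q * k) x = x := by
  ext n
  rw [sh_apply, show c * Q * k = Q * (c * k) by ring]
  exact h.add_mul n _

lemma prA_per (Q k : ℕ) (G : List Bool → Al) (h : ∀ b, Per Q (G b)) : Per Q (prA k G) := by
  induction k generalizing G with
  | zero => exact h _
  | succ k ih => exact ih _ fun b => (h _).mul (h _)

lemma mix_per (Q : ℕ) (Φ : Al → ℝ) (l : List (ℕ × ℕ)) (hl : ∀ p ∈ l, 1 ≤ p.2) (G : List Bool → Al)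
    (h : ∀ b, Per Q (G b)) : mix Φ (lT Q l) G = Φ (prA l.length G) := by
  induction l generalizing G with
  | nil => rfl
  | cons p l ih =>
    have h1 : mix Φ (lT Q (p :: l)) G = ((p.2 : ℝ) ^ 2)⁻¹ * ∑ s ∈ range p.2, ∑ s' ∈ range p.2,
      mix Φ (lT Q l) (fun b => sh (p.1 * Q * s) (G (false :: b)) * sh (p.1 * Q * s') (G (true :: b))) := rfl
    have h2 : ∀ s s', mix Φ (lT Q l) (fun b => sh (p.1 * Q * s) (G (false :: b)) * sh (p.1 * Q * s') (G (true :: b))) =
        Φ (prA (l.length + 1) G) := by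
      intro s s'
      have e1 : (fun b => sh (p.1 * Q * s) (G (false :: b)) * sh (p.1 * Q * s') (G (true :: b))) =
          fun b => G (false :: b) * G (true :: b) := by
        funext b
        rw [(h _).sh_eq, (h _).sh_eq]
      rw [e1, ih (fun q hq => hl q (List.mem_cons_of_mem _ hq)) _ (fun b => (h _).mul (h _))]
      rfl
    rw [h1]
    simp only [h2, sum_const, card_range, nsmul_eq_mul]
    have : (0 : ℝ) < p.2 := by exact_mod_cast hl p List.mem_cons_self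
    rw [List.length_cons]
    field_simp

lemma mix_le (Q : ℕ) (Φ Ψ : Al → ℝ) (l : List (ℕ × ℕ)) (G W : List Bool → Al) (h : ∀ b, Per Q (W b))
    (hG : ∀ b n, |G b n| ≤ W b n) (hΦ : ∀ Y : Al, (∀ n, |Y n| ≤ prA l.length W n) → Φ Y ≤ Ψ Y) :
    mix Φ (lT Q l) G ≤ mix Ψ (lT Q l) G := by
  induction l generalizing G W with
  | nil => exact hΦ _ (hG _)
  | cons p l ih =>
    show ((p.2 : ℝ) ^ 2)⁻¹ * ∑ s ∈ range p.2, ∑ s' ∈ range p.2,
      mix Φ (lT Q l) (fun b => sh (p.1 * Q * s) (G (false :: b)) * sh (p.1 * Q * s') (G (true :: b))) ≤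
      ((p.2 : ℝ) ^ 2)⁻¹ * ∑ s ∈ range p.2, ∑ s' ∈ range p.2,
      mix Ψ (lT Q l) (fun b => sh (p.1 * Q * s) (G (false :: b)) * sh (p.1 * Q * s') (G (true :: b)))
    refine mul_le_mul_of_nonneg_left (sum_le_sum fun s _ => sum_le_sum fun s' _ =>
      ih _ (fun b => W (false :: b) * W (true :: b)) (fun b => (h _).mul (h _)) (fun b n => ?_) hΦ) (by positivity)
    rw [BoundedContinuousFunction.mul_apply, BoundedContinuousFunction.mul_apply, abs_mul]
    have h1 : |sh (p.1 * Q * s) (G (false :: b)) n| ≤ W (false :: b) n := by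
      rw [← (h (false :: b)).sh_eq p.1 s]
      exact hG _ _
    have h2 : |sh (p.1 * Q * s') (G (true :: b)) n| ≤ W (true :: b) n := by
      rw [← (h (true :: b)).sh_eq p.1 s']
      exact hG _ _
    exact mul_le_mul h1 h2 (abs_nonneg _) ((abs_nonneg _).trans h1)

/-- values zero and one -/
def ZO (x : Al) : Prop := ∀ n, x n = 0 ∨ x n = 1

lemma ZO.mul {x y : Al} (h : ZO x) (h' : ZO y) : ZO (x * y) := by
  intro n
  rw [BoundedContinuousFunction.mul_apply]
  rcases h n with h1 | h1 <;> rcases h' n with h2 | h2 <;> simp [h1, h2]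

lemma prA_ZO (k : ℕ) (G : List Bool → Al) (h : ∀ b, ZO (G b)) : ZO (prA k G) := by
  induction k generalizing G with
  | zero => exact h _
  | succ k ih => exact ih _ fun b => (h _).mul (h _)

lemma av_split (q Q L : ℕ) (hQ : 1 ≤ Q) (Y : Al) (n : ℕ) :
    av q (Q * L) Y n = (∑ r ∈ range Q, av (q * Q) L Y (n + q * r)) / Q := by
  have hQ0 : (Q : ℝ) ≠ 0 := by exact_mod_cast (show Q ≠ 0 by omega)
  rw [av_apply, sum_mul_range]
  simp only [av_apply]
  rw [← sum_div, div_div]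
  congr 1
  · refine sum_congr rfl fun r _ => sum_congr rfl fun t _ => ?_
    congr 1
    ring
  · push_cast; ring

lemma holder (q Q L κ : ℕ) (hQ : 1 ≤ Q) (hκ : 1 ≤ κ) (W Y : Al) (hW : Per Q W) (hZ : ZO W) (hY : ∀ n, |Y n| ≤ W n)
    (n : ℕ) : pw (2 * κ) q (Q * L) Y n ≤
      (av q Q W n) ^ (2 * κ - 1) * ((∑ r ∈ range Q, W (n + q * r) * pw (2 * κ) (q * Q) L Y (n + q * r)) / Q) := by
  have hQ0 : (0 : ℝ) < Q := by exact_mod_cast hQ
  have hx : ∀ m, W m = 0 → av (q * Q) L Y m = 0 := by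
    intro m hm
    rw [av_apply]
    have : ∀ j ∈ range L, Y (m + q * Q * j) = 0 := by
      intro j _
      have h1 := hY (m + q * Q * j)
      rw [show m + q * Q * j = m + Q * (q * j) by ring, hW.add_mul, hm] at h1
      rw [show m + q * Q * j = m + Q * (q * j) by ring]
      exact abs_nonpos_iff.mp h1
    rw [sum_eq_zero this, zero_div]
  have hW0 : ∀ m, 0 ≤ W m := fun m => by rcases hZ m with h | h <;> rw [h]; norm_num
  have hxW : ∀ m, av (q * Q) L Y m = W m * av (q * Q) L Y m := by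
    intro m
    rcases hZ m with h | h
    · rw [hx m h, mul_zero]
    · rw [h, one_mul]
  rw [pw_apply, av_split q Q L hQ, av_apply]
  set S := ∑ r ∈ range Q, W (n + q * r) with hS
  have hS0 : 0 ≤ S := sum_nonneg fun r _ => hW0 _
  rcases hS0.eq_or_lt with h0 | h0
  · have h1 : ∀ r ∈ range Q, W (n + q * r) = 0 :=
      (sum_eq_zero_iff_of_nonneg (fun r _ => hW0 (n + q * r))).mp h0.symm
    have h2 : ∑ r ∈ range Q, av (q * Q) L Y (n + q * r) = 0 := sum_eq_zero fun r hr => hx _ (h1 r hr)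
    rw [h2, zero_div, zero_pow (by omega)]
    have h3 : (∑ r ∈ range Q, W (n + q * r) * pw (2 * κ) (q * Q) L Y (n + q * r)) = 0 :=
      sum_eq_zero fun r hr => by rw [h1 r hr, zero_mul]
    rw [h3, zero_div, mul_zero]
  have h1 := Real.pow_arith_mean_le_arith_mean_pow_of_even (range Q) (fun r => W (n + q * r) / S)
    (fun r => av (q * Q) L Y (n + q * r)) (fun r _ => div_nonneg (hW0 _) h0.le)
    (by rw [← sum_div, ← hS, div_self h0.ne']) (n := 2 * κ) (even_two_mul κ)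
  have h2 : ∑ r ∈ range Q, W (n + q * r) / S * av (q * Q) L Y (n + q * r) =
      (∑ r ∈ range Q, av (q * Q) L Y (n + q * r)) / S := by
    rw [sum_div]
    refine sum_congr rfl fun r _ => ?_
    rw [hxW (n + q * r)]
    ring_nf
    rw [show W (n + q * r) ^ 2 = W (n + q * r) by rcases hZ (n + q * r) with h | h <;> rw [h] <;> norm_num]
  have h3 : ∑ r ∈ range Q, W (n + q * r) / S * (av (q * Q) L Y (n + q * r)) ^ (2 * κ) =
      (∑ r ∈ range Q, W (n + q * r) * pw (2 * κ) (q * Q) L Y (n + q * r)) / S := by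
    rw [sum_div]
    refine sum_congr rfl fun r _ => ?_
    rw [pw_apply]
    ring
  rw [h2, h3] at h1
  have h4 : (0 : ℝ) ≤ (S / Q) ^ (2 * κ) := by positivity
  have h5 := mul_le_mul_of_nonneg_left h1 h4
  rw [← mul_pow] at h5
  have h6 : S / Q * ((∑ r ∈ range Q, av (q * Q) L Y (n + q * r)) / S) =
      (∑ r ∈ range Q, av (q * Q) L Y (n + q * r)) / Q := by field_simp
  rw [h6] at h5
  refine h5.trans (le_of_eq ?_)
  obtain ⟨k, hk⟩ : ∃ k, 2 * κ = k + 1 := ⟨2 * κ - 1, by omega⟩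
  rw [show 2 * κ - 1 = k by omega, hk, pow_succ]
  field_simp

end Pool.Agent.Q259.LU
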