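import Pool.Agent.Q259.LU.Hd

set_option autoImplicit false

/-!
# The relative inequality
-/

namespace Pool.Agent.Q259.LU

open Finset

lemma av_sh (q L c : ℕ) (y : Al) : av q L (sh c y) = sh c (av q L y) := by
  ext n
  rw [av_apply, sh_apply, av_apply]
  congr 1
  refine sum_congr rfl fun j _ => ?_
  rw [sh_apply]
  congr 1
  ring

lemma dv_sh (a b c : ℕ) (x : Al) : dv a b (sh c x) = sh c (dv a b x) := by
  unfold dv
  rw [sh_mul, sh_sh, sh_sh, sh_sh, sh_sh, add_comm a, add_comm b]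

lemma Fam_sh (r q L c : ℕ) (l : List (ℕ × ℕ)) (x : Al) : Fam l (pw r q L) (sh c x) = sh c (Fam l (pw r q L) x) := by
  induction l generalizing x with
  | nil =>
    show pw r q L (sh c x) = sh c (pw r q L x)
    unfold pw
    rw [av_sh]
    rfl
  | cons p l ih =>
    show ((p.2 : ℝ) ^ 2)⁻¹ • ∑ s ∈ range p.2, ∑ s' ∈ range p.2, Fam l (pw r q L) _ =
      sh c (((p.2 : ℝ) ^ 2)⁻¹ • ∑ s ∈ range p.2, ∑ s' ∈ range p.2, Fam l (pw r q L) _)
    simp only [dv_sh, ih]
    ext n
    show ((p.2 : ℝ) ^ 2)⁻¹ * (∑ s ∈ range p.2, ∑ s' ∈ range p.2, sh c (Fam l (pw r q L) _)) n =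
      ((p.2 : ℝ) ^ 2)⁻¹ * (∑ s ∈ range p.2, ∑ s' ∈ range p.2, Fam l (pw r q L) _) (n + c)
    rw [sum_apply, sum_apply]
    simp only [sum_apply, sh_apply]

lemma Fam_ev (Φ : Al → Al) (l : List (ℕ × ℕ)) (x : Al) (n : ℕ) : Fam l Φ x n = mix (fun y => Φ y n) l (fun _ => x) := by
  rw [mix_const]
  exact Fam_map (ev n) l Φ x

/-- the product of the supports -/
noncomputable def Wc (w : Al) (k : ℕ) (c : List Bool → ℕ) : Al := prA k (fun b => sh (c b) w)

section
variable (u w : Al) (Q : ℕ) (hQ : 1 ≤ Q) (hw : Per Q w) (hz : ZO w) (hu : ∀ n, |u n| ≤ w n)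

include hw in
lemma Wc_per (k : ℕ) (c : List Bool → ℕ) : Per Q (Wc w k c) := prA_per Q k _ fun b => hw.sh _

include hz in
lemma Wc_ZO (k : ℕ) (c : List Bool → ℕ) : ZO (Wc w k c) := prA_ZO k _ fun b n => hz _

include hQ hw hz hu in
lemma ptw (κ q L : ℕ) (hκ : 1 ≤ κ) (l : List (ℕ × ℕ)) (n : ℕ) :
    Fam (lS Q l) (pw (2 * κ) q (Q * L)) u n ≤ RV Q l (fun c => (av q Q (Wc w l.length c) n) ^ (2 * κ - 1) *
      ((∑ r ∈ range Q, Wc w l.length c (n + q * r) * vs l.length (fun b => Fam (lT Q l) (pw (2 * κ) (q * Q) L) u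
        (n + q * r + c b))) / Q)) := by
  have hQ0 : (0 : ℝ) < Q := by exact_mod_cast hQ
  rw [Fam_ev, mix_split]
  refine RV_mono _ _ _ _ fun c _ => ?_
  have hW0 : ∀ m, 0 ≤ Wc w l.length c m := fun m => by
    rcases Wc_ZO w hz l.length c m with h | h <;> rw [h]; norm_num
  have h1 := mix_le Q (fun y => pw (2 * κ) q (Q * L) y n) (fun Y => (av q Q (Wc w l.length c) n) ^ (2 * κ - 1) *
    ((∑ r ∈ range Q, Wc w l.length c (n + q * r) * pw (2 * κ) (q * Q) L Y (n + q * r)) / Q)) l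
    (fun b => sh (c b) u) (fun b => sh (c b) w) (fun b => hw.sh _) (fun b n => hu _)
    (fun Y hY => holder q Q L κ hQ hκ _ Y (Wc_per w Q hw l.length c) (Wc_ZO w hz l.length c) hY n)
  refine h1.trans ?_
  have h2 : (fun Y => (av q Q (Wc w l.length c) n) ^ (2 * κ - 1) *
    ((∑ r ∈ range Q, Wc w l.length c (n + q * r) * pw (2 * κ) (q * Q) L Y (n + q * r)) / Q)) = fun Y =>
      ((av q Q (Wc w l.length c) n) ^ (2 * κ - 1) * (Q : ℝ)⁻¹) • ∑ r ∈ range Q,
        Wc w l.length c (n + q * r) • pw (2 * κ) (q * Q) L Y (n + q * r) := by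
    funext Y
    simp only [smul_eq_mul]
    rw [div_eq_inv_mul, mul_assoc]
  rw [h2, mix_smul, mix_sum]
  have h6 : ∀ r ∈ range Q, mix (fun Y => Wc w l.length c (n + q * r) • pw (2 * κ) (q * Q) L Y (n + q * r)) (lT Q l)
      (fun b => sh (c b) u) = Wc w l.length c (n + q * r) *
        mix (fun Y => pw (2 * κ) (q * Q) L Y (n + q * r)) (lT Q l) (fun b => sh (c b) u) :=
    fun r _ => mix_smul _ _ _ _
  rw [sum_congr rfl h6, smul_eq_mul, mul_assoc, ← div_eq_inv_mul]
  refine mul_le_mul_of_nonneg_left (div_le_div_of_nonneg_right (sum_le_sum fun r _ => mul_le_mul_of_nonneg_left ?_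
    (hW0 _)) hQ0.le) ?_
  · have h3 : mix (fun Y => pw (2 * κ) (q * Q) L Y (n + q * r)) (lT Q l) (fun b => sh (c b) u) =
        mix (pw (2 * κ) (q * Q) L) (lT Q l) (fun b => sh (c b) u) (n + q * r) :=
      (mix_map (ev (n + q * r)) (pw (2 * κ) (q * Q) L) (lT Q l) (fun b => sh (c b) u)).symm
    have h4 := gcs_pw (2 * κ) (q * Q) L (lT Q l) (fun b => sh (c b) u) (n + q * r)
    have h5 : (lT Q l).length = l.length := List.length_map _
    rw [h5] at h4
    simp only [Fam_sh, sh_apply] at h4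
    rw [h3]
    exact h4
  · refine pow_nonneg ?_ _
    rw [av_apply]
    exact div_nonneg (sum_nonneg fun _ _ => hW0 _) hQ0.le

include hQ hw in
lemma exw (κ q L : ℕ) (hL : 1 ≤ L) (l : List (ℕ × ℕ)) (hl : ∀ p ∈ l, 1 ≤ p.2) (n : ℕ) :
    Fam (lS Q l) (pw (2 * κ) q (Q * L)) w n = RV Q l (fun c => (av q Q (Wc w l.length c) n) ^ (2 * κ)) := by
  rw [Fam_ev, mix_split]
  congr 1
  funext c
  rw [mix_per Q _ l hl _ (fun b => hw.sh _)]
  have hL0 : (0 : ℝ) < L := by exact_mod_cast hL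
  have h1 : ∀ n, av (q * Q) L (Wc w l.length c) n = Wc w l.length c n := by
    intro n
    rw [av_apply]
    have : ∀ j ∈ range L, Wc w l.length c (n + q * Q * j) = Wc w l.length c n := by
      intro j _
      rw [show n + q * Q * j = n + Q * (q * j) by ring]
      exact (Wc_per w Q hw l.length c).add_mul n _
    rw [sum_congr rfl this, sum_const, card_range, nsmul_eq_mul]
    field_simp
  show (av q (Q * L) (Wc w l.length c) n) ^ (2 * κ) = _
  rw [av_split q Q L hQ, av_apply]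
  simp only [h1]

include hQ hw hz hu in
/-- the relative inequality, for the averages over intervals -/
theorem rel_one (κ q L : ℕ) (hκ : 1 ≤ κ) (hL : 1 ≤ L) (l : List (ℕ × ℕ)) (hl : ∀ p ∈ l, 1 ≤ p.2) (X N : ℕ) (β : ℝ)
    (hB : ∀ n₀, n₀ ≤ X + Q + q * Q + rb Q l →
      ∑ m ∈ range N, Fam (lT Q l) (pw (2 * κ) (q * Q) L) u (n₀ + Q * m) ≤ β * N) :
    ∑ n ∈ range (Q * N), Fam (lS Q l) (pw (2 * κ) q (Q * L)) u (X + n) ≤
      β * ∑ n ∈ range (Q * N), Fam (lS Q l) (pw (2 * κ) q (Q * L)) w (X + n) := by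
  have hQ0 : (0 : ℝ) < Q := by exact_mod_cast hQ
  rw [sum_mul_range Q N (fun n => Fam (lS Q l) (pw (2 * κ) q (Q * L)) u (X + n)),
    sum_mul_range Q N (fun n => Fam (lS Q l) (pw (2 * κ) q (Q * L)) w (X + n)), mul_sum]
  refine sum_le_sum fun a ha => ?_
  rw [mem_range] at ha
  have e1 : ∀ m, Fam (lS Q l) (pw (2 * κ) q (Q * L)) w (X + (a + Q * m)) =
      RV Q l (fun c => (av q Q (Wc w l.length c) (X + a)) ^ (2 * κ)) := by
    intro m
    rw [exw w Q hQ hw κ q L hL l hl]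
    congr 1
    funext c
    congr 1
    rw [av_apply, av_apply]
    congr 1
    refine sum_congr rfl fun j _ => ?_
    rw [show X + (a + Q * m) + q * j = X + a + q * j + Q * m by ring]
    exact (Wc_per w Q hw l.length c).add_mul _ _
  simp only [e1, sum_const, card_range, nsmul_eq_mul]
  have e2 : ∀ m ∈ range N, Fam (lS Q l) (pw (2 * κ) q (Q * L)) u (X + (a + Q * m)) ≤
      RV Q l (fun c => (av q Q (Wc w l.length c) (X + a)) ^ (2 * κ - 1) *
      ((∑ r ∈ range Q, Wc w l.length c (X + a + q * r) * vs l.length (fun b => Fam (lT Q l) (pw (2 * κ) (q * Q) L) u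
        (X + a + q * r + c b + Q * m))) / Q)) := by
    intro m _
    refine (ptw u w Q hQ hw hz hu κ q L hκ l _).trans (le_of_eq ?_)
    congr 1
    funext c
    have hP := Wc_per w Q hw l.length c
    have e3 : av q Q (Wc w l.length c) (X + (a + Q * m)) = av q Q (Wc w l.length c) (X + a) := by
      rw [av_apply, av_apply]
      congr 1
      refine sum_congr rfl fun j _ => ?_
      rw [show X + (a + Q * m) + q * j = X + a + q * j + Q * m by ring]
      exact hP.add_mul _ _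
    rw [e3]
    congr 2
    refine sum_congr rfl fun r _ => ?_
    have e4 : Wc w l.length c (X + (a + Q * m) + q * r) = Wc w l.length c (X + a + q * r) := by
      rw [show X + (a + Q * m) + q * r = X + a + q * r + Q * m by ring]
      exact hP.add_mul _ _
    rw [e4]
    congr 2
    funext b
    congr 1
    ring
  refine (sum_le_sum e2).trans ?_
  rw [← RV_sum]
  have e5 : β * ((N : ℝ) * RV Q l (fun c => (av q Q (Wc w l.length c) (X + a)) ^ (2 * κ))) =
      RV Q l (fun c => (β * N) * (av q Q (Wc w l.length c) (X + a)) ^ (2 * κ)) := by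
    rw [RV_mul]; ring
  rw [e5]
  refine RV_mono _ _ _ _ fun c hc => ?_
  have hW0 : ∀ m, 0 ≤ Wc w l.length c m := fun m => by
    rcases Wc_ZO w hz l.length c m with h | h <;> rw [h]; norm_num
  rw [← mul_sum, ← sum_div, sum_comm]
  have e6 : ∀ r ∈ range Q, ∑ m ∈ range N, Wc w l.length c (X + a + q * r) * vs l.length (fun b =>
      Fam (lT Q l) (pw (2 * κ) (q * Q) L) u (X + a + q * r + c b + Q * m)) ≤
      Wc w l.length c (X + a + q * r) * (β * N) := by
    intro r hr
    rw [mem_range] at hr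
    rw [← mul_sum, ← vs_sum]
    refine mul_le_mul_of_nonneg_left ?_ (hW0 _)
    rw [← vs_const l.length (β * N)]
    refine vs_mono _ _ _ fun b => hB _ ?_
    have h1 := hc b
    have h2 : q * r ≤ q * Q := Nat.mul_le_mul_left _ hr.le
    omega
  have hav0 : 0 ≤ av q Q (Wc w l.length c) (X + a) := by
    rw [av_apply]
    exact div_nonneg (sum_nonneg fun _ _ => hW0 _) hQ0.le
  refine (mul_le_mul_of_nonneg_left (div_le_div_of_nonneg_right (sum_le_sum e6) hQ0.le) (pow_nonneg hav0 _)).trans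
    (le_of_eq ?_)
  rw [← sum_mul]
  have e7 : (∑ r ∈ range Q, Wc w l.length c (X + a + q * r)) * (β * N) / Q =
      av q Q (Wc w l.length c) (X + a) * (β * N) := by
    rw [av_apply]
    field_simp
  rw [e7]
  obtain ⟨k, hk⟩ : ∃ k, 2 * κ = k + 1 := ⟨2 * κ - 1, by omega⟩
  rw [show 2 * κ - 1 = k by omega, hk, pow_succ]
  ring

end

end Pool.Agent.Q259.LU
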