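import Pool.Agent.Q259.LU.He
import Pool.Agent.Q259.LU.Hb

set_option autoImplicit false

/-!
# Boxes of arbitrary sides
-/

namespace Pool.Agent.Q259.LU

open Finset

/-! ### Rounding the sides -/

lemma av_round (q S S' : ℕ) (hS' : 1 ≤ S') (h : S' ≤ S) (y : Al) (hy : U1 y) (n : ℕ) :
    |av q S y n - av q S' y n| ≤ 2 * (S - S') / S := by
  have h0 : (0 : ℝ) < S' := by exact_mod_cast hS'
  have h1 : (S' : ℝ) ≤ S := by exact_mod_cast h
  have h2 : (0 : ℝ) < S := h0.trans_le h1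
  obtain ⟨T, rfl⟩ := Nat.exists_eq_add_of_le h
  rw [av_apply, av_apply, sum_range_add]
  set a := ∑ j ∈ range S', y (n + q * j) with ha
  set b := ∑ j ∈ range T, y (n + q * (S' + j)) with hb
  have ha' : |a| ≤ S' := (abs_sum_le_sum_abs _ _).trans ((sum_le_sum fun j _ => hy _).trans (le_of_eq (by simp)))
  have hb' : |b| ≤ T := (abs_sum_le_sum_abs _ _).trans ((sum_le_sum fun j _ => hy _).trans (le_of_eq (by simp)))
  push_cast at h2 ⊢
  have h3 : (a + b) / (S' + T) - a / S' = (b * S' - a * T) / ((S' + T) * S') := by field_simp; ring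
  rw [h3, abs_div, abs_of_pos (by positivity : (0 : ℝ) < (S' + T) * S'), div_le_div_iff₀ (by positivity) h2]
  have h4 : |b * S' - a * T| ≤ 2 * (T * S') := by
    have e1 : |b * S' - a * T| ≤ |b * S'| + |a * T| := abs_sub _ _
    rw [abs_mul, abs_mul, abs_of_pos h0, abs_of_nonneg (Nat.cast_nonneg T : (0 : ℝ) ≤ (T : ℝ))] at e1
    have e2 : |b| * S' ≤ T * S' := mul_le_mul_of_nonneg_right hb' h0.le
    have e3 : |a| * T ≤ S' * T := mul_le_mul_of_nonneg_right ha' (Nat.cast_nonneg _)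
    linarith
  have h5 := mul_le_mul_of_nonneg_right h4 h2.le
  nlinarith

/-- rounding one direction -/
def RR (η : ℝ) (p p' : ℕ × ℕ) : Prop := p.1 = p'.1 ∧ 1 ≤ p'.2 ∧ p'.2 ≤ p.2 ∧ 4 * ((p.2 : ℝ) - p'.2) ≤ η * p.2

lemma bx_front (p : ℕ × ℕ) (l : List (ℕ × ℕ)) (x : Al) (n : ℕ) :
    bx (p :: l) x n = Fam l (fun X => (av p.1 p.2 X n) ^ 2) x := by
  have e1 : bx (p :: l) x = bx (l ++ [p]) x := bx_perm (by
    have := List.perm_append_comm (l₁ := [p]) (l₂ := l)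
    exact this) x
  rw [e1, bx_append]
  have e2 : (Fam l (bx [p]) x) n = Fam l (fun y => (bx [p] y) n) x := Fam_map (ev n) l (bx [p]) x
  rw [e2]
  congr 1
  funext X
  rw [bx_one]
  rfl

lemma Fam_close (l : List (ℕ × ℕ)) (hl : ∀ p ∈ l, 1 ≤ p.2) (Φ Ψ : Al → ℝ) (η : ℝ) (h : ∀ y, U1 y → |Φ y - Ψ y| ≤ η)
    (x : Al) (hx : U1 x) : |Fam l Φ x - Fam l Ψ x| ≤ η := by
  rw [abs_le]
  constructor
  · have h1 := Fam_le l Ψ (fun y => Φ y + η) x (All_of l _ (fun y hy => by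
      have := (abs_le.mp (h y hy)).1
      linarith) x hx)
    rw [Fam_add, Fam_const l hl] at h1
    linarith
  · have h1 := Fam_le l Φ (fun y => Ψ y + η) x (All_of l _ (fun y hy => by
      have := (abs_le.mp (h y hy)).2
      linarith) x hx)
    rw [Fam_add, Fam_const l hl] at h1
    linarith

lemma bx_round_one (η : ℝ) (p p' : ℕ × ℕ) (h : RR η p p') (l : List (ℕ × ℕ)) (hl : ∀ p ∈ l, 1 ≤ p.2) (x : Al)
    (hx : U1 x) (n : ℕ) : |bx (p :: l) x n - bx (p' :: l) x n| ≤ η := by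
  obtain ⟨h1, h2, h3, h4⟩ := h
  rw [bx_front, bx_front]
  refine Fam_close l hl _ _ η (fun y hy => ?_) x hx
  have h5 := av_round p.1 p.2 p'.2 h2 h3 y hy n
  have h6 := pow_sub_le 2 _ _ (hy.av p.1 p.2 n) (hy.av p.1 p'.2 n)
  rw [← h1]
  have h7 : (0 : ℝ) < p.2 := by exact_mod_cast lt_of_lt_of_le h2 h3
  have h8 : 2 * (2 * ((p.2 : ℝ) - p'.2) / p.2) ≤ η := by
    rw [mul_div_assoc', div_le_iff₀ h7]
    linarith
  push_cast at h6
  linarith

lemma bx_round (η : ℝ) (l l' : List (ℕ × ℕ)) (h : List.Forall₂ (RR η) l l') : (∀ p ∈ l, 1 ≤ p.2) ∧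
    ∀ (t : List (ℕ × ℕ)), (∀ p ∈ t, 1 ≤ p.2) → ∀ x, U1 x → ∀ n, |bx (l ++ t) x n - bx (l' ++ t) x n| ≤ l.length * η := by
  induction h with
  | nil =>
    refine ⟨by simp, fun t _ x _ n => ?_⟩
    simp
  | @cons p r l l' hpr hll ih =>
    obtain ⟨ih1, ih2⟩ := ih
    refine ⟨?_, fun t ht x hx n => ?_⟩
    · intro q hq
      rw [List.mem_cons] at hq
      rcases hq with rfl | hq
      · exact hpr.2.1.trans hpr.2.2.1
      · exact ih1 q hq
    have h1 := bx_round_one η p r hpr (l ++ t) (by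
      intro q hq
      rw [List.mem_append] at hq
      rcases hq with hq | hq
      · exact ih1 q hq
      · exact ht q hq) x hx n
    have h2 : bx (r :: (l ++ t)) x = bx (l ++ (r :: t)) x := bx_perm List.perm_middle.symm x
    have h3 : bx (r :: (l' ++ t)) x = bx (l' ++ (r :: t)) x := bx_perm List.perm_middle.symm x
    have h4 := ih2 (r :: t) (by
      intro q hq
      rw [List.mem_cons] at hq
      rcases hq with rfl | hq
      · exact hpr.2.1
      · exact ht q hq) x hx n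
    rw [← h2, ← h3] at h4
    rw [List.cons_append, List.cons_append, List.length_cons]
    have h5 := abs_sub_le (bx (p :: (l ++ t)) x n) (bx (r :: (l ++ t)) x n) (bx (r :: (l' ++ t)) x n)
    push_cast
    linarith

lemma pw_round (r q L : ℕ) (hL : 1 ≤ L) (η : ℝ) (l l' : List (ℕ × ℕ)) (h : List.Forall₂ (RR η) l l') (x : Al)
    (hx : U1 x) (n : ℕ) : |Fam l (pw r q L) x n - Fam l' (pw r q L) x n| ≤ l.length * η := by
  have hL0 : (0 : ℝ) < (L : ℝ) ^ r := by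
    have : (0 : ℝ) < L := by exact_mod_cast hL
    positivity
  rw [Fam_pw, Fam_pw]
  show |((L : ℝ) ^ r)⁻¹ * (∑ c ∈ Fintype.piFinset (fun _ : Fin r => range L), bx l (zz q c x)) n -
    ((L : ℝ) ^ r)⁻¹ * (∑ c ∈ Fintype.piFinset (fun _ : Fin r => range L), bx l' (zz q c x)) n| ≤ _
  rw [sum_apply, sum_apply, ← mul_sub, ← sum_sub_distrib, abs_mul, abs_of_pos (inv_pos.mpr hL0)]
  have h1 : |∑ c ∈ Fintype.piFinset (fun _ : Fin r => range L), (bx l (zz q c x) n - bx l' (zz q c x) n)| ≤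
      (L : ℝ) ^ r * (l.length * η) := by
    have h0 : ∀ c ∈ Fintype.piFinset (fun _ : Fin r => range L), |bx l (zz q c x) n - bx l' (zz q c x) n| ≤
        l.length * η := by
      intro c _
      have := (bx_round η l l' h).2 [] (by simp) (zz q c x) (hx.zz q c) n
      rw [List.append_nil, List.append_nil] at this
      exact this
    refine (abs_sum_le_sum_abs _ _).trans ((sum_le_sum h0).trans (le_of_eq ?_))
    rw [sum_const, nsmul_eq_mul, piF_card]
  calc ((L : ℝ) ^ r)⁻¹ * _ ≤ ((L : ℝ) ^ r)⁻¹ * ((L : ℝ) ^ r * (l.length * η)) :=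
        mul_le_mul_of_nonneg_left h1 (inv_pos.mpr hL0).le
    _ = l.length * η := inv_mul_cancel_left₀ hL0.ne' _

lemma base_round (r q L L' : ℕ) (hL' : 1 ≤ L') (h : L' ≤ L) (l : List (ℕ × ℕ)) (hl : ∀ p ∈ l, 1 ≤ p.2) (x : Al)
    (hx : U1 x) (n : ℕ) : |Fam l (pw r q L) x n - Fam l (pw r q L') x n| ≤ r * (2 * (L - L') / L) := by
  have e1 : (Fam l (pw r q L) x) n = Fam l (fun y => pw r q L y n) x := Fam_map (ev n) l _ x
  have e2 : (Fam l (pw r q L') x) n = Fam l (fun y => pw r q L' y n) x := Fam_map (ev n) l _ x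
  rw [e1, e2]
  refine Fam_close l hl _ _ _ (fun y hy => ?_) x hx
  rw [pw_apply, pw_apply]
  exact (pow_sub_le r _ _ (hy.av q L n) (hy.av q L' n)).trans
    (mul_le_mul_of_nonneg_left (av_round q L L' hL' h y hy n) (Nat.cast_nonneg _))

/-! ### Residue classes -/

/-- restriction to a residue class -/
noncomputable def cl (Q ρ : ℕ) (u : Al) : Al := u.compContinuous ⟨fun m => ρ + Q * m, continuous_of_discreteTopology⟩

lemma cl_apply (Q ρ : ℕ) (u : Al) (m : ℕ) : cl Q ρ u m = u (ρ + Q * m) := rfl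

lemma cl_Fam (Q ρ r q L : ℕ) (l : List (ℕ × ℕ)) (u : Al) :
    Fam l (pw r q L) (cl Q ρ u) = cl Q ρ (Fam (lT Q l) (pw r (q * Q) L) u) := by
  induction l generalizing u with
  | nil =>
    ext m
    show (av q L (cl Q ρ u) m) ^ r = (av (q * Q) L u (ρ + Q * m)) ^ r
    congr 1
    rw [av_apply, av_apply]
    congr 1
    refine sum_congr rfl fun j _ => ?_
    rw [cl_apply]
    congr 1
    ring
  | cons p l ih =>
    have h1 : ∀ s s', dv (p.1 * s) (p.1 * s') (cl Q ρ u) = cl Q ρ (dv (p.1 * Q * s) (p.1 * Q * s') u) := by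
      intro s s'
      ext m
      show u (ρ + Q * (m + p.1 * s)) * u (ρ + Q * (m + p.1 * s')) =
        u (ρ + Q * m + p.1 * Q * s) * u (ρ + Q * m + p.1 * Q * s')
      congr 2 <;> ring
    have h2 : Fam (p :: l) (pw r q L) (cl Q ρ u) = ((p.2 : ℝ) ^ 2)⁻¹ • ∑ s ∈ range p.2, ∑ s' ∈ range p.2,
        cl Q ρ (Fam (lT Q l) (pw r (q * Q) L) (dv (p.1 * Q * s) (p.1 * Q * s') u)) := by
      simp only [← ih, ← h1]
      rfl
    rw [h2]
    ext m
    show ((p.2 : ℝ) ^ 2)⁻¹ * (∑ s ∈ range p.2, ∑ s' ∈ range p.2,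
        cl Q ρ (Fam (lT Q l) (pw r (q * Q) L) (dv (p.1 * Q * s) (p.1 * Q * s') u))) m =
      ((p.2 : ℝ) ^ 2)⁻¹ * (∑ s ∈ range p.2, ∑ s' ∈ range p.2,
        Fam (lT Q l) (pw r (q * Q) L) (dv (p.1 * Q * s) (p.1 * Q * s') u)) (ρ + Q * m)
    rw [sum_apply, sum_apply]
    simp only [sum_apply, cl_apply]

lemma cl_SA (Q ρ : ℕ) (hQ : 1 ≤ Q) (hρ : ρ < Q) (u : Al) (h : SA u) : SA (cl Q ρ u) := by
  intro ε hε R
  have hQ0 : (0 : ℝ) < Q := by exact_mod_cast hQ
  obtain ⟨L, hL, X₀, h1⟩ := h (ε / (2 * Q)) (by positivity) (R * Q)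
  refine ⟨L, hL, X₀ + 1, fun X hX q hq => ?_⟩
  rw [mem_Icc] at hq
  have h2 := h1 (Q * X + Q) (by nlinarith) (q * Q) (mem_Icc.mpr ⟨Nat.mul_pos hq.1 hQ, Nat.mul_le_mul_right _ hq.2⟩)
  have h3 : ∑ n ∈ range X, |∑ j ∈ range L, cl Q ρ u (n + q * j)| ≤
      ∑ n ∈ range (Q * X + Q), |∑ j ∈ range L, u (n + q * Q * j)| := by
    have e1 : ∀ n, ∑ j ∈ range L, cl Q ρ u (n + q * j) = ∑ j ∈ range L, u (ρ + Q * n + q * Q * j) := by
      intro n
      refine sum_congr rfl fun j _ => ?_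
      rw [cl_apply]
      congr 1
      ring
    simp only [e1]
    have e2 : ∑ n ∈ range X, |∑ j ∈ range L, u (ρ + Q * n + q * Q * j)| =
        ∑ n ∈ (range X).image (fun n => ρ + Q * n), |∑ j ∈ range L, u (n + q * Q * j)| := by
      rw [sum_image]
      intro a _ b _ hab
      simp only at hab
      have : Q * a = Q * b := by omega
      exact Nat.eq_of_mul_eq_mul_left hQ this
    rw [e2]
    refine sum_le_sum_of_subset_of_nonneg ?_ fun _ _ _ => abs_nonneg _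
    intro n hn
    rw [mem_image] at hn
    obtain ⟨a, ha, rfl⟩ := hn
    rw [mem_range] at ha ⊢
    nlinarith
  refine h3.trans (h2.trans ?_)
  have hX1 : (1 : ℝ) ≤ X := by exact_mod_cast (show 1 ≤ X by omega)
  have h4 : ((Q * X + Q : ℕ) : ℝ) ≤ 2 * Q * X := by push_cast; nlinarith
  have h5 : ε / (2 * Q) * L * (2 * Q * X) = ε * L * X := by field_simp
  rw [← h5]
  exact mul_le_mul_of_nonneg_left h4 (by positivity)

/-! ### Arbitrary sides -/

lemma EN_av' (X N q R C : ℕ) (hR : 1 ≤ R) (hN : 1 ≤ N) (hC : q * R ≤ C) (x : Al) (β : ℝ)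
    (h : ∀ c, c ≤ C → EN (X + c) N x ≤ β) : EN X N (av q R x) ≤ β := by
  have hR0 : (0 : ℝ) < R := by exact_mod_cast hR
  have h1 : EN X N (av q R x) = (∑ j ∈ range R, EN (X + q * j) N x) / R := by
    have e1 : EN X N (av q R x) = (∑ j ∈ range R, EN X N (sh (q * j) x)) / R := by
      show EN X N ((R : ℝ)⁻¹ • ∑ j ∈ range R, sh (q * j) x) = _
      rw [map_smul, map_sum, smul_eq_mul, div_eq_inv_mul]
    rw [e1]
    congr 1
    refine sum_congr rfl fun j _ => ?_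
    rw [EN_apply, EN_apply]
    congr 1
    refine sum_congr rfl fun n _ => ?_
    rw [sh_apply]
    congr 1
    ring
  rw [h1, div_le_iff₀ hR0]
  refine (sum_le_sum fun j hj => h (q * j) ?_).trans (le_of_eq ?_)
  · rw [mem_range] at hj
    exact (Nat.mul_le_mul_left _ hj.le).trans hC
  · rw [sum_const, card_range, nsmul_eq_mul]
    ring

lemma EN_AV' (N : ℕ) (hN : 1 ≤ N) (l : List (ℕ × ℕ)) (hl : ∀ p ∈ l, 1 ≤ p.2) (x : Al) (β : ℝ) : ∀ (X C : ℕ),
    (l.map fun p => p.1 * p.2).sum ≤ C → (∀ c, c ≤ C → EN (X + c) N x ≤ β) → EN X N (AV l x) ≤ β := by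
  induction l with
  | nil =>
    intro X C _ h
    have := h 0 (Nat.zero_le _)
    rwa [add_zero] at this
  | cons p l ih =>
    intro X C hC h
    rw [List.map_cons, List.sum_cons] at hC
    refine EN_av' X N p.1 p.2 (p.1 * p.2) (hl p List.mem_cons_self) hN le_rfl (AV l x) β fun c hc => ?_
    refine ih (fun q hq => hl q (List.mem_cons_of_mem _ hq)) (X + c) (C - p.1 * p.2) (by omega) fun c' hc' => ?_
    rw [add_assoc]
    exact h _ (by omega)

theorem fin_all (f : Al) (hf : U1 f) (hs : SA f) (j κ A : ℕ) (hκ : 1 ≤ κ) (ε : ℝ) (hε : 0 < ε) :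
    ∃ ℓ₀ : ℕ, ∀ (N q L X : ℕ) (l : List (ℕ × ℕ)), l.length = j → (∀ p ∈ l, 1 ≤ p.1 ∧ p.1 ≤ A ∧ ℓ₀ ≤ p.2 ∧ p.2 ≤ A * N) →
      1 ≤ q → q ≤ A → ℓ₀ ≤ L → L ≤ A * N → X ≤ A * N → ℓ₀ ≤ N →
        EN X N (Fam l (pw (2 * κ) q L) f) ≤ ck j κ + ε := by
  set Q := A.factorial with hQ
  have hQ1 : 1 ≤ Q := Nat.factorial_pos A
  obtain ⟨H, hH, N₀, h0⟩ := fin_mom f hf hs j κ Q (A + (j + 1) * A * A) hκ hQ1 (ε / 2) (by positivity)
  set η : ℝ := ε / (4 * (j + 1)) with hη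
  have hη0 : 0 < η := by positivity
  obtain ⟨T, hT⟩ := exists_nat_ge (4 * (Q * H) / η + 16 * κ * (Q * H) / ε)
  have hT1 : 4 * ((Q : ℝ) * H) ≤ η * T := by
    have e1 : 0 ≤ 16 * (κ : ℝ) * (Q * H) / ε := by positivity
    have e2 : 4 * ((Q : ℝ) * H) / η ≤ T := by linarith
    rw [div_le_iff₀ hη0] at e2
    linarith
  have hT2 : 16 * (κ : ℝ) * (Q * H) ≤ ε * T := by
    have e1 : 0 ≤ 4 * ((Q : ℝ) * H) / η := by positivity
    have e2 : 16 * (κ : ℝ) * (Q * H) / ε ≤ T := by linarith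
    rw [div_le_iff₀ hε] at e2
    linarith
  refine ⟨N₀ + T + 1, fun N q L X l hl hl1 hq1 hqA hL hLN hX hN => ?_⟩
  have hd : ∀ p : ℕ, 1 ≤ p → p ≤ A → ∃ d, Q = p * d ∧ d ≤ Q := by
    intro p hp hpA
    obtain ⟨d, hd⟩ := Nat.dvd_factorial (show 0 < p by omega) hpA
    refine ⟨d, hd, ?_⟩
    rw [hQ, hd]
    exact Nat.le_mul_of_pos_left _ hp
  have h1 : List.Forall₂ (CR η) l (List.replicate j (Q, H)) := by
    rw [← hl]
    refine f2_rep' _ _ _ fun p hp => ?_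
    obtain ⟨hp1, hp2, hp3, hp4⟩ := hl1 p hp
    obtain ⟨d, hd1, hd2⟩ := hd p.1 hp1 hp2
    refine ⟨by omega, hH, d, hd1, ?_⟩
    have e1 : (d : ℝ) * H ≤ Q * H := mul_le_mul_of_nonneg_right (by exact_mod_cast hd2) (Nat.cast_nonneg _)
    have e2 : (T : ℝ) ≤ p.2 := by exact_mod_cast (show T ≤ p.2 by omega)
    have e3 := mul_le_mul_of_nonneg_left e2 hη0.le
    show 4 * ((d : ℝ) * H) ≤ η * p.2
    linarith
  obtain ⟨d, hd1, hd2⟩ := hd q hq1 hqA
  set G := Fam (List.replicate j (Q, H)) (pw (2 * κ) Q H) f with hG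
  have h2 := EN_mono_add X N (by omega) _ _ _ (fun n => by
    have := cmp_all κ q d L H (by omega) hH η _ _ h1 (fun p hp => by
      rw [List.eq_of_mem_replicate hp]; exact hH) f hf n
    rw [add_assoc, ← hd1, ← hG] at this
    exact this)
  have hsum : (l.map fun p => p.1 * p.2).sum ≤ j * (A * (A * N)) := by
    have := List.sum_le_card_nsmul (l.map fun p => p.1 * p.2) (A * (A * N)) (by
      intro x hx
      rw [List.mem_map] at hx
      obtain ⟨p, hp, rfl⟩ := hx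
      obtain ⟨hp1, hp2, hp3, hp4⟩ := hl1 p hp
      exact Nat.mul_le_mul hp2 hp4)
    rw [List.length_map, hl, smul_eq_mul] at this
    exact this
  have h3 : EN X N (AV l (av q L G)) ≤ ck j κ + ε / 2 := by
    refine EN_AV' N (by omega) l (fun p hp => by have := (hl1 p hp).2.2.1; omega) _ _ X _ hsum fun c hc => ?_
    refine EN_av' (X + c) N q L (A * (A * N)) (by omega) (by omega) (Nat.mul_le_mul hqA hLN) G _ fun c' hc' => ?_
    refine h0 N (by omega) _ ?_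
    nlinarith
  rw [hl] at h2
  have h4 : (j : ℝ) * η ≤ ε / 4 := by
    rw [hη, mul_div_assoc', div_le_div_iff₀ (by positivity) (by positivity)]
    nlinarith
  have h5 : 4 * κ * (d * H) / (L : ℝ) ≤ ε / 4 := by
    have hL0 : (0 : ℝ) < L := by exact_mod_cast (show 0 < L by omega)
    rw [div_le_iff₀ hL0]
    have e1 : (d : ℝ) * H ≤ Q * H := mul_le_mul_of_nonneg_right (by exact_mod_cast hd2) (Nat.cast_nonneg _)
    have e2 : (T : ℝ) ≤ L := by exact_mod_cast (show T ≤ L by omega)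
    have e3 := mul_le_mul_of_nonneg_left e2 hε.le
    have e4 := mul_le_mul_of_nonneg_left e1 (by positivity : (0 : ℝ) ≤ 16 * κ)
    linarith
  linarith

end Pool.Agent.Q259.LU
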