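import Pool.Agent.Q259.LU.Hf

set_option autoImplicit false

/-!
# The relative theorem
-/

namespace Pool.Agent.Q259.LU

open Finset

lemma ck_nonneg (j κ : ℕ) : 0 ≤ ck j κ := by
  have h2 : (1 : ℝ) ≤ 2 ^ j := one_le_pow₀ (by norm_num)
  have hκ : (0 : ℝ) ≤ κ := Nat.cast_nonneg _
  unfold ck
  exact div_nonneg (by linarith) (by nlinarith)

lemma ck_le_one (j κ : ℕ) (hκ : 1 ≤ κ) : ck j κ ≤ 1 := by
  have h2 : (1 : ℝ) ≤ 2 ^ j := one_le_pow₀ (by norm_num)
  have hκ1 : (1 : ℝ) ≤ κ := by exact_mod_cast hκ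
  unfold ck
  rw [div_le_one (by nlinarith)]
  nlinarith

lemma f2_map {α β : Type*} (R : α → β → Prop) (g : α → β) (l : List α) (h : ∀ p ∈ l, R p (g p)) :
    List.Forall₂ R l (l.map g) := by
  induction l with
  | nil => exact List.Forall₂.nil
  | cons p l ih =>
    rw [List.map_cons]
    exact List.Forall₂.cons (h p List.mem_cons_self) (ih fun q hq => h q (List.mem_cons_of_mem _ hq))

lemma Fam_pw_nonneg (κ q L : ℕ) (l : List (ℕ × ℕ)) (x : Al) (hx : U1 x) (n : ℕ) : 0 ≤ Fam l (pw (2 * κ) q L) x n := by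
  have e1 : (Fam l (pw (2 * κ) q L) x) n = Fam l (fun y => pw (2 * κ) q L y n) x := Fam_map (ev n) l _ x
  rw [e1]
  have h1 := Fam_le l (fun _ => (0 : ℝ) * 0) (fun y => pw (2 * κ) q L y n) x (All_of l _ (fun y _ => by
    rw [zero_mul, pw_apply]
    exact (even_two_mul κ).pow_nonneg _) x hx)
  rw [Fam_mul, zero_mul] at h1
  exact h1

theorem rel (u w : Al) (Q : ℕ) (hQ : 1 ≤ Q) (hw : Per Q w) (hz : ZO w) (hu : ∀ n, |u n| ≤ w n) (hs : SA u)
    (j κ A : ℕ) (hκ : 1 ≤ κ) (ε : ℝ) (hε : 0 < ε) (hε1 : ε ≤ 1) :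
    ∃ ℓ₀ : ℕ, ∀ (N q L X : ℕ) (l : List (ℕ × ℕ)), l.length = j → (∀ p ∈ l, 1 ≤ p.1 ∧ p.1 ≤ A ∧ ℓ₀ ≤ p.2 ∧ p.2 ≤ A * N) →
      1 ≤ q → q ≤ A → ℓ₀ ≤ L → L ≤ A * N → X ≤ A * N → ℓ₀ ≤ N →
        ∑ n ∈ range N, Fam l (pw (2 * κ) q L) u (X + n) ≤
          ck j κ * ∑ n ∈ range N, Fam l (pw (2 * κ) q L) w (X + n) + ε * N := by
  have hQ0 : (0 : ℝ) < Q := by exact_mod_cast hQ
  have hw1 : U1 w := by
    intro n
    rcases hz n with h | h <;> rw [h] <;> simp
  have hu1 : U1 u := fun n => (hu n).trans ((le_abs_self _).trans (hw1 n))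
  set A' := (j + 4) * A + 4 with hA'
  have h0 : ∀ ρ, ∃ ℓ : ℕ, ρ < Q → ∀ (N q L X : ℕ) (l : List (ℕ × ℕ)), l.length = j →
      (∀ p ∈ l, 1 ≤ p.1 ∧ p.1 ≤ A' ∧ ℓ ≤ p.2 ∧ p.2 ≤ A' * N) → 1 ≤ q → q ≤ A' → ℓ ≤ L → L ≤ A' * N → X ≤ A' * N →
        ℓ ≤ N → EN X N (Fam l (pw (2 * κ) q L) (cl Q ρ u)) ≤ ck j κ + ε / 4 := by
    intro ρ
    rcases lt_or_ge ρ Q with h | h
    · obtain ⟨ℓ, hℓ⟩ := fin_all (cl Q ρ u) (fun n => hu1 _) (cl_SA Q ρ hQ h u hs) j κ A' hκ (ε / 4) (by positivity)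
      exact ⟨ℓ, fun _ => hℓ⟩
    · exact ⟨0, fun h' => absurd h' (by omega)⟩
  choose ℓ hℓ using h0
  set ℓs := ∑ ρ ∈ range Q, ℓ ρ with hℓs
  set η : ℝ := ε / (16 * (j + 1)) with hη
  have hη0 : 0 < η := by positivity
  obtain ⟨T, hT⟩ := exists_nat_ge (64 * Q * (j + 1 + κ) / ε)
  rw [div_le_iff₀ hε] at hT
  refine ⟨Q * (ℓs + 1) + T + 1, fun N q L X l hl hl1 hq1 hqA hL hLN hX hN => ?_⟩
  set N' := N / Q with hN'
  set L' := L / Q with hL'
  set l' := l.map (fun p => (p.1, p.2 / Q)) with hl'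
  have hdiv : ∀ a, Q * (ℓs + 1) + T + 1 ≤ a → ℓs + 1 ≤ a / Q := fun a ha => by
    rw [Nat.le_div_iff_mul_le (by omega), mul_comm]
    omega
  have hmod : ∀ a : ℕ, (a : ℝ) - ((Q * (a / Q) : ℕ) : ℝ) ≤ Q := fun a => by
    have e1 := Nat.div_add_mod a Q
    have e2 := Nat.mod_lt a (show 0 < Q by omega)
    have e3 : (a : ℝ) = ((Q * (a / Q) : ℕ) : ℝ) + (a % Q : ℕ) := by exact_mod_cast e1.symm
    have e4 : ((a % Q : ℕ) : ℝ) ≤ Q := by exact_mod_cast e2.le
    linarith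
  have hN'1 : ℓs + 1 ≤ N' := hdiv N hN
  have hL'1 : ℓs + 1 ≤ L' := hdiv L hL
  have hNN' : N ≤ 2 * Q * N' := by
    have e1 := Nat.div_add_mod N Q
    have e2 := Nat.mod_lt N (show 0 < Q by omega)
    have e3 : Q ≤ Q * N' := Nat.le_mul_of_pos_right _ (by omega)
    rw [← hN'] at e1
    nlinarith
  have hdN : ∀ a, a ≤ A * N → a / Q ≤ 2 * A * N' := fun a ha => by
    rw [Nat.div_le_iff_le_mul_add_pred (by omega)]
    have := Nat.mul_le_mul_left A hNN'
    calc a ≤ A * N := ha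
      _ ≤ A * (2 * Q * N') := this
      _ = Q * (2 * A * N') := by ring
      _ ≤ _ := Nat.le_add_right _ _
  have hl'1 : ∀ p ∈ l', 1 ≤ p.1 ∧ p.1 ≤ A ∧ ℓs + 1 ≤ p.2 ∧ p.2 ≤ 2 * A * N' := by
    intro p hp
    rw [hl', List.mem_map] at hp
    obtain ⟨p, hp, rfl⟩ := hp
    obtain ⟨h1, h2, h3, h4⟩ := hl1 p hp
    exact ⟨h1, h2, hdiv _ h3, hdN _ h4⟩
  have hl'len : l'.length = j := by rw [hl', List.length_map, hl]
  -- the relative inequality
  have h1 := rel_one u w Q hQ hw hz hu κ q L' hκ (by omega) l' (fun p hp => by have := (hl'1 p hp).2.2.1; omega) X N'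
    (ck j κ + ε / 4) (fun n₀ hn₀ => by
      have e1 : ∀ m, Fam (lT Q l') (pw (2 * κ) (q * Q) L') u (n₀ + Q * m) =
          Fam l' (pw (2 * κ) q L') (cl Q (n₀ % Q) u) (n₀ / Q + m) := by
        intro m
        rw [cl_Fam, cl_apply]
        congr 1
        have := Nat.div_add_mod n₀ Q
        rw [mul_add]
        omega
      simp only [e1]
      have hρ := Nat.mod_lt n₀ (show 0 < Q by omega)
      have hℓρ : ℓ (n₀ % Q) ≤ ℓs := single_le_sum (f := ℓ) (fun _ _ => Nat.zero_le _) (mem_range.mpr hρ)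
      have e2 : rb Q l' ≤ j * (A * Q) := by
        have := List.sum_le_card_nsmul (l'.map fun p => p.1 * Q) (A * Q) (by
          intro x hx
          rw [List.mem_map] at hx
          obtain ⟨p, hp, rfl⟩ := hx
          exact Nat.mul_le_mul_right _ (hl'1 p hp).2.1)
        rw [List.length_map, hl'len, smul_eq_mul] at this
        exact this
      have e3 : n₀ / Q ≤ A' * N' := by
        rw [Nat.div_le_iff_le_mul_add_pred (by omega)]
        have e4 : n₀ ≤ A * (2 * Q * N') + Q + A * Q + j * (A * Q) := by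
          have := Nat.mul_le_mul_left A hNN'
          have := Nat.mul_le_mul_right Q hqA
          omega
        have e5 : A * (2 * Q * N') + Q + A * Q + j * (A * Q) ≤ Q * (A' * N') := by
          have e6 : 1 ≤ N' := by omega
          calc A * (2 * Q * N') + Q + A * Q + j * (A * Q) ≤ A * (2 * Q * N') + Q * N' + A * Q * N' + j * (A * Q) * N' := by
                have f1 := Nat.le_mul_of_pos_right Q e6
                have f2 := Nat.le_mul_of_pos_right (A * Q) e6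
                have f3 := Nat.le_mul_of_pos_right (j * (A * Q)) e6
                omega
            _ ≤ Q * (A' * N') := by
                rw [hA']
                have : Q * (((j + 4) * A + 4) * N') = A * (2 * Q * N') + Q * N' + A * Q * N' + j * (A * Q) * N' +
                  (Q * (A * N') + 3 * (Q * N')) := by ring
                rw [this]
                exact Nat.le_add_right _ _
        omega
      have hAA : A ≤ A' := by rw [hA']; nlinarith
      have hAA2 : 2 * A ≤ A' := by rw [hA']; nlinarith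
      have h2A : 2 * A * N' ≤ A' * N' := Nat.mul_le_mul_right _ hAA2
      have e7 := hℓ (n₀ % Q) hρ N' q L' (n₀ / Q) l' hl'len (fun p hp => by
        obtain ⟨f1, f2, f3, f4⟩ := hl'1 p hp
        exact ⟨f1, f2.trans hAA, by omega, f4.trans h2A⟩) hq1 (hqA.trans hAA) (by omega) ((hdN L hLN).trans h2A) e3
        (by omega)
      rw [EN_apply, div_le_iff₀ (by exact_mod_cast (show 0 < N' by omega))] at e7
      exact e7)
  -- rounding
  set F : Al → ℕ → ℝ := fun x n => Fam l (pw (2 * κ) q L) x n with hF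
  set F' : Al → ℕ → ℝ := fun x n => Fam (lS Q l') (pw (2 * κ) q (Q * L')) x n with hF'
  have hLpos : (0 : ℝ) < L := by exact_mod_cast (show 0 < L by omega)
  have hclose : ∀ x, U1 x → ∀ n, |F x n - F' x n| ≤ ε / 8 := by
    intro x hx n
    have hlS : lS Q l' = l.map (fun p => (p.1, Q * (p.2 / Q))) := by
      rw [hl']
      unfold lS
      rw [List.map_map]
      rfl
    have f1 : List.Forall₂ (RR η) l (lS Q l') := by
      rw [hlS]
      refine f2_map _ _ _ fun p hp => ?_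
      obtain ⟨g1, g2, g3, g4⟩ := hl1 p hp
      have g5 := hdiv p.2 g3
      refine ⟨rfl, Nat.mul_pos hQ (by omega), Nat.mul_div_le _ _, ?_⟩
      show 4 * ((p.2 : ℝ) - ((Q * (p.2 / Q) : ℕ) : ℝ)) ≤ η * p.2
      have g6 := hmod p.2
      have g7 : (T : ℝ) ≤ p.2 := by exact_mod_cast (show T ≤ p.2 by omega)
      have g8 : 64 * (Q : ℝ) * (j + 1) ≤ p.2 * ε := by
        have : 0 ≤ 64 * (Q : ℝ) * κ := by positivity
        have g9 := mul_le_mul_of_nonneg_right g7 hε.le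
        nlinarith
      have g10 : 4 * (Q : ℝ) ≤ η * p.2 := by
        rw [hη, div_mul_eq_mul_div, le_div_iff₀ (by positivity)]
        nlinarith
      linarith
    have f2 := pw_round (2 * κ) q L (by omega) η l (lS Q l') f1 x hx n
    have f3 := base_round (2 * κ) q L (Q * L') (Nat.mul_pos hQ (by omega)) (Nat.mul_div_le _ _) (lS Q l') (fun p hp => by
      rw [hlS, List.mem_map] at hp
      obtain ⟨p, hp, rfl⟩ := hp
      exact Nat.mul_pos hQ (by have := hdiv p.2 (hl1 p hp).2.2.1; omega)) x hx n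
    rw [hl] at f2
    have f4 : (j : ℝ) * η ≤ ε / 16 := by
      rw [hη, mul_div_assoc', div_le_div_iff₀ (by positivity) (by positivity)]
      nlinarith
    have f5 : ((2 * κ : ℕ) : ℝ) * (2 * ((L : ℝ) - (Q * L' : ℕ)) / L) ≤ ε / 16 := by
      have g6 := hmod L
      have g7 : (T : ℝ) ≤ L := by exact_mod_cast (show T ≤ L by omega)
      have g8 : 64 * (Q : ℝ) * κ ≤ L * ε := by
        have : 0 ≤ 64 * (Q : ℝ) * (j + 1) := by positivity
        have g9 := mul_le_mul_of_nonneg_right g7 hε.le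
        nlinarith
      rw [mul_div_assoc', div_le_iff₀ hLpos]
      push_cast at g6 ⊢
      have hκ0 : (0 : ℝ) ≤ κ := Nat.cast_nonneg _
      nlinarith
    have f6 := abs_sub_le (F x n) (Fam (lS Q l') (pw (2 * κ) q L) x n) (F' x n)
    linarith
  have hF0 : ∀ x, U1 x → ∀ n, 0 ≤ F x n := fun x hx n => Fam_pw_nonneg κ q L l x hx n
  have hF1 : ∀ x, U1 x → ∀ n, F x n ≤ 1 := fun x hx n =>
    (abs_le.mp (Fam_U1 l _ (fun y hy => hy.pw _ _ _) x hx n)).2
  have hsplit : ∀ x, ∑ n ∈ range N, F x (X + n) = ∑ n ∈ range (Q * N'), F x (X + n) +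
      ∑ n ∈ range (N - Q * N'), F x (X + (Q * N' + n)) := by
    intro x
    have : N = Q * N' + (N - Q * N') := by
      have : Q * N' ≤ N := Nat.mul_div_le N Q
      omega
    conv_lhs => rw [this]
    rw [sum_range_add]
  have hrest : ∑ n ∈ range (N - Q * N'), F u (X + (Q * N' + n)) ≤ Q := by
    refine (sum_le_sum fun n _ => hF1 u hu1 _).trans ?_
    rw [sum_const, card_range, nsmul_eq_mul, mul_one]
    have h1 : Q * N' + N % Q = N := Nat.div_add_mod N Q
    have h2 := Nat.mod_lt N (show 0 < Q by omega)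
    exact_mod_cast (show N - Q * N' ≤ Q by omega)
  have hrestw : 0 ≤ ∑ n ∈ range (N - Q * N'), F w (X + (Q * N' + n)) := sum_nonneg fun n _ => hF0 w hw1 _
  have hQN : ((Q * N' : ℕ) : ℝ) ≤ N := by exact_mod_cast Nat.mul_div_le N Q
  have hQN0 : (0 : ℝ) ≤ ((Q * N' : ℕ) : ℝ) := Nat.cast_nonneg _
  have k1 : ∑ n ∈ range (Q * N'), F u (X + n) ≤ ∑ n ∈ range (Q * N'), F' u (X + n) + ((Q * N' : ℕ) : ℝ) * (ε / 8) := by
    have : ∑ n ∈ range (Q * N'), F u (X + n) ≤ ∑ n ∈ range (Q * N'), (F' u (X + n) + ε / 8) :=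
      sum_le_sum fun n _ => by have := (abs_le.mp (hclose u hu1 (X + n))).2; linarith
    rw [sum_add_distrib, sum_const, card_range, nsmul_eq_mul] at this
    exact this
  have k2 : ∑ n ∈ range (Q * N'), F' w (X + n) ≤ ∑ n ∈ range (Q * N'), F w (X + n) + ((Q * N' : ℕ) : ℝ) * (ε / 8) := by
    have : ∑ n ∈ range (Q * N'), F' w (X + n) ≤ ∑ n ∈ range (Q * N'), (F w (X + n) + ε / 8) :=
      sum_le_sum fun n _ => by have := (abs_le.mp (hclose w hw1 (X + n))).1; linarith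
    rw [sum_add_distrib, sum_const, card_range, nsmul_eq_mul] at this
    exact this
  have k3 : ∑ n ∈ range (Q * N'), F' u (X + n) ≤ (ck j κ + ε / 4) * ∑ n ∈ range (Q * N'), F' w (X + n) := h1
  have k4 : ∑ n ∈ range (Q * N'), F w (X + n) ≤ ((Q * N' : ℕ) : ℝ) := by
    refine (sum_le_sum fun n _ => hF1 w hw1 _).trans (le_of_eq ?_)
    rw [sum_const, card_range, nsmul_eq_mul, mul_one]
  have hc0 := ck_nonneg j κ
  have hc1 := ck_le_one j κ hκ
  have k5 := mul_le_mul_of_nonneg_left k2 (by positivity : 0 ≤ ck j κ + ε / 4)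
  have k6 : (Q : ℝ) ≤ ε / 64 * N := by
    have g7 : (T : ℝ) ≤ N := by exact_mod_cast (show T ≤ N by omega)
    have g9 := mul_le_mul_of_nonneg_right g7 hε.le
    have hκ1 : (1 : ℝ) ≤ κ := by exact_mod_cast hκ
    have hj0 : (0 : ℝ) ≤ j := Nat.cast_nonneg _
    nlinarith
  show ∑ n ∈ range N, F u (X + n) ≤ ck j κ * ∑ n ∈ range N, F w (X + n) + ε * N
  rw [hsplit u, hsplit w]
  have k7 : ε / 4 * ∑ n ∈ range (Q * N'), F w (X + n) ≤ ε / 4 * N :=
    mul_le_mul_of_nonneg_left (k4.trans hQN) (by positivity)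
  have k8 : (ck j κ + ε / 4) * (((Q * N' : ℕ) : ℝ) * (ε / 8)) ≤ (5 / 4) * (N * (ε / 8)) := by
    refine mul_le_mul (by linarith) (mul_le_mul_of_nonneg_right hQN (by positivity)) (by positivity) (by norm_num)
  have k9 : ((Q * N' : ℕ) : ℝ) * (ε / 8) ≤ N * (ε / 8) := mul_le_mul_of_nonneg_right hQN (by positivity)
  have k10 := mul_nonneg hc0 hrestw
  have hNpos : (0 : ℝ) ≤ ε * N := by positivity
  nlinarith

end Pool.Agent.Q259.LU
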