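import Pool.Agent.Q259.LU.Hg
import Pool.Agent.Q259.LU.Sqf

set_option autoImplicit false

/-!
# Limit periodic supports
-/

namespace Pool.Agent.Q259.LU

open Finset

/-- a comparison of linear size -/
noncomputable def La (q L : ℕ) : List (ℕ × ℕ) → (Al →ₗ[ℝ] Al)
  | [] => av q L
  | p :: l => (La q L l).comp ((2 : ℝ) • av p.1 p.2)

lemma La_mono (q L : ℕ) (l : List (ℕ × ℕ)) (x : Al) (h : ∀ n, 0 ≤ x n) (n : ℕ) : 0 ≤ La q L l x n := by
  induction l generalizing x n with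
  | nil =>
    show 0 ≤ av q L x n
    rw [av_apply]
    exact div_nonneg (sum_nonneg fun _ _ => h _) (Nat.cast_nonneg _)
  | cons p l ih =>
    refine ih _ (fun n => ?_) n
    show 0 ≤ (2 : ℝ) * av p.1 p.2 x n
    rw [av_apply]
    exact mul_nonneg zero_le_two (div_nonneg (sum_nonneg fun _ _ => h _) (Nat.cast_nonneg _))

lemma lin (r q L : ℕ) (l : List (ℕ × ℕ)) (hl : ∀ p ∈ l, 1 ≤ p.2) (x y e : Al) (h0 : ∀ n, 0 ≤ x n)
    (h1 : ∀ n, x n ≤ y n) (h2 : ∀ n, y n ≤ 1) (he : ∀ n, y n - x n ≤ e n) (n : ℕ) :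
    Fam l (pw r q L) y n ≤ Fam l (pw r q L) x n + r * La q L l e n := by
  induction l generalizing x y e n with
  | nil =>
    show (av q L y n) ^ r ≤ (av q L x n) ^ r + r * av q L e n
    have hy : U1 y := fun n => by rw [abs_of_nonneg ((h0 n).trans (h1 n))]; exact h2 n
    have hx : U1 x := fun n => by rw [abs_of_nonneg (h0 n)]; exact (h1 n).trans (h2 n)
    have f1 := (abs_le.mp (pow_sub_le r _ _ (hy.av q L n) (hx.av q L n))).2
    have f2 : |av q L y n - av q L x n| ≤ av q L e n := by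
      have f3 : av q L x n ≤ av q L y n := av_mono q L x y h1 n
      rw [abs_of_nonneg (by linarith)]
      rw [av_apply, av_apply, av_apply, ← sub_div, ← sum_sub_distrib]
      exact div_le_div_of_nonneg_right (sum_le_sum fun j _ => he _) (Nat.cast_nonneg _)
    have f4 := mul_le_mul_of_nonneg_left f2 (Nat.cast_nonneg r : (0 : ℝ) ≤ (r : ℝ))
    linarith
  | cons p l ih =>
    have hp : (0 : ℝ) < p.2 := by exact_mod_cast hl p List.mem_cons_self
    have g1 : ∀ z : Al, Fam (p :: l) (pw r q L) z n = ((p.2 : ℝ) ^ 2)⁻¹ * ∑ s ∈ range p.2, ∑ s' ∈ range p.2,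
        Fam l (pw r q L) (dv (p.1 * s) (p.1 * s') z) n := by
      intro z
      have : (∑ s ∈ range p.2, ∑ s' ∈ range p.2, Fam l (pw r q L) (dv (p.1 * s) (p.1 * s') z)) n =
        ∑ s ∈ range p.2, ∑ s' ∈ range p.2, Fam l (pw r q L) (dv (p.1 * s) (p.1 * s') z) n := by
        rw [sum_apply]
        exact sum_congr rfl fun s _ => by rw [sum_apply]
      rw [← this]
      rfl
    have g2 : ∀ s s', Fam l (pw r q L) (dv (p.1 * s) (p.1 * s') y) n ≤
        Fam l (pw r q L) (dv (p.1 * s) (p.1 * s') x) n + r * La q L l (sh (p.1 * s) e + sh (p.1 * s') e) n := by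
      intro s s'
      have hy0 : ∀ n, 0 ≤ y n := fun n => (h0 n).trans (h1 n)
      refine ih (fun q hq => hl q (List.mem_cons_of_mem _ hq)) _ _ _ (fun m => mul_nonneg (h0 _) (h0 _))
        (fun m => mul_le_mul (h1 _) (h1 _) (h0 _) (hy0 _)) (fun m => mul_le_one₀ (h2 _) (hy0 _) (h2 _)) (fun m => ?_) n
      show y (m + p.1 * s) * y (m + p.1 * s') - x (m + p.1 * s) * x (m + p.1 * s') ≤ e (m + p.1 * s) + e (m + p.1 * s')
      have k1 := he (m + p.1 * s)
      have k2 := he (m + p.1 * s')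
      have k3 : y (m + p.1 * s) * y (m + p.1 * s') - x (m + p.1 * s) * x (m + p.1 * s') =
          (y (m + p.1 * s) - x (m + p.1 * s)) * y (m + p.1 * s') +
            x (m + p.1 * s) * (y (m + p.1 * s') - x (m + p.1 * s')) := by ring
      rw [k3]
      have k4 : (y (m + p.1 * s) - x (m + p.1 * s)) * y (m + p.1 * s') ≤ y (m + p.1 * s) - x (m + p.1 * s) :=
        mul_le_of_le_one_right (by linarith [h1 (m + p.1 * s)]) (h2 _)
      have k5 : x (m + p.1 * s) * (y (m + p.1 * s') - x (m + p.1 * s')) ≤ y (m + p.1 * s') - x (m + p.1 * s') :=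
        mul_le_of_le_one_left (by linarith [h1 (m + p.1 * s')]) ((h1 _).trans (h2 _))
      linarith
    have g3 : La q L (p :: l) e n = ((p.2 : ℝ) ^ 2)⁻¹ * ∑ s ∈ range p.2, ∑ s' ∈ range p.2,
        La q L l (sh (p.1 * s) e + sh (p.1 * s') e) n := by
      have k1 : ((p.2 : ℝ) ^ 2)⁻¹ • ∑ s ∈ range p.2, ∑ s' ∈ range p.2, (sh (p.1 * s) e + sh (p.1 * s') e) =
          (2 : ℝ) • av p.1 p.2 e := by
        ext m
        show ((p.2 : ℝ) ^ 2)⁻¹ * (∑ s ∈ range p.2, ∑ s' ∈ range p.2, (sh (p.1 * s) e + sh (p.1 * s') e)) m =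
          (2 : ℝ) * av p.1 p.2 e m
        rw [sum_apply]
        have k2 : ∀ s ∈ range p.2, (∑ s' ∈ range p.2, (sh (p.1 * s) e + sh (p.1 * s') e)) m =
            ∑ s' ∈ range p.2, (e (m + p.1 * s) + e (m + p.1 * s')) := fun s _ => by
          rw [sum_apply]
          rfl
        rw [sum_congr rfl k2]
        simp only [sum_add_distrib, sum_const, card_range, nsmul_eq_mul, ← mul_sum]
        rw [av_apply]
        field_simp
        ring
      have k3 : La q L (p :: l) e = La q L l ((2 : ℝ) • av p.1 p.2 e) := rfl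
      rw [k3, ← k1, map_smul, map_sum]
      simp only [map_sum]
      have : (∑ s ∈ range p.2, ∑ s' ∈ range p.2, La q L l (sh (p.1 * s) e + sh (p.1 * s') e)) n =
        ∑ s ∈ range p.2, ∑ s' ∈ range p.2, La q L l (sh (p.1 * s) e + sh (p.1 * s') e) n := by
        rw [sum_apply]
        exact sum_congr rfl fun s _ => by rw [sum_apply]
      rw [← this]
      rfl
    rw [g1, g1, g3]
    have g4 := mul_le_mul_of_nonneg_left (sum_le_sum fun s (_ : s ∈ range p.2) => sum_le_sum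
      fun s' (_ : s' ∈ range p.2) => g2 s s') (by positivity : (0 : ℝ) ≤ ((p.2 : ℝ) ^ 2)⁻¹)
    refine g4.trans (le_of_eq ?_)
    simp only [sum_add_distrib, ← mul_sum]
    ring

lemma EN_La (N q L : ℕ) (hN : 1 ≤ N) (hL : 1 ≤ L) (β : ℝ) (l : List (ℕ × ℕ)) (hl : ∀ p ∈ l, 1 ≤ p.2) : ∀ (x : Al)
    (X C : ℕ), (l.map fun p => p.1 * p.2).sum + q * L ≤ C → (∀ c, c ≤ C → EN (X + c) N x ≤ β) →
      EN X N (La q L l x) ≤ 2 ^ l.length * β := by
  induction l with
  | nil =>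
    intro x X C hC h
    show EN X N (av q L x) ≤ 2 ^ 0 * β
    rw [pow_zero, one_mul]
    rw [List.map_nil, List.sum_nil, zero_add] at hC
    exact EN_av' X N q L C hL hN hC x β h
  | cons p l ih =>
    intro x X C hC h
    rw [List.map_cons, List.sum_cons] at hC
    have h1 : La q L (p :: l) x = (2 : ℝ) • La q L l (av p.1 p.2 x) := by
      show La q L l ((2 : ℝ) • av p.1 p.2 x) = _
      rw [map_smul]
    rw [h1, map_smul, smul_eq_mul, List.length_cons, pow_succ]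
    have h2 := ih (fun q hq => hl q (List.mem_cons_of_mem _ hq)) (av p.1 p.2 x) X (C - p.1 * p.2) (by omega)
      (fun c hc => EN_av' (X + c) N p.1 p.2 (p.1 * p.2) (hl p List.mem_cons_self) hN le_rfl x β fun c' hc' => by
        rw [add_assoc]
        exact h _ (by omega))
    linarith

/-- limit periodic sets, as limits from above -/
def LP (v : Al) : Prop := ∀ δ : ℝ, 0 < δ → ∃ Q : ℕ, 1 ≤ Q ∧ ∃ w : Al, Per Q w ∧ ZO w ∧ (∀ n, v n ≤ w n) ∧
  ∃ X₀ : ℕ, ∀ X, X₀ ≤ X → ∑ n ∈ range X, (w n - v n) ≤ δ * X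

theorem rel_lim (u v : Al) (hu : ∀ n, |u n| ≤ v n) (hv : LP v) (hs : SA u)
    (j κ A : ℕ) (hκ : 1 ≤ κ) (ε : ℝ) (hε : 0 < ε) (hε1 : ε ≤ 1) :
    ∃ ℓ₀ : ℕ, ∀ (N q L X : ℕ) (l : List (ℕ × ℕ)), l.length = j → (∀ p ∈ l, 1 ≤ p.1 ∧ p.1 ≤ A ∧ ℓ₀ ≤ p.2 ∧ p.2 ≤ A * N) →
      1 ≤ q → q ≤ A → ℓ₀ ≤ L → L ≤ A * N → X ≤ A * N → ℓ₀ ≤ N →
        ∑ n ∈ range N, Fam l (pw (2 * κ) q L) u (X + n) ≤
          ck j κ * ∑ n ∈ range N, Fam l (pw (2 * κ) q L) v (X + n) + ε * N := by
  set B : ℕ := A + (j + 1) * A * A + 1 with hB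
  have hB0 : (0 : ℝ) < B := by rw [hB]; push_cast; positivity
  have hκ0 : (0 : ℝ) < κ := by exact_mod_cast hκ
  set δ : ℝ := ε / 2 / (2 * κ * 2 ^ j * B) with hδ
  have hδ0 : 0 < δ := by positivity
  obtain ⟨Q, hQ, w, hw, hz, hvw, X₀, h0⟩ := hv δ hδ0
  obtain ⟨ℓ, hℓ⟩ := rel u w Q hQ hw hz (fun n => (hu n).trans (hvw n)) hs j κ A hκ (ε / 2) (by positivity) (by linarith)
  refine ⟨ℓ + X₀ + 1, fun N q L X l hl hl1 hq1 hqA hL hLN hX hN => ?_⟩
  have h1 := hℓ N q L X l hl (fun p hp => by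
    obtain ⟨f1, f2, f3, f4⟩ := hl1 p hp
    exact ⟨f1, f2, by omega, f4⟩) hq1 hqA (by omega) hLN hX (by omega)
  have hv0 : ∀ n, 0 ≤ v n := fun n => (abs_nonneg _).trans (hu n)
  have hw1 : ∀ n, w n ≤ 1 := fun n => by rcases hz n with h | h <;> rw [h]; norm_num
  have hl2 : ∀ p ∈ l, 1 ≤ p.2 := fun p hp => by have := (hl1 p hp).2.2.1; omega
  have hN0 : (0 : ℝ) < N := by exact_mod_cast (show 0 < N by omega)
  have h2 : ∑ n ∈ range N, Fam l (pw (2 * κ) q L) w (X + n) ≤ ∑ n ∈ range N, Fam l (pw (2 * κ) q L) v (X + n) +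
      (2 * κ : ℕ) * ∑ n ∈ range N, La q L l (w - v) (X + n) := by
    rw [mul_sum, ← sum_add_distrib]
    exact sum_le_sum fun n _ => lin (2 * κ) q L l hl2 v w (w - v) hv0 hvw hw1 (fun n => le_rfl) (X + n)
  have hsum : (l.map fun p => p.1 * p.2).sum ≤ j * (A * (A * N)) := by
    have := List.sum_le_card_nsmul (l.map fun p => p.1 * p.2) (A * (A * N)) (by
      intro x hx
      rw [List.mem_map] at hx
      obtain ⟨p, hp, rfl⟩ := hx
      obtain ⟨hp1, hp2, hp3, hp4⟩ := hl1 p hp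
      exact Nat.mul_le_mul hp2 hp4)
    rw [List.length_map, hl, smul_eq_mul] at this
    exact this
  have h3 := EN_La N q L (by omega) (by omega) (δ * B) l hl2 (w - v) X (j * (A * (A * N)) + A * (A * N))
    (Nat.add_le_add hsum (Nat.mul_le_mul hqA hLN)) (fun c hc => by
      rw [EN_apply, div_le_iff₀ hN0]
      have f1 : ∑ n ∈ range N, (w - v) (X + c + n) ≤ ∑ n ∈ range (X + c + N), (w n - v n) := by
        rw [sum_range_add]
        have : 0 ≤ ∑ n ∈ range (X + c), (w n - v n) := sum_nonneg fun n _ => by linarith [hvw n]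
        have f2 : ∑ n ∈ range N, (w - v) (X + c + n) = ∑ n ∈ range N, (w (X + c + n) - v (X + c + n)) := rfl
        rw [f2]
        linarith
      have f3 := h0 (X + c + N) (by omega)
      have f4 : X + c + N ≤ B * N := by
        rw [hB]
        nlinarith
      have f5 : ((X + c + N : ℕ) : ℝ) ≤ B * N := by exact_mod_cast f4
      have f6 := mul_le_mul_of_nonneg_left f5 hδ0.le
      linarith)
  rw [EN_apply, div_le_iff₀ hN0, hl] at h3
  have h4 : ((2 * κ : ℕ) : ℝ) * (2 ^ j * (δ * B) * N) = ε / 2 * N := by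
    rw [hδ]
    push_cast
    field_simp
  have h5 := mul_le_mul_of_nonneg_left h3 (Nat.cast_nonneg (2 * κ) : (0 : ℝ) ≤ ((2 * κ : ℕ) : ℝ))
  rw [h4] at h5
  have h6 := mul_le_mul_of_nonneg_left (h2.trans (add_le_add_right h5 _)) (ck_nonneg j κ)
  have h7 : ck j κ * (ε / 2 * N) ≤ ε / 2 * N := by
    have := ck_le_one j κ hκ
    have h8 : 0 ≤ ε / 2 * N := by positivity
    nlinarith
  rw [mul_add] at h6
  linarith

/-- bounded sequences -/
noncomputable def mkAl (u : ℕ → ℝ) (hu : ∀ n, |u n| ≤ 1) : Al :=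
  BoundedContinuousFunction.ofNormedAddCommGroup u continuous_of_discreteTopology 1
    (fun n => by rw [Real.norm_eq_abs]; exact hu n)

lemma mkAl_apply (u : ℕ → ℝ) (hu : ∀ n, |u n| ≤ 1) (n : ℕ) : mkAl u hu n = u n := rfl

lemma LP_one (v : Al) (hv : ∀ n, v n = 1) : LP v := by
  intro δ hδ
  refine ⟨1, le_rfl, v, fun n => by rw [hv, hv], fun n => Or.inr (hv n), fun n => le_rfl, 0, fun X _ => ?_⟩
  simp only [sub_self, sum_const_zero]
  positivity

lemma LP_mu (v : Al) (hv : ∀ n, v n = ((ArithmeticFunction.moebius n : ℤ) : ℝ) ^ 2) : LP v := by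
  classical
  intro δ hδ
  obtain ⟨P, hP⟩ := exists_nat_ge (2 / δ)
  have hwu : ∀ P n, |wP P n| ≤ 1 := fun P n => by rw [abs_of_nonneg (wP_nonneg P n)]; exact wP_le P n
  obtain ⟨T, hT⟩ := exists_nat_ge (2 / δ)
  have hvn : ∀ n, v n = if Squarefree n then 1 else 0 := by
    intro n
    rw [hv]
    split_ifs with h
    · have := ArithmeticFunction.moebius_sq_eq_one_of_squarefree h
      exact_mod_cast this
    · rw [ArithmeticFunction.moebius_eq_zero_of_not_squarefree h]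
      simp
  have hvw : ∀ n, v n ≤ wP (P + 1) n := by
    intro n
    have h1 := mu_le_wP (P + 1) n
    have h2 : ((ArithmeticFunction.moebius n : ℤ) : ℝ) ^ 2 ≤ |((ArithmeticFunction.moebius n : ℤ) : ℝ)| := by
      rw [← sq_abs]
      have : |((ArithmeticFunction.moebius n : ℤ) : ℝ)| ≤ 1 := by
        have := ArithmeticFunction.abs_moebius_le_one (n := n)
        exact_mod_cast this
      nlinarith [abs_nonneg ((ArithmeticFunction.moebius n : ℤ) : ℝ)]
    rw [hv]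
    exact h2.trans h1
  refine ⟨(P + 1).factorial ^ 2, Nat.one_le_pow _ _ (Nat.factorial_pos _), mkAl (wP (P + 1)) (hwu _),
    fun n => wP_per (P + 1) n, fun n => ?_, hvw, T + 1, fun X hX => ?_⟩
  · rw [mkAl_apply]
    unfold wP
    split_ifs <;> simp
  have hX0 : (0 : ℝ) < X := by exact_mod_cast (show 0 < X by omega)
  have h1 := wP_sum_le (P + 1) X (by omega)
  have h2 : (((Icc 1 X).filter (fun m => Squarefree m)).card : ℝ) = ∑ n ∈ Icc 1 X, v n := by
    rw [card_filter]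
    push_cast
    exact sum_congr rfl fun n _ => (hvn n).symm
  rw [h2] at h1
  have h3 : ∑ n ∈ range X, (wP (P + 1) n - v n) ≤ 1 + ∑ n ∈ Icc 1 X, (wP (P + 1) n - v n) := by
    have e1 : range X ⊆ insert 0 (Icc 1 X) := by
      intro n hn
      rw [mem_range] at hn
      rw [mem_insert, mem_Icc]
      omega
    refine (sum_le_sum_of_subset_of_nonneg e1 fun n _ _ => by linarith [hvw n]).trans ?_
    rw [sum_insert (by simp)]
    have e2 := wP_le (P + 1) 0
    have e3 : v 0 = 0 := by rw [hv]; simp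
    rw [e3]
    linarith
  have h6 : ∑ n ∈ Icc 1 X, (wP (P + 1) n - v n) = ∑ n ∈ Icc 1 X, wP (P + 1) n - ∑ n ∈ Icc 1 X, v n :=
    sum_sub_distrib _ _
  rw [h6] at h3
  show ∑ n ∈ range X, (wP (P + 1) n - v n) ≤ _
  have h4 : (X : ℝ) / ((P + 1 : ℕ) : ℝ) ≤ δ / 2 * X := by
    rw [div_le_iff₀ (by positivity)]
    rw [div_le_iff₀ hδ] at hP
    push_cast
    nlinarith
  have h5 : (1 : ℝ) ≤ δ / 2 * X := by
    rw [div_le_iff₀ hδ] at hT
    have : (T : ℝ) ≤ X := by exact_mod_cast (show T ≤ X by omega)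
    nlinarith
  linarith

end Pool.Agent.Q259.LU
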