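import Pool.Agent.Q259.LU.Hh

set_option autoImplicit false

/-!
# Boxes indexed by `Fin j`, and weights
-/

namespace Pool.Agent.Q259.LU

open Finset

/-- boxes -/
def fbox {j : ℕ} (S : Fin j → ℕ) : Finset (Fin j → ℕ) := Fintype.piFinset fun i => range (S i)

lemma fbox_sum {M : Type*} [AddCommMonoid M] {j : ℕ} (S : Fin (j + 1) → ℕ) (g : (Fin (j + 1) → ℕ) → M) :
    ∑ s ∈ fbox S, g s = ∑ a ∈ range (S 0), ∑ s ∈ fbox (fun i => S i.succ), g (Fin.cons a s) := by
  rw [← sum_product']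
  refine sum_bij' (fun s _ => (s 0, fun i => s i.succ)) (fun p _ => Fin.cons p.1 p.2) ?_ ?_ ?_ ?_ ?_
  · intro s hs
    rw [fbox, Fintype.mem_piFinset] at hs
    rw [mem_product, fbox, Fintype.mem_piFinset]
    exact ⟨hs 0, fun i => hs i.succ⟩
  · intro p hp
    rw [mem_product, fbox, Fintype.mem_piFinset] at hp
    rw [fbox, Fintype.mem_piFinset]
    intro i
    refine Fin.cases ?_ (fun i => ?_) i
    · simpa using hp.1
    · simpa using hp.2 i
  · intro s _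
    exact Fin.cons_self_tail s
  · intro p _
    rfl
  · intro s _
    congr 1
    exact (Fin.cons_self_tail s).symm

/-- products over the vertices of a parallelepiped -/
noncomputable def cubeA {j : ℕ} (x : Al) (q s s' : Fin j → ℕ) : Al :=
  ∏ ω : Fin j → Bool, sh (∑ i, q i * if ω i then s' i else s i) x

lemma prod_cons {M : Type*} [CommMonoid M] {j : ℕ} (g : (Fin (j + 1) → Bool) → M) :
    ∏ ω, g ω = (∏ ω : Fin j → Bool, g (Fin.cons false ω)) * ∏ ω : Fin j → Bool, g (Fin.cons true ω) := by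
  rw [← (Fin.consEquiv (fun _ : Fin (j + 1) => Bool)).prod_comp, Fintype.prod_prod_type, Fintype.prod_bool, mul_comm]
  rfl

lemma cubeA_cons {j : ℕ} (x : Al) (q : Fin (j + 1) → ℕ) (a b : ℕ) (s s' : Fin j → ℕ) :
    cubeA (dv (q 0 * a) (q 0 * b) x) (fun i => q i.succ) s s' =
      cubeA x q (Fin.cons a s : Fin (j + 1) → ℕ) (Fin.cons b s' : Fin (j + 1) → ℕ) := by
  unfold cubeA
  rw [prod_cons, ← prod_mul_distrib]
  refine prod_congr rfl fun ω _ => ?_
  unfold dv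
  rw [sh_mul, sh_sh, sh_sh, Fin.sum_univ_succ, Fin.sum_univ_succ]
  simp only [Fin.cons_zero, Fin.cons_succ, Bool.false_eq_true, if_false, if_true]
  rw [add_comm (q 0 * a), add_comm (q 0 * b)]

/-- the list of directions -/
def fl {j : ℕ} (q S : Fin j → ℕ) : List (ℕ × ℕ) := List.ofFn fun i => (q i, S i)

lemma fl_succ {j : ℕ} (q S : Fin (j + 1) → ℕ) :
    fl q S = (q 0, S 0) :: fl (fun i => q i.succ) (fun i => S i.succ) := by
  unfold fl
  rw [List.ofFn_succ]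

lemma Fam_box {j : ℕ} (q S : Fin j → ℕ) (Φ : Al → ℝ) (x : Al) :
    Fam (fl q S) Φ x = (∏ i, (S i : ℝ) ^ 2)⁻¹ * ∑ s ∈ fbox S, ∑ s' ∈ fbox S, Φ (cubeA x q s s') := by
  induction j generalizing x with
  | zero =>
    have h1 : fl q S = [] := rfl
    have h2 : (fbox S) = {Fin.elim0} := by
      ext s
      rw [fbox, Fintype.mem_piFinset, mem_singleton]
      exact ⟨fun _ => Subsingleton.elim _ _, fun _ i => i.elim0⟩
    rw [h1, h2, sum_singleton, sum_singleton]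
    have h3 : cubeA x q Fin.elim0 Fin.elim0 = x := by
      unfold cubeA
      rw [Fintype.prod_unique]
      simp [sh_zero]
    rw [h3]
    simp [Fam]
  | succ j ih =>
    rw [fl_succ]
    show (((S 0 : ℕ) : ℝ) ^ 2)⁻¹ • ∑ a ∈ range (S 0), ∑ b ∈ range (S 0),
      Fam (fl (fun i => q i.succ) (fun i => S i.succ)) Φ (dv (q 0 * a) (q 0 * b) x) = _
    simp only [ih, cubeA_cons]
    rw [fbox_sum]
    have e1 : ∀ a ∈ range (S 0), ∀ s ∈ fbox (fun i => S i.succ), ∑ s' ∈ fbox S, Φ (cubeA x q (Fin.cons a s) s') =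
        ∑ b ∈ range (S 0), ∑ s' ∈ fbox (fun i => S i.succ), Φ (cubeA x q (Fin.cons a s) (Fin.cons b s')) := by
      intro a _ s _
      exact fbox_sum S _
    rw [sum_congr rfl fun a ha => sum_congr rfl fun s hs => e1 a ha s hs, Fin.prod_univ_succ, mul_inv, smul_eq_mul,
      mul_assoc]
    congr 1
    simp only [← mul_sum]
    congr 1
    refine sum_congr rfl fun a _ => ?_
    rw [sum_comm]

lemma cubeA_apply {j : ℕ} (x : Al) (q s s' : Fin j → ℕ) (n : ℕ) :
    cubeA x q s s' n = ∏ ω : Fin j → Bool, x (n + ∑ i, q i * if ω i then s' i else s i) := by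
  unfold cubeA
  rw [BoundedContinuousFunction.coe_prod, Finset.prod_apply]
  rfl

lemma zz_apply {r : ℕ} (q : ℕ) (c : Fin r → ℕ) (x : Al) (n : ℕ) : zz q c x n = ∏ i, x (n + q * c i) := by
  unfold zz
  rw [BoundedContinuousFunction.coe_prod, Finset.prod_apply]
  rfl

lemma bx_nonneg (l : List (ℕ × ℕ)) (hl : l ≠ []) (x : Al) (hx : U1 x) (n : ℕ) : 0 ≤ bx l x n := by
  obtain ⟨p, l, rfl⟩ := List.exists_cons_of_ne_nil hl
  rw [bx_front]
  have h1 := Fam_le l (fun _ => (0 : ℝ) * 0) (fun X => (av p.1 p.2 X n) ^ 2) x (All_of l _ (fun y _ => by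
    rw [zero_mul]
    exact sq_nonneg _) x hx)
  rw [Fam_mul, zero_mul] at h1
  exact h1

/-- weights may be removed -/
lemma weights {j : ℕ} (hj : 1 ≤ j) (q S : Fin j → ℕ) (hS : ∀ i, 1 ≤ S i) (x : Al) (hx : U1 x) (q₀ L κ : ℕ)
    (g : ℕ → ℂ) (hg : ∀ m, ‖g m‖ ≤ 1) (n : ℕ) :
    ∑ s ∈ fbox S, ∑ s' ∈ fbox S, ‖∑ m ∈ range L, g m * (cubeA x q s s' (n + q₀ * m) : ℂ)‖ ^ (κ + κ) ≤
      ∑ s ∈ fbox S, ∑ s' ∈ fbox S, (∑ m ∈ range L, cubeA x q s s' (n + q₀ * m)) ^ (κ + κ) := by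
  have hP : (0 : ℝ) < ∏ i, (S i : ℝ) ^ 2 := prod_pos fun i _ => by
    have : (0 : ℝ) < S i := by exact_mod_cast hS i
    positivity
  set h : Fin (κ + κ) → ℕ → ℂ := fun i m => if (i : ℕ) < κ then g m else (starRingEnd ℂ) (g m) with hh
  have hh1 : ∀ i m, ‖h i m‖ ≤ 1 := by
    intro i m
    simp only [hh]
    split_ifs
    · exact hg m
    · rw [RCLike.norm_conj]
      exact hg m
  -- expansion of the left side
  have e1 : ∀ s s', ((‖∑ m ∈ range L, g m * (cubeA x q s s' (n + q₀ * m) : ℂ)‖ ^ (κ + κ) : ℝ) : ℂ) =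
      ∑ c ∈ Fintype.piFinset (fun _ : Fin (κ + κ) => range L), (∏ i, h i (c i)) *
        ((∏ i, cubeA x q s s' (n + q₀ * c i) : ℝ) : ℂ) := by
    intro s s'
    set z := ∑ m ∈ range L, g m * (cubeA x q s s' (n + q₀ * m) : ℂ) with hz
    have f1 : ∀ i : Fin (κ + κ), ∑ m ∈ range L, h i m * (cubeA x q s s' (n + q₀ * m) : ℂ) =
        if (i : ℕ) < κ then z else (starRingEnd ℂ) z := by
      intro i
      simp only [hh]
      split_ifs
      · rfl
      · rw [hz, map_sum]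
        refine sum_congr rfl fun m _ => ?_
        rw [map_mul, Complex.conj_ofReal]
    have f2 : ∏ i : Fin (κ + κ), (if (i : ℕ) < κ then z else (starRingEnd ℂ) z) = ((‖z‖ ^ (κ + κ) : ℝ) : ℂ) := by
      rw [Fin.prod_univ_add]
      have g1 : ∀ i : Fin κ, (if ((Fin.castAdd κ i : Fin (κ + κ)) : ℕ) < κ then z else (starRingEnd ℂ) z) = z := by
        intro i
        rw [if_pos]
        simp
      have g2 : ∀ i : Fin κ, (if ((Fin.natAdd κ i : Fin (κ + κ)) : ℕ) < κ then z else (starRingEnd ℂ) z) =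
          (starRingEnd ℂ) z := by
        intro i
        rw [if_neg]
        simp
      simp only [g1, g2, prod_const, card_univ, Fintype.card_fin]
      rw [← mul_pow, Complex.mul_conj, Complex.normSq_eq_norm_sq, ← two_mul, pow_mul]
      push_cast
      rfl
    rw [← f2, ← prod_congr rfl fun i _ => f1 i, prod_univ_sum]
    refine sum_congr rfl fun c _ => ?_
    rw [prod_mul_distrib]
    push_cast
    rfl
  have e2 : ∀ s s', (∑ m ∈ range L, cubeA x q s s' (n + q₀ * m)) ^ (κ + κ) =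
      ∑ c ∈ Fintype.piFinset (fun _ : Fin (κ + κ) => range L), ∏ i, cubeA x q s s' (n + q₀ * c i) :=
    fun s s' => Finset.sum_pow' _ _ _
  have e3 : ∀ c : Fin (κ + κ) → ℕ, 0 ≤ ∑ s ∈ fbox S, ∑ s' ∈ fbox S, ∏ i, cubeA x q s s' (n + q₀ * c i) := by
    intro c
    have f1 := Fam_box q S (fun y => zz q₀ c y n) x
    have f2 : Fam (fl q S) (fun y => zz q₀ c y n) x = bx (fl q S) (zz q₀ c x) n := by
      rw [← Fam_zz]
      exact (Fam_map (ev n) (fl q S) (zz q₀ c) x).symm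
    have f3 := bx_nonneg (fl q S) (by
      intro h0
      have := congrArg List.length h0
      rw [fl, List.length_ofFn] at this
      simp at this
      omega) (zz q₀ c x) (hx.zz q₀ c) n
    rw [← f2, f1] at f3
    have f4 := (mul_nonneg_iff_of_pos_left (inv_pos.mpr hP)).mp f3
    simp only [zz_apply] at f4
    exact f4
  have e4 : ((∑ s ∈ fbox S, ∑ s' ∈ fbox S, ‖∑ m ∈ range L, g m * (cubeA x q s s' (n + q₀ * m) : ℂ)‖ ^ (κ + κ) : ℝ) : ℂ) =
      ∑ c ∈ Fintype.piFinset (fun _ : Fin (κ + κ) => range L), (∏ i, h i (c i)) *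
        ((∑ s ∈ fbox S, ∑ s' ∈ fbox S, ∏ i, cubeA x q s s' (n + q₀ * c i) : ℝ) : ℂ) := by
    rw [Complex.ofReal_sum]
    have g1 : ∀ s ∈ fbox S, ((∑ s' ∈ fbox S, ‖∑ m ∈ range L, g m * (cubeA x q s s' (n + q₀ * m) : ℂ)‖ ^ (κ + κ) : ℝ) : ℂ) =
        ∑ c ∈ Fintype.piFinset (fun _ : Fin (κ + κ) => range L), ∑ s' ∈ fbox S, (∏ i, h i (c i)) *
        ((∏ i, cubeA x q s s' (n + q₀ * c i) : ℝ) : ℂ) := by
      intro s _
      rw [Complex.ofReal_sum, sum_congr rfl fun s' _ => e1 s s', sum_comm]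
    rw [sum_congr rfl g1, sum_comm]
    refine sum_congr rfl fun c _ => ?_
    simp only [← mul_sum]
    congr 1
    push_cast
    rfl
  have e5 : ∑ s ∈ fbox S, ∑ s' ∈ fbox S, (∑ m ∈ range L, cubeA x q s s' (n + q₀ * m)) ^ (κ + κ) =
      ∑ c ∈ Fintype.piFinset (fun _ : Fin (κ + κ) => range L), ∑ s ∈ fbox S, ∑ s' ∈ fbox S,
        ∏ i, cubeA x q s s' (n + q₀ * c i) := by
    simp only [e2]
    rw [sum_congr rfl fun s _ => sum_comm, sum_comm]
  rw [e5]
  have e6 : 0 ≤ ∑ s ∈ fbox S, ∑ s' ∈ fbox S, ‖∑ m ∈ range L, g m * (cubeA x q s s' (n + q₀ * m) : ℂ)‖ ^ (κ + κ) :=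
    sum_nonneg fun _ _ => sum_nonneg fun _ _ => by positivity
  rw [← Real.norm_of_nonneg e6, ← Complex.norm_real, e4]
  refine (norm_sum_le _ _).trans (sum_le_sum fun c _ => ?_)
  rw [norm_mul, Complex.norm_real, Real.norm_of_nonneg (e3 c)]
  refine mul_le_of_le_one_left (e3 c) ?_
  rw [norm_prod]
  exact prod_le_one (fun _ _ => norm_nonneg _) fun i _ => hh1 i _

end Pool.Agent.Q259.LU
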