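import Pool.Agent.Q259.LU.Hi

set_option autoImplicit false

/-!
# The final form of the bounds
-/

namespace Pool.Agent.Q259.LU

open Finset

/-- products over the vertices -/
noncomputable def fcube {j : ℕ} (u : ℕ → ℝ) (q s s' : Fin j → ℕ) (x : ℕ) : ℝ :=
  ∏ ω : Fin j → Bool, u (x + ∑ i, q i * if ω i then s' i else s i)

lemma cubeA_mk {j : ℕ} (u : ℕ → ℝ) (hu : ∀ n, |u n| ≤ 1) (q s s' : Fin j → ℕ) (n : ℕ) :
    cubeA (mkAl u hu) q s s' n = fcube u q s s' n := by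
  rw [cubeA_apply]
  rfl

section
variable {j : ℕ} (u : ℕ → ℝ) (hu : ∀ n, |u n| ≤ 1) (q S : Fin j → ℕ) (hS : ∀ i, 1 ≤ S i)

include hS

lemma prodS_pos : (0 : ℝ) < ∏ i, (S i : ℝ) ^ 2 := prod_pos fun i _ => by
  have : (0 : ℝ) < S i := by exact_mod_cast hS i
  positivity

lemma moment_eq (p L κ : ℕ) (hL : 1 ≤ L) (n : ℕ) :
    ∑ s ∈ fbox S, ∑ s' ∈ fbox S, (∑ m ∈ range L, fcube u q s s' (n + p * m)) ^ (2 * κ) =
      (∏ i, (S i : ℝ) ^ 2) * ((L : ℝ) ^ (2 * κ) * Fam (fl q S) (pw (2 * κ) p L) (mkAl u hu) n) := by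
  have hP := prodS_pos S hS
  have hL0 : (0 : ℝ) < L := by exact_mod_cast hL
  have e1 : (Fam (fl q S) (pw (2 * κ) p L) (mkAl u hu)) n = Fam (fl q S) (fun y => pw (2 * κ) p L y n) (mkAl u hu) :=
    Fam_map (ev n) (fl q S) _ _
  rw [e1, Fam_box]
  have e2 : ∀ s s', pw (2 * κ) p L (cubeA (mkAl u hu) q s s') n =
      ((L : ℝ) ^ (2 * κ))⁻¹ * (∑ m ∈ range L, fcube u q s s' (n + p * m)) ^ (2 * κ) := by
    intro s s'
    rw [pw_apply, av_apply, div_pow, div_eq_inv_mul]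
    simp only [cubeA_mk]
  simp only [e2, ← mul_sum]
  field_simp

lemma cube_eq (n : ℕ) : ∑ s ∈ fbox S, ∑ s' ∈ fbox S, fcube u q s s' n =
    (∏ i, (S i : ℝ) ^ 2) * bx (fl q S) (mkAl u hu) n := by
  have hP := prodS_pos S hS
  have e1 : bx (fl q S) (mkAl u hu) n = Fam (fl q S) (fun y => y n) (mkAl u hu) := Fam_map (ev n) (fl q S) _ _
  rw [e1, Fam_box, mul_inv_cancel_left₀ hP.ne']
  simp only [cubeA_mk]

end

lemma ico_rng (f : ℕ → ℝ) (X N : ℕ) : ∑ n ∈ Ico X (X + N), f n = ∑ n ∈ range N, f (X + n) := by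
  rw [sum_Ico_eq_sum_range, Nat.add_sub_cancel_left]

section
variable (u v : ℕ → ℝ) (hu : ∀ n, |u n| ≤ 1) (hv : ∀ n, |v n| ≤ 1) (huv : ∀ n, |u n| ≤ v n) (hlp : LP (mkAl v hv))
  (hs : SA u)

include hu huv hlp hs

theorem moments_final (j κ A : ℕ) (hj : 1 ≤ j) (hκ : 1 ≤ κ) (ε : ℝ) (hε : 0 < ε) : ∃ ℓ₀ : ℕ,
    ∀ (N X p L : ℕ) (q S : Fin j → ℕ), X ≤ A * N → 1 ≤ p → p ≤ A → ℓ₀ ≤ L → L ≤ A * N →
      (∀ i, 1 ≤ q i ∧ q i ≤ A ∧ ℓ₀ ≤ S i ∧ S i ≤ A * N) → ∀ g : ℕ → ℕ → ℂ, (∀ n m, ‖g n m‖ ≤ 1) →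
        ∑ n ∈ Ico X (X + N), ∑ s ∈ fbox S, ∑ s' ∈ fbox S,
            ‖∑ m ∈ range L, g n m * (fcube u q s s' (n + p * m) : ℂ)‖ ^ (2 * κ) ≤
          ck j κ * ∑ n ∈ Ico X (X + N), ∑ s ∈ fbox S, ∑ s' ∈ fbox S,
            (∑ m ∈ range L, fcube v q s s' (n + p * m)) ^ (2 * κ) +
          ε * N * (L : ℝ) ^ (2 * κ) * ∏ i, (S i : ℝ) ^ 2 := by
  obtain ⟨ℓ, hℓ⟩ := rel_lim (mkAl u hu) (mkAl v hv) huv hlp hs j κ A hκ (min ε 1) (by positivity) (min_le_right _ _)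
  refine ⟨A * (ℓ + 1) + ℓ + 1, fun N X p L q S hX hp1 hpA hL hLN hqS g hg => ?_⟩
  have hN : ℓ ≤ N := by
    by_contra hc
    push Not at hc
    have : A * N ≤ A * (ℓ + 1) := Nat.mul_le_mul_left _ (by omega)
    omega
  have hS1 : ∀ i, 1 ≤ S i := fun i => by have := (hqS i).2.2.1; omega
  have hP := prodS_pos S hS1
  have hL1 : 1 ≤ L := by omega
  have hL0 : (0 : ℝ) < L := by exact_mod_cast hL1
  have h1 := hℓ N p L X (fl q S) (by rw [fl, List.length_ofFn]) (fun r hr => by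
    rw [fl, List.mem_ofFn] at hr
    obtain ⟨i, rfl⟩ := hr
    obtain ⟨f1, f2, f3, f4⟩ := hqS i
    exact ⟨f1, f2, by show ℓ ≤ S i; omega, f4⟩) hp1 hpA (by omega) hLN hX hN
  rw [ico_rng, ico_rng]
  have h2 : ∀ n, ∑ s ∈ fbox S, ∑ s' ∈ fbox S, ‖∑ m ∈ range L, g n m * (fcube u q s s' (n + p * m) : ℂ)‖ ^ (2 * κ) ≤
      (∏ i, (S i : ℝ) ^ 2) * ((L : ℝ) ^ (2 * κ) * Fam (fl q S) (pw (2 * κ) p L) (mkAl u hu) n) := by
    intro n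
    rw [← moment_eq u hu q S hS1 p L κ hL1 n]
    have := weights hj q S hS1 (mkAl u hu) hu p L κ (g n) (hg n) n
    simp only [cubeA_mk, ← two_mul] at this
    exact this
  refine (sum_le_sum fun n _ => h2 (X + n)).trans ?_
  simp only [moment_eq v hv q S hS1 p L κ hL1, ← mul_sum]
  have h3 := mul_le_mul_of_nonneg_left h1 (by positivity : (0 : ℝ) ≤ (∏ i, (S i : ℝ) ^ 2) * (L : ℝ) ^ (2 * κ))
  have h4 : (∏ i, (S i : ℝ) ^ 2) * (L : ℝ) ^ (2 * κ) * (min ε 1 * N) ≤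
      (∏ i, (S i : ℝ) ^ 2) * (L : ℝ) ^ (2 * κ) * (ε * N) :=
    mul_le_mul_of_nonneg_left (mul_le_mul_of_nonneg_right (min_le_left _ _) (Nat.cast_nonneg _)) (by positivity)
  rw [mul_add] at h3
  calc (∏ i, (S i : ℝ) ^ 2) * ((L : ℝ) ^ (2 * κ) * ∑ n ∈ range N, Fam (fl q S) (pw (2 * κ) p L) (mkAl u hu) (X + n))
      = (∏ i, (S i : ℝ) ^ 2) * (L : ℝ) ^ (2 * κ) *
        ∑ n ∈ range N, Fam (fl q S) (pw (2 * κ) p L) (mkAl u hu) (X + n) := by ring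
    _ ≤ _ := h3
    _ ≤ (∏ i, (S i : ℝ) ^ 2) * (L : ℝ) ^ (2 * κ) *
        (ck j κ * ∑ n ∈ range N, Fam (fl q S) (pw (2 * κ) p L) (mkAl v hv) (X + n)) +
        (∏ i, (S i : ℝ) ^ 2) * (L : ℝ) ^ (2 * κ) * (ε * N) := by linarith
    _ = _ := by ring

theorem gowers_final (k A : ℕ) (ε : ℝ) (hε : 0 < ε) : ∃ ℓ₀ : ℕ,
    ∀ (N X : ℕ) (q S : Fin (k + 1) → ℕ), X ≤ A * N → (∀ i, 1 ≤ q i ∧ q i ≤ A ∧ ℓ₀ ≤ S i ∧ S i ≤ A * N) →
        ∑ n ∈ Ico X (X + N), ∑ s ∈ fbox S, ∑ s' ∈ fbox S, fcube u q s s' n ≤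
          ck k 1 * ∑ n ∈ Ico X (X + N), ∑ s ∈ fbox S, ∑ s' ∈ fbox S, fcube v q s s' n +
          ε * N * ∏ i, (S i : ℝ) ^ 2 := by
  obtain ⟨ℓ, hℓ⟩ := rel_lim (mkAl u hu) (mkAl v hv) huv hlp hs k 1 A le_rfl (min ε 1) (by positivity)
    (min_le_right _ _)
  refine ⟨A * (ℓ + 1) + ℓ + 1, fun N X q S hX hqS => ?_⟩
  have hN : ℓ ≤ N := by
    by_contra hc
    push Not at hc
    have : A * N ≤ A * (ℓ + 1) := Nat.mul_le_mul_left _ (by omega)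
    have := (hqS 0).2.2
    omega
  have hS1 : ∀ i, 1 ≤ S i := fun i => by have := (hqS i).2.2.1; omega
  have hP := prodS_pos S hS1
  have h1 := hℓ N (q 0) (S 0) X (fl (fun i => q i.succ) (fun i => S i.succ)) (by rw [fl, List.length_ofFn]) (fun r hr => by
    rw [fl, List.mem_ofFn] at hr
    obtain ⟨i, rfl⟩ := hr
    obtain ⟨f1, f2, f3, f4⟩ := hqS i.succ
    exact ⟨f1, f2, by show ℓ ≤ S i.succ; omega, f4⟩) (hqS 0).1 (hqS 0).2.1 (by have := (hqS 0).2.2.1; omega)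
    (hqS 0).2.2.2 hX hN
  have h2 : ∀ (z : ℕ → ℝ) (hz : ∀ n, |z n| ≤ 1) (n : ℕ), ∑ s ∈ fbox S, ∑ s' ∈ fbox S, fcube z q s s' n =
      (∏ i, (S i : ℝ) ^ 2) *
        Fam (fl (fun i => q i.succ) (fun i => S i.succ)) (pw (2 * 1) (q 0) (S 0)) (mkAl z hz) n := by
    intro z hz n
    rw [cube_eq z hz q S hS1, fl_succ, bx_front]
    congr 1
    exact (Fam_map (ev n) (fl (fun i => q i.succ) (fun i => S i.succ)) (pw (2 * 1) (q 0) (S 0)) (mkAl z hz)).symm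
  rw [ico_rng, ico_rng]
  simp only [h2 u hu, h2 v hv, ← mul_sum]
  have h3 := mul_le_mul_of_nonneg_left h1 hP.le
  have h4 : (∏ i, (S i : ℝ) ^ 2) * (min ε 1 * N) ≤ (∏ i, (S i : ℝ) ^ 2) * (ε * N) :=
    mul_le_mul_of_nonneg_left (mul_le_mul_of_nonneg_right (min_le_left _ _) (Nat.cast_nonneg _)) hP.le
  rw [mul_add] at h3
  linarith

end

end Pool.Agent.Q259.LU
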