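import Pool.Agent.Q259.LU.Step

set_option autoImplicit false

/-!
# Signs against functions of polynomials on one block: the induction
-/

namespace Pool.Agent.Q259.LU

open Finset MeasureTheory Pool.Agent.H332R2.Lit Polynomial

lemma coe_int (n : ℤ) : (((n : ℤ) : ℝ) : UnitAddCircle) = 0 :=
  (AddCircle.coe_eq_zero_iff (p := (1 : ℝ))).2 ⟨n, by simp⟩

lemma norm_coe_le (x : ℝ) : ‖((x : ℝ) : UnitAddCircle)‖ ≤ |x| := by
  rw [UnitAddCircle.norm_eq]
  have := round_le x 0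
  simpa using this

/-- the case in which the polynomial has lower degree on progressions -/
lemma case_two (F : C(UnitAddCircle, ℂ)) (κ : ℝ) (hκ : 0 ≤ κ) (B B₁ L Q m : ℕ) (hB₁ : 1 ≤ B₁) (hL : 1 ≤ L)
    (hm : 1 ≤ m) (C ε₁ : ℝ) (hC : 0 ≤ C) (u w : ℕ → ℝ) (huw : ∀ n, |u n| ≤ w n) (hw1 : ∀ n, w n ≤ 1) (p : ℕ → ℝ)
    (hloc : ∀ a, ‖∑ j ∈ range B₁, (u (a + m * j) : ℂ) * F ((p (a + m * j) : ℝ) : UnitAddCircle)‖ ≤
      κ * ∑ j ∈ range B₁, w (a + m * j) + ε₁ * B₁ + C * (GG (fun n => u (a + m * n)) B₁ L Q / L)) :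
    ‖∑ h ∈ range B, (u h : ℂ) * F ((p h : ℝ) : UnitAddCircle)‖ ≤
      κ * ∑ h ∈ range B, w h + ε₁ * B + C * (GG u B L (Q * m) / L) + 2 * m * B₁ * (κ + C * Q + ‖F‖) := by
  have hu1 : ∀ n, |u n| ≤ 1 := fun n => (huw n).trans (hw1 n)
  have hw0 : ∀ n, 0 ≤ w n := fun n => (abs_nonneg _).trans (huw n)
  have hL0 : (0 : ℝ) < L := by exact_mod_cast hL
  have hB0 : (0 : ℝ) < B₁ := by exact_mod_cast hB₁
  have h1 := avg_norm (fun h => (u h : ℂ) * F ((p h : ℝ) : UnitAddCircle)) ‖F‖ (norm_nonneg _) (fun n => by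
    rw [norm_mul, Complex.norm_real, Real.norm_eq_abs]
    calc |u n| * ‖F ((p n : ℝ) : UnitAddCircle)‖ ≤ 1 * ‖F‖ :=
          mul_le_mul (hu1 n) (F.norm_coe_le_norm _) (norm_nonneg _) zero_le_one
      _ = ‖F‖ := one_mul _) B B₁ m
  have h2 : ∑ a ∈ range B, ‖∑ j ∈ range B₁, (u (a + m * j) : ℂ) * F ((p (a + m * j) : ℝ) : UnitAddCircle)‖ ≤
      κ * ∑ a ∈ range B, ∑ j ∈ range B₁, w (a + m * j) + ε₁ * B₁ * B +
      C * ((∑ a ∈ range B, GG (fun n => u (a + m * n)) B₁ L Q) / L) := by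
    refine (sum_le_sum fun a _ => hloc a).trans (le_of_eq ?_)
    rw [sum_add_distrib, sum_add_distrib, ← mul_sum, sum_const, card_range, nsmul_eq_mul, ← mul_sum, sum_div]
    ring
  have h3 := avg_le w 1 zero_le_one (fun n => by rw [abs_of_nonneg (hw0 n)]; exact hw1 n) B B₁ m
  have h4 := GG_dil u hu1 B B₁ L Q m hm
  have h5 : (∑ a ∈ range B, GG (fun n => u (a + m * n)) B₁ L Q) / L ≤
      B₁ * (GG u B L (Q * m) / L) + 2 * Q * m * B₁ * B₁ := by
    rw [div_le_iff₀ hL0]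
    have : (B₁ * (GG u B L (Q * m) / L) + 2 * Q * m * B₁ * B₁) * L =
        B₁ * GG u B L (Q * m) + 2 * Q * m * B₁ * B₁ * L := by
      field_simp
    rw [this]
    exact h4
  have h6 := mul_le_mul_of_nonneg_left h3 hκ
  have h7 := mul_le_mul_of_nonneg_left h5 hC
  have h8 : (B₁ : ℝ) * ‖∑ h ∈ range B, (u h : ℂ) * F ((p h : ℝ) : UnitAddCircle)‖ ≤
      B₁ * (κ * ∑ h ∈ range B, w h + ε₁ * B + C * (GG u B L (Q * m) / L) + 2 * m * B₁ * (κ + C * Q + ‖F‖)) := by
    nlinarith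
  exact le_of_mul_le_mul_left h8 hB0

/-- **one step of the induction** -/
theorem claim_succ (F : C(UnitAddCircle, ℂ)) (c : ℂ) (κ : ℝ) (hκ : 0 ≤ κ)
    (hF : ∀ ω : ℂ, ‖ω‖ = 1 → ∫ t : UnitAddCircle, |(ω * (F t - c)).re| ≤ κ) (M : ℕ) (hM : 1 ≤ M) (k : ℕ)
    (ih : Claim F κ M k) : Claim F κ M (k + 1) := by
  intro ε hε
  obtain ⟨Q, hQ1, C, hC, ihL⟩ := ih (ε / 8) (by positivity)
  obtain ⟨M₀, δ, hδ, hcrit⟩ := crit F c κ hF (ε / 8) (by positivity)
  obtain ⟨M₁, hM₁, hweyl⟩ := Pool.Agent.H238R3.UL.weyl_unif k δ hδ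
  set M₂ := M₁ * (M₀ + 1) * M ^ (k + 1) with hM₂
  have hMk : 1 ≤ M ^ (k + 1) := Nat.one_le_pow _ _ hM
  have hM₂1 : 1 ≤ M₂ := Nat.mul_pos (Nat.mul_pos hM₁ (Nat.succ_pos _)) hMk
  refine ⟨Q * M₂, Nat.mul_pos hQ1 hM₂1, C + ‖c‖, by positivity, fun L hL => ?_⟩
  obtain ⟨B₁, hB₁, ihB⟩ := ihL L hL
  -- uniform continuity
  have huc : UniformContinuous F := CompactSpace.uniformContinuous_of_continuous F.continuous
  obtain ⟨δ₁, hδ₁, hFδ⟩ := Metric.uniformContinuous_iff.mp huc (ε / 8) (by positivity)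
  set A : ℝ := (M₂ : ℝ) ^ k * (B₁ : ℝ) ^ (k + 1) with hA
  have hM₂0 : (0 : ℝ) < M₂ := by exact_mod_cast hM₂1
  have hB₁0 : (0 : ℝ) < B₁ := by exact_mod_cast hB₁
  have hA0 : 0 < A := by positivity
  obtain ⟨N₀, hN₀⟩ := hweyl (δ₁ / (2 * A)) (by positivity)
  obtain ⟨B₂, hB₂⟩ := exists_nat_ge ((M * (‖F‖ + ‖c‖) + ‖c‖ * (2 * L) + 2 * M₂ * B₁ * (κ + C * Q + ‖F‖)) / (ε / 8))
  refine ⟨M * (N₀ + 1) + B₂ + 1, by omega, fun B hB P hP u w huw hw1 hwM => ?_⟩
  have hu1 : ∀ n, |u n| ≤ 1 := fun n => (huw n).trans (hw1 n)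
  have hw0 : ∀ n, 0 ≤ w n := fun n => (abs_nonneg _).trans (huw n)
  have hBc : (M * (‖F‖ + ‖c‖) + ‖c‖ * (2 * L) + 2 * M₂ * B₁ * (κ + C * Q + ‖F‖)) ≤ ε / 8 * B := by
    have h1 := hB₂.trans (by exact_mod_cast (by omega : B₂ ≤ B) : (B₂ : ℝ) ≤ B)
    rw [div_le_iff₀ (by positivity)] at h1
    linarith
  have hL0 : (0 : ℝ) < L := by exact_mod_cast hL
  have hGG : ∀ Q', Q' ≤ Q * M₂ → GG u B L Q' / L ≤ GG u B L (Q * M₂) / L := fun Q' hQ' =>
    div_le_div_of_nonneg_right (GG_mono u B L hQ') hL0.le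
  have hG0 : 0 ≤ GG u B L (Q * M₂) / L := div_nonneg (GG_nonneg _ _ _ _) hL0.le
  set x := P.coeff (k + 1) with hx
  have hsumw : ∑ h ∈ range B, w h ≤ B := by
    refine (sum_le_sum fun h _ => hw1 h).trans ?_
    simp
  by_cases hcase : ∀ m ∈ Icc 1 M₂, δ₁ / (2 * A) ≤ |(m : ℝ) * x - round ((m : ℝ) * x)|
  · -- equidistributed
    have h1 := case_one F c (κ + ε / 8) (by positivity) M B L hM hL u w huw hw1 hwM (fun h => P.eval (h : ℝ)) (by
      intro ω hω r hr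
      have h2 := hcrit (B / M) (fun i => P.eval ((r + M * i : ℕ) : ℝ)) (by
        intro ν hν
        rw [mem_Icc] at hν
        have hBM : N₀ ≤ B / M := by
          rw [Nat.le_div_iff_mul_le hM]
          nlinarith
        have h3 := hN₀ (Polynomial.C (ν : ℝ) * dil P r M) (by
          refine (natDegree_C_mul_le _ _).trans (dil_deg P r M (k + 1) hP)) (by
          intro m hm
          rw [mem_Icc] at hm
          rw [coeff_C_mul, dil_coeff P r M (k + 1) hP]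
          have h4 := hcase (m * ν * M ^ (k + 1)) (by
            rw [mem_Icc]
            refine ⟨Nat.mul_pos (Nat.mul_pos hm.1 hν.1) hMk, ?_⟩
            rw [hM₂]
            exact Nat.mul_le_mul_right _ (Nat.mul_le_mul hm.2 (by omega)))
          have h5 : (m : ℝ) * ((ν : ℝ) * (P.coeff (k + 1) * (M : ℝ) ^ (k + 1))) =
              ((m * ν * M ^ (k + 1) : ℕ) : ℝ) * x := by
            push_cast
            rw [hx]
            ring
          rw [h5]
          exact h4) (B / M) hBM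
        refine le_trans (le_of_eq ?_) h3
        congr 1
        refine sum_congr rfl fun i _ => ?_
        rw [eval_mul, eval_C, dil_eval])
      exact h2 ω hω)
    have h6 := hGG 1 (Nat.mul_pos hQ1 hM₂1)
    have h7 : ‖c‖ * (GG u B L 1 / L) ≤ ‖c‖ * (GG u B L (Q * M₂) / L) :=
      mul_le_mul_of_nonneg_left h6 (norm_nonneg _)
    have h8 : 0 ≤ C * (GG u B L (Q * M₂) / L) := mul_nonneg hC hG0
    have h9 : ε / 8 * ∑ h ∈ range B, w h ≤ ε / 8 * B := mul_le_mul_of_nonneg_left hsumw (by positivity)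
    have h10 : 0 ≤ 2 * M₂ * B₁ * (κ + C * Q + ‖F‖) := by positivity
    have h11 : 0 ≤ ε * B := by positivity
    linarith
  · -- lower degree on progressions
    push Not at hcase
    obtain ⟨m, hm, hmx⟩ := hcase
    rw [mem_Icc] at hm
    have h1 := case_two F κ hκ B B₁ L Q m hB₁ hL hm.1 C (ε / 8 + ε / 8) hC u w huw hw1 (fun h => P.eval (h : ℝ)) (by
      intro a
      set R : ℝ[X] := dil P a m - Polynomial.C (x * (m : ℝ) ^ (k + 1)) * X ^ (k + 1) with hR
      have hRdeg : R.natDegree ≤ k := by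
        rw [natDegree_le_iff_coeff_eq_zero]
        intro N hN
        rw [hR, coeff_sub, coeff_C_mul, coeff_X_pow]
        by_cases hNk : N = k + 1
        · subst hNk
          rw [dil_coeff P a m (k + 1) hP, if_pos rfl, hx]
          ring
        · rw [if_neg hNk, coeff_eq_zero_of_natDegree_lt
            (lt_of_le_of_lt (dil_deg P a m (k + 1) hP) (by omega))]
          ring
      have hRev : ∀ j : ℕ, P.eval ((a + m * j : ℕ) : ℝ) = R.eval (j : ℝ) + x * (m : ℝ) ^ (k + 1) * (j : ℝ) ^ (k + 1) := by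
        intro j
        rw [hR, eval_sub, dil_eval, eval_mul, eval_C, eval_pow, eval_X]
        ring
      -- closeness on the circle
      have hclose : ∀ j : ℕ, j ∈ range B₁ → ‖F ((P.eval ((a + m * j : ℕ) : ℝ) : ℝ) : UnitAddCircle) -
          F ((R.eval (j : ℝ) : ℝ) : UnitAddCircle)‖ ≤ ε / 8 := by
        intro j hj
        rw [mem_range] at hj
        rw [← dist_eq_norm]
        refine (hFδ ?_).le
        set θ := (m : ℝ) * x - round ((m : ℝ) * x) with hθ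
        have e1 : P.eval ((a + m * j : ℕ) : ℝ) = R.eval (j : ℝ) + θ * (m : ℝ) ^ k * (j : ℝ) ^ (k + 1) +
            ((round ((m : ℝ) * x) * (m : ℤ) ^ k * (j : ℤ) ^ (k + 1) : ℤ) : ℝ) := by
          rw [hRev, hθ]
          push_cast
          ring
        have e2 : ((P.eval ((a + m * j : ℕ) : ℝ) : ℝ) : UnitAddCircle) =
            ((R.eval (j : ℝ) + θ * (m : ℝ) ^ k * (j : ℝ) ^ (k + 1) : ℝ) : UnitAddCircle) := by
          rw [e1, AddCircle.coe_add, coe_int, add_zero]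
        have e3 : ((R.eval (j : ℝ) + θ * (m : ℝ) ^ k * (j : ℝ) ^ (k + 1) : ℝ) : UnitAddCircle) -
            ((R.eval (j : ℝ) : ℝ) : UnitAddCircle) = ((θ * (m : ℝ) ^ k * (j : ℝ) ^ (k + 1) : ℝ) : UnitAddCircle) := by
          rw [AddCircle.coe_add, add_sub_cancel_left]
        rw [e2, dist_eq_norm, e3]
        refine lt_of_le_of_lt (norm_coe_le _) ?_
        rw [abs_mul, abs_mul, abs_of_nonneg (show (0 : ℝ) ≤ (m : ℝ) ^ k by positivity),
          abs_of_nonneg (show (0 : ℝ) ≤ (j : ℝ) ^ (k + 1) by positivity)]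
        have b1 : (m : ℝ) ^ k ≤ (M₂ : ℝ) ^ k := pow_le_pow_left₀ (Nat.cast_nonneg _) (by exact_mod_cast hm.2) _
        have b2 : (j : ℝ) ^ (k + 1) ≤ (B₁ : ℝ) ^ (k + 1) :=
          pow_le_pow_left₀ (Nat.cast_nonneg _) (by exact_mod_cast hj.le) _
        calc |θ| * (m : ℝ) ^ k * (j : ℝ) ^ (k + 1) = |θ| * ((m : ℝ) ^ k * (j : ℝ) ^ (k + 1)) := by ring
          _ ≤ δ₁ / (2 * A) * A := by
              refine mul_le_mul hmx.le ?_ (by positivity) (by positivity)
              rw [hA]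
              exact mul_le_mul b1 b2 (by positivity) (by positivity)
          _ = δ₁ / 2 := by field_simp
          _ < δ₁ := by linarith
      have hper : ∀ y i, w (y + M * i) = w y := by
        intro y i
        induction i with
        | zero => simp
        | succ i ih => rw [Nat.mul_succ, ← add_assoc, hwM, ih]
      have h5 := ihB B₁ le_rfl R hRdeg (fun n => u (a + m * n)) (fun n => w (a + m * n)) (fun n => huw _)
        (fun n => hw1 _) (fun n => by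
          have : a + m * (n + M) = (a + m * n) + M * m := by ring
          rw [this, hper])
      have h6 : ∑ j ∈ range B₁, (u (a + m * j) : ℂ) * F ((P.eval ((a + m * j : ℕ) : ℝ) : ℝ) : UnitAddCircle) =
          ∑ j ∈ range B₁, (u (a + m * j) : ℂ) * F ((R.eval (j : ℝ) : ℝ) : UnitAddCircle) +
          ∑ j ∈ range B₁, (u (a + m * j) : ℂ) * (F ((P.eval ((a + m * j : ℕ) : ℝ) : ℝ) : UnitAddCircle) -
            F ((R.eval (j : ℝ) : ℝ) : UnitAddCircle)) := by
        rw [← sum_add_distrib]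
        refine sum_congr rfl fun j _ => ?_
        ring
      have h7 : ‖∑ j ∈ range B₁, (u (a + m * j) : ℂ) * (F ((P.eval ((a + m * j : ℕ) : ℝ) : ℝ) : UnitAddCircle) -
            F ((R.eval (j : ℝ) : ℝ) : UnitAddCircle))‖ ≤ ε / 8 * B₁ := by
        refine (norm_sum_le _ _).trans ?_
        have : ∀ j ∈ range B₁, ‖(u (a + m * j) : ℂ) * (F ((P.eval ((a + m * j : ℕ) : ℝ) : ℝ) : UnitAddCircle) -
            F ((R.eval (j : ℝ) : ℝ) : UnitAddCircle))‖ ≤ ε / 8 := by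
          intro j hj
          rw [norm_mul, Complex.norm_real, Real.norm_eq_abs]
          calc |u (a + m * j)| * ‖F ((P.eval ((a + m * j : ℕ) : ℝ) : ℝ) : UnitAddCircle) -
                F ((R.eval (j : ℝ) : ℝ) : UnitAddCircle)‖ ≤ 1 * (ε / 8) :=
                mul_le_mul (hu1 _) (hclose j hj) (norm_nonneg _) zero_le_one
            _ = ε / 8 := one_mul _
        refine (sum_le_sum this).trans (le_of_eq ?_)
        rw [sum_const, card_range, nsmul_eq_mul]
        ring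
      show ‖∑ j ∈ range B₁, (u (a + m * j) : ℂ) * F ((P.eval ((a + m * j : ℕ) : ℝ) : ℝ) : UnitAddCircle)‖ ≤ _
      rw [h6]
      refine (norm_add_le _ _).trans ?_
      linarith)
    have h2 : (m : ℝ) ≤ M₂ := by exact_mod_cast hm.2
    have h3 := hGG (Q * m) (Nat.mul_le_mul_left _ hm.2)
    have h4 : C * (GG u B L (Q * m) / L) ≤ C * (GG u B L (Q * M₂) / L) := mul_le_mul_of_nonneg_left h3 hC
    have h5 : 2 * (m : ℝ) * B₁ * (κ + C * Q + ‖F‖) ≤ 2 * M₂ * B₁ * (κ + C * Q + ‖F‖) := by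
      have : 0 ≤ κ + C * Q + ‖F‖ := by positivity
      gcongr
    have h8 : 0 ≤ ‖c‖ * (GG u B L (Q * M₂) / L) := mul_nonneg (norm_nonneg _) hG0
    have h10 : 0 ≤ M * (‖F‖ + ‖c‖) + ‖c‖ * (2 * L) := by positivity
    have h11 : 0 ≤ ε * B := by positivity
    linarith

end Pool.Agent.Q259.LU
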