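import Pool.Agent.Q259.LU.Glob

set_option autoImplicit false

/-!
# Bilinear forms of correlations and exponential sums over short blocks
-/

namespace Pool.Agent.Q259.LU

open Finset Pool.Agent.H332R2.Lit

lemma e_neg' (t : ℝ) : e (-t) = (starRingEnd ℂ) (e t) := by
  unfold e
  rw [← Complex.exp_conj]
  congr 1
  simp only [map_mul, Complex.conj_ofReal, Complex.conj_I, map_ofNat]
  push_cast
  ring

lemma e_int (m : ℤ) : e (m : ℝ) = 1 := by
  unfold e
  rw [Complex.exp_eq_one_iff]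
  exact ⟨m, by push_cast; ring⟩

lemma e_ne_one (x : ℝ) (h0 : 0 < |x|) (h1 : |x| < 1) : e x ≠ 1 := by
  intro h
  unfold e at h
  rw [Complex.exp_eq_one_iff] at h
  obtain ⟨n, hn⟩ := h
  have h2 : (x : ℂ) = n := by
    have h3 : (2 * Real.pi * Complex.I : ℂ) ≠ 0 := by
      simp [Real.pi_ne_zero]
    have h4 : (2 * Real.pi * Complex.I : ℂ) * x = (2 * Real.pi * Complex.I) * n := by
      calc (2 * Real.pi * Complex.I : ℂ) * x = 2 * Real.pi * x * Complex.I := by ring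
        _ = n * (2 * Real.pi * Complex.I) := hn
        _ = _ := by ring
    exact mul_left_cancel₀ h3 h4
  have h3 : x = n := by exact_mod_cast h2
  rw [h3] at h0 h1
  have h5 : |(n : ℝ)| = ((|n| : ℤ) : ℝ) := by push_cast; rfl
  rw [h5] at h0 h1
  have h6 : 0 < |n| := by exact_mod_cast h0
  have h7 : |n| < 1 := by exact_mod_cast h1
  omega

/-- orthogonality of the characters modulo `M` on a short interval -/
lemma orth2 (M x y : ℕ) (hx : x < M) (hy : y < M) :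
    ∑ k ∈ range M, e ((k : ℝ) * x / M) * (starRingEnd ℂ) (e ((k : ℝ) * y / M)) = if x = y then (M : ℂ) else 0 := by
  have hM0 : (M : ℝ) ≠ 0 := by
    have : 0 < M := by omega
    positivity
  have hMp : (0 : ℝ) < M := by
    have : 0 < M := by omega
    exact_mod_cast this
  have h1 : ∀ k : ℕ, e ((k : ℝ) * x / M) * (starRingEnd ℂ) (e ((k : ℝ) * y / M)) =
      (e (((x : ℝ) - y) / M)) ^ k := by
    intro k
    rw [← e_neg', ← e_add, ← e_nat_mul]
    congr 1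
    ring
  simp only [h1]
  split_ifs with h
  · subst h
    rw [sub_self, zero_div, e_zero]
    simp
  · have h2 : e (((x : ℝ) - y) / M) ≠ 1 := by
      refine e_ne_one _ ?_ ?_
      · rw [abs_pos]
        refine div_ne_zero ?_ hM0
        intro hc
        apply h
        exact_mod_cast sub_eq_zero.mp hc
      · rw [abs_div, abs_of_pos hMp, div_lt_one hMp, abs_lt]
        have a1 : (x : ℝ) < M := by exact_mod_cast hx
        have a2 : (y : ℝ) < M := by exact_mod_cast hy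
        have a3 : (0 : ℝ) ≤ x := Nat.cast_nonneg _
        have a4 : (0 : ℝ) ≤ y := Nat.cast_nonneg _
        constructor <;> linarith
    have h3 := mul_neg_geom_sum (e (((x : ℝ) - y) / M)) M
    have h4 : (e (((x : ℝ) - y) / M)) ^ M = 1 := by
      rw [← e_nat_mul]
      have : (M : ℝ) * (((x : ℝ) - y) / M) = (((x : ℤ) - y : ℤ) : ℝ) := by
        push_cast
        field_simp
      rw [this, e_int]
    rw [h4, sub_self] at h3
    rcases mul_eq_zero.mp h3 with h5 | h5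
    · exact absurd (sub_eq_zero.mp h5).symm h2
    · exact h5

/-- Parseval -/
lemma pars (a : ℕ → ℂ) (X M : ℕ) (hXM : X ≤ M) :
    ∑ k ∈ range M, ‖∑ x ∈ range X, a x * e ((k : ℝ) * x / M)‖ ^ 2 = M * ∑ x ∈ range X, ‖a x‖ ^ 2 := by
  have h1 : ((∑ k ∈ range M, ‖∑ x ∈ range X, a x * e ((k : ℝ) * x / M)‖ ^ 2 : ℝ) : ℂ) =
      ((M * ∑ x ∈ range X, ‖a x‖ ^ 2 : ℝ) : ℂ) := by
    push_cast
    have e1 : ∀ z : ℂ, ((‖z‖ : ℝ) : ℂ) ^ 2 = z * (starRingEnd ℂ) z := fun z => by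
      rw [Complex.mul_conj, Complex.normSq_eq_norm_sq]; push_cast; rfl
    simp only [e1, map_sum, map_mul, sum_mul_sum]
    rw [sum_comm, mul_sum]
    refine sum_congr rfl fun x hx => ?_
    rw [sum_comm]
    have e2 : ∀ y ∈ range X, ∑ k ∈ range M, a x * e ((k : ℝ) * x / M) *
        ((starRingEnd ℂ) (a y) * (starRingEnd ℂ) (e ((k : ℝ) * y / M))) =
        a x * (starRingEnd ℂ) (a y) * (if x = y then (M : ℂ) else 0) := by
      intro y hy
      rw [mem_range] at hx hy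
      rw [← orth2 M x y (by omega) (by omega), mul_sum]
      refine sum_congr rfl fun k _ => ?_
      ring
    rw [sum_congr rfl e2]
    simp only [mul_ite, mul_zero]
    rw [sum_ite_eq, if_pos hx]
    ring
  exact_mod_cast h1

/-- the mean square of a convolution with a short sequence -/
lemma conv_le (α c : ℕ → ℂ) (ℓ Y : ℕ) (hα : ∀ x, x < ℓ → α x = 0) (hα' : ∀ x, Y ≤ x → α x = 0) (S : ℝ)
    (hS : ∀ θ : ℝ, ‖∑ i ∈ range ℓ, c i * e ((i : ℝ) * θ)‖ ≤ S) :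
    ∑ z ∈ range Y, ‖∑ i ∈ range ℓ, c i * α (z + i)‖ ^ 2 ≤ S ^ 2 * ∑ x ∈ range Y, ‖α x‖ ^ 2 := by
  have hS0 : 0 ≤ S := (norm_nonneg _).trans (hS 0)
  rcases Nat.eq_zero_or_pos Y with hY | hY
  · subst hY; simp
  have hY0 : (0 : ℝ) < Y := by exact_mod_cast hY
  have h1 := pars (fun z => ∑ i ∈ range ℓ, c i * α (z + i)) Y Y le_rfl
  have h2 := pars α Y Y le_rfl
  have h3 : ∀ k : ℕ, ∑ z ∈ range Y, (∑ i ∈ range ℓ, c i * α (z + i)) * e ((k : ℝ) * z / Y) =
      (∑ i ∈ range ℓ, c i * e ((i : ℝ) * (-(k : ℝ) / Y))) * ∑ x ∈ range Y, α x * e ((k : ℝ) * x / Y) := by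
    intro k
    simp only [sum_mul]
    rw [sum_comm]
    refine sum_congr rfl fun i hi => ?_
    rw [mem_range] at hi
    rw [mul_sum]
    have e1 : ∑ z ∈ range Y, c i * α (z + i) * e ((k : ℝ) * z / Y) =
        ∑ x ∈ Ico i (Y + i), c i * α x * e ((k : ℝ) * ((x : ℝ) - i) / Y) := by
      rw [sum_Ico_eq_sum_range]
      simp only [Nat.add_sub_cancel]
      refine sum_congr rfl fun z _ => ?_
      rw [add_comm i z]
      congr 2
      push_cast
      ring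
    have e2 : ∑ x ∈ Ico i (Y + i), c i * α x * e ((k : ℝ) * ((x : ℝ) - i) / Y) =
        ∑ x ∈ range (Y + i), c i * α x * e ((k : ℝ) * ((x : ℝ) - i) / Y) := by
      refine sum_subset ?_ ?_
      · intro x hx
        rw [mem_Ico] at hx
        rw [mem_range]; exact hx.2
      · intro x hx hx'
        rw [mem_range] at hx
        rw [mem_Ico] at hx'
        rw [hα x (by omega)]
        ring
    have e3 : ∑ x ∈ range Y, c i * α x * e ((k : ℝ) * ((x : ℝ) - i) / Y) =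
        ∑ x ∈ range (Y + i), c i * α x * e ((k : ℝ) * ((x : ℝ) - i) / Y) := by
      refine sum_subset (range_subset_range.mpr (by omega)) ?_
      intro x _ hx'
      rw [mem_range] at hx'
      rw [hα' x (by omega)]
      ring
    rw [e1, e2, ← e3]
    refine sum_congr rfl fun x _ => ?_
    have e4 : e ((k : ℝ) * ((x : ℝ) - i) / Y) = e ((i : ℝ) * (-(k : ℝ) / Y)) * e ((k : ℝ) * x / Y) := by
      rw [← e_add]
      congr 1
      ring
    rw [e4]
    ring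
  have h4 : (Y : ℝ) * ∑ z ∈ range Y, ‖∑ i ∈ range ℓ, c i * α (z + i)‖ ^ 2 ≤
      Y * (S ^ 2 * ∑ x ∈ range Y, ‖α x‖ ^ 2) := by
    rw [← h1]
    calc ∑ k ∈ range Y, ‖∑ z ∈ range Y, (∑ i ∈ range ℓ, c i * α (z + i)) * e ((k : ℝ) * z / Y)‖ ^ 2
        ≤ ∑ k ∈ range Y, S ^ 2 * ‖∑ x ∈ range Y, α x * e ((k : ℝ) * x / Y)‖ ^ 2 := by
          refine sum_le_sum fun k _ => ?_
          rw [h3 k, norm_mul, mul_pow]
          exact mul_le_mul_of_nonneg_right (pow_le_pow_left₀ (norm_nonneg _) (hS _) 2) (by positivity)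
      _ = S ^ 2 * (Y * ∑ x ∈ range Y, ‖α x‖ ^ 2) := by rw [← mul_sum, h2]
      _ = Y * (S ^ 2 * ∑ x ∈ range Y, ‖α x‖ ^ 2) := by ring
  exact le_of_mul_le_mul_left h4 hY0

/-- the bilinear form of the correlations -/
lemma bil (α β c d : ℕ → ℂ) (ℓ Y : ℕ) (hα : ∀ x, x < ℓ → α x = 0) (hα' : ∀ x, Y ≤ x → α x = 0)
    (hβ : ∀ x, x < ℓ → β x = 0) (hβ' : ∀ x, Y ≤ x → β x = 0) (hα1 : ∀ x, ‖α x‖ ≤ 1) (hβ1 : ∀ x, ‖β x‖ ≤ 1)
    (hY : ℓ ≤ Y) (S T : ℝ) (hS : ∀ θ : ℝ, ‖∑ i ∈ range ℓ, c i * e ((i : ℝ) * θ)‖ ≤ S)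
    (hT : ∀ θ : ℝ, ‖∑ i ∈ range ℓ, d i * e ((i : ℝ) * θ)‖ ≤ T) :
    ‖∑ i ∈ range ℓ, ∑ j ∈ range ℓ, c i * d j * ∑ z ∈ range Y, α (z + i) * β (z + j)‖ ≤ S * T * (Y - ℓ) := by
  have hS0 : 0 ≤ S := (norm_nonneg _).trans (hS 0)
  have hT0 : 0 ≤ T := (norm_nonneg _).trans (hT 0)
  have hYℓ : (0 : ℝ) ≤ (Y : ℝ) - ℓ := by
    have : (ℓ : ℝ) ≤ Y := by exact_mod_cast hY
    linarith
  have h1 : ∑ i ∈ range ℓ, ∑ j ∈ range ℓ, c i * d j * ∑ z ∈ range Y, α (z + i) * β (z + j) =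
      ∑ z ∈ range Y, (∑ i ∈ range ℓ, c i * α (z + i)) * (∑ j ∈ range ℓ, d j * β (z + j)) := by
    symm
    simp only [sum_mul_sum]
    rw [sum_comm]
    refine sum_congr rfl fun i _ => ?_
    rw [sum_comm]
    refine sum_congr rfl fun j _ => ?_
    rw [mul_sum]
    refine sum_congr rfl fun z _ => ?_
    ring
  have hsup : ∀ γ : ℕ → ℂ, (∀ x, x < ℓ → γ x = 0) → (∀ x, ‖γ x‖ ≤ 1) → ∑ x ∈ range Y, ‖γ x‖ ^ 2 ≤ (Y : ℝ) - ℓ := by
    intro γ h0 h1
    have e1 : ∑ x ∈ Ico ℓ Y, ‖γ x‖ ^ 2 = ∑ x ∈ range Y, ‖γ x‖ ^ 2 := by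
      refine sum_subset ?_ ?_
      · intro x hx
        rw [mem_Ico] at hx
        rw [mem_range]; exact hx.2
      · intro x hx hx'
        rw [mem_range] at hx
        rw [mem_Ico] at hx'
        rw [h0 x (by omega)]
        simp
    rw [← e1]
    calc ∑ x ∈ Ico ℓ Y, ‖γ x‖ ^ 2 ≤ ∑ _x ∈ Ico ℓ Y, (1 : ℝ) :=
          sum_le_sum fun x _ => pow_le_one₀ (norm_nonneg _) (h1 x)
      _ = (Y : ℝ) - ℓ := by
          rw [sum_const, Nat.card_Ico, nsmul_eq_mul, mul_one, Nat.cast_sub hY]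
  rw [h1]
  refine (norm_sum_le _ _).trans ?_
  simp only [norm_mul]
  have h2 := conv_le α c ℓ Y hα hα' S hS
  have h3 := conv_le β d ℓ Y hβ hβ' T hT
  have h4 := hsup α hα hα1
  have h5 := hsup β hβ hβ1
  have h6 := sum_mul_sq_le_sq_mul_sq (range Y) (fun z => ‖∑ i ∈ range ℓ, c i * α (z + i)‖)
    (fun z => ‖∑ j ∈ range ℓ, d j * β (z + j)‖)
  have h7 : ∑ z ∈ range Y, ‖∑ i ∈ range ℓ, c i * α (z + i)‖ ^ 2 ≤ S ^ 2 * ((Y : ℝ) - ℓ) :=
    h2.trans (mul_le_mul_of_nonneg_left h4 (by positivity))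
  have h8 : ∑ z ∈ range Y, ‖∑ j ∈ range ℓ, d j * β (z + j)‖ ^ 2 ≤ T ^ 2 * ((Y : ℝ) - ℓ) :=
    h3.trans (mul_le_mul_of_nonneg_left h5 (by positivity))
  have h9 : (∑ z ∈ range Y, ‖∑ i ∈ range ℓ, c i * α (z + i)‖ * ‖∑ j ∈ range ℓ, d j * β (z + j)‖) ^ 2 ≤
      (S * T * ((Y : ℝ) - ℓ)) ^ 2 := by
    refine h6.trans ?_
    calc (∑ z ∈ range Y, ‖∑ i ∈ range ℓ, c i * α (z + i)‖ ^ 2) *
          (∑ z ∈ range Y, ‖∑ j ∈ range ℓ, d j * β (z + j)‖ ^ 2)
        ≤ (S ^ 2 * ((Y : ℝ) - ℓ)) * (T ^ 2 * ((Y : ℝ) - ℓ)) :=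
          mul_le_mul h7 h8 (sum_nonneg fun _ _ => by positivity) (by positivity)
      _ = (S * T * ((Y : ℝ) - ℓ)) ^ 2 := by ring
  have h10 := abs_le_of_sq_le_sq h9 (by positivity)
  exact (le_abs_self _).trans h10

/-- the correlation of shifted blocks -/
noncomputable def KK (f g : ℕ → ℂ) (L i j : ℕ) : ℂ := ∑ m ∈ range L, f (m + i) * g (m + j)

lemma KK_le (f g : ℕ → ℂ) (hf : ∀ n, ‖f n‖ ≤ 1) (hg : ∀ n, ‖g n‖ ≤ 1) (L i j : ℕ) : ‖KK f g L i j‖ ≤ L := by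
  unfold KK
  refine (norm_sum_le _ _).trans ?_
  have : ∀ m ∈ range L, ‖f (m + i) * g (m + j)‖ ≤ 1 := by
    intro m _
    rw [norm_mul]
    exact mul_le_one₀ (hf _) (norm_nonneg _) (hg _)
  refine (sum_le_sum this).trans (le_of_eq ?_)
  simp

/-- the square sum of the correlations of two blocks -/
theorem KK_sq (f g : ℕ → ℂ) (hf : ∀ n, ‖f n‖ ≤ 1) (hg : ∀ n, ‖g n‖ ≤ 1) (L ℓ : ℕ) (S T : ℕ → ℝ)
    (hS : ∀ m : ℕ, ∀ θ : ℝ, ‖∑ i ∈ range ℓ, f (m + i) * e ((i : ℝ) * θ)‖ ≤ S m)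
    (hT : ∀ m : ℕ, ∀ θ : ℝ, ‖∑ i ∈ range ℓ, g (m + i) * e ((i : ℝ) * θ)‖ ≤ T m) :
    ∑ i ∈ range ℓ, ∑ j ∈ range ℓ, ‖KK f g L i j‖ ^ 2 ≤ L * ∑ m ∈ range L, S m * T m + 2 * (ℓ : ℝ) ^ 3 * L := by
  set α : ℕ → ℂ := fun x => if ℓ ≤ x ∧ x < L + ℓ then f x else 0 with hα
  set β : ℕ → ℂ := fun x => if ℓ ≤ x ∧ x < L + ℓ then g x else 0 with hβ
  have hα0 : ∀ x, x < ℓ → α x = 0 := fun x hx => by simp only [hα]; rw [if_neg (by omega)]
  have hα0' : ∀ x, L + ℓ ≤ x → α x = 0 := fun x hx => by simp only [hα]; rw [if_neg (by omega)]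
  have hβ0 : ∀ x, x < ℓ → β x = 0 := fun x hx => by simp only [hβ]; rw [if_neg (by omega)]
  have hβ0' : ∀ x, L + ℓ ≤ x → β x = 0 := fun x hx => by simp only [hβ]; rw [if_neg (by omega)]
  have hα1 : ∀ x, ‖α x‖ ≤ 1 := fun x => by
    simp only [hα]; split_ifs
    · exact hf x
    · simp
  have hβ1 : ∀ x, ‖β x‖ ≤ 1 := fun x => by
    simp only [hβ]; split_ifs
    · exact hg x
    · simp
  -- the difference between the two correlations
  have hdiff : ∀ i ∈ range ℓ, ∀ j ∈ range ℓ, ‖KK f g L i j - ∑ z ∈ range (L + ℓ), α (z + i) * β (z + j)‖ ≤ 2 * ℓ := by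
    intro i hi j hj
    rw [mem_range] at hi hj
    have e1 : KK f g L i j - ∑ z ∈ range (L + ℓ), α (z + i) * β (z + j) =
        ∑ z ∈ range L, (f (z + i) * g (z + j) - α (z + i) * β (z + j)) -
        ∑ z ∈ range ℓ, α (L + z + i) * β (L + z + j) := by
      unfold KK
      rw [sum_range_add (n := L) (m := ℓ), sum_sub_distrib]
      ring
    rw [e1]
    refine (norm_sub_le _ _).trans ?_
    have e2 : ‖∑ z ∈ range ℓ, α (L + z + i) * β (L + z + j)‖ ≤ ℓ := by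
      refine (norm_sum_le _ _).trans ?_
      have : ∀ z ∈ range ℓ, ‖α (L + z + i) * β (L + z + j)‖ ≤ 1 := by
        intro z _
        rw [norm_mul]
        exact mul_le_one₀ (hα1 _) (norm_nonneg _) (hβ1 _)
      refine (sum_le_sum this).trans (le_of_eq ?_)
      simp
    have e3 : ‖∑ z ∈ range L, (f (z + i) * g (z + j) - α (z + i) * β (z + j))‖ ≤ ℓ := by
      refine (norm_sum_le _ _).trans ?_
      have : ∀ z ∈ range L, ‖f (z + i) * g (z + j) - α (z + i) * β (z + j)‖ ≤ if z < ℓ then 1 else 0 := by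
        intro z hz
        rw [mem_range] at hz
        split_ifs with h
        · by_cases h2 : ℓ ≤ z + i ∧ ℓ ≤ z + j
          · have a1 : α (z + i) = f (z + i) := by simp only [hα]; rw [if_pos (by omega)]
            have a2 : β (z + j) = g (z + j) := by simp only [hβ]; rw [if_pos (by omega)]
            rw [a1, a2, sub_self, norm_zero]
            exact zero_le_one
          · have : α (z + i) * β (z + j) = 0 := by
              by_cases h3 : ℓ ≤ z + i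
              · rw [hβ0 _ (by omega), mul_zero]
              · rw [hα0 _ (by omega), zero_mul]
            rw [this, sub_zero, norm_mul]
            exact mul_le_one₀ (hf _) (norm_nonneg _) (hg _)
        · have a1 : α (z + i) = f (z + i) := by simp only [hα]; rw [if_pos (by omega)]
          have a2 : β (z + j) = g (z + j) := by simp only [hβ]; rw [if_pos (by omega)]
          rw [a1, a2, sub_self, norm_zero]
      refine (sum_le_sum this).trans ?_
      rw [← sum_filter, sum_const, nsmul_eq_mul, mul_one]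
      have : ((range L).filter (fun z => z < ℓ)).card ≤ ℓ := by
        calc ((range L).filter (fun z => z < ℓ)).card ≤ (range ℓ).card := by
              refine card_le_card fun x hx => ?_
              rw [mem_filter] at hx
              rw [mem_range]; exact hx.2
          _ = ℓ := card_range _
      exact_mod_cast this
    linarith
  -- the inner sums
  have hin : ∀ m ∈ range L, ‖∑ i ∈ range ℓ, ∑ j ∈ range ℓ,
      (starRingEnd ℂ) (f (m + i)) * (starRingEnd ℂ) (g (m + j)) * KK f g L i j‖ ≤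
      S m * T m * L + 2 * (ℓ : ℝ) ^ 3 := by
    intro m _
    have hconj : ∀ (h : ℕ → ℂ) (U : ℝ), (∀ θ : ℝ, ‖∑ i ∈ range ℓ, h i * e ((i : ℝ) * θ)‖ ≤ U) →
        ∀ θ : ℝ, ‖∑ i ∈ range ℓ, (starRingEnd ℂ) (h i) * e ((i : ℝ) * θ)‖ ≤ U := by
      intro h U hU θ
      have e1 : ∑ i ∈ range ℓ, (starRingEnd ℂ) (h i) * e ((i : ℝ) * θ) =
          (starRingEnd ℂ) (∑ i ∈ range ℓ, h i * e ((i : ℝ) * (-θ))) := by
        rw [map_sum]
        refine sum_congr rfl fun i _ => ?_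
        rw [map_mul, ← e_neg']
        congr 2
        ring
      rw [e1, RCLike.norm_conj]
      exact hU _
    have h1 := bil α β (fun i => (starRingEnd ℂ) (f (m + i))) (fun j => (starRingEnd ℂ) (g (m + j))) ℓ (L + ℓ)
      hα0 hα0' hβ0 hβ0' hα1 hβ1 (by omega) (S m) (T m) (hconj _ _ (hS m)) (hconj _ _ (hT m))
    have e1 : ((L + ℓ : ℕ) : ℝ) - ℓ = L := by push_cast; ring
    rw [e1] at h1
    have h2 : ∑ i ∈ range ℓ, ∑ j ∈ range ℓ,
        (starRingEnd ℂ) (f (m + i)) * (starRingEnd ℂ) (g (m + j)) * KK f g L i j =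
        ∑ i ∈ range ℓ, ∑ j ∈ range ℓ, (starRingEnd ℂ) (f (m + i)) * (starRingEnd ℂ) (g (m + j)) *
          ∑ z ∈ range (L + ℓ), α (z + i) * β (z + j) +
        ∑ i ∈ range ℓ, ∑ j ∈ range ℓ, (starRingEnd ℂ) (f (m + i)) * (starRingEnd ℂ) (g (m + j)) *
          (KK f g L i j - ∑ z ∈ range (L + ℓ), α (z + i) * β (z + j)) := by
      rw [← sum_add_distrib]
      refine sum_congr rfl fun i _ => ?_
      rw [← sum_add_distrib]
      refine sum_congr rfl fun j _ => ?_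
      ring
    rw [h2]
    refine (norm_add_le _ _).trans (add_le_add h1 ?_)
    calc ‖∑ i ∈ range ℓ, ∑ j ∈ range ℓ, (starRingEnd ℂ) (f (m + i)) * (starRingEnd ℂ) (g (m + j)) *
          (KK f g L i j - ∑ z ∈ range (L + ℓ), α (z + i) * β (z + j))‖
        ≤ ∑ _i ∈ range ℓ, ∑ _j ∈ range ℓ, (2 * ℓ : ℝ) := by
          refine (norm_sum_le _ _).trans (sum_le_sum fun i hi => ?_)
          refine (norm_sum_le _ _).trans (sum_le_sum fun j hj => ?_)
          rw [norm_mul, norm_mul, RCLike.norm_conj, RCLike.norm_conj]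
          have a1 := hdiff i hi j hj
          have a2 : ‖f (m + i)‖ * ‖g (m + j)‖ ≤ 1 := mul_le_one₀ (hf _) (norm_nonneg _) (hg _)
          calc ‖f (m + i)‖ * ‖g (m + j)‖ * ‖KK f g L i j - ∑ z ∈ range (L + ℓ), α (z + i) * β (z + j)‖
              ≤ 1 * (2 * ℓ) := mul_le_mul a2 a1 (norm_nonneg _) zero_le_one
            _ = 2 * ℓ := one_mul _
      _ = 2 * (ℓ : ℝ) ^ 3 := by
          simp only [sum_const, card_range, nsmul_eq_mul]
          ring
  have h3 : ((∑ i ∈ range ℓ, ∑ j ∈ range ℓ, ‖KK f g L i j‖ ^ 2 : ℝ) : ℂ) =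
      ∑ m ∈ range L, ∑ i ∈ range ℓ, ∑ j ∈ range ℓ,
        (starRingEnd ℂ) (f (m + i)) * (starRingEnd ℂ) (g (m + j)) * KK f g L i j := by
    push_cast
    rw [sum_comm]
    have e0 : ∑ m ∈ range L, ∑ i ∈ range ℓ, ∑ j ∈ range ℓ,
        (starRingEnd ℂ) (f (m + i)) * (starRingEnd ℂ) (g (m + j)) * KK f g L i j =
        ∑ j ∈ range ℓ, ∑ i ∈ range ℓ, ∑ m ∈ range L,
        (starRingEnd ℂ) (f (m + i)) * (starRingEnd ℂ) (g (m + j)) * KK f g L i j := by
      rw [sum_comm]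
      have : ∀ i ∈ range ℓ, ∑ m ∈ range L, ∑ j ∈ range ℓ,
          (starRingEnd ℂ) (f (m + i)) * (starRingEnd ℂ) (g (m + j)) * KK f g L i j =
          ∑ j ∈ range ℓ, ∑ m ∈ range L,
          (starRingEnd ℂ) (f (m + i)) * (starRingEnd ℂ) (g (m + j)) * KK f g L i j := fun i _ => sum_comm
      rw [sum_congr rfl this, sum_comm]
    rw [e0]
    refine sum_congr rfl fun j _ => sum_congr rfl fun i _ => ?_
    have e1 : ((‖KK f g L i j‖ : ℝ) : ℂ) ^ 2 = (starRingEnd ℂ) (KK f g L i j) * KK f g L i j := by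
      rw [mul_comm, Complex.mul_conj, Complex.normSq_eq_norm_sq]; push_cast; rfl
    rw [e1]
    conv_lhs => rw [show (starRingEnd ℂ) (KK f g L i j) = ∑ m ∈ range L,
      (starRingEnd ℂ) (f (m + i)) * (starRingEnd ℂ) (g (m + j)) from by
        unfold KK; rw [map_sum]; exact sum_congr rfl fun m _ => map_mul _ _ _]
    rw [sum_mul]
  have h4 : (∑ i ∈ range ℓ, ∑ j ∈ range ℓ, ‖KK f g L i j‖ ^ 2 : ℝ) =
      ‖∑ m ∈ range L, ∑ i ∈ range ℓ, ∑ j ∈ range ℓ,
        (starRingEnd ℂ) (f (m + i)) * (starRingEnd ℂ) (g (m + j)) * KK f g L i j‖ := by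
    rw [← h3, Complex.norm_real, Real.norm_eq_abs, abs_of_nonneg]
    exact sum_nonneg fun _ _ => sum_nonneg fun _ _ => by positivity
  rw [h4]
  refine (norm_sum_le _ _).trans ((sum_le_sum hin).trans (le_of_eq ?_))
  rw [sum_add_distrib, ← sum_mul, sum_const, card_range, nsmul_eq_mul]
  ring

end Pool.Agent.Q259.LU
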