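import Pool.Agent.Q259.LU.Arc

set_option autoImplicit false

/-!
# Positive combinations of characters
-/

namespace Pool.Agent.Q259.LU

open Finset Pool.Agent.H332R2.Lit

lemma e_lip (x y : ℝ) : ‖e x - e y‖ ≤ 2 * Real.pi * |x - y| := by
  have h1 : e x - e y = e y * (e (x - y) - 1) := by
    rw [mul_sub, ← e_add, mul_one]
    congr 2
    ring
  rw [h1, norm_mul, norm_e, one_mul]
  unfold e
  have h2 : (2 * Real.pi * ((x - y : ℝ) : ℂ) * Complex.I) = (((2 * Real.pi * (x - y) : ℝ)) : ℂ) * Complex.I := by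
    push_cast; ring
  rw [h2]
  have h3 := Real.norm_exp_I_mul_ofReal_sub_one_le (x := 2 * Real.pi * (x - y))
  rw [mul_comm Complex.I] at h3
  refine h3.trans (le_of_eq ?_)
  rw [Real.norm_eq_abs, abs_mul, abs_of_pos (by positivity : (0 : ℝ) < 2 * Real.pi)]

/-- the sum over a full period -/
lemma zsum (M : ℕ) (hM : 1 ≤ M) (n : ℤ) : ∃ b : ℝ, 0 ≤ b ∧ ∑ t ∈ range M, e ((t : ℝ) * n / M) = (b : ℂ) := by
  have hM0 : (0 : ℝ) < M := by exact_mod_cast hM
  have hMz : (0 : ℤ) < M := by exact_mod_cast hM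
  set x := (n % M).toNat with hx
  have hx1 : ((x : ℕ) : ℤ) = n % M := Int.toNat_of_nonneg (Int.emod_nonneg _ hMz.ne')
  have hx2 : x < M := by
    have := Int.emod_lt_of_pos n hMz
    omega
  have h1 : ∀ t : ℕ, e ((t : ℝ) * n / M) = e ((t : ℝ) * x / M) * (starRingEnd ℂ) (e ((t : ℝ) * (0 : ℕ) / M)) := by
    intro t
    have e1 : (t : ℝ) * n / M = (t : ℝ) * x / M + (((t : ℤ) * (n / M) : ℤ) : ℝ) := by
      have e2 : (n : ℝ) = (x : ℝ) + M * ((n / M : ℤ) : ℝ) := by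
        have e3 : n = (x : ℤ) + M * (n / M) := by
          rw [hx1]
          exact (Int.emod_add_mul_ediv n M).symm
        calc (n : ℝ) = (((x : ℤ) + M * (n / M) : ℤ) : ℝ) := by rw [← e3]
          _ = _ := by push_cast; ring
      rw [e2]
      push_cast
      field_simp
    rw [e1, e_add, e_int]
    simp [e_zero]
  simp only [h1]
  rw [orth2 M x 0 hx2 (by omega)]
  split_ifs with h
  · exact ⟨M, hM0.le, by simp⟩
  · exact ⟨0, le_rfl, by simp⟩

def Rel (d M : ℕ) (τ : ℝ) (P : ℝ → ℂ) (Q : ℕ → ℂ) : Prop :=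
  ∃ (ι : Type) (_ : Fintype ι) (ρ Θ : ι → ℝ) (n : ι → ℤ), (∀ i, 0 ≤ ρ i) ∧ ∑ i, ρ i ≤ 1 ∧
    (∀ s, P s = ∑ i, (ρ i : ℂ) * e (s * Θ i)) ∧ (∀ t : ℕ, Q t = ∑ i, (ρ i : ℂ) * e ((t : ℝ) * n i / M)) ∧
    ∀ i, |(d : ℝ) * M * Θ i - n i| ≤ τ

lemma Rel.mul {d M : ℕ} {τ τ' : ℝ} {P P' : ℝ → ℂ} {Q Q' : ℕ → ℂ} (h : Rel d M τ P Q) (h' : Rel d M τ' P' Q') :
    Rel d M (τ + τ') (fun s => P s * P' s) (fun t => Q t * Q' t) := by
  obtain ⟨ι, _, ρ, Θ, n, a1, a2, a3, a4, a5⟩ := h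
  obtain ⟨ι', _, ρ', Θ', n', b1, b2, b3, b4, b5⟩ := h'
  refine ⟨ι × ι', inferInstance, fun x => ρ x.1 * ρ' x.2, fun x => Θ x.1 + Θ' x.2, fun x => n x.1 + n' x.2,
    fun x => mul_nonneg (a1 _) (b1 _), ?_, ?_, ?_, ?_⟩
  · rw [Fintype.sum_prod_type, ← Fintype.sum_mul_sum]
    exact mul_le_one₀ a2 (sum_nonneg fun i _ => b1 i) b2
  · intro s
    simp only [a3, b3]
    rw [Fintype.sum_prod_type, Fintype.sum_mul_sum]
    refine sum_congr rfl fun i _ => sum_congr rfl fun j _ => ?_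
    rw [mul_add, e_add]
    push_cast
    ring
  · intro t
    simp only [a4, b4]
    rw [Fintype.sum_prod_type, Fintype.sum_mul_sum]
    refine sum_congr rfl fun i _ => sum_congr rfl fun j _ => ?_
    have : (t : ℝ) * ((n i + n' j : ℤ) : ℝ) / M = (t : ℝ) * n i / M + (t : ℝ) * n' j / M := by
      push_cast
      ring
    rw [this, e_add]
    push_cast
    ring
  · intro x
    have c1 := a5 x.1
    have c2 := b5 x.2
    have : (d : ℝ) * M * (Θ x.1 + Θ' x.2) - ((n x.1 + n' x.2 : ℤ) : ℝ) =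
        ((d : ℝ) * M * Θ x.1 - n x.1) + ((d : ℝ) * M * Θ' x.2 - n' x.2) := by
      push_cast
      ring
    rw [this]
    exact (abs_add_le _ _).trans (add_le_add c1 c2)

lemma Rel.conj {d M : ℕ} {τ : ℝ} {P : ℝ → ℂ} {Q : ℕ → ℂ} (h : Rel d M τ P Q) :
    Rel d M τ (fun s => (starRingEnd ℂ) (P s)) (fun t => (starRingEnd ℂ) (Q t)) := by
  obtain ⟨ι, _, ρ, Θ, n, a1, a2, a3, a4, a5⟩ := h
  refine ⟨ι, inferInstance, ρ, fun i => -Θ i, fun i => -n i, a1, a2, ?_, ?_, ?_⟩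
  · intro s
    simp only [a3]
    rw [map_sum]
    refine sum_congr rfl fun i _ => ?_
    rw [map_mul, Complex.conj_ofReal, conj_e, mul_neg]
  · intro t
    simp only [a4]
    rw [map_sum]
    refine sum_congr rfl fun i _ => ?_
    rw [map_mul, Complex.conj_ofReal, conj_e]
    congr 2
    push_cast
    ring
  · intro i
    have := a5 i
    rw [← abs_neg]
    convert this using 2
    push_cast
    ring

lemma Rel.one (d M : ℕ) : Rel d M 0 (fun _ => 1) (fun _ => 1) := by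
  refine ⟨Unit, inferInstance, fun _ => 1, fun _ => 0, fun _ => 0, fun _ => zero_le_one, by simp, ?_, ?_, ?_⟩
  · intro s; simp [e_zero]
  · intro t; simp [e_zero]
  · intro i; simp

lemma Rel.pow {d M : ℕ} {τ : ℝ} {P : ℝ → ℂ} {Q : ℕ → ℂ} (h : Rel d M τ P Q) (k : ℕ) :
    Rel d M (k * τ) (fun s => P s ^ k) (fun t => Q t ^ k) := by
  induction k with
  | zero =>
    simpa using Rel.one d M
  | succ k ih =>
    have := ih.mul h
    simp only [← pow_succ] at this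
    convert this using 1
    push_cast
    ring

lemma Rel.abs {d M : ℕ} {τ : ℝ} {P : ℝ → ℂ} {Q : ℕ → ℂ} (h : Rel d M τ P Q) (k : ℕ) :
    Rel d M (k * (τ + τ)) (fun s => ((‖P s‖ ^ (2 * k) : ℝ) : ℂ)) (fun t => ((‖Q t‖ ^ (2 * k) : ℝ) : ℂ)) := by
  have h1 := (h.mul h.conj).pow k
  have e1 : ∀ z : ℂ, (z * (starRingEnd ℂ) z) ^ k = ((‖z‖ ^ (2 * k) : ℝ) : ℂ) := by
    intro z
    rw [Complex.mul_conj, Complex.normSq_eq_norm_sq, pow_mul]
    push_cast
    rfl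
  simpa only [e1] using h1

lemma esum_mul (a b : ℕ) (x : ℝ) : ∑ s ∈ range (a * b), e ((s : ℝ) * x) =
    (∑ i ∈ range a, e ((i : ℝ) * x)) * ∑ j ∈ range b, e ((j : ℝ) * (a * x)) := by
  induction b with
  | zero => simp
  | succ b ih =>
    rw [Nat.mul_succ, sum_range_add, ih, sum_range_succ, mul_add]
    congr 1
    rw [sum_mul]
    refine sum_congr rfl fun i _ => ?_
    rw [← e_add]
    congr 1
    push_cast
    ring

theorem Rel.cmp {d M : ℕ} {τ : ℝ} {P : ℝ → ℂ} {Q : ℕ → ℂ} (h : Rel d M τ P Q) (hτ : 0 ≤ τ) (hd : 1 ≤ d) (hM : 1 ≤ M)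
    (S : ℕ) (hS : 1 ≤ S) (hdiv : d * M ∣ S) :
    (∑ s ∈ range S, ∑ s' ∈ range S, (P ((s' : ℝ) - s)).re) / (S : ℝ) ^ 2 ≤
      (∑ t ∈ range M, (Q t).re) / M + 2 * Real.pi * τ := by
  obtain ⟨ι, _, ρ, Θ, n, a1, a2, a3, a4, a5⟩ := h
  have hM0 : (0 : ℝ) < M := by exact_mod_cast hM
  have hS0 : (0 : ℝ) < S := by exact_mod_cast hS
  have key : ∀ i, ker S (Θ i) ≤ (∑ t ∈ range M, (e ((t : ℝ) * n i / M)).re) / M + 2 * Real.pi * τ := by
    intro i
    obtain ⟨q, rfl⟩ := hdiv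
    have h1 : ‖∑ s ∈ range (d * M * q), e ((s : ℝ) * Θ i)‖ ≤ (d * q : ℝ) * ‖∑ t ∈ range M, e ((t : ℝ) * (d * Θ i))‖ := by
      rw [esum_mul, esum_mul, norm_mul, norm_mul]
      have e1 := norm_esum_le d (Θ i)
      have e2 := norm_esum_le q (((d * M : ℕ) : ℝ) * Θ i)
      have e3 : 0 ≤ ‖∑ t ∈ range M, e ((t : ℝ) * (d * Θ i))‖ := norm_nonneg _
      calc ‖∑ i_1 ∈ range d, e ((i_1 : ℝ) * Θ i)‖ * ‖∑ j ∈ range M, e ((j : ℝ) * (d * Θ i))‖ *
            ‖∑ j ∈ range q, e ((j : ℝ) * (((d * M : ℕ) : ℝ) * Θ i))‖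
          ≤ (d * ‖∑ j ∈ range M, e ((j : ℝ) * (d * Θ i))‖) * q :=
            mul_le_mul (mul_le_mul_of_nonneg_right e1 e3) e2 (norm_nonneg _) (by positivity)
        _ = _ := by ring
    have hq : 1 ≤ q := by
      rcases Nat.eq_zero_or_pos q with h0 | h0
      · subst h0
        simp at hS
      · exact h0
    have hq0 : (0 : ℝ) < q := by exact_mod_cast hq
    have hd0 : (0 : ℝ) < d := by exact_mod_cast hd
    set G := ‖∑ t ∈ range M, e ((t : ℝ) * (d * Θ i))‖ with hG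
    have hG0 : 0 ≤ G := norm_nonneg _
    have hG1 : G ≤ M := norm_esum_le M _
    have h2 : ker (d * M * q) (Θ i) ≤ G / M := by
      unfold ker
      rw [div_le_div_iff₀ (by positivity) hM0]
      have h3 : ‖∑ s ∈ range (d * M * q), e ((s : ℝ) * Θ i)‖ ^ 2 ≤ (d * q * G) ^ 2 :=
        pow_le_pow_left₀ (norm_nonneg _) h1 2
      calc ‖∑ s ∈ range (d * M * q), e ((s : ℝ) * Θ i)‖ ^ 2 * M ≤ (d * q * G) ^ 2 * M :=
            mul_le_mul_of_nonneg_right h3 hM0.le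
        _ = (d * q) ^ 2 * G * M * G := by ring
        _ ≤ (d * q) ^ 2 * G * M * M := mul_le_mul_of_nonneg_left hG1 (by positivity)
        _ = G * ((d * M * q : ℕ) : ℝ) ^ 2 := by push_cast; ring
    obtain ⟨b, hb0, hb⟩ := zsum M hM (n i)
    have h4 : G ≤ b + 2 * Real.pi * τ * M := by
      have e1 : ‖∑ t ∈ range M, e ((t : ℝ) * (d * Θ i)) - ∑ t ∈ range M, e ((t : ℝ) * n i / M)‖ ≤ 2 * Real.pi * τ * M := by
        rw [← sum_sub_distrib]
        refine (norm_sum_le _ _).trans ((sum_le_sum fun t ht => ?_ : _ ≤ ∑ _t ∈ range M, 2 * Real.pi * τ).trans (le_of_eq ?_))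
        · refine (e_lip _ _).trans ?_
          rw [mul_assoc, mul_assoc]
          refine mul_le_mul_of_nonneg_left ?_ (by norm_num)
          refine mul_le_mul_of_nonneg_left ?_ Real.pi_pos.le
          rw [mem_range] at ht
          have e2 : (t : ℝ) * (d * Θ i) - (t : ℝ) * n i / M = (t / M) * ((d : ℝ) * M * Θ i - n i) := by
            field_simp
          rw [e2, abs_mul, abs_of_nonneg (by positivity : (0 : ℝ) ≤ (t : ℝ) / M)]
          have e3 : (t : ℝ) / M ≤ 1 := by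
            rw [div_le_one hM0]
            exact_mod_cast ht.le
          calc (t : ℝ) / M * |(d : ℝ) * M * Θ i - n i| ≤ 1 * τ :=
                mul_le_mul e3 (a5 i) (abs_nonneg _) zero_le_one
            _ = τ := one_mul _
        · rw [sum_const, card_range, nsmul_eq_mul]
          ring
      rw [hb] at e1
      have e2 : G ≤ ‖∑ t ∈ range M, e ((t : ℝ) * (d * Θ i)) - (b : ℂ)‖ + ‖(b : ℂ)‖ := by
        have := norm_add_le (∑ t ∈ range M, e ((t : ℝ) * (d * Θ i)) - (b : ℂ)) (b : ℂ)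
        rwa [sub_add_cancel] at this
      have e3 : ‖(b : ℂ)‖ = b := by rw [Complex.norm_real, Real.norm_eq_abs, abs_of_nonneg hb0]
      linarith
    have h5 : ∑ t ∈ range M, (e ((t : ℝ) * n i / M)).re = b := by
      rw [← Complex.re_sum, hb, Complex.ofReal_re]
    rw [h5]
    refine h2.trans ?_
    rw [div_add' _ _ _ hM0.ne']
    exact div_le_div_of_nonneg_right h4 hM0.le
  have h6 : (∑ s ∈ range S, ∑ s' ∈ range S, (P ((s' : ℝ) - s)).re) / (S : ℝ) ^ 2 = ∑ i, ρ i * ker S (Θ i) := by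
    have e1 : ∑ s ∈ range S, ∑ s' ∈ range S, (P ((s' : ℝ) - s)).re =
        ∑ i, ρ i * ‖∑ s ∈ range S, e ((s : ℝ) * Θ i)‖ ^ 2 := by
      have e2 : ∑ s ∈ range S, ∑ s' ∈ range S, P ((s' : ℝ) - s) =
          ((∑ i, ρ i * ‖∑ s ∈ range S, e ((s : ℝ) * Θ i)‖ ^ 2 : ℝ) : ℂ) := by
        simp only [a3]
        rw [sum_congr rfl fun s _ => sum_comm]
        rw [sum_comm, Complex.ofReal_sum]
        refine sum_congr rfl fun i _ => ?_
        simp only [← mul_sum]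
        rw [kersum]
        push_cast
        ring
      have e3 := congrArg Complex.re e2
      rw [Complex.ofReal_re] at e3
      rw [← e3, Complex.re_sum]
      refine sum_congr rfl fun s _ => ?_
      rw [Complex.re_sum]
    rw [e1, sum_div]
    refine sum_congr rfl fun i _ => ?_
    unfold ker
    ring
  have h7 : (∑ t ∈ range M, (Q t).re) / M = ∑ i, ρ i * ((∑ t ∈ range M, (e ((t : ℝ) * n i / M)).re) / M) := by
    simp only [a4]
    have e1 : ∀ t : ℕ, (∑ i, (ρ i : ℂ) * e ((t : ℝ) * n i / M)).re = ∑ i, ρ i * (e ((t : ℝ) * n i / M)).re := by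
      intro t
      rw [Complex.re_sum]
      refine sum_congr rfl fun i _ => ?_
      rw [Complex.re_ofReal_mul]
    simp only [e1]
    rw [sum_comm, sum_div]
    refine sum_congr rfl fun i _ => ?_
    rw [← mul_sum, mul_div_assoc]
  rw [h6, h7]
  calc ∑ i, ρ i * ker S (Θ i) ≤ ∑ i, ρ i * ((∑ t ∈ range M, (e ((t : ℝ) * n i / M)).re) / M + 2 * Real.pi * τ) :=
        sum_le_sum fun i _ => mul_le_mul_of_nonneg_left (key i) (a1 i)
    _ = ∑ i, ρ i * ((∑ t ∈ range M, (e ((t : ℝ) * n i / M)).re) / M) + (∑ i, ρ i) * (2 * Real.pi * τ) := by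
        rw [sum_mul, ← sum_add_distrib]
        refine sum_congr rfl fun i _ => ?_
        ring
    _ ≤ ∑ i, ρ i * ((∑ t ∈ range M, (e ((t : ℝ) * n i / M)).re) / M) + 2 * Real.pi * τ := by
        have h8 : 0 ≤ 2 * Real.pi * τ := mul_nonneg (by positivity) hτ
        have h9 := mul_le_mul_of_nonneg_right a2 h8
        linarith

/-- positive combinations of the characters modulo `M` -/
def Pos (M : ℕ) (P : ℕ → ℂ) : Prop :=
  ∃ (ι : Type) (_ : Fintype ι) (ρ : ι → ℝ) (n : ι → ℤ), (∀ i, 0 ≤ ρ i) ∧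
    ∀ t : ℕ, P t = ∑ i, (ρ i : ℂ) * e ((t : ℝ) * n i / M)

lemma Pos.add {M : ℕ} {P Q : ℕ → ℂ} (h : Pos M P) (h' : Pos M Q) : Pos M (fun t => P t + Q t) := by
  obtain ⟨ι, _, ρ, n, a1, a2⟩ := h
  obtain ⟨ι', _, ρ', n', b1, b2⟩ := h'
  refine ⟨ι ⊕ ι', inferInstance, Sum.elim ρ ρ', Sum.elim n n', ?_, ?_⟩
  · rintro (i | i)
    · exact a1 i
    · exact b1 i
  · intro t
    rw [Fintype.sum_sum_type]
    simp only [a2, b2, Sum.elim_inl, Sum.elim_inr]

lemma Pos.mul {M : ℕ} {P Q : ℕ → ℂ} (h : Pos M P) (h' : Pos M Q) : Pos M (fun t => P t * Q t) := by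
  obtain ⟨ι, _, ρ, n, a1, a2⟩ := h
  obtain ⟨ι', _, ρ', n', b1, b2⟩ := h'
  refine ⟨ι × ι', inferInstance, fun x => ρ x.1 * ρ' x.2, fun x => n x.1 + n' x.2,
    fun x => mul_nonneg (a1 _) (b1 _), fun t => ?_⟩
  simp only [a2, b2]
  rw [Fintype.sum_prod_type, Fintype.sum_mul_sum]
  refine sum_congr rfl fun i _ => sum_congr rfl fun j _ => ?_
  have : (t : ℝ) * ((n i + n' j : ℤ) : ℝ) / M = (t : ℝ) * n i / M + (t : ℝ) * n' j / M := by
    push_cast
    ring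
  rw [this, e_add]
  push_cast
  ring

lemma Pos.conj {M : ℕ} {P : ℕ → ℂ} (h : Pos M P) : Pos M (fun t => (starRingEnd ℂ) (P t)) := by
  obtain ⟨ι, _, ρ, n, a1, a2⟩ := h
  refine ⟨ι, inferInstance, ρ, fun i => -n i, a1, fun t => ?_⟩
  simp only [a2]
  rw [map_sum]
  refine sum_congr rfl fun i _ => ?_
  rw [map_mul, Complex.conj_ofReal, conj_e]
  congr 2
  push_cast
  ring

lemma Pos.one (M : ℕ) : Pos M (fun _ => 1) :=
  ⟨Unit, inferInstance, fun _ => 1, fun _ => 0, fun _ => zero_le_one, fun t => by simp [e_zero]⟩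

lemma Pos.zero (M : ℕ) : Pos M (fun _ => 0) :=
  ⟨Unit, inferInstance, fun _ => 0, fun _ => 0, fun _ => le_rfl, fun t => by simp⟩

lemma Pos.pow {M : ℕ} {P : ℕ → ℂ} (h : Pos M P) (k : ℕ) : Pos M (fun t => P t ^ k) := by
  induction k with
  | zero => simpa using Pos.one M
  | succ k ih =>
    have := ih.mul h
    simpa only [← pow_succ] using this

lemma Pos.mean {M : ℕ} (hM : 1 ≤ M) {P : ℕ → ℂ} (h : Pos M P) : 0 ≤ ∑ t ∈ range M, (P t).re := by
  obtain ⟨ι, _, ρ, n, a1, a2⟩ := h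
  have e1 : ∀ t : ℕ, (P t).re = ∑ i, ρ i * (e ((t : ℝ) * n i / M)).re := by
    intro t
    rw [a2, Complex.re_sum]
    refine sum_congr rfl fun i _ => ?_
    rw [Complex.re_ofReal_mul]
  simp only [e1]
  rw [sum_comm]
  refine sum_nonneg fun i _ => ?_
  rw [← mul_sum]
  refine mul_nonneg (a1 i) ?_
  obtain ⟨b, hb0, hb⟩ := zsum M hM (n i)
  rw [← Complex.re_sum, hb, Complex.ofReal_re]
  exact hb0

lemma Pos.pow_sub {M : ℕ} {A B : ℕ → ℂ} (h : Pos M (fun t => A t - B t)) (hB : Pos M B) (k : ℕ) :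
    Pos M (fun t => A t ^ k - B t ^ k) := by
  have hA : Pos M A := by
    have := h.add hB
    simpa only [sub_add_cancel] using this
  induction k with
  | zero => simpa using Pos.zero M
  | succ k ih =>
    have h1 := (hA.mul ih).add (h.mul (hB.pow k))
    convert h1 using 2 with t
    ring

theorem Pos.cmp {M : ℕ} (hM : 1 ≤ M) {A B : ℕ → ℂ} (h : Pos M (fun t => A t - B t)) (hB : Pos M B) (k : ℕ) :
    ∑ t ∈ range M, ‖B t‖ ^ (2 * k) ≤ ∑ t ∈ range M, ‖A t‖ ^ (2 * k) := by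
  have hA : Pos M A := by
    have := h.add hB
    simpa only [sub_add_cancel] using this
  have h' : Pos M (fun t => (starRingEnd ℂ) (A t) - (starRingEnd ℂ) (B t)) := by
    have := h.conj
    simpa only [map_sub] using this
  have h1 := ((hA.pow k).mul (h'.pow_sub hB.conj k)).add ((h.pow_sub hB k).mul (hB.conj.pow k))
  have h2 := h1.mean hM
  have e1 : ∀ z : ℂ, ‖z‖ ^ (2 * k) = (z ^ k * (starRingEnd ℂ) z ^ k).re := by
    intro z
    rw [← mul_pow, Complex.mul_conj, Complex.normSq_eq_norm_sq, pow_mul, ← Complex.ofReal_pow, Complex.ofReal_re]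
  have e2 : ∀ t, (A t ^ k * ((starRingEnd ℂ) (A t) ^ k - (starRingEnd ℂ) (B t) ^ k) +
      (A t ^ k - B t ^ k) * (starRingEnd ℂ) (B t) ^ k).re = ‖A t‖ ^ (2 * k) - ‖B t‖ ^ (2 * k) := by
    intro t
    rw [e1, e1, ← Complex.sub_re]
    congr 1
    ring
  simp only [e2] at h2
  rw [sum_sub_distrib] at h2
  linarith

end Pool.Agent.Q259.LU
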