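import Pool.Agent.Q259.LU.Diff

set_option autoImplicit false

/-!
# Sums along one sequence whose differences of some order tend to zero
-/

namespace Pool.Agent.Q259.LU

open Finset MeasureTheory Filter Topology Polynomial

lemma difSup_bdd (k : ℕ) (δ : ℝ) (F : C(UnitAddCircle, ℂ)) (u : ℕ → ℝ) (hu : ∀ n, |u n| ≤ 1) (n H : ℕ) :
    BddAbove (Set.range fun φ : {φ : ℕ → ℝ // ∀ m, |dd φ (k + 1) m| ≤ δ} =>
      ‖∑ h ∈ Icc 1 H, F ((φ.1 h : ℝ) : UnitAddCircle) * ((u (n + h) : ℝ) : ℂ)‖) := by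
  refine ⟨H * ‖F‖, ?_⟩
  rintro _ ⟨φ, rfl⟩
  refine (norm_sum_le _ _).trans ?_
  have : ∀ h ∈ Icc 1 H, ‖F ((φ.1 h : ℝ) : UnitAddCircle) * ((u (n + h) : ℝ) : ℂ)‖ ≤ ‖F‖ := by
    intro h _
    rw [norm_mul, Complex.norm_real, Real.norm_eq_abs]
    calc ‖F ((φ.1 h : ℝ) : UnitAddCircle)‖ * |u (n + h)| ≤ ‖F‖ * 1 :=
          mul_le_mul (F.norm_coe_le_norm _) (hu _) (abs_nonneg _) (norm_nonneg _)
      _ = ‖F‖ := mul_one _
  refine (sum_le_sum this).trans (le_of_eq ?_)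
  rw [sum_const, Nat.card_Icc, nsmul_eq_mul, Nat.add_sub_cancel]

lemma dd_shift' (φ : ℕ → ℝ) (b k : ℕ) : ∀ n, dd (fun m => φ (b + m)) k n = dd φ k (b + n) := by
  induction k with
  | zero => intro n; rfl
  | succ k ih => intro n; rw [dd_succ, ih, ih, dd_succ, ← add_assoc]

theorem seq_bound (k : ℕ) (F : C(UnitAddCircle, ℂ)) (u : ℕ → ℝ) (hu : ∀ n, |u n| ≤ 1) (K : ℝ) (hK : 0 ≤ K)
    (hmain : ∀ ε : ℝ, 0 < ε → ∃ δ : ℝ, 0 < δ ∧ ∃ H₀ : ℕ, ∀ N H : ℕ, H₀ ≤ H → H ≤ N →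
      ∑ n ∈ Icc 1 N, difSup k δ F u n H ≤ (K + ε) * H * N)
    (φ : ℕ → ℝ) (hφ : Tendsto (dd φ (k + 1)) atTop (𝓝 0)) (ε : ℝ) (hε : 0 < ε) :
    ∃ N₀ : ℕ, ∀ N, N₀ ≤ N →
      ‖∑ n ∈ Icc 1 N, F ((φ n : ℝ) : UnitAddCircle) * ((u n : ℝ) : ℂ)‖ ≤ (K + ε) * N := by
  obtain ⟨δ, hδ, H₀, h⟩ := hmain (ε / 4) (by positivity)
  obtain ⟨n₀, hn₀⟩ := Metric.tendsto_atTop.mp hφ δ hδ
  set H := H₀ + 1 with hH
  have hH0 : (0 : ℝ) < H := by exact_mod_cast (by omega : 0 < H)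
  obtain ⟨N₁, hN₁⟩ := exists_nat_ge ((n₀ * ‖F‖ + 2 * H * ‖F‖ + 2 * ‖F‖) / (ε / 4))
  refine ⟨H + N₁, fun N hN => ?_⟩
  have h1 := h N H (by omega) (by omega)
  set g : ℕ → ℂ := fun n => F ((φ n : ℝ) : UnitAddCircle) * ((u n : ℝ) : ℂ) with hg
  have hgb : ∀ n, ‖g n‖ ≤ ‖F‖ := by
    intro n
    rw [hg]
    simp only []
    rw [norm_mul, Complex.norm_real, Real.norm_eq_abs]
    calc ‖F ((φ n : ℝ) : UnitAddCircle)‖ * |u n| ≤ ‖F‖ * 1 :=
          mul_le_mul (F.norm_coe_le_norm _) (hu _) (abs_nonneg _) (norm_nonneg _)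
      _ = ‖F‖ := mul_one _
  -- averages over windows
  have h2 := avg_norm (fun n => g (1 + n)) ‖F‖ (norm_nonneg _) (fun n => hgb _) N H 1
  have h3 : ∑ n ∈ Icc 1 N, g n = ∑ n ∈ range N, g (1 + n) := icc_range' g N
  have h4 : ∀ a, ‖∑ j ∈ range H, g (1 + (a + 1 * j))‖ = ‖∑ h ∈ Icc 1 H, g (a + h)‖ := by
    intro a
    rw [icc_range' (fun h => g (a + h))]
    congr 1
    refine sum_congr rfl fun j _ => ?_
    congr 1
    omega
  have h5 : ∀ a, n₀ ≤ a → ‖∑ h ∈ Icc 1 H, g (a + h)‖ ≤ difSup k δ F u a H := by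
    intro a ha
    have hφa : ∀ m, |dd (fun m => φ (a + m)) (k + 1) m| ≤ δ := by
      intro m
      rw [dd_shift']
      have := hn₀ (a + m) (by omega)
      rw [Real.dist_eq, sub_zero] at this
      exact this.le
    exact le_ciSup (difSup_bdd k δ F u hu a H) ⟨fun m => φ (a + m), hφa⟩
  have hS0 : ∀ a, 0 ≤ difSup k δ F u a H := fun a => Real.iSup_nonneg fun _ => norm_nonneg _
  have h6 : ∀ a, ‖∑ h ∈ Icc 1 H, g (a + h)‖ ≤ difSup k δ F u a H + if a < n₀ then H * ‖F‖ else 0 := by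
    intro a
    split_ifs with ha
    · have : ‖∑ h ∈ Icc 1 H, g (a + h)‖ ≤ H * ‖F‖ := by
        refine (norm_sum_le _ _).trans ((sum_le_sum fun h _ => hgb _).trans (le_of_eq ?_))
        rw [sum_const, Nat.card_Icc, nsmul_eq_mul, Nat.add_sub_cancel]
      linarith [hS0 a]
    · rw [add_zero]
      exact h5 a (by omega)
  have h7 : ∑ a ∈ range N, ‖∑ h ∈ Icc 1 H, g (a + h)‖ ≤ (K + ε / 4) * H * N + H * ‖F‖ + n₀ * (H * ‖F‖) := by
    calc ∑ a ∈ range N, ‖∑ h ∈ Icc 1 H, g (a + h)‖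
        ≤ ∑ a ∈ insert 0 (Icc 1 N), ‖∑ h ∈ Icc 1 H, g (a + h)‖ := by
          refine sum_le_sum_of_subset_of_nonneg ?_ fun _ _ _ => norm_nonneg _
          intro x hx
          rw [mem_range] at hx
          rw [mem_insert, mem_Icc]
          omega
      _ = ‖∑ h ∈ Icc 1 H, g (0 + h)‖ + ∑ a ∈ Icc 1 N, ‖∑ h ∈ Icc 1 H, g (a + h)‖ := by
          rw [sum_insert (by simp)]
      _ ≤ H * ‖F‖ + ∑ a ∈ Icc 1 N, (difSup k δ F u a H + if a < n₀ then H * ‖F‖ else 0) := by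
          refine add_le_add ?_ (sum_le_sum fun a _ => h6 a)
          refine (norm_sum_le _ _).trans ((sum_le_sum fun h _ => hgb _).trans (le_of_eq ?_))
          rw [sum_const, Nat.card_Icc, nsmul_eq_mul, Nat.add_sub_cancel]
      _ = H * ‖F‖ + (∑ a ∈ Icc 1 N, difSup k δ F u a H + ∑ a ∈ Icc 1 N, if a < n₀ then H * ‖F‖ else 0) := by
          rw [sum_add_distrib]
      _ ≤ H * ‖F‖ + ((K + ε / 4) * H * N + n₀ * (H * ‖F‖)) := by
          refine add_le_add le_rfl (add_le_add h1 ?_)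
          rw [← sum_filter, sum_const, nsmul_eq_mul]
          refine mul_le_mul_of_nonneg_right ?_ (by positivity)
          have : ((Icc 1 N).filter (fun a => a < n₀)).card ≤ n₀ := by
            calc ((Icc 1 N).filter (fun a => a < n₀)).card ≤ (range n₀).card := by
                  refine card_le_card fun x hx => ?_
                  rw [mem_filter] at hx
                  rw [mem_range]
                  exact hx.2
              _ = n₀ := card_range _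
          exact_mod_cast this
      _ = (K + ε / 4) * H * N + H * ‖F‖ + n₀ * (H * ‖F‖) := by ring
  have h8 : (H : ℝ) * ‖∑ n ∈ Icc 1 N, g n‖ ≤ H * ((K + ε) * N) := by
    rw [h3]
    refine h2.trans ?_
    simp only [h4]
    have h9 := hN₁.trans (by exact_mod_cast (by omega : N₁ ≤ N) : (N₁ : ℝ) ≤ N)
    rw [div_le_iff₀ (by positivity)] at h9
    have h10 := mul_le_mul_of_nonneg_left h9 hH0.le
    push_cast at h7 h10 ⊢
    have h11 : 0 ≤ ‖F‖ := norm_nonneg _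
    have h12 : (0 : ℝ) ≤ H * (ε * N) := by positivity
    nlinarith
  exact le_of_mul_le_mul_left h8 hH0

end Pool.Agent.Q259.LU
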