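import Pool.Agent.Q259.LU.Crit
import Pool.Agent.Q259.LU.Edge

set_option autoImplicit false

/-!
# Signs against functions of polynomials on one block
-/

namespace Pool.Agent.Q259.LU

open Finset MeasureTheory Pool.Agent.H332R2.Lit Polynomial

/-- the polynomial `P(a + m X)` -/
noncomputable def dil (P : ℝ[X]) (a m : ℕ) : ℝ[X] := (taylor (a : ℝ) P).comp (C (m : ℝ) * X)

lemma dil_eval (P : ℝ[X]) (a m j : ℕ) : (dil P a m).eval (j : ℝ) = P.eval ((a + m * j : ℕ) : ℝ) := by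
  rw [dil, eval_comp, taylor_eval]
  congr 1
  simp only [eval_mul, eval_C, eval_X]
  push_cast
  ring

lemma dil_deg (P : ℝ[X]) (a m n : ℕ) (hP : P.natDegree ≤ n) : (dil P a m).natDegree ≤ n := by
  rw [dil]
  refine (natDegree_comp_le).trans ?_
  have h1 : (C (m : ℝ) * X : ℝ[X]).natDegree ≤ 1 := (natDegree_C_mul_le _ _).trans natDegree_X_le
  rw [natDegree_taylor]
  calc P.natDegree * (C (m : ℝ) * X : ℝ[X]).natDegree ≤ P.natDegree * 1 := Nat.mul_le_mul_left _ h1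
    _ ≤ n := by omega

lemma taylor_top (P : ℝ[X]) (a : ℝ) (n : ℕ) (hP : P.natDegree ≤ n) : (taylor a P).coeff n = P.coeff n := by
  rw [taylor_coeff]
  have h2 := natDegree_hasseDeriv_le P n
  rw [eval_eq_sum_range' (n := 1) (by omega)]
  simp [hasseDeriv_coeff]

lemma dil_coeff (P : ℝ[X]) (a m n : ℕ) (hP : P.natDegree ≤ n) : (dil P a m).coeff n = P.coeff n * (m : ℝ) ^ n := by
  rw [dil, comp_C_mul_X_coeff, taylor_top P a n hP]

/-- the claim for polynomials of degree at most `k` -/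
def Claim (F : C(UnitAddCircle, ℂ)) (κ : ℝ) (M k : ℕ) : Prop :=
  ∀ ε : ℝ, 0 < ε → ∃ Q : ℕ, 1 ≤ Q ∧ ∃ C : ℝ, 0 ≤ C ∧ ∀ L : ℕ, 1 ≤ L → ∃ B₀ : ℕ, 1 ≤ B₀ ∧ ∀ B, B₀ ≤ B →
    ∀ P : ℝ[X], P.natDegree ≤ k → ∀ (u w : ℕ → ℝ), (∀ n, |u n| ≤ w n) → (∀ n, w n ≤ 1) → (∀ n, w (n + M) = w n) →
    ‖∑ h ∈ range B, (u h : ℂ) * F ((P.eval (h : ℝ) : ℝ) : UnitAddCircle)‖ ≤
      κ * ∑ h ∈ range B, w h + ε * B + C * (GG u B L Q / L)

lemma claim_zero (F : C(UnitAddCircle, ℂ)) (κ : ℝ) (hκ : 0 ≤ κ) (M : ℕ) : Claim F κ M 0 := by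
  intro ε hε
  refine ⟨1, le_rfl, ‖F‖, norm_nonneg _, fun L hL => ?_⟩
  obtain ⟨B₀, hB₀⟩ := exists_nat_ge (‖F‖ * (2 * L) / ε)
  refine ⟨B₀ + 1, by omega, fun B hB P hP u w huw hw1 _ => ?_⟩
  have hu1 : ∀ n, |u n| ≤ 1 := fun n => (huw n).trans (hw1 n)
  have hw0 : ∀ n, 0 ≤ w n := fun n => (abs_nonneg _).trans (huw n)
  have hPc : ∀ x : ℝ, P.eval x = P.coeff 0 := by
    intro x
    conv_lhs => rw [eq_C_of_natDegree_le_zero hP]
    rw [eval_C]
  have h1 : ∑ h ∈ range B, (u h : ℂ) * F ((P.eval (h : ℝ) : ℝ) : UnitAddCircle) =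
      ((∑ h ∈ range B, u h : ℝ) : ℂ) * F ((P.coeff 0 : ℝ) : UnitAddCircle) := by
    simp only [hPc]
    rw [← sum_mul]
    push_cast
    rfl
  rw [h1, norm_mul, Complex.norm_real, Real.norm_eq_abs]
  have h2 := sum_small u hu1 B L hL
  have h3 := F.norm_coe_le_norm ((P.coeff 0 : ℝ) : UnitAddCircle)
  have h4 : 0 ≤ κ * ∑ h ∈ range B, w h := mul_nonneg hκ (sum_nonneg fun h _ => hw0 h)
  have h5 : ‖F‖ * (2 * L) ≤ ε * B := by
    have h6 : ‖F‖ * (2 * L) / ε ≤ B := hB₀.trans (by exact_mod_cast (by omega : B₀ ≤ B))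
    rw [div_le_iff₀ hε] at h6
    linarith
  calc |∑ h ∈ range B, u h| * ‖F ((P.coeff 0 : ℝ) : UnitAddCircle)‖
      ≤ (GG u B L 1 / L + 2 * L) * ‖F‖ := mul_le_mul h2 h3 (norm_nonneg _)
        (add_nonneg (div_nonneg (GG_nonneg _ _ _ _) (Nat.cast_nonneg _)) (by positivity))
    _ ≤ κ * ∑ h ∈ range B, w h + ε * B + ‖F‖ * (GG u B L 1 / L) := by linarith

lemma exists_phase (z : ℂ) : ∃ ω : ℂ, ‖ω‖ = 1 ∧ (ω * z).re = ‖z‖ := by
  by_cases hz : z = 0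
  · exact ⟨1, norm_one, by simp [hz]⟩
  · have hz0 : ‖z‖ ≠ 0 := norm_ne_zero_iff.mpr hz
    refine ⟨(starRingEnd ℂ) z / ‖z‖, ?_, ?_⟩
    · rw [norm_div, RCLike.norm_conj, Complex.norm_real, norm_norm, div_self hz0]
    · rw [div_mul_eq_mul_div, ← Complex.normSq_eq_conj_mul_self, Complex.normSq_eq_norm_sq,
        ← Complex.ofReal_div, Complex.ofReal_re, sq, mul_div_assoc, div_self hz0, mul_one]

/-- weighted sums over a block, split into residue classes -/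
lemma class_sum (w v : ℕ → ℝ) (M B : ℕ) (hM : 1 ≤ M) (hw0 : ∀ n, 0 ≤ w n) (hw1 : ∀ n, w n ≤ 1)
    (hwM : ∀ n, w (n + M) = w n) (hv0 : ∀ n, 0 ≤ v n) (C κ : ℝ) (hκ : 0 ≤ κ) (hvC : ∀ n, v n ≤ C)
    (hr : ∀ r, r < M → ∑ i ∈ range (B / M), v (r + M * i) ≤ κ * ((B / M : ℕ) : ℝ)) :
    ∑ h ∈ range B, w h * v h ≤ κ * ∑ h ∈ range B, w h + M * C := by
  have hC : 0 ≤ C := (hv0 0).trans (hvC 0)
  have hper : ∀ r i, w (r + M * i) = w r := by
    intro r i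
    induction i with
    | zero => simp
    | succ i ih => rw [Nat.mul_succ, ← add_assoc, hwM, ih]
  set B' := B / M with hB'
  have hBd : B = M * B' + B % M := (Nat.div_add_mod B M).symm
  have hmod : B % M < M := Nat.mod_lt _ hM
  have h1 : ∀ f : ℕ → ℝ, ∑ h ∈ range B, f h = ∑ h ∈ range (M * B'), f h +
      ∑ r ∈ range (B % M), f (M * B' + r) := by
    intro f
    conv_lhs => rw [hBd]
    rw [sum_range_add (n := M * B')]
  have h2 : ∑ r ∈ range (B % M), w (M * B' + r) * v (M * B' + r) ≤ M * C := by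
    calc ∑ r ∈ range (B % M), w (M * B' + r) * v (M * B' + r) ≤ ∑ _r ∈ range (B % M), C := by
          refine sum_le_sum fun r _ => ?_
          calc w (M * B' + r) * v (M * B' + r) ≤ 1 * C :=
                mul_le_mul (hw1 _) (hvC _) (hv0 _) zero_le_one
            _ = C := one_mul _
      _ = (B % M : ℕ) * C := by rw [sum_const, card_range, nsmul_eq_mul]
      _ ≤ M * C := mul_le_mul_of_nonneg_right (by exact_mod_cast hmod.le) hC
  have h3 : ∑ h ∈ range (M * B'), w h * v h ≤ κ * ∑ h ∈ range (M * B'), w h := by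
    rw [split (fun h => w h * v h), split w, mul_sum]
    refine sum_le_sum fun r hr' => ?_
    rw [mem_range] at hr'
    simp only [hper]
    rw [← mul_sum, sum_const, card_range, nsmul_eq_mul]
    have := mul_le_mul_of_nonneg_left (hr r hr') (hw0 r)
    linarith
  have h4 : 0 ≤ ∑ r ∈ range (B % M), w (M * B' + r) := sum_nonneg fun r _ => hw0 _
  rw [h1 (fun h => w h * v h), h1 w]
  have h5 : 0 ≤ κ * ∑ r ∈ range (B % M), w (M * B' + r) := mul_nonneg hκ h4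
  linarith

/-- the equidistributed case -/
lemma case_one (F : C(UnitAddCircle, ℂ)) (c : ℂ) (κ : ℝ) (hκ : 0 ≤ κ) (M B L : ℕ) (hM : 1 ≤ M) (hL : 1 ≤ L)
    (u w : ℕ → ℝ) (huw : ∀ n, |u n| ≤ w n) (hw1 : ∀ n, w n ≤ 1) (hwM : ∀ n, w (n + M) = w n) (p : ℕ → ℝ)
    (hcr : ∀ ω : ℂ, ‖ω‖ = 1 → ∀ r, r < M → ∑ i ∈ range (B / M),
      |(ω * (F ((p (r + M * i) : ℝ) : UnitAddCircle) - c)).re| ≤ κ * ((B / M : ℕ) : ℝ)) :
    ‖∑ h ∈ range B, (u h : ℂ) * F ((p h : ℝ) : UnitAddCircle)‖ ≤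
      κ * ∑ h ∈ range B, w h + M * (‖F‖ + ‖c‖) + ‖c‖ * (2 * L) + ‖c‖ * (GG u B L 1 / L) := by
  have hu1 : ∀ n, |u n| ≤ 1 := fun n => (huw n).trans (hw1 n)
  have hw0 : ∀ n, 0 ≤ w n := fun n => (abs_nonneg _).trans (huw n)
  have h1 : ∑ h ∈ range B, (u h : ℂ) * F ((p h : ℝ) : UnitAddCircle) =
      ∑ h ∈ range B, (u h : ℂ) * (F ((p h : ℝ) : UnitAddCircle) - c) + ((∑ h ∈ range B, u h : ℝ) : ℂ) * c := by
    push_cast
    rw [sum_mul, ← sum_add_distrib]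
    refine sum_congr rfl fun h _ => ?_
    ring
  rw [h1]
  refine (norm_add_le _ _).trans ?_
  have h2 : ‖((∑ h ∈ range B, u h : ℝ) : ℂ) * c‖ ≤ ‖c‖ * (2 * L) + ‖c‖ * (GG u B L 1 / L) := by
    rw [norm_mul, Complex.norm_real, Real.norm_eq_abs]
    have := mul_le_mul_of_nonneg_right (sum_small u hu1 B L hL) (norm_nonneg c)
    linarith
  obtain ⟨ω, hω, hωz⟩ := exists_phase (∑ h ∈ range B, (u h : ℂ) * (F ((p h : ℝ) : UnitAddCircle) - c))
  have h3 : ‖∑ h ∈ range B, (u h : ℂ) * (F ((p h : ℝ) : UnitAddCircle) - c)‖ ≤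
      ∑ h ∈ range B, w h * |(ω * (F ((p h : ℝ) : UnitAddCircle) - c)).re| := by
    rw [← hωz, mul_sum, Complex.re_sum]
    refine sum_le_sum fun h _ => ?_
    have e1 : ω * ((u h : ℂ) * (F ((p h : ℝ) : UnitAddCircle) - c)) =
        (u h : ℂ) * (ω * (F ((p h : ℝ) : UnitAddCircle) - c)) := by ring
    rw [e1, Complex.re_ofReal_mul]
    refine (le_abs_self _).trans ?_
    rw [abs_mul]
    exact mul_le_mul_of_nonneg_right (huw h) (abs_nonneg _)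
  have h4 := class_sum w (fun h => |(ω * (F ((p h : ℝ) : UnitAddCircle) - c)).re|) M B hM hw0 hw1 hwM
    (fun _ => abs_nonneg _) (‖F‖ + ‖c‖) κ hκ (fun n => by
      refine (Complex.abs_re_le_norm _).trans ?_
      rw [norm_mul, hω, one_mul]
      refine (norm_sub_le _ _).trans ?_
      have := F.norm_coe_le_norm ((p n : ℝ) : UnitAddCircle)
      linarith) (hcr ω hω)
  linarith

end Pool.Agent.Q259.LU
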