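import Pool.Agent.Q259.LU.Cyd

set_option autoImplicit false

/-!
# Moments of the correlations in one window
-/

namespace Pool.Agent.Q259.LU

open Finset Pool.Agent.H332R2.Lit

lemma rel_base (d M : ℕ) (δ : ℝ) (G : Finset ℕ) (σ θ : ℕ → ℝ) (hσ : ∀ i, 0 ≤ σ i) (hσ1 : ∑ ξ ∈ G, σ ξ ≤ 1)
    (n : ℕ → ℤ) (hn : ∀ ξ ∈ G, |(d : ℝ) * M * θ ξ - n ξ| ≤ δ) :
    Rel d M δ (cc G σ θ) (fun t => ∑ ξ ∈ G, ((σ ξ : ℝ) : ℂ) * e ((t : ℝ) * n ξ / M)) := by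
  refine ⟨G, inferInstance, fun i => σ i, fun i => θ i, fun i => n i, fun i => hσ _, ?_, ?_, ?_, fun i => hn i i.2⟩
  · rw [sum_coe_sort G σ]
    exact hσ1
  · intro s
    unfold cc
    rw [sum_coe_sort G (fun i => (σ i : ℂ) * e (s * θ i))]
  · intro t
    rw [sum_coe_sort G (fun i => (σ i : ℂ) * e ((t : ℝ) * n i / M))]

/-- large arcs and good frequencies -/
lemma arcs (I : Finset ℕ) (σ θ : ℕ → ℝ) (hσ : ∀ i, 0 ≤ σ i) (hσ1 : ∑ ξ ∈ I, σ ξ ≤ 1) (hθ0 : ∀ i ∈ I, 0 ≤ θ i)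
    (hθ1 : ∀ i ∈ I, θ i < 1) (J : ℕ) (hJ : 1 ≤ J) (Sa M₁ n : ℕ) (hSa : 1 ≤ Sa) (hn : 1 ≤ n) (δ : ℝ)
    (h1 : 1 / (n : ℝ) ≤ δ / 2) (h2 : ((n ^ J * (M₁ * n ^ J) : ℕ) : ℝ) / Sa ≤ δ / 2) (hM₁ : 1 ≤ M₁) :
    ∃ d q : ℕ, 1 ≤ d ∧ d ≤ n ^ J ∧ 1 ≤ q ∧ q ≤ n ^ J ∧ ∃ G : Finset ℕ, G ⊆ I ∧
      (∀ i, ∑ ξ ∈ (I \ G).filter (fun ξ => ⌊(Sa : ℝ) * θ ξ⌋₊ = i), σ ξ ≤ 1 / J) ∧
      (∀ ξ ∈ G, ∃ r : ℤ, |(d : ℝ) * θ ξ - r| ≤ δ) ∧
      ∀ ξ ∈ G, ∃ m : ℤ, |(d : ℝ) * (M₁ * q : ℕ) * θ ξ - m| ≤ δ := by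
  classical
  have hSa0 : (0 : ℝ) < Sa := by exact_mod_cast hSa
  have hJ0 : (0 : ℝ) < J := by exact_mod_cast hJ
  set arc : ℕ → ℕ := fun ξ => ⌊(Sa : ℝ) * θ ξ⌋₊ with harc
  set mass : ℕ → ℝ := fun i => ∑ ξ ∈ I.filter (fun ξ => arc ξ = i), σ ξ with hmass
  have hmaps : ∀ ξ ∈ I, arc ξ ∈ range Sa := by
    intro ξ hξ
    rw [mem_range]
    simp only [harc]
    rw [Nat.floor_lt (mul_nonneg hSa0.le (hθ0 ξ hξ))]
    nlinarith [hθ1 ξ hξ]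
  have hmtot : ∑ i ∈ range Sa, mass i ≤ 1 := by
    simp only [hmass]
    rw [sum_fiberwise_of_maps_to hmaps]
    exact hσ1
  set LL := (range Sa).filter (fun i => 1 / (J : ℝ) ≤ mass i) with hLL
  have hLc : LL.card ≤ J := by
    have a1 : (LL.card : ℝ) * (1 / J) ≤ 1 := by
      calc (LL.card : ℝ) * (1 / J) = ∑ _i ∈ LL, 1 / (J : ℝ) := by rw [sum_const, nsmul_eq_mul]
        _ ≤ ∑ i ∈ LL, mass i := sum_le_sum fun i hi => (mem_filter.mp hi).2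
        _ ≤ ∑ i ∈ range Sa, mass i :=
            sum_le_sum_of_subset_of_nonneg (filter_subset _ _) fun i _ _ => sum_nonneg fun ξ _ => hσ ξ
        _ ≤ 1 := hmtot
    rw [mul_one_div, div_le_one hJ0] at a1
    exact_mod_cast a1
  obtain ⟨d, hd1, hd2, hd3⟩ := dirichlet LL (fun i => (i : ℝ) / Sa) n hn
  obtain ⟨q, hq1, hq2, hq3⟩ := dirichlet LL (fun i => (d : ℝ) * M₁ * ((i : ℝ) / Sa)) n hn
  have hpow : n ^ LL.card ≤ n ^ J := Nat.pow_le_pow_right hn hLc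
  have hdJ : d ≤ n ^ J := hd2.trans hpow
  have hqJ : q ≤ n ^ J := hq2.trans hpow
  refine ⟨d, q, hd1, hdJ, hq1, hqJ, I.filter (fun ξ => arc ξ ∈ LL), filter_subset _ _, ?_, ?_, ?_⟩
  · intro i
    by_cases hi : 1 / (J : ℝ) ≤ mass i
    · have : (I \ I.filter (fun ξ => arc ξ ∈ LL)).filter (fun ξ => ⌊(Sa : ℝ) * θ ξ⌋₊ = i) = ∅ := by
        rw [filter_eq_empty_iff]
        intro ξ hξ hc
        rw [mem_sdiff, mem_filter] at hξ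
        apply hξ.2
        refine ⟨hξ.1, ?_⟩
        have hc' : arc ξ = i := hc
        rw [hLL, mem_filter, hc']
        exact ⟨hc' ▸ hmaps ξ hξ.1, hi⟩
      rw [this, sum_empty]
      positivity
    · push Not at hi
      refine le_trans ?_ hi.le
      refine sum_le_sum_of_subset_of_nonneg ?_ fun ξ _ _ => hσ ξ
      intro ξ hξ
      rw [mem_filter, mem_sdiff] at hξ
      rw [mem_filter]
      exact ⟨hξ.1.1, hξ.2⟩
  · intro ξ hξ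
    rw [mem_filter] at hξ
    obtain ⟨r, hr⟩ := hd3 (arc ξ) hξ.2
    refine ⟨r, ?_⟩
    have a3 := Nat.floor_le (mul_nonneg hSa0.le (hθ0 ξ hξ.1))
    have a4 := Nat.lt_floor_add_one ((Sa : ℝ) * θ ξ)
    have a5 : |θ ξ - (arc ξ : ℝ) / Sa| ≤ 1 / Sa := by
      have : θ ξ - (arc ξ : ℝ) / Sa = (Sa * θ ξ - arc ξ) / Sa := by field_simp
      rw [this, abs_div, abs_of_pos hSa0]
      refine div_le_div_of_nonneg_right ?_ hSa0.le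
      rw [abs_le]
      simp only [harc]
      constructor <;> linarith
    have e1 : (d : ℝ) * θ ξ - r = ((d : ℝ) * ((arc ξ : ℝ) / Sa) - r) + d * (θ ξ - (arc ξ : ℝ) / Sa) := by ring
    rw [e1]
    refine (abs_add_le _ _).trans ?_
    have e2 : |(d : ℝ) * (θ ξ - (arc ξ : ℝ) / Sa)| ≤ δ / 2 := by
      rw [abs_mul, abs_of_nonneg (Nat.cast_nonneg d)]
      refine le_trans (mul_le_mul_of_nonneg_left a5 (Nat.cast_nonneg d)) (le_trans ?_ h2)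
      rw [mul_one_div]
      refine div_le_div_of_nonneg_right ?_ hSa0.le
      have : d ≤ n ^ J * (M₁ * n ^ J) := by
        calc d ≤ n ^ J := hdJ
          _ ≤ n ^ J * (M₁ * n ^ J) := Nat.le_mul_of_pos_right _ (by positivity)
      exact_mod_cast this
    linarith
  · intro ξ hξ
    rw [mem_filter] at hξ
    obtain ⟨m, hm⟩ := hq3 (arc ξ) hξ.2
    refine ⟨m, ?_⟩
    have a3 := Nat.floor_le (mul_nonneg hSa0.le (hθ0 ξ hξ.1))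
    have a4 := Nat.lt_floor_add_one ((Sa : ℝ) * θ ξ)
    have a5 : |θ ξ - (arc ξ : ℝ) / Sa| ≤ 1 / Sa := by
      have : θ ξ - (arc ξ : ℝ) / Sa = (Sa * θ ξ - arc ξ) / Sa := by field_simp
      rw [this, abs_div, abs_of_pos hSa0]
      refine div_le_div_of_nonneg_right ?_ hSa0.le
      rw [abs_le]
      simp only [harc]
      constructor <;> linarith
    have e1 : (d : ℝ) * (M₁ * q : ℕ) * θ ξ - m = ((q : ℝ) * ((d : ℝ) * M₁ * ((arc ξ : ℝ) / Sa)) - m) +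
        (d * (M₁ * q : ℕ) : ℝ) * (θ ξ - (arc ξ : ℝ) / Sa) := by push_cast; ring
    rw [e1]
    refine (abs_add_le _ _).trans ?_
    have e2 : |(d * (M₁ * q : ℕ) : ℝ) * (θ ξ - (arc ξ : ℝ) / Sa)| ≤ δ / 2 := by
      rw [abs_mul, abs_of_nonneg (by positivity : (0 : ℝ) ≤ d * (M₁ * q : ℕ))]
      refine le_trans (mul_le_mul_of_nonneg_left a5 (by positivity)) (le_trans ?_ h2)
      rw [mul_one_div]
      refine div_le_div_of_nonneg_right ?_ hSa0.le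
      have : d * (M₁ * q) ≤ n ^ J * (M₁ * n ^ J) := Nat.mul_le_mul hdJ (Nat.mul_le_mul_left _ hqJ)
      exact_mod_cast this
    linarith

lemma prod_ge (x y : ℝ) (hx0 : 0 ≤ x) (hx1 : x ≤ 1) (hy0 : 0 ≤ y) (hy1 : y ≤ 1) (k : ℕ) :
    1 - 2 * k * (1 - x) - 2 * k * (1 - y) ≤ x ^ (2 * k) * y ^ (2 * k) := by
  have h1 := one_add_mul_le_pow (a := x - 1) (by linarith) (2 * k)
  have h2 := one_add_mul_le_pow (a := y - 1) (by linarith) (2 * k)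
  rw [add_sub_cancel] at h1 h2
  push_cast at h1 h2
  have h3 : x ^ (2 * k) ≤ 1 := pow_le_one₀ hx0 hx1
  have h4 : y ^ (2 * k) ≤ 1 := pow_le_one₀ hy0 hy1
  nlinarith [mul_nonneg (sub_nonneg.mpr h3) (sub_nonneg.mpr h4)]

theorem winA (k : ℕ) (hk : 1 ≤ k) (a : ℕ → ℝ) (ℓ W R : ℕ) (hW : 1 ≤ W) (hR : 1 ≤ R) (hRW : R ≤ W)
    (ha : ∀ x, x < ℓ → a x = 0) (ha' : ∀ x, W ≤ x → a x = 0) (ha1 : ∀ x, |a x| ≤ 1)
    (ha2 : ∑ x ∈ range W, a x ^ 2 ≤ R) (J : ℕ) (hJ : 1 ≤ J) (Sa M₁ n S h : ℕ) (hSa : 1 ≤ Sa) (hn : 1 ≤ n) (hM₁ : 1 ≤ M₁)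
    (hh : 1 ≤ h) (δ : ℝ) (hδ : 0 ≤ δ) (h1 : 1 / (n : ℝ) ≤ δ / 2)
    (h2 : ((n ^ J * (M₁ * n ^ J) : ℕ) : ℝ) / Sa ≤ δ / 2) (hSS : Sa ≤ S)
    (hdiv : ∀ d q : ℕ, 1 ≤ d → d ≤ n ^ J → 1 ≤ q → q ≤ n ^ J → d * (M₁ * q) ∣ S)
    (hℓ : n ^ J * (M₁ * n ^ J) ≤ ℓ) (ε₁ : ℝ) (hε1 : ε₁ ≤ 1) (hε0 : 0 ≤ ε₁)
    (hε : 4 * Real.pi * δ + 4 * Real.pi * h * (δ + δ) ≤ ε₁) :
    ∃ d q : ℕ, 1 ≤ d ∧ d ≤ n ^ J ∧ 1 ≤ q ∧ q ≤ n ^ J ∧
      TT S k (cc (range W) (sg a W R) (fun ξ => (ξ : ℝ) / W)) ≤ 1 / (2 * k + 1) + 4 * k / h +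
        4 * k * ((∑ m ∈ range W, ((∑ x ∈ range (M₁ * q), a (m + d * x)) / (M₁ * q : ℕ)) ^ 2) / W) +
        2 * k * ε₁ + 2 * k * (1 - R / W) + 4 * Real.pi * k * δ + 2 * k * Real.sqrt (10 * (1 / J)) := by
  have hW0 : (0 : ℝ) < W := by exact_mod_cast hW
  have hR0 : (0 : ℝ) < R := by exact_mod_cast hR
  have hh0 : (0 : ℝ) < h := by exact_mod_cast hh
  have hS1 : 1 ≤ S := hSa.trans hSS
  have hσ0 := sg_nonneg a W R
  have hσ1 := sg_sum a W R hW hR ha2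
  have hθ0 : ∀ ξ ∈ range W, 0 ≤ (ξ : ℝ) / W := fun ξ _ => by positivity
  have hθ1 : ∀ ξ ∈ range W, (ξ : ℝ) / W < 1 := by
    intro ξ hξ
    rw [mem_range] at hξ
    rw [div_lt_one hW0]
    exact_mod_cast hξ
  obtain ⟨d, q, hd1, hd2, hq1, hq2, G, hGI, hbad, hr, hm⟩ := arcs (range W) (sg a W R) (fun ξ => (ξ : ℝ) / W) hσ0 hσ1
    hθ0 hθ1 J hJ Sa M₁ n hSa hn δ h1 h2 hM₁
  refine ⟨d, q, hd1, hd2, hq1, hq2, ?_⟩
  set M := M₁ * q with hM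
  have hM1 : 1 ≤ M := Nat.mul_pos hM₁ hq1
  have hM0 : (0 : ℝ) < M := by exact_mod_cast hM1
  classical
  choose! nn hnn using hm
  have hG1 : ∑ ξ ∈ G, sg a W R ξ ≤ 1 :=
    (sum_le_sum_of_subset_of_nonneg hGI fun i _ _ => hσ0 i).trans hσ1
  have hA := stepA (range W) (sg a W R) (fun ξ => (ξ : ℝ) / W) hσ0 hσ1 hθ0 hθ1 Sa S hSa hSS (1 / J) (by positivity)
    G hGI hbad k
  have hrel := (rel_base d M δ G (sg a W R) (fun ξ => (ξ : ℝ) / W) hσ0 hG1 nn hnn).abs k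
  have hcmp := hrel.cmp (by positivity) hd1 hM1 S hS1 (hdiv d q hd1 hd2 hq1 hq2)
  set B : ℕ → ℂ := fun t => ∑ ξ ∈ G, ((sg a W R ξ : ℝ) : ℂ) * e ((t : ℝ) * nn ξ / M) with hB
  have hT : TT S k (cc G (sg a W R) (fun ξ => (ξ : ℝ) / W)) ≤ (∑ t ∈ range M, ‖B t‖ ^ (2 * k)) / M +
      2 * Real.pi * (k * (δ + δ)) := by
    unfold TT
    simpa only [Complex.ofReal_re] using hcmp
  have hdM : d * M ≤ ℓ := by
    refine le_trans ?_ hℓ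
    exact Nat.mul_le_mul hd2 (Nat.mul_le_mul_left _ hq2)
  have hsur := survive a ℓ W R hW hR ha ha' ha1 d M h hM1 hh hdM G hGI nn δ δ hnn hr ε₁ hε1 hε k
  have hB1 : ∀ t, ‖B t‖ ≤ 1 := by
    intro t
    simp only [hB]
    refine (norm_sum_le _ _).trans (le_trans (le_of_eq (sum_congr rfl fun ξ _ => ?_)) hG1)
    rw [norm_mul, norm_e, mul_one, Complex.norm_real, Real.norm_eq_abs, abs_of_nonneg (hσ0 ξ)]
  set E := (∑ t ∈ range M, ‖B t‖ ^ (2 * k)) / M with hE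
  have hE0 : 0 ≤ E := by rw [hE]; positivity
  have hE1 : E ≤ 1 := by
    rw [hE, div_le_one hM0]
    calc ∑ t ∈ range M, ‖B t‖ ^ (2 * k) ≤ ∑ _t ∈ range M, (1 : ℝ) :=
          sum_le_sum fun t _ => pow_le_one₀ (norm_nonneg _) (hB1 t)
      _ = M := by simp
  set Z := (∑ m ∈ range W, ∑ t ∈ range M, Am a d M h m t ^ (2 * k)) / W / M with hZ
  have hEZ : (1 - ε₁) ^ (2 * k) * ((R : ℝ) / W) ^ (2 * k) * E ≤ Z := by
    rw [hE, hZ, ← mul_div_assoc]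
    exact div_le_div_of_nonneg_right hsur hM0.le
  have hpg := prod_ge (1 - ε₁) ((R : ℝ) / W) (by linarith) (by linarith) (by positivity)
    (by rw [div_le_one hW0]; exact_mod_cast hRW) k
  have hEZ2 : E ≤ Z + 2 * k * ε₁ + 2 * k * (1 - R / W) := by
    have e1 : (1 - 2 * k * (1 - (1 - ε₁)) - 2 * k * (1 - (R : ℝ) / W)) * E ≤
        (1 - ε₁) ^ (2 * k) * ((R : ℝ) / W) ^ (2 * k) * E := mul_le_mul_of_nonneg_right hpg hE0
    have e2 : 0 ≤ 2 * (k : ℝ) * (1 - (1 - ε₁)) + 2 * k * (1 - (R : ℝ) / W) := by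
      have : (R : ℝ) / W ≤ 1 := by rw [div_le_one hW0]; exact_mod_cast hRW
      have e3 : 0 ≤ 2 * (k : ℝ) * (1 - (1 - ε₁)) := by
        rw [sub_sub_cancel]
        positivity
      have e4 : 0 ≤ 2 * (k : ℝ) * (1 - (R : ℝ) / W) := mul_nonneg (by positivity) (by linarith)
      linarith
    nlinarith
  -- every window
  have hZ2 : Z ≤ 1 / (2 * k + 1) + 4 * k / h +
      4 * k * ((∑ m ∈ range W, ((∑ x ∈ range M, a (m + d * x)) / M) ^ 2) / W) := by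
    have hm1 : ∀ m ∈ range W, (∑ t ∈ range M, Am a d M h m t ^ (2 * k)) / M ≤
        1 / (2 * k + 1) + 4 * k * ((∑ x ∈ range M, a (m + d * x)) / M) ^ 2 + 4 * k / h := by
      intro m _
      have h3 := rnd M hM1 (gm a d M h m) (gm_le a ha1 d M h m hh) (gm_per a d M h m) (2 / h)
        (gm_lip a ha1 d M h m hh) k hk
      rw [gm_sum a d M h m hh] at h3
      have e1 : 2 * (k : ℝ) * (2 / h) = 4 * k / h := by ring
      rw [e1] at h3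
      exact h3
    have e2 : Z = (∑ m ∈ range W, (∑ t ∈ range M, Am a d M h m t ^ (2 * k)) / M) / W := by
      rw [hZ, ← sum_div, div_div, div_div, mul_comm (W : ℝ) (M : ℝ)]
    rw [e2, div_le_iff₀ hW0]
    refine (sum_le_sum hm1).trans (le_of_eq ?_)
    rw [sum_add_distrib, sum_add_distrib, sum_const, sum_const, card_range, nsmul_eq_mul, nsmul_eq_mul, ← mul_sum]
    have e3 : ∀ x y z : ℝ, (W : ℝ) * x + 4 * k * z + W * y = (x + y + 4 * k * (z / W)) * W := by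
      intro x y z
      field_simp
      ring
    exact e3 _ _ _
  have e9 : 2 * Real.pi * (k * (δ + δ)) = 4 * Real.pi * k * δ := by ring
  rw [e9] at hT
  linarith

end Pool.Agent.Q259.LU
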