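import Pool.Agent.Q259.LU.Win

set_option autoImplicit false

/-!
# Moments of the correlations in one window, final form
-/

namespace Pool.Agent.Q259.LU

open Finset Pool.Agent.H332R2.Lit

/-- the truncated window -/
noncomputable def tr (v : ℕ → ℝ) (Y R : ℕ) (x : ℕ) : ℝ := if Y ≤ x ∧ x < Y + R then v (x - Y) else 0

lemma tr_le (v : ℕ → ℝ) (hv : ∀ x, |v x| ≤ 1) (Y R x : ℕ) : |tr v Y R x| ≤ 1 := by
  unfold tr
  split_ifs
  · exact hv _
  · simp

lemma tr_add (v : ℕ → ℝ) (Y R j : ℕ) (hj : j < R) : tr v Y R (Y + j) = v j := by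
  unfold tr
  rw [if_pos (by omega), Nat.add_sub_cancel_left]

lemma card_lt_le (N R : ℕ) (c : ℕ) : ((range R).filter (fun j => R < j + c + N)).card ≤ c + N := by
  have : (range R).filter (fun j => R < j + c + N) ⊆ (range R).filter (fun j => R - (c + N) ≤ j) := by
    intro j hj
    rw [mem_filter, mem_range] at hj ⊢
    exact ⟨hj.1, by omega⟩
  refine (card_le_card this).trans ?_
  have : (range R).filter (fun j => R - (c + N) ≤ j) = Ico (R - (c + N)) R := by
    ext j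
    rw [mem_filter, mem_range, mem_Ico]
    omega
  rw [this, Nat.card_Ico]
  omega

/-- truncation does not change the correlations much -/
lemma tr_corr (v : ℕ → ℝ) (hv : ∀ x, |v x| ≤ 1) (Y R S s s' : ℕ) (hs : s < S) (hs' : s' < S) :
    |∑ j ∈ range R, v (j + s) * v (j + s') - ∑ z ∈ range (Y + R), tr v Y R (z + s) * tr v Y R (z + s')| ≤ 2 * S := by
  set a := tr v Y R with ha
  have haz : ∀ x y, |a x * a y| ≤ 1 := by
    intro x y
    rw [abs_mul]
    exact mul_le_one₀ (tr_le v hv Y R _) (abs_nonneg _) (tr_le v hv Y R _)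
  rw [sum_range_add]
  have h1 : |∑ z ∈ range Y, a (z + s) * a (z + s')| ≤ S := by
    refine (abs_sum_le_sum_abs _ _).trans ?_
    have h2 : ∀ z ∈ range Y, |a (z + s) * a (z + s')| ≤ if Y < z + S + 0 then 1 else 0 := by
      intro z _
      split_ifs with h
      · exact haz _ _
      · have : a (z + s) = 0 := by
          rw [ha]
          unfold tr
          rw [if_neg (by omega)]
        rw [this]
        simp
    refine (sum_le_sum h2).trans ?_
    rw [← sum_filter, sum_const, nsmul_eq_mul, mul_one]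
    have := card_lt_le 0 Y S
    rw [add_zero] at this
    exact_mod_cast this
  have h2 : |∑ j ∈ range R, v (j + s) * v (j + s') - ∑ j ∈ range R, a (Y + j + s) * a (Y + j + s')| ≤ S := by
    rw [← sum_sub_distrib]
    refine (abs_sum_le_sum_abs _ _).trans ?_
    have h2 : ∀ j ∈ range R, |v (j + s) * v (j + s') - a (Y + j + s) * a (Y + j + s')| ≤ if R < j + S + 0 then 1 else 0 := by
      intro j _
      by_cases h3 : j + s < R ∧ j + s' < R
      · rw [show Y + j + s = Y + (j + s) by omega, show Y + j + s' = Y + (j + s') by omega, ha,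
          tr_add v Y R _ h3.1, tr_add v Y R _ h3.2, sub_self, abs_zero]
        split_ifs <;> norm_num
      · have h4 : a (Y + j + s) * a (Y + j + s') = 0 := by
          rw [ha]
          unfold tr
          by_cases h5 : j + s < R
          · rw [if_neg (by omega : ¬ (Y ≤ Y + j + s' ∧ Y + j + s' < Y + R)), mul_zero]
          · rw [if_neg (by omega : ¬ (Y ≤ Y + j + s ∧ Y + j + s < Y + R)), zero_mul]
        rw [h4, sub_zero, if_pos (by omega), abs_mul]
        exact mul_le_one₀ (hv _) (abs_nonneg _) (hv _)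
    refine (sum_le_sum h2).trans ?_
    rw [← sum_filter, sum_const, nsmul_eq_mul, mul_one]
    have := card_lt_le 0 R S
    rw [add_zero] at this
    exact_mod_cast this
  have h3 : ∑ j ∈ range R, v (j + s) * v (j + s') - (∑ z ∈ range Y, a (z + s) * a (z + s') +
      ∑ j ∈ range R, a (Y + j + s) * a (Y + j + s')) =
      (∑ j ∈ range R, v (j + s) * v (j + s') - ∑ j ∈ range R, a (Y + j + s) * a (Y + j + s')) -
      ∑ z ∈ range Y, a (z + s) * a (z + s') := by ring
  rw [h3]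
  refine (abs_sub _ _).trans ?_
  linarith

/-- truncation and the means along progressions -/
lemma tr_mean (v : ℕ → ℝ) (hv : ∀ x, |v x| ≤ 1) (Y R d M P : ℕ) (hM : 1 ≤ M) (hP : d * M ≤ P) :
    ∑ m ∈ range (Y + R), ((∑ x ∈ range M, tr v Y R (m + d * x)) / M) ^ 2 ≤
      ∑ j ∈ range R, |(∑ x ∈ range M, v (j + d * x)) / M| + (Y + P) := by
  have hM0 : (0 : ℝ) < M := by exact_mod_cast hM
  set a := tr v Y R with ha
  have hle : ∀ m, |(∑ x ∈ range M, a (m + d * x)) / M| ≤ 1 := by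
    intro m
    rw [abs_div, abs_of_pos hM0, div_le_one hM0]
    refine (abs_sum_le_sum_abs _ _).trans ((sum_le_sum fun x _ => tr_le v hv Y R _).trans (le_of_eq ?_))
    simp
  have hsq : ∀ m, ((∑ x ∈ range M, a (m + d * x)) / M) ^ 2 ≤ |(∑ x ∈ range M, a (m + d * x)) / M| := by
    intro m
    rw [← sq_abs, sq]
    have := mul_le_mul_of_nonneg_left (hle m) (abs_nonneg ((∑ x ∈ range M, a (m + d * x)) / M))
    linarith
  rw [sum_range_add]
  have h1 : ∑ m ∈ range Y, ((∑ x ∈ range M, a (m + d * x)) / M) ^ 2 ≤ Y := by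
    refine (sum_le_sum fun m _ => (hsq m).trans (hle m)).trans (le_of_eq ?_)
    simp
  have h2 : ∑ j ∈ range R, ((∑ x ∈ range M, a (Y + j + d * x)) / M) ^ 2 ≤
      ∑ j ∈ range R, |(∑ x ∈ range M, v (j + d * x)) / M| + P := by
    have h3 : ∀ j ∈ range R, ((∑ x ∈ range M, a (Y + j + d * x)) / M) ^ 2 ≤
        |(∑ x ∈ range M, v (j + d * x)) / M| + if R < j + P + 0 then 1 else 0 := by
      intro j _
      split_ifs with h
      · have := (hsq (Y + j)).trans (hle (Y + j))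
        have := abs_nonneg ((∑ x ∈ range M, v (j + d * x)) / M)
        linarith
      · rw [add_zero]
        refine (hsq (Y + j)).trans (le_of_eq ?_)
        congr 2
        refine sum_congr rfl fun x hx => ?_
        rw [mem_range] at hx
        rw [show Y + j + d * x = Y + (j + d * x) by omega, ha]
        rcases Nat.eq_zero_or_pos d with hd | hd
        · subst hd
          by_cases hj : j < R
          · exact tr_add v Y R _ (by omega)
          · rename_i hjR
            rw [mem_range] at hjR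
            omega
        · exact tr_add v Y R _ (by
            have : d * x < d * M := Nat.mul_lt_mul_of_pos_left hx hd
            omega)
    refine (sum_le_sum h3).trans ?_
    rw [sum_add_distrib, ← sum_filter, sum_const, nsmul_eq_mul, mul_one]
    have := card_lt_le 0 R P
    rw [add_zero] at this
    have h4 : (((range R).filter (fun j => R < j + P + 0)).card : ℝ) ≤ P := by exact_mod_cast this
    linarith
  linarith

lemma tr_sq (v : ℕ → ℝ) (hv : ∀ x, |v x| ≤ 1) (Y R : ℕ) : ∑ x ∈ range (Y + R), tr v Y R x ^ 2 ≤ R := by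
  rw [sum_range_add]
  have h1 : ∑ x ∈ range Y, tr v Y R x ^ 2 = 0 := by
    refine sum_eq_zero fun x hx => ?_
    rw [mem_range] at hx
    unfold tr
    rw [if_neg (by omega)]
    norm_num
  have h2 : ∑ x ∈ range R, tr v Y R (Y + x) ^ 2 ≤ R := by
    calc ∑ x ∈ range R, tr v Y R (Y + x) ^ 2 ≤ ∑ _x ∈ range R, (1 : ℝ) := by
          refine sum_le_sum fun x _ => ?_
          rw [← sq_abs]
          exact pow_le_one₀ (abs_nonneg _) (tr_le v hv Y R _)
      _ = R := by simp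
  linarith

theorem win (k : ℕ) (hk : 1 ≤ k) (ε : ℝ) (hε0 : 0 < ε) (hε1 : ε ≤ 1) :
    ∃ D : ℕ, 1 ≤ D ∧ ∀ M₁ : ℕ, 1 ≤ M₁ → ∃ S : ℕ, 1 ≤ S ∧ ∃ C₀ : ℝ, 0 ≤ C₀ ∧ ∀ R : ℕ, 1 ≤ R → ∀ v : ℕ → ℝ,
      (∀ x, |v x| ≤ 1) → ∃ d q : ℕ, 1 ≤ d ∧ d ≤ D ∧ 1 ≤ q ∧ q ≤ D ∧
        (∑ s ∈ range S, ∑ s' ∈ range S, ((∑ j ∈ range R, v (j + s) * v (j + s')) / R) ^ (2 * k)) / (S : ℝ) ^ 2 ≤
          1 / (2 * k + 1) + ε + 4 * k * (∑ j ∈ range R, |(∑ x ∈ range (M₁ * q), v (j + d * x)) / (M₁ * q : ℕ)|) / R +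
            C₀ / R := by
  have hk0 : (0 : ℝ) < k := by exact_mod_cast hk
  have hk1 : (1 : ℝ) ≤ k := by exact_mod_cast hk
  obtain ⟨h, hh⟩ := exists_nat_ge (16 * k / ε)
  set h' := h + 1 with hh'
  have hh1 : 4 * (k : ℝ) / h' ≤ ε / 4 := by
    rw [div_le_iff₀ hε0] at hh
    rw [div_le_iff₀ (by rw [hh']; positivity)]
    rw [hh']
    push_cast
    nlinarith
  set ε₁ : ℝ := ε / (8 * k) with hε₁
  have hε₁0 : 0 < ε₁ := by rw [hε₁]; positivity
  have hε₁1 : ε₁ ≤ 1 := by
    rw [hε₁, div_le_one (by positivity)]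
    linarith
  have hε₁k : 2 * (k : ℝ) * ε₁ = ε / 4 := by rw [hε₁]; field_simp; norm_num
  set δ : ℝ := ε₁ / (4 * Real.pi * (1 + 2 * h')) with hδ
  have hπ := Real.pi_pos
  have hh'0 : (0 : ℝ) < h' := by rw [hh']; positivity
  have hδ0 : 0 < δ := by rw [hδ]; positivity
  have hδε : 4 * Real.pi * δ + 4 * Real.pi * h' * (δ + δ) = ε₁ := by
    rw [hδ]
    field_simp
    ring
  have hδk : 4 * Real.pi * k * δ ≤ ε / 8 := by
    have h1 : 4 * Real.pi * δ ≤ ε₁ := by
      have : 0 ≤ 4 * Real.pi * h' * (δ + δ) := by positivity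
      linarith
    have h2 : 4 * Real.pi * k * δ = k * (4 * Real.pi * δ) := by ring
    rw [h2]
    have h3 := mul_le_mul_of_nonneg_left h1 hk0.le
    have h4 : (k : ℝ) * ε₁ = ε / 8 := by rw [hε₁]; field_simp
    linarith
  obtain ⟨J0, hJ0⟩ := exists_nat_ge (10 * (8 * k / ε) ^ 2)
  set J := J0 + 1 with hJ
  have hJr : (0 : ℝ) < J := by rw [hJ]; positivity
  have hJk : 2 * (k : ℝ) * Real.sqrt (10 * (1 / J)) ≤ ε / 4 := by
    have h1 : 10 * (1 / (J : ℝ)) ≤ (ε / (8 * k)) ^ 2 := by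
      rw [mul_one_div, div_le_iff₀ hJr]
      have h2 : 10 * (8 * (k : ℝ) / ε) ^ 2 ≤ J := by
        refine hJ0.trans ?_
        rw [hJ]
        push_cast
        linarith
      have h3 : (ε / (8 * (k : ℝ))) ^ 2 * (10 * (8 * (k : ℝ) / ε) ^ 2) = 10 := by
        field_simp
      calc (10 : ℝ) = (ε / (8 * (k : ℝ))) ^ 2 * (10 * (8 * (k : ℝ) / ε) ^ 2) := h3.symm
        _ ≤ (ε / (8 * (k : ℝ))) ^ 2 * J := mul_le_mul_of_nonneg_left h2 (by positivity)
    have h2 : Real.sqrt (10 * (1 / J)) ≤ ε / (8 * k) := Real.sqrt_le_iff.mpr ⟨by positivity, h1⟩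
    have h3 := mul_le_mul_of_nonneg_left h2 (by positivity : (0 : ℝ) ≤ 2 * k)
    have h4 : 2 * (k : ℝ) * (ε / (8 * k)) = ε / 4 := by field_simp; norm_num
    linarith
  obtain ⟨n0, hn0⟩ := exists_nat_ge (2 / δ)
  set n := n0 + 1 with hn
  have hnr : (0 : ℝ) < n := by rw [hn]; positivity
  have hn1 : 1 / (n : ℝ) ≤ δ / 2 := by
    rw [div_le_iff₀ hnr]
    rw [div_le_iff₀ hδ0] at hn0
    rw [hn]
    push_cast
    nlinarith
  refine ⟨n ^ J, Nat.pos_of_ne_zero (by positivity), fun M₁ hM₁ => ?_⟩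
  set P := n ^ J * (M₁ * n ^ J) with hP
  obtain ⟨Sa0, hSa0⟩ := exists_nat_ge (2 * (P : ℝ) / δ)
  set Sa := Sa0 + 1 with hSa
  have hSar : (0 : ℝ) < Sa := by rw [hSa]; positivity
  have hSa1 : (P : ℝ) / Sa ≤ δ / 2 := by
    rw [div_le_iff₀ hSar]
    rw [div_le_iff₀ hδ0] at hSa0
    rw [hSa]
    push_cast
    nlinarith
  set S := Sa * P.factorial with hS
  have hfac : 1 ≤ P.factorial := Nat.factorial_pos P
  have hSaS : Sa ≤ S := Nat.le_mul_of_pos_right _ hfac
  have hS1 : 1 ≤ S := (by omega : 1 ≤ Sa).trans hSaS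
  set Y := P + S with hY
  set C₀ : ℝ := 4 * k * (Y + P) + 4 * k * S + 2 * k * Y with hC₀
  refine ⟨S, hS1, C₀, by positivity, fun R hR v hv => ?_⟩
  have hR0 : (0 : ℝ) < R := by exact_mod_cast hR
  have hS0 : (0 : ℝ) < S := by exact_mod_cast hS1
  set W := Y + R with hW
  have hW1 : 1 ≤ W := by omega
  have hW0 : (0 : ℝ) < W := by exact_mod_cast hW1
  set a := tr v Y R with ha
  have haz : ∀ x, x < Y → a x = 0 := by
    intro x hx
    rw [ha]
    unfold tr
    rw [if_neg (by omega)]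
  have haz' : ∀ x, W ≤ x → a x = 0 := by
    intro x hx
    rw [ha]
    unfold tr
    rw [if_neg (by omega)]
  obtain ⟨d, q, hd1, hd2, hq1, hq2, hmain⟩ := winA k hk a Y W R hW1 hR (by omega) haz haz' (tr_le v hv Y R)
    (tr_sq v hv Y R) J (by omega) Sa M₁ n S h' (by omega) (by omega) hM₁ (by omega) δ hδ0.le hn1 hSa1 hSaS
    (by
      intro d q hd1 hd2 hq1 hq2
      refine (Nat.dvd_factorial (Nat.mul_pos hd1 (Nat.mul_pos hM₁ hq1)) ?_).mul_left Sa
      exact Nat.mul_le_mul hd2 (Nat.mul_le_mul_left _ hq2))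
    (by omega) ε₁ hε₁1 hε₁0.le hδε.le
  refine ⟨d, q, hd1, hd2, hq1, hq2, ?_⟩
  -- the correlations
  have hcor : (∑ s ∈ range S, ∑ s' ∈ range S, ((∑ j ∈ range R, v (j + s) * v (j + s')) / R) ^ (2 * k)) / (S : ℝ) ^ 2 ≤
      TT S k (cc (range W) (sg a W R) (fun ξ => (ξ : ℝ) / W)) + 4 * k * S / R := by
    unfold TT
    rw [div_add' _ _ _ (by positivity)]
    refine div_le_div_of_nonneg_right ?_ (by positivity)
    have h1 : ∀ s ∈ range S, ∀ s' ∈ range S, ((∑ j ∈ range R, v (j + s) * v (j + s')) / R) ^ (2 * k) ≤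
        ‖cc (range W) (sg a W R) (fun ξ => (ξ : ℝ) / W) ((s' : ℝ) - s)‖ ^ (2 * k) + 4 * k * S / R := by
      intro s hs s' hs'
      rw [mem_range] at hs hs'
      rw [← spec a Y W R hW1 hR haz haz' s s' (by omega) (by omega), Complex.norm_real, Real.norm_eq_abs]
      set X := (∑ j ∈ range R, v (j + s) * v (j + s')) / R with hX
      set Z := (∑ z ∈ range W, a (z + s) * a (z + s')) / R with hZ
      have hX1 : |X| ≤ 1 := by
        rw [hX, abs_div, abs_of_pos hR0, div_le_one hR0]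
        refine (abs_sum_le_sum_abs _ _).trans ((sum_le_sum fun x _ => ?_ : _ ≤ ∑ _x ∈ range R, (1 : ℝ)).trans (le_of_eq ?_))
        · rw [abs_mul]
          exact mul_le_one₀ (hv _) (abs_nonneg _) (hv _)
        · simp
      have hXZ : |X - Z| ≤ 2 * S / R := by
        rw [hX, hZ, ← sub_div, abs_div, abs_of_pos hR0]
        exact div_le_div_of_nonneg_right (tr_corr v hv Y R S s s' hs hs') hR0.le
      have hZ1 : |Z| ≤ 1 := by
        have h2 : ((Z : ℝ) : ℂ) = cc (range W) (sg a W R) (fun ξ => (ξ : ℝ) / W) ((s' : ℝ) - s) :=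
          spec a Y W R hW1 hR haz haz' s s' (by omega) (by omega)
        have h3 := cc_le (range W) (sg a W R) (fun ξ => (ξ : ℝ) / W) (sg_nonneg a W R)
          (sg_sum a W R hW1 hR (tr_sq v hv Y R)) ((s' : ℝ) - s)
        rw [← h2, Complex.norm_real, Real.norm_eq_abs] at h3
        exact h3
      have h4 := pow_sub_le (2 * k) X Z hX1 hZ1
      have h5 := (abs_le.mp h4).2
      have h6 : ((2 * k : ℕ) : ℝ) * |X - Z| ≤ ((2 * k : ℕ) : ℝ) * (2 * S / R) :=
        mul_le_mul_of_nonneg_left hXZ (Nat.cast_nonneg _)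
      rw [(even_two_mul k).pow_abs]
      push_cast at h5 h6
      have h7 : 2 * (k : ℝ) * (2 * S / R) = 4 * k * S / R := by ring
      linarith
    refine (sum_le_sum fun s hs => sum_le_sum fun s' hs' => h1 s hs s' hs').trans (le_of_eq ?_)
    simp only [sum_add_distrib, sum_const, card_range, nsmul_eq_mul]
    ring
  have hmean : (∑ m ∈ range W, ((∑ x ∈ range (M₁ * q), a (m + d * x)) / (M₁ * q : ℕ)) ^ 2) / W ≤
      (∑ j ∈ range R, |(∑ x ∈ range (M₁ * q), v (j + d * x)) / (M₁ * q : ℕ)|) / R + (Y + P) / R := by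
    have h1 := tr_mean v hv Y R d (M₁ * q) P (Nat.mul_pos hM₁ hq1) (Nat.mul_le_mul hd2 (Nat.mul_le_mul_left _ hq2))
    have h2 : 0 ≤ ∑ m ∈ range W, ((∑ x ∈ range (M₁ * q), a (m + d * x)) / (M₁ * q : ℕ)) ^ 2 :=
      sum_nonneg fun m _ => sq_nonneg _
    rw [← add_div]
    calc (∑ m ∈ range W, ((∑ x ∈ range (M₁ * q), a (m + d * x)) / (M₁ * q : ℕ)) ^ 2) / W
        ≤ (∑ m ∈ range W, ((∑ x ∈ range (M₁ * q), a (m + d * x)) / (M₁ * q : ℕ)) ^ 2) / R := by
          refine div_le_div_of_nonneg_left h2 hR0 ?_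
          exact_mod_cast (by omega : R ≤ W)
      _ ≤ _ := div_le_div_of_nonneg_right h1 hR0.le
  have hRW : 2 * (k : ℝ) * (1 - R / W) ≤ 2 * k * Y / R := by
    have h1 : 1 - (R : ℝ) / W = Y / W := by
      rw [hW]
      push_cast
      rw [hW] at hW0
      push_cast at hW0
      field_simp
      ring
    rw [h1]
    have h2 : (Y : ℝ) / W ≤ Y / R := by
      refine div_le_div_of_nonneg_left (by positivity) hR0 ?_
      exact_mod_cast (by omega : R ≤ W)
    have h3 := mul_le_mul_of_nonneg_left h2 (by positivity : (0 : ℝ) ≤ 2 * k)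
    refine h3.trans (le_of_eq ?_)
    ring
  have hm2 := mul_le_mul_of_nonneg_left hmean (by positivity : (0 : ℝ) ≤ 4 * k)
  have hC : C₀ / R = 4 * k * ((Y + P) / R) + 4 * k * S / R + 2 * k * Y / R := by
    rw [hC₀]
    ring
  have hmul : 4 * (k : ℝ) * ((∑ j ∈ range R, |(∑ x ∈ range (M₁ * q), v (j + d * x)) / (M₁ * q : ℕ)|) / R + (Y + P) / R) =
      4 * k * (∑ j ∈ range R, |(∑ x ∈ range (M₁ * q), v (j + d * x)) / (M₁ * q : ℕ)|) / R + 4 * k * ((Y + P) / R) := by
    ring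
  rw [hmul] at hm2
  rw [hC]
  linarith

end Pool.Agent.Q259.LU
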